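import Mathlib

/-!
MP_b6f35e_al, module CAS, part A: algebraically independent `p`-adic integers in given residue
classes.
-/

set_option autoImplicit false

namespace MPb6f35eWH.CAS

open Cardinal

lemma uncountable_padicInt (p : ℕ) [Fact p.Prime] : Uncountable ℤ_[p] := by
  have hopen : IsOpen (Metric.closedBall (0 : ℚ_[p]) 1) := IsUltrametricDist.isOpen_closedBall _ one_ne_zero
  have h := continuum_le_cardinal_of_isOpen (𝕜 := ℚ_[p]) hopen ⟨0, by simp⟩
  have h2 : Cardinal.mk (Metric.closedBall (0 : ℚ_[p]) 1) ≤ Cardinal.mk ℤ_[p] := by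
    refine Cardinal.mk_le_of_injective (f := fun x => (⟨x.1, by
      have := x.2
      rwa [Metric.mem_closedBall, dist_zero_right] at this⟩ : ℤ_[p])) ?_
    intro x y hxy
    exact Subtype.ext (congrArg (fun z : ℤ_[p] => (z : ℚ_[p])) hxy)
  rw [← Cardinal.aleph0_lt_mk_iff]
  exact lt_of_lt_of_le Cardinal.aleph0_lt_continuum (h.trans h2)

/-- For every family of residue classes modulo `p` indexed by a finite type there are algebraically
independent `p`-adic integers in these classes. -/
theorem exists_algebraicIndependent (p : ℕ) [hp : Fact p.Prime] (ι : Type*) [Finite ι] :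
    ∀ t : ι → ℤ_[p], ∃ τ : ι → ℤ_[p], AlgebraicIndependent ℤ τ ∧
      ∀ i, (p : ℤ_[p]) ∣ τ i - t i := by
  induction ι using Finite.induction_empty_option with
  | @of_equiv α β e ih =>
    intro t
    obtain ⟨τ, h1, h2⟩ := ih (t ∘ e)
    refine ⟨τ ∘ e.symm, h1.comp _ e.symm.injective, fun i => ?_⟩
    have := h2 (e.symm i)
    simpa using this
  | h_empty =>
    intro t
    refine ⟨t, ?_, fun i => i.elim⟩
    exact algebraicIndependent_empty_type_iff.mpr (Int.cast_injective)
  | @h_option α _ ih =>
    intro t
    obtain ⟨τ, h1, h2⟩ := ih (fun a => t (some a))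
    have hc : Countable (Algebra.adjoin ℤ (Set.range τ)) := by
      have hm : Cardinal.mk (MvPolynomial α ℤ) ≤ Cardinal.aleph0 := by
        refine (MvPolynomial.cardinalMk_le_max_lift (σ := α) (R := ℤ)).trans ?_
        simp
      have : Countable (MvPolynomial α ℤ) := Cardinal.mk_le_aleph0_iff.mp hm
      exact h1.aevalEquiv.symm.injective.countable
    have hA := Algebraic.countable (Algebra.adjoin ℤ (Set.range τ)) ℤ_[p]
    have hunc := uncountable_padicInt p
    have hinj : Function.Injective (fun y : ℤ_[p] => t none + p * y) := by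
      intro x y hxy
      have h3 : (p : ℤ_[p]) * x = p * y := add_left_cancel hxy
      exact mul_left_cancel₀ (by exact_mod_cast hp.out.ne_zero) h3
    have hex : ∃ y : ℤ_[p], ¬ IsAlgebraic (Algebra.adjoin ℤ (Set.range τ)) (t none + p * y) := by
      by_contra hcon
      push Not at hcon
      have h4 : (Set.univ : Set ℤ_[p]).Countable := by
        have := hA.preimage_of_injOn (f := fun y : ℤ_[p] => t none + p * y) hinj.injOn
        refine this.mono fun y _ => hcon y
      exact (Set.not_countable_univ_iff.mpr hunc) h4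
    obtain ⟨y, hy⟩ := hex
    refine ⟨fun o => o.elim (t none + p * y) τ, (h1.option_iff_transcendental _).mpr hy, ?_⟩
    rintro (_ | i)
    · simp
    · exact h2 i

end MPb6f35eWH.CAS
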