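import Mathlib
import Pool.Agent.Lib.MP_b6f35e_al.WH.CasA
import Pool.Agent.Lib.MP_a24e3f_co.Prime

/-!
MP_b6f35e_al, module CAS, part B: an injective specialisation of `ℤ[u]` into `ℤ_p` for which a
given separable polynomial has a root.
-/

set_option autoImplicit false

namespace MPb6f35eWH.CAS

open Polynomial

theorem core (u : Type*) [Finite u] (f a b : (MvPolynomial u ℤ)[X]) (d : MvPolynomial u ℤ)
    (hd : d ≠ 0) (hlead : f.leadingCoeff = d) (hdeg : 0 < f.natDegree)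
    (hab : a * f + b * derivative f = C (d ^ 2)) (M : ℕ) :
    ∃ (p : ℕ) (_ : Fact p.Prime), M < p ∧ ∃ ψ : MvPolynomial u ℤ →+* ℤ_[p],
      Function.Injective ψ ∧ IsUnit (ψ d) ∧ ∃ z : ℤ_[p], (f.map ψ).eval z = 0 := by
  obtain ⟨t, ht⟩ : ∃ t : u → ℤ, MvPolynomial.eval t d ≠ 0 := by
    by_contra hcon
    push Not at hcon
    exact hd (MvPolynomial.funext fun t => by rw [hcon t, map_zero])
  set e : MvPolynomial u ℤ →+* ℤ := MvPolynomial.eval t with he
  have hlc : e f.leadingCoeff ≠ 0 := by rw [hlead]; exact ht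
  have hdeg' : 0 < (f.map e).natDegree := by
    rw [natDegree_map_of_leadingCoeff_ne_zero e hlc]
    exact hdeg
  obtain ⟨p, hp, hpM, s, hs⟩ := Pool.Agent.Lib.MP_a24e3f_co.exists_prime_dvd_eval (f.map e) hdeg'
    (M + (e d).natAbs)
  have hF : Fact p.Prime := ⟨hp⟩
  obtain ⟨τ, hτ, hτt⟩ := exists_algebraicIndependent p u (fun i => ((t i : ℤ) : ℤ_[p]))
  refine ⟨p, hF, by omega, ?_⟩
  set ψ : MvPolynomial u ℤ →+* ℤ_[p] :=
    (MvPolynomial.aeval τ : MvPolynomial u ℤ →ₐ[ℤ] ℤ_[p]).toRingHom with hψ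
  have hker : ∀ x : ℤ_[p], PadicInt.toZMod x = 0 ↔ (p : ℤ_[p]) ∣ x := by
    intro x
    rw [← RingHom.mem_ker, PadicInt.ker_toZMod, PadicInt.maximalIdeal_eq_span_p,
      Ideal.mem_span_singleton]
  have hcomp : (PadicInt.toZMod (p := p)).comp ψ = (Int.castRingHom (ZMod p)).comp e := by
    apply MvPolynomial.ringHom_ext
    · intro n
      simp
    · intro i
      have h1 := (hker _).mpr (hτt i)
      rw [map_sub, sub_eq_zero] at h1
      have h2 : ψ (MvPolynomial.X i) = τ i := MvPolynomial.aeval_X τ i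
      rw [RingHom.comp_apply, RingHom.comp_apply, h2, h1, he, MvPolynomial.eval_X]
      simp
  have hev : ∀ g : (MvPolynomial u ℤ)[X], PadicInt.toZMod ((g.map ψ).eval ((s : ℤ) : ℤ_[p])) =
      (((g.map e).eval s : ℤ) : ZMod p) := by
    intro g
    rw [eval_map, eval_map, hom_eval₂, hcomp]
    have h2 := hom_eval₂ g e (Int.castRingHom (ZMod p)) s
    rw [eq_intCast] at h2
    rw [h2]
    simp
  have hd0 : (((e d : ℤ)) : ZMod p) ≠ 0 := by
    rw [Ne, ZMod.intCast_zmod_eq_zero_iff_dvd]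
    intro h
    have h2 := Int.le_of_dvd (by positivity) ((dvd_abs _ _).mpr h)
    rw [Int.abs_eq_natAbs] at h2
    omega
  have hunit : ∀ x : ℤ_[p], PadicInt.toZMod x ≠ 0 → IsUnit x := by
    intro x hx
    by_contra hcon
    apply hx
    rw [← RingHom.mem_ker, PadicInt.ker_toZMod, IsLocalRing.mem_maximalIdeal]
    exact hcon
  have hψd : IsUnit (ψ d) := by
    apply hunit
    have := congrArg (fun h => h d) hcomp
    simp only [RingHom.comp_apply] at this
    rw [this]
    exact hd0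
  have hfs : PadicInt.toZMod ((f.map ψ).eval ((s : ℤ) : ℤ_[p])) = 0 := by
    rw [hev, ZMod.intCast_zmod_eq_zero_iff_dvd]
    exact hs
  have hf's : IsUnit ((derivative (f.map ψ)).eval ((s : ℤ) : ℤ_[p])) := by
    apply hunit
    intro hz
    have h1 := congrArg (fun g => PadicInt.toZMod ((g.map ψ).eval ((s : ℤ) : ℤ_[p]))) hab
    simp only [Polynomial.map_add, Polynomial.map_mul, eval_add, eval_mul, map_add, map_mul, hfs,
      mul_zero, zero_add] at h1
    rw [← derivative_map, hz, mul_zero, map_C, eval_C, map_pow, map_pow] at h1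
    have h2 := congrArg (fun h => h d) hcomp
    simp only [RingHom.comp_apply] at h2
    rw [h2] at h1
    exact pow_ne_zero 2 hd0 h1.symm
  have hn1 : ‖(derivative (f.map ψ)).eval ((s : ℤ) : ℤ_[p])‖ = 1 := PadicInt.isUnit_iff.mp hf's
  have hn2 : ‖(f.map ψ).eval ((s : ℤ) : ℤ_[p])‖ < 1 := by
    rw [← PadicInt.mem_nonunits, ← IsLocalRing.mem_maximalIdeal, ← PadicInt.ker_toZMod]
    exact hfs
  obtain ⟨z, hz, -⟩ := hensels_lemma (F := f.map ψ) (a := ((s : ℤ) : ℤ_[p])) (by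
    rw [coe_aeval_eq_eval, hn1]
    simpa using hn2)
  refine ⟨ψ, hτ, hψd, z, ?_⟩
  rw [coe_aeval_eq_eval] at hz
  exact hz

end MPb6f35eWH.CAS
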