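import Mathlib

/-!
MP_b6f35e_al, module CAS, part C: a finite extension of the fraction field, with denominators
cleared.
-/

set_option autoImplicit false

namespace MPb6f35eWH.CAS

open Polynomial

theorem lift_of_dvd {A0 F : Type*} [CommRing A0] [Field F] [Algebra A0 F] (d : A0) (q : F[X])
    (h : ∀ n, ∃ c : A0, algebraMap A0 F c = algebraMap A0 F d * q.coeff n) :
    ∃ Q : A0[X], Q.map (algebraMap A0 F) = C (algebraMap A0 F d) * q := by
  rw [← mem_lifts, lifts_iff_coeff_lifts]
  intro n
  obtain ⟨c, hc⟩ := h n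
  exact ⟨c, by rw [hc, coeff_C_mul]⟩

theorem field_part {A0 F L : Type*} [CommRing A0] [IsDomain A0] [Field F] [Algebra A0 F]
    [IsFractionRing A0 F] [CharZero F] [Field L] [Algebra F L] [FiniteDimensional F L]
    (S : Finset L) :
    ∃ (f a b : A0[X]) (d : A0), d ≠ 0 ∧ f.leadingCoeff = d ∧ 0 < f.natDegree ∧
      a * f + b * derivative f = C (d ^ 2) ∧
      ∀ (p : ℕ) [Fact p.Prime] (ψ : A0 →+* ℤ_[p]), Function.Injective ψ → IsUnit (ψ d) →
        ∀ z : ℤ_[p], (f.map ψ).eval z = 0 → ∃ θ : L →+* ℚ_[p], ∀ x ∈ S, ‖θ x‖ ≤ 1 := by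
  classical
  have hinj : Function.Injective (algebraMap A0 F) := IsFractionRing.injective A0 F
  set pb := Field.powerBasisOfFiniteOfSeparable F L with hpb
  choose g hg using fun x : L => pb.exists_eq_aeval' x
  set f0 := minpoly F pb.gen with hf0
  have hint : IsIntegral F pb.gen := Algebra.IsIntegral.isIntegral _
  have hsep : f0.Separable := (minpoly.irreducible hint).separable
  obtain ⟨a0, b0, hab⟩ := hsep
  -- the finite set of coefficients
  set P : Finset F[X] := {f0, a0, b0} ∪ S.image g with hP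
  set Cf : Finset F := P.biUnion fun q => q.support.image q.coeff with hCf
  obtain ⟨⟨d, hd⟩, hdc⟩ := IsLocalization.exist_integer_multiples_of_finset (nonZeroDivisors A0) Cf
  have hd0 : d ≠ 0 := nonZeroDivisors.ne_zero hd
  have hdF : algebraMap A0 F d ≠ 0 := by
    rw [Ne, IsFractionRing.to_map_eq_zero_iff]
    exact hd0
  have key : ∀ q ∈ P, ∃ Q : A0[X], Q.map (algebraMap A0 F) = C (algebraMap A0 F d) * q := by
    intro q hq
    apply lift_of_dvd
    intro n
    by_cases hn : q.coeff n = 0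
    · exact ⟨0, by rw [hn, map_zero, mul_zero]⟩
    · obtain ⟨c, hc⟩ := hdc (q.coeff n) (by
        rw [hCf, Finset.mem_biUnion]
        exact ⟨q, hq, Finset.mem_image.mpr ⟨n, mem_support_iff.mpr hn, rfl⟩⟩)
      refine ⟨c, ?_⟩
      rw [hc]
      simp [Algebra.smul_def]
  obtain ⟨f, hf⟩ := key f0 (by simp [hP])
  obtain ⟨a, ha⟩ := key a0 (by simp [hP])
  obtain ⟨b, hb⟩ := key b0 (by simp [hP])
  have hmon : f0.Monic := minpoly.monic hint
  have hlc : algebraMap A0 F f.leadingCoeff = algebraMap A0 F d := by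
    rw [← leadingCoeff_map_of_injective hinj, hf, leadingCoeff_mul, leadingCoeff_C,
      hmon.leadingCoeff, mul_one]
  refine ⟨f, a, b, d, hd0, hinj hlc, ?_, ?_, ?_⟩
  · have h1 : (f.map (algebraMap A0 F)).natDegree = f.natDegree :=
      natDegree_map_eq_of_injective hinj f
    rw [← h1, hf, natDegree_C_mul hdF]
    exact minpoly.natDegree_pos hint
  · apply map_injective _ hinj
    rw [Polynomial.map_add, Polynomial.map_mul, Polynomial.map_mul, ← derivative_map, hf, ha, hb,
      derivative_C_mul, map_C, map_pow, C_pow]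
    linear_combination (C (algebraMap A0 F d)) ^ 2 * hab
  · intro p hp ψ hψ hψd z hz
    set ι : ℤ_[p] →+* ℚ_[p] := PadicInt.Coe.ringHom with hι
    have hιinj : Function.Injective ι := Subtype.val_injective
    have hι' : Function.Injective (ι.comp ψ) := hιinj.comp hψ
    set Ψ : F →+* ℚ_[p] := IsFractionRing.lift hι' with hΨ
    have hΨa : ∀ c : A0, Ψ (algebraMap A0 F c) = ι (ψ c) := fun c =>
      IsFractionRing.lift_algebraMap hι' c
    let _ : Algebra F ℚ_[p] := Ψ.toAlgebra
    have hmap : (algebraMap F ℚ_[p]).comp (algebraMap A0 F) = ι.comp ψ := by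
      ext c
      exact hΨa c
    have hev : ∀ (Q : A0[X]) (q : F[X]), Q.map (algebraMap A0 F) = C (algebraMap A0 F d) * q →
        ι ((Q.map ψ).eval z) = ι (ψ d) * aeval (ι z) q := by
      intro Q q h
      have h1 := congrArg (fun r => aeval (ι z) r) h
      simp only [map_mul, aeval_C] at h1
      rw [aeval_def, eval₂_map, hmap, ← hom_eval₂, ← eval_map] at h1
      rw [h1]
      congr 1
      exact hΨa d
    have hψd0 : ι (ψ d) ≠ 0 := by
      rw [Ne, map_eq_zero_iff ι hιinj]
      exact hψd.ne_zero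
    have hnd : ‖ι (ψ d)‖ = 1 := PadicInt.isUnit_iff.mp hψd
    have hroot : aeval (ι z) (minpoly F pb.gen) = 0 := by
      have h1 := hev f f0 hf
      rw [hz, map_zero] at h1
      exact (mul_eq_zero.mp h1.symm).resolve_left hψd0
    refine ⟨(pb.lift (ι z) hroot : L →ₐ[F] ℚ_[p]).toRingHom, fun x hx => ?_⟩
    obtain ⟨G, hG⟩ := key (g x) (by
      rw [hP, Finset.mem_union]
      exact Or.inr (Finset.mem_image_of_mem g hx))
    have h1 := hev G (g x) hG
    have h2 : (pb.lift (ι z) hroot : L →ₐ[F] ℚ_[p]).toRingHom x = aeval (ι z) (g x) := by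
      conv_lhs => rw [hg x]
      exact pb.lift_aeval _ _ _
    rw [h2]
    have h3 := congrArg norm h1
    rw [norm_mul, hnd, one_mul] at h3
    rw [← h3]
    exact ((G.map ψ).eval z).2

end MPb6f35eWH.CAS
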