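import Mathlib
import Pool.Agent.Lib.MP_b6f35e_al.WH.CasB
import Pool.Agent.Lib.MP_b6f35e_al.WH.CasC

/-!
MP_b6f35e_al, module CAS: a finitely generated domain of characteristic zero embeds into `ℤ_p`
for infinitely many `p`.
-/

set_option autoImplicit false

namespace MPb6f35eWH.CAS

open Polynomial

/-- Every finitely generated domain of characteristic zero embeds into the ring of `p`-adic
integers for arbitrarily large primes `p`. -/
theorem exists_padic_embedding {R : Type*} [CommRing R] [IsDomain R] [CharZero R]
    [hft : Algebra.FiniteType ℤ R] (M : ℕ) :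
    ∃ (p : ℕ) (_ : Fact p.Prime), M < p ∧ ∃ f : R →+* ℤ_[p], Function.Injective f := by
  classical
  obtain ⟨S, hS⟩ := hft.out
  have halg : Algebra.IsAlgebraic (Algebra.adjoin ℤ (S : Set R)) R := by
    refine ⟨fun x => ?_⟩
    have hx : x ∈ Algebra.adjoin ℤ (S : Set R) := by rw [hS]; exact Algebra.mem_top
    exact isAlgebraic_algebraMap (⟨x, hx⟩ : Algebra.adjoin ℤ (S : Set R))
  obtain ⟨u, hu, hbas⟩ := exists_isTranscendenceBasis_subset (R := ℤ) (A := R) (S : Set R)
  have hfin : Finite u := (S.finite_toSet.subset hu).to_subtype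
  let A0 := MvPolynomial u ℤ
  let φ : A0 →ₐ[ℤ] R := MvPolynomial.aeval ((↑) : u → R)
  have hφ : Function.Injective φ := hbas.1
  let _ : Algebra A0 R := φ.toRingHom.toAlgebra
  have hFS : FaithfulSMul A0 R := (faithfulSMul_iff_algebraMap_injective A0 R).mpr hφ
  have hRalg : Algebra.IsAlgebraic A0 R := by
    have h1 : Algebra.IsAlgebraic (Algebra.adjoin ℤ (Set.range ((↑) : u → R))) R :=
      hbas.isAlgebraic
    refine ⟨fun x => ?_⟩
    refine IsAlgebraic.of_ringHom_of_comp_eq (S := Algebra.adjoin ℤ (Set.range ((↑) : u → R)))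
      (f := (hbas.1.aevalEquiv : A0 ≃ₐ[ℤ] _)) (g := RingHom.id R) (h1.isAlgebraic x)
      hbas.1.aevalEquiv.surjective Function.injective_id ?_
    ext q
    · simp
    · rfl
  let K := FractionRing R
  have hFSK : FaithfulSMul A0 K := by
    rw [faithfulSMul_iff_algebraMap_injective, IsScalarTower.algebraMap_eq A0 R K]
    exact (FaithfulSMul.algebraMap_injective R K).comp hφ
  let F := FractionRing A0
  let _ : Algebra F K := FractionRing.liftAlgebra A0 K
  have hKalg : Algebra.IsAlgebraic F K := by
    have h1 : Algebra.IsAlgebraic A0 K := (IsFractionRing.isAlgebraic_iff' A0 R K).mp hRalg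
    exact (IsFractionRing.comap_isAlgebraic_iff (A := A0) (K := F) (C := K)).mp h1
  let T : Set K := algebraMap R K '' (S : Set R)
  have hT : T.Finite := S.finite_toSet.image _
  let L : IntermediateField F K := IntermediateField.adjoin F T
  have hLfin : FiniteDimensional F L := by
    have : Finite T := hT.to_subtype
    exact IntermediateField.finiteDimensional_adjoin fun x _ => Algebra.IsIntegral.isIntegral x
  have hmem : ∀ r : R, algebraMap R K r ∈ L := by
    intro r
    have hr : r ∈ Algebra.adjoin ℤ (S : Set R) := by rw [hS]; exact Algebra.mem_top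
    induction hr using Algebra.adjoin_induction with
    | mem x hx => exact IntermediateField.subset_adjoin F T ⟨x, hx, rfl⟩
    | algebraMap n =>
      rw [eq_intCast, map_intCast]
      exact intCast_mem L n
    | add x y _ _ hx hy => rw [map_add]; exact add_mem hx hy
    | mul x y _ _ hx hy => rw [map_mul]; exact mul_mem hx hy
  let j : R →+* L := (algebraMap R K).codRestrict L hmem
  have hj : Function.Injective j := by
    intro x y hxy
    exact FaithfulSMul.algebraMap_injective R K (congrArg Subtype.val hxy)
  have hCZ : CharZero F := by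
    have : CharZero A0 := inferInstance
    exact charZero_of_injective_algebraMap (IsFractionRing.injective A0 F)
  obtain ⟨f, a, b, d, hd, hlead, hdeg, hab, hall⟩ := field_part (A0 := A0) (F := F) (L := L)
    (S.image j)
  obtain ⟨p, hp, hM, ψ, hψ, hψd, z, hz⟩ := core u f a b d hd hlead hdeg hab M
  obtain ⟨θ, hθ⟩ := hall p ψ hψ hψd z hz
  have hle : ∀ r : R, ‖θ (j r)‖ ≤ 1 := by
    intro r
    have hr : r ∈ Algebra.adjoin ℤ (S : Set R) := by rw [hS]; exact Algebra.mem_top
    induction hr using Algebra.adjoin_induction with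
    | mem x hx => exact hθ (j x) (Finset.mem_image_of_mem j hx)
    | algebraMap n =>
      rw [eq_intCast, map_intCast, map_intCast]
      exact Padic.norm_int_le_one n
    | add x y _ _ hx hy =>
      rw [map_add, map_add]
      exact (Padic.nonarchimedean _ _).trans (max_le hx hy)
    | mul x y _ _ hx hy =>
      rw [map_mul, map_mul, norm_mul]
      exact mul_le_one₀ hx (norm_nonneg _) hy
  refine ⟨p, hp, hM, ?_⟩
  let g : R →+* ℤ_[p] :=
    { toFun := fun r => ⟨θ (j r), hle r⟩
      map_one' := Subtype.ext ((θ.comp j).map_one)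
      map_mul' := fun x y => Subtype.ext ((θ.comp j).map_mul x y)
      map_zero' := Subtype.ext ((θ.comp j).map_zero)
      map_add' := fun x y => Subtype.ext ((θ.comp j).map_add x y) }
  refine ⟨g, fun x y hxy => hj (θ.injective ?_)⟩
  exact congrArg Subtype.val hxy

/-- The subring generated by finitely many elements of a domain of characteristic zero embeds
into the ring of `p`-adic integers for arbitrarily large primes `p`. -/
theorem exists_padic_embedding_adjoin {R : Type*} [CommRing R] [IsDomain R] [CharZero R]
    (S : Finset R) (M : ℕ) :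
    ∃ (p : ℕ) (_ : Fact p.Prime), M < p ∧ ∃ f : Algebra.adjoin ℤ (S : Set R) →+* ℤ_[p],
      Function.Injective f := by
  have h0 : CharZero (Algebra.adjoin ℤ (S : Set R)) := inferInstance
  have h1 : Algebra.FiniteType ℤ (Algebra.adjoin ℤ (S : Set R)) :=
    (Subalgebra.fg_iff_finiteType _).mp ⟨S, rfl⟩
  exact exists_padic_embedding M

end MPb6f35eWH.CAS
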