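import Pool.Agent.Lib.MP_b6f35e_al.WH.DSC
import Pool.Agent.Lib.MP_b6f35e_al.WH.CasD

/-!
# Module F2 of WH (hive 30, MP_b6f35e_al): assembly
-/

set_option autoImplicit false

noncomputable section

namespace Pool.Agent.Lib.MPb6f35e.WH

universe u v w

namespace F2

theorem unit_mul {A : Type u} [Ring A] (a b : Aˣ) :
    K1.unit (a * b) = K1.unit a + K1.unit b := by
  unfold K1.unit
  rw [← K1.cls_mul]
  congr 1
  apply Units.ext
  ext i j
  fin_cases i; fin_cases j
  simp [oneByOne, Matrix.mul_apply]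

theorem unit_one {A : Type u} [Ring A] : K1.unit (1 : Aˣ) = 0 := by
  have h := unit_mul (1 : Aˣ) 1
  rw [mul_one] at h
  exact left_eq_add.mp h

theorem unit_pow {A : Type u} [Ring A] (a : Aˣ) (m : ℕ) : K1.unit (a ^ m) = m • K1.unit a := by
  induction m with
  | zero => rw [pow_zero, unit_one, zero_smul]
  | succ m ih => rw [pow_succ, unit_mul, ih, succ_nsmul]

theorem unit_inv {A : Type u} [Ring A] (a : Aˣ) : K1.unit a⁻¹ = -K1.unit a := by
  have h := unit_mul a a⁻¹
  rw [mul_inv_cancel, unit_one] at h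
  exact (neg_eq_of_add_eq_zero_right h.symm).symm

theorem map_comp {A B C : Type*} [Ring A] [Ring B] [Ring C] (f : A →+* B) (g : B →+* C) :
    K1.map (g.comp f) = (K1.map g).comp (K1.map f) := by
  apply K1.ext
  intro n u
  rw [AddMonoidHom.comp_apply, K1.map_cls, K1.map_cls, K1.map_cls]
  rfl

theorem map_map {A B C : Type*} [Ring A] [Ring B] [Ring C] (f : A →+* B) (g : B →+* C) (x : K1 A) :
    K1.map g (K1.map f x) = K1.map (g.comp f) x := by
  rw [map_comp]; rfl

section Colim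

variable {R : Type u} [CommRing R] {G : Type v} [Group G]

open Classical in
theorem ofSub_rel (H K : FinSub G) (g : G) (h : ∀ x ∈ H.1, g * x * g⁻¹ ∈ K.1)
    (a : K1 (MonoidAlgebra R H.1)) :
    ColimK1.ofSub K (K1.map (MonoidAlgebra.mapDomainRingHom R (conjHom g H.1 K.1 h)) a) =
      ColimK1.ofSub H a := by
  have := (QuotientAddGroup.eq_zero_iff (N := AddSubgroup.closure (ColimRel R G))
    (DirectSum.of (fun H : FinSub G => K1 (MonoidAlgebra R H.1)) K
        (K1.map (MonoidAlgebra.mapDomainRingHom R (conjHom g H.1 K.1 h)) a)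
      - DirectSum.of (fun H : FinSub G => K1 (MonoidAlgebra R H.1)) H a)).2
      (AddSubgroup.subset_closure ⟨H, K, g, h, a, rfl⟩)
  rw [QuotientAddGroup.mk_sub, sub_eq_zero] at this
  exact this

open Classical in
theorem assembly_ofSub (H : FinSub G) (a : K1 (MonoidAlgebra R H.1)) :
    assembly R G (ColimK1.ofSub H a) = K1.map (MonoidAlgebra.mapDomainRingHom R H.1.subtype) a := by
  have h1 : assembly R G (ColimK1.ofSub H a) = assemblyDS R G
      (DirectSum.of (fun H : FinSub G => K1 (MonoidAlgebra R H.1)) H a) := rfl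
  rw [h1, assemblyDS, DirectSum.toAddMonoid_of]

open Classical in
/-- Induction on the colimit. -/
theorem colim_induction (P : ColimK1 R G → Prop) (h0 : P 0)
    (hof : ∀ H a, P (ColimK1.ofSub H a)) (hadd : ∀ x y, P x → P y → P (x + y))
    (x : ColimK1 R G) : P x := by
  obtain ⟨d, rfl⟩ := QuotientAddGroup.mk_surjective x
  induction d using DirectSum.induction_on with
  | zero => exact h0
  | of H a => exact hof H a
  | add x y hx hy => exact hadd _ _ hx hy

open Classical in
/-- Change of coefficients. -/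
def mapR {S : Type w} [CommRing S] (f : R →+* S) (G : Type v) [Group G] :
    ColimK1 R G →+ ColimK1 S G :=
  QuotientAddGroup.lift (AddSubgroup.closure (ColimRel R G))
    (DirectSum.toAddMonoid fun H : FinSub G =>
      (ColimK1.ofSub H).comp (K1.map (MonoidAlgebra.mapRingHom H.1 f)))
    (by
      intro x hx
      have : AddSubgroup.closure (ColimRel R G) ≤ (DirectSum.toAddMonoid fun H : FinSub G =>
          ((ColimK1.ofSub H).comp (K1.map (MonoidAlgebra.mapRingHom H.1 f)) :
            K1 (MonoidAlgebra R H.1) →+ ColimK1 S G)).ker := by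
        rw [AddSubgroup.closure_le]
        rintro y ⟨H, K, g, h, a, rfl⟩
        show _ = _
        rw [map_sub, DirectSum.toAddMonoid_of, DirectSum.toAddMonoid_of, sub_eq_zero,
          AddMonoidHom.comp_apply, AddMonoidHom.comp_apply, ← ofSub_rel H K g h]
        congr 1
        rw [map_map, map_map]
        congr 2
        ext x <;> simp [MonoidAlgebra.mapRingHom]
      exact this hx)

theorem mapR_ofSub {S : Type w} [CommRing S] (f : R →+* S) (H : FinSub G)
    (a : K1 (MonoidAlgebra R H.1)) :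
    mapR f G (ColimK1.ofSub H a) = ColimK1.ofSub H (K1.map (MonoidAlgebra.mapRingHom H.1 f) a) := by
  classical
  have h1 : mapR f G (ColimK1.ofSub H a) = (DirectSum.toAddMonoid fun H : FinSub G =>
      (ColimK1.ofSub H).comp (K1.map (MonoidAlgebra.mapRingHom H.1 f)))
      (DirectSum.of (fun H : FinSub G => K1 (MonoidAlgebra R H.1)) H a) := rfl
  rw [h1, DirectSum.toAddMonoid_of]
  rfl

end Colim

section Gen

variable (R : Type u) [CommRing R] (G : Type v) [Group G]

/-- The classes in the colimit of units of group rings of finite cyclic subgroups. -/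
def cycSet : Set (ColimK1 R G) :=
  {z | ∃ C : FinSub G, IsCyclic C.1 ∧ ∃ y : (MonoidAlgebra R C.1)ˣ,
    z = ColimK1.ofSub C (K1.unit y)}

/-- The elements with a positive multiple in the subgroup generated by `cycSet`. -/
def rad : AddSubgroup (ColimK1 R G) where
  carrier := {x | ∃ m : ℕ, 0 < m ∧ m • x ∈ AddSubgroup.closure (cycSet R G)}
  zero_mem' := ⟨1, one_pos, by rw [smul_zero]; exact zero_mem _⟩
  add_mem' := by
    rintro x y ⟨m, hm, hx⟩ ⟨n, hn, hy⟩
    refine ⟨m * n, Nat.mul_pos hm hn, ?_⟩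
    rw [smul_add]
    refine add_mem ?_ ?_
    · rw [mul_comm, mul_smul]; exact nsmul_mem hx n
    · rw [mul_smul]; exact nsmul_mem hy m
  neg_mem' := by
    rintro x ⟨m, hm, hx⟩
    exact ⟨m, hm, by rw [smul_neg]; exact neg_mem hx⟩

variable {R G}

theorem mem_rad_of_nsmul {m : ℕ} (hm : 0 < m) {x : ColimK1 R G} (h : m • x ∈ rad R G) :
    x ∈ rad R G := by
  obtain ⟨n, hn, h⟩ := h
  exact ⟨n * m, Nat.mul_pos hn hm, by rw [mul_smul]; exact h⟩

theorem sub_cyc (H : FinSub G) (C : Subgroup H.1) (hC : IsCyclic C) (u : (MonoidAlgebra R C)ˣ) :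
    ColimK1.ofSub H (K1.map (MonoidAlgebra.mapDomainRingHom R C.subtype) (K1.unit u)) ∈
      AddSubgroup.closure (cycSet R G) := by
  haveI := H.2
  let K₀ : Subgroup G := C.map H.1.subtype
  let e : C ≃* K₀ := C.equivMapOfInjective H.1.subtype H.1.subtype_injective
  haveI : Finite K₀ := Finite.of_equiv C e.toEquiv
  let K : FinSub G := ⟨K₀, inferInstance⟩
  have hK : IsCyclic K.1 := isCyclic_of_surjective e.toMonoidHom e.surjective
  have hle : ∀ x ∈ K.1, 1 * x * (1 : G)⁻¹ ∈ H.1 := by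
    intro x hx
    obtain ⟨y, hy, rfl⟩ := hx
    simp
  have h1 := ofSub_rel (R := R) K H 1 hle
    (K1.unit (Units.map (MonoidAlgebra.mapDomainRingHom R e.toMonoidHom).toMonoidHom u))
  have h2 : K1.map (MonoidAlgebra.mapDomainRingHom R (conjHom 1 K.1 H.1 hle))
      (K1.unit (Units.map (MonoidAlgebra.mapDomainRingHom R e.toMonoidHom).toMonoidHom u)) =
      K1.map (MonoidAlgebra.mapDomainRingHom R C.subtype) (K1.unit u) := by
    rw [Desc.map_unit, Desc.map_unit]
    congr 1
    apply Units.ext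
    show MonoidAlgebra.mapDomainRingHom R (conjHom 1 K.1 H.1 hle)
      (MonoidAlgebra.mapDomainRingHom R e.toMonoidHom (u : MonoidAlgebra R C)) =
      MonoidAlgebra.mapDomainRingHom R C.subtype (u : MonoidAlgebra R C)
    rw [← RingHom.comp_apply, ← MonoidAlgebra.mapDomainRingHom_comp]
    congr 2
    ext x
    simp [conjHom, e]
    exact Subgroup.coe_equivMapOfInjective_apply C _ _ x
  rw [← h2, h1]
  exact AddSubgroup.subset_closure ⟨K, hK, _, rfl⟩

theorem all_rad (hSR : SpecSR.{u, v}) (hER : SpecER.{u, v}) [FinQuot R] (x : ColimK1 R G) :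
    x ∈ rad R G := by
  induction x using colim_induction with
  | h0 => exact zero_mem _
  | hadd x y hx hy => exact add_mem hx hy
  | hof H a =>
    haveI := H.2
    obtain ⟨m, hm, k, C, hC, y, hy⟩ := hSR R H.1 a
    apply mem_rad_of_nsmul hm
    rw [← map_nsmul, hy, map_sum]
    refine sum_mem (fun i _ => ?_)
    haveI := hC i
    letI : CommGroup (C i) := IsCyclic.commGroup
    obtain ⟨n, hn, u, hu⟩ := hER R (C i) (y i)
    apply mem_rad_of_nsmul hn
    rw [← map_nsmul, ← map_nsmul]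
    rw [hu]
    exact ⟨1, one_pos, by rw [one_smul]; exact sub_cyc H (C i) (hC i) u⟩

open Pointwise in
theorem cycSet_neg : - cycSet R G ⊆ cycSet R G := by
  intro x hx
  obtain ⟨C, hC, y, hy⟩ := hx
  refine ⟨C, hC, y⁻¹, ?_⟩
  rw [unit_inv, map_neg, ← hy, neg_neg]

theorem gen (hSR : SpecSR.{u, v}) (hER : SpecER.{u, v}) [FinQuot R] (x : ColimK1 R G) :
    ∃ (m : ℕ) (_ : 0 < m) (k : ℕ) (C : Fin k → FinSub G) (_ : ∀ j, IsCyclic (C j).1)
      (y : ∀ j, (MonoidAlgebra R (C j).1)ˣ),
      m • x = ∑ j, ColimK1.ofSub (C j) (K1.unit (y j)) := by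
  obtain ⟨m, hm, h⟩ := all_rad hSR hER x
  refine ⟨m, hm, ?_⟩
  have h1 : m • x ∈ AddSubmonoid.closure (cycSet R G) := by
    have h2 : m • x ∈ (AddSubgroup.closure (cycSet R G)).toAddSubmonoid := h
    rw [AddSubgroup.closure_toAddSubmonoid] at h2
    refine AddSubmonoid.closure_mono ?_ h2
    exact Set.union_subset le_rfl cycSet_neg
  obtain ⟨l, hl, hs⟩ := AddSubmonoid.exists_list_of_mem_closure h1
  choose C hC y hy using fun j : Fin l.length => hl (l.get j) (List.get_mem l j)
  refine ⟨l.length, C, hC, y, ?_⟩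
  rw [← hs, ← List.sum_ofFn]
  congr 1
  conv_lhs => rw [← List.ofFn_get l]
  congr 1
  funext j
  exact hy j

end Gen

section ModP

variable (p : ℕ) [Fact p.Prime]

theorem oneModP_mul {C : Type v} [Group C] {x y : MonoidAlgebra ℤ_[p] C} (hx : OneModP p x)
    (hy : OneModP p y) : OneModP p (x * y) := by
  obtain ⟨a, rfl⟩ := hx
  obtain ⟨b, rfl⟩ := hy
  refine ⟨a + b + (p : ℤ_[p]) • (a * b), ?_⟩
  simp only [smul_add, mul_add, add_mul, one_mul, mul_one, smul_mul_assoc, mul_smul_comm]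
  abel

theorem oneModP_pow {C : Type v} [Group C] {x : MonoidAlgebra ℤ_[p] C} (hx : OneModP p x)
    (n : ℕ) : OneModP p (x ^ n) := by
  induction n with
  | zero => exact ⟨0, by simp⟩
  | succ n ih => rw [pow_succ]; exact oneModP_mul p ih hx

theorem finite_ma {k C : Type*} [CommRing k] [Finite k] [Finite C] :
    Finite (MonoidAlgebra k C) := by
  haveI : Finite (C →₀ k) := Finite.of_injective (fun f : C →₀ k => (f : C → k))
    DFunLike.coe_injective
  exact Finite.of_injective (fun x : MonoidAlgebra k C => x.coeff) (fun x y h => by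
    ext c; exact congrArg (fun f : C →₀ k => f c) h)

theorem exists_pow {C : Type v} [Group C] [Finite C] (x : (MonoidAlgebra ℤ_[p] C)ˣ) :
    ∃ M : ℕ, 0 < M ∧ OneModP p ((x : MonoidAlgebra ℤ_[p] C) ^ M) := by
  haveI : NeZero p := ⟨(Fact.out : p.Prime).ne_zero⟩
  haveI : Finite (MonoidAlgebra (ZMod p) C) := finite_ma
  haveI : Finite (MonoidAlgebra (ZMod p) C)ˣ := inferInstance
  let q := MonoidAlgebra.mapRingHom C (PadicInt.toZMod (p := p))
  refine ⟨Nat.card (MonoidAlgebra (ZMod p) C)ˣ, Nat.card_pos, ?_⟩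
  set M := Nat.card (MonoidAlgebra (ZMod p) C)ˣ
  have h1 : (Units.map q.toMonoidHom x) ^ M = 1 := pow_card_eq_one'
  have h2 : q ((x : MonoidAlgebra ℤ_[p] C) ^ M - 1) = 0 := by
    rw [map_sub, map_pow, map_one, sub_eq_zero]
    exact congrArg (fun u : (MonoidAlgebra (ZMod p) C)ˣ => (u : MonoidAlgebra (ZMod p) C)) h1
  have h3 : ∀ c, ∃ b : ℤ_[p], ((x : MonoidAlgebra ℤ_[p] C) ^ M - 1).coeff c = p * b := by
    intro c
    have h4 := congrArg (fun z : MonoidAlgebra (ZMod p) C => z.coeff c) h2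
    simp only [q, MonoidAlgebra.coeff_mapRingHom] at h4
    have h5 : ((x : MonoidAlgebra ℤ_[p] C) ^ M - 1).coeff c ∈ RingHom.ker (PadicInt.toZMod (p := p)) :=
      h4
    rw [PadicInt.ker_toZMod, PadicInt.maximalIdeal_eq_span_p, Ideal.mem_span_singleton] at h5
    exact h5
  choose b hb using h3
  refine ⟨MonoidAlgebra.ofCoeff (Finsupp.equivFunOnFinite.symm b), ?_⟩
  rw [← sub_eq_iff_eq_add']
  ext c
  rw [hb]
  simp

end ModP

theorem toWh_sum {R : Type u} [CommRing R] {G : Type v} [Group G] {k : ℕ} (C : Fin k → FinSub G)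
    (y : ∀ j, (MonoidAlgebra R (C j).1)ˣ) :
    toWh R G (∑ j, ColimK1.ofSub (C j) (K1.unit (y j))) =
      QuotientAddGroup.mk' (trivialUnits R G) (∑ j, K1.unit (Units.map
        (MonoidAlgebra.mapDomainRingHom R (C j).1.subtype).toMonoidHom (y j))) := by
  have e : assembly R G (∑ j, ColimK1.ofSub (C j) (K1.unit (y j))) =
      ∑ j, K1.unit (Units.map
        (MonoidAlgebra.mapDomainRingHom R (C j).1.subtype).toMonoidHom (y j)) := by
    rw [map_sum]
    refine Finset.sum_congr rfl (fun j _ => ?_)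
    rw [assembly_ofSub, Desc.map_unit]
  rw [← e]
  rfl

theorem fin_of_nsmul {A : Type*} [AddCommGroup A] {x : A} {m : ℕ} (hm : 0 < m)
    (h : IsOfFinAddOrder (m • x)) : IsOfFinAddOrder x := by
  obtain ⟨n, hn, h⟩ := isOfFinAddOrder_iff_nsmul_eq_zero.1 h
  exact isOfFinAddOrder_iff_nsmul_eq_zero.2 ⟨n * m, Nat.mul_pos hn hm, by rw [mul_smul]; exact h⟩

end F2

open F2 Desc in
theorem specF2_of (hSR : SpecSR.{u, v}) (hER : SpecER.{u, v}) (hCAS : SpecCAS.{u})
    (hDSC : SpecDSC.{u, v}) (hL3 : SpecL3P.{v}) (hF1 : SpecF1.{u, v}) : SpecF2.{u, v} := by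
  intro R _ _ G _ x hx
  haveI := FinQuot.dom (R := R)
  haveI := FinQuot.char0 (R := R)
  obtain ⟨m, hm, k, C, hC, y, hy⟩ := gen hSR hER x
  haveI : ∀ j, Finite (C j).1 := fun j => (C j).2
  letI : ∀ j, Fintype (C j).1 := fun j => Fintype.ofFinite _
  have h1 : IsOfFinAddOrder (QuotientAddGroup.mk' (trivialUnits R G)
      (∑ j, K1.unit (Units.map (MonoidAlgebra.mapDomainRingHom R
        (C j).1.subtype).toMonoidHom (y j))) : Wh R G) := by
    rw [← toWh_sum, ← hy, map_nsmul]
    exact hx.nsmul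
  obtain ⟨S, z, hz, hz'⟩ := hDSC R G k (fun j => (C j).1) (fun j => (C j).1.subtype) y h1
  obtain ⟨p, hp, i, hp2, hi⟩ := hCAS R S 2
  have hp2' : p ≠ 2 := by omega
  choose M hM hM' using fun j => exists_pow p
    (Units.map (MonoidAlgebra.mapRingHom (C j).1 i).toMonoidHom (z j))
  let N := ∏ j, M j
  have hN : 0 < N := Finset.prod_pos (fun j _ => hM j)
  have hone : ∀ j, OneModP p (MonoidAlgebra.mapRingHom (C j).1 i
      ((z j ^ N : (MonoidAlgebra (Adj R S) (C j).1)ˣ) : MonoidAlgebra (Adj R S) (C j).1)) := by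
    intro j
    obtain ⟨q, hq⟩ : M j ∣ N := Finset.dvd_prod_of_mem M (Finset.mem_univ j)
    have : MonoidAlgebra.mapRingHom (C j).1 i
      ((z j ^ N : (MonoidAlgebra (Adj R S) (C j).1)ˣ) : MonoidAlgebra (Adj R S) (C j).1) =
      ((MonoidAlgebra.mapRingHom (C j).1 i (z j : MonoidAlgebra (Adj R S) (C j).1)) ^ M j) ^ q := by
      rw [Units.val_pow_eq_pow_val, map_pow, hq, pow_mul]
    rw [this]
    exact oneModP_pow p (hM' j) q
  have h4 : IsOfFinAddOrder (QuotientAddGroup.mk' (trivialUnits ℤ_[p] G)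
      (∑ j, K1.unit (Units.map (MonoidAlgebra.mapDomainRingHom ℤ_[p] (C j).1.subtype).toMonoidHom
        (Units.map (MonoidAlgebra.mapRingHom (C j).1 i).toMonoidHom (z j ^ N)))) :
        Wh ℤ_[p] G) := by
    obtain ⟨n, hn, h⟩ := isOfFinAddOrder_iff_nsmul_eq_zero.1 hz'
    refine isOfFinAddOrder_iff_nsmul_eq_zero.2 ⟨n, hn, ?_⟩
    rw [← map_nsmul, QuotientAddGroup.mk'_apply, QuotientAddGroup.eq_zero_iff] at h ⊢
    rw [← map_trivialUnits i G]
    have e1 : ∀ j, K1.unit (Units.map (MonoidAlgebra.mapDomainRingHom ℤ_[p]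
        (C j).1.subtype).toMonoidHom
        (Units.map (MonoidAlgebra.mapRingHom (C j).1 i).toMonoidHom (z j ^ N))) =
        K1.map (MonoidAlgebra.mapRingHom G i) (N • K1.unit (Units.map
          (MonoidAlgebra.mapDomainRingHom (Adj R S) (C j).1.subtype).toMonoidHom (z j))) := by
      intro j
      rw [← F2.unit_pow, Desc.map_unit]
      congr 1
      apply Units.ext
      rw [← map_pow]
      exact (mapRing_mapDomain i (C j).1.subtype _).symm
    rw [Finset.sum_congr rfl (fun j _ => e1 j), ← map_sum, ← Finset.smul_sum, ← map_nsmul]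
    refine AddSubgroup.mem_map_of_mem _ ?_
    rw [smul_comm]
    exact nsmul_mem h N
  letI : ∀ j, CommGroup (C j).1 := fun j => @IsCyclic.commGroup _ _ (hC j)
  have h3 := hL3 p hp2' G k (fun j => (C j).1) (fun j => (C j).1.subtype)
    (fun j => Units.map (MonoidAlgebra.mapRingHom (C j).1 i).toMonoidHom (z j ^ N)) hone h4
  have h5 := hF1 p hp2' (Adj R S) i hi G k C hC (fun j => z j ^ N) hone h3
  have h6 : IsOfFinAddOrder (mapR (adjVal R S) G
      (∑ j, ColimK1.ofSub (R := Adj R S) (C j) (K1.unit (z j ^ N)))) :=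
    AddMonoidHom.isOfFinAddOrder _ h5
  have h7 : mapR (adjVal R S) G (∑ j, ColimK1.ofSub (R := Adj R S) (C j) (K1.unit (z j ^ N))) =
      (N * m) • x := by
    rw [mul_smul, hy, map_sum, Finset.smul_sum]
    refine Finset.sum_congr rfl (fun j _ => ?_)
    rw [mapR_ofSub, Desc.map_unit, map_pow, F2.unit_pow, map_nsmul]
    congr 3
    exact hz j
  rw [h7] at h6
  exact fin_of_nsmul (Nat.mul_pos hN hm) h6

end Pool.Agent.Lib.MPb6f35e.WH
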