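import Pool.Agent.Lib.MP_b6f35e_al.WH.Spec

/-!
# Specification of the modules of WH for general coefficient domains (hive 30, MP_b6f35e_al)

`R` is a commutative domain of characteristic zero all of whose proper quotients `R/(a)` are finite:
every field of characteristic zero, `ℤ`, rings of `S`-integers and orders of number fields.
-/

set_option autoImplicit false

noncomputable section

namespace Pool.Agent.Lib.MPb6f35e.WH

universe u v w

/-- Commutative domains of characteristic zero with `R/(a)` finite for all `a ≠ 0`. -/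
class FinQuot (R : Type u) [CommRing R] : Prop where
  dom : IsDomain R
  char0 : CharZero R
  fin : ∀ a : R, a ≠ 0 → Finite (R ⧸ Ideal.span {a})

/-- `x = 1 mod p` in `ℤ_p[C]`. -/
def OneModP (p : ℕ) [Fact p.Prime] {C : Type v} [Group C] (x : MonoidAlgebra ℤ_[p] C) : Prop :=
  ∃ a : MonoidAlgebra ℤ_[p] C, x = 1 + (p : ℤ_[p]) • a

/-- The sequence `(x^(p^j) - 1)/p^j`, coefficient at `c`. -/
def lgSeqP (p : ℕ) [Fact p.Prime] {C : Type v} [Group C] (x : MonoidAlgebra ℤ_[p] C) (c : C)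
    (j : ℕ) : ℚ_[p] :=
  (((x ^ (p ^ j) - 1 : MonoidAlgebra ℤ_[p] C).coeff c : ℤ_[p]) : ℚ_[p]) / (p : ℚ_[p]) ^ j

open Classical in
/-- The logarithm of a unit `x = 1 mod p` of `ℤ_p[C]`, coefficient at `c`:
`lim (x^(p^j) - 1)/p^j`. -/
def lgP (p : ℕ) [Fact p.Prime] {C : Type v} [Group C] (x : MonoidAlgebra ℤ_[p] C) (c : C) :
    ℚ_[p] :=
  if h : ∃ l, Filter.Tendsto (lgSeqP p x c) Filter.atTop (nhds l) then h.choose else 0

/-- LP: properties of the logarithm (`p` odd). -/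
structure SpecLP : Prop where
  tends : ∀ (p : ℕ) [Fact p.Prime] (_ : p ≠ 2) (C : Type v) [CommGroup C]
    (x : MonoidAlgebra ℤ_[p] C) (_ : OneModP p x) (c : C),
    Filter.Tendsto (lgSeqP p x c) Filter.atTop (nhds (lgP p x c))
  mul : ∀ (p : ℕ) [Fact p.Prime] (_ : p ≠ 2) (C : Type v) [CommGroup C]
    (x y : MonoidAlgebra ℤ_[p] C) (_ : OneModP p x) (_ : OneModP p y) (c : C),
    lgP p (x * y) c = lgP p x c + lgP p y c
  inj : ∀ (p : ℕ) [Fact p.Prime] (_ : p ≠ 2) (C : Type v) [CommGroup C]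
    (x : MonoidAlgebra ℤ_[p] C) (_ : OneModP p x) (_ : ∀ c, lgP p x c = 0), x = 1
  map : ∀ (p : ℕ) [Fact p.Prime] (_ : p ≠ 2) (C C' : Type v) [CommGroup C] [CommGroup C']
    (φ : C →* C') (_ : Function.Injective φ) (x : MonoidAlgebra ℤ_[p] C) (_ : OneModP p x),
    (∀ c, lgP p (MonoidAlgebra.mapDomainRingHom ℤ_[p] φ x) (φ c) = lgP p x c) ∧
    ∀ c' ∉ Set.range φ, lgP p (MonoidAlgebra.mapDomainRingHom ℤ_[p] φ x) c' = 0

/-- L2P: restriction to a subgroup: the norm, for coefficients `R₀` mapped to `ℤ_p`. -/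
def SpecL2P : Prop :=
  ∀ (p : ℕ) [Fact p.Prime] (_ : p ≠ 2) (R₀ : Type u) [CommRing R₀] (i : R₀ →+* ℤ_[p])
    (C : Type v) [CommGroup C] [Finite C] (D : Subgroup C)
    (x : (MonoidAlgebra R₀ C)ˣ)
    (_ : OneModP p (MonoidAlgebra.mapRingHom C i (x : MonoidAlgebra R₀ C))),
    ∃ y : (MonoidAlgebra R₀ D)ˣ,
      OneModP p (MonoidAlgebra.mapRingHom D i (y : MonoidAlgebra R₀ D)) ∧
      ∀ d : D, lgP p (MonoidAlgebra.mapRingHom D i (y : MonoidAlgebra R₀ D)) d =
        (D.index : ℚ_[p]) * lgP p (MonoidAlgebra.mapRingHom C i (x : MonoidAlgebra R₀ C)) d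

/-- L3P (uses `SpecG` for `k = ℤ_p`): if the product of the units `x_i` of `ℤ_p[C_i]` has finite
order in `K_1(ℤ_p[G])/(±g)`, then the sum of the logarithms is zero on the conjugacy classes. -/
def SpecL3P : Prop :=
  ∀ (p : ℕ) [Fact p.Prime] (_ : p ≠ 2) (G : Type v) [Group G] (m : ℕ) (C : Fin m → Type v)
    [∀ i, CommGroup (C i)] [∀ i, Fintype (C i)] (φ : ∀ i, C i →* G)
    (x : ∀ i, (MonoidAlgebra ℤ_[p] (C i))ˣ)
    (_ : ∀ i, OneModP p (x i : MonoidAlgebra ℤ_[p] (C i)))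
    (_ : IsOfFinAddOrder (QuotientAddGroup.mk' (trivialUnits ℤ_[p] G)
      (∑ i, K1.unit (Units.map (MonoidAlgebra.mapDomainRingHom ℤ_[p] (φ i)).toMonoidHom (x i))) :
        Wh ℤ_[p] G)),
    ∑ i, pushQ p (φ i) (lgP p (x i : MonoidAlgebra ℤ_[p] (C i))) = 0

/-- SR: `K_1(R[H])` is generated up to torsion by the images of `K_1(R[C])`, `C` cyclic. -/
def SpecSR : Prop :=
  ∀ (R : Type u) [CommRing R] [FinQuot R] (H : Type v) [Group H] [Finite H]
    (x : K1 (MonoidAlgebra R H)),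
    ∃ (m : ℕ) (_ : 0 < m) (a : ℕ) (C : Fin a → Subgroup H) (_ : ∀ i, IsCyclic (C i))
      (y : ∀ i, K1 (MonoidAlgebra R (C i))),
      m • x = ∑ i, K1.map (MonoidAlgebra.mapDomainRingHom R (C i).subtype) (y i)

/-- ER: for a finite commutative group `C`, `K_1(R[C])` is `R[C]ˣ` up to torsion. -/
def SpecER : Prop :=
  ∀ (R : Type u) [CommRing R] [FinQuot R] (C : Type v) [CommGroup C] [Finite C]
    (x : K1 (MonoidAlgebra R C)),
    ∃ (m : ℕ) (_ : 0 < m) (y : (MonoidAlgebra R C)ˣ), m • x = K1.unit y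

/-- DSC: descent of a relation to a finitely generated ring of coefficients. -/
def SpecDSC : Prop :=
  ∀ (R : Type u) [CommRing R] (G : Type v) [Group G] (m : ℕ) (C : Fin m → Type v)
    [∀ i, Group (C i)] (φ : ∀ i, C i →* G)
    (x : ∀ i, (MonoidAlgebra R (C i))ˣ)
    (_ : IsOfFinAddOrder (QuotientAddGroup.mk' (trivialUnits R G)
      (∑ i, K1.unit (Units.map (MonoidAlgebra.mapDomainRingHom R (φ i)).toMonoidHom (x i))) :
        Wh R G)),
    ∃ (S : Finset R) (y : ∀ i, (MonoidAlgebra (Algebra.adjoin ℤ (S : Set R)) (C i))ˣ),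
      (∀ i, Units.map (MonoidAlgebra.mapRingHom (C i)
        (Algebra.adjoin ℤ (S : Set R)).val.toRingHom).toMonoidHom (y i) = x i) ∧
      IsOfFinAddOrder (QuotientAddGroup.mk' (trivialUnits (Algebra.adjoin ℤ (S : Set R)) G)
        (∑ i, K1.unit (Units.map (MonoidAlgebra.mapDomainRingHom
          (Algebra.adjoin ℤ (S : Set R)) (φ i)).toMonoidHom (y i))) :
        Wh (Algebra.adjoin ℤ (S : Set R)) G)

/-- CAS: a finitely generated domain of characteristic zero embeds into `ℤ_p` for infinitely many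
`p` (proved by helper74: `MPb6f35eWH.CAS.exists_padic_embedding_adjoin`). -/
def SpecCAS : Prop :=
  ∀ (R : Type u) [CommRing R] [IsDomain R] [CharZero R] (S : Finset R) (M : ℕ),
    ∃ (p : ℕ) (_ : Fact p.Prime) (i : Algebra.adjoin ℤ (S : Set R) →+* ℤ_[p]), M < p ∧
      Function.Injective i

/-- F1: units `x_i` of `R₀[C_i]`, `C_i` finite cyclic subgroups of `G`, `R₀` a subring of `ℤ_p`,
congruent to `1` modulo `p`, with vanishing sum of logarithms, have torsion sum in the colimit. -/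
def SpecF1 : Prop :=
  ∀ (p : ℕ) [Fact p.Prime] (_ : p ≠ 2) (R₀ : Type u) [CommRing R₀] (i : R₀ →+* ℤ_[p])
    (_ : Function.Injective i) (G : Type v) [Group G] (m : ℕ) (C : Fin m → FinSub G)
    (_ : ∀ j, IsCyclic (C j).1) [∀ j, Fintype (C j).1]
    (x : ∀ j, (MonoidAlgebra R₀ (C j).1)ˣ)
    (_ : ∀ j, OneModP p (MonoidAlgebra.mapRingHom (C j).1 i
      (x j : MonoidAlgebra R₀ (C j).1)))
    (_ : ∑ j, pushQ p (C j).1.subtype (lgP p (MonoidAlgebra.mapRingHom (C j).1 i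
      (x j : MonoidAlgebra R₀ (C j).1))) = 0),
    IsOfFinAddOrder (∑ j, ColimK1.ofSub (R := R₀) (C j) (K1.unit (x j)))

/-- F2: the theorem. -/
def SpecF2 : Prop :=
  ∀ (R : Type u) [CommRing R] [FinQuot R] (G : Type v) [Group G] (x : ColimK1 R G),
    IsOfFinAddOrder (toWh R G x) → IsOfFinAddOrder x

end Pool.Agent.Lib.MPb6f35e.WH
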