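import Pool.Agent.Lib.MP_b6f35e_al.WH.Spec

/-!
# Module K: more about `K_1` (hive 30, MP_b6f35e_al, WH)

Classes of invertible matrices indexed by finite types, block triangular matrices, naturality and
`[1 + a b] = [1 + b a]`.
-/

set_option autoImplicit false

namespace Pool.Agent.Lib.MPb6f35e.WH

universe u v w

open Matrix

namespace KM

variable {A : Type u} [Ring A]

/-- Reindexing of an invertible matrix. -/
def rI {ι : Type v} {κ : Type w} [Fintype ι] [DecidableEq ι] [Fintype κ] [DecidableEq κ]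
    (e : ι ≃ κ) (x : (Matrix ι ι A)ˣ) : (Matrix κ κ A)ˣ :=
  Units.map (Matrix.reindexRingEquiv A e).toMonoidHom x

theorem rI_val {ι : Type v} {κ : Type w} [Fintype ι] [DecidableEq ι] [Fintype κ] [DecidableEq κ]
    (e : ι ≃ κ) (x : (Matrix ι ι A)ˣ) :
    (rI e x : Matrix κ κ A) = Matrix.reindex e e (x : Matrix ι ι A) := rfl

theorem rI_trans {ι : Type v} {κ : Type w} {μ : Type*} [Fintype ι] [DecidableEq ι] [Fintype κ]
    [DecidableEq κ] [Fintype μ] [DecidableEq μ] (e : ι ≃ κ) (f : κ ≃ μ) (x : (Matrix ι ι A)ˣ) :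
    rI f (rI e x) = rI (e.trans f) x := by
  apply Units.ext
  rfl

theorem cls_perm {n : ℕ} (σ : Fin n ≃ Fin n) (x : (Matrix (Fin n) (Fin n) A)ˣ) :
    K1.cls (rI σ x) = K1.cls x := by
  have h1 : (σ.symm.toPEquiv.toMatrix : Matrix (Fin n) (Fin n) A) * σ.toPEquiv.toMatrix = 1 := by
    rw [PEquiv.toMatrix_toPEquiv_mul]
    ext i j
    simp [PEquiv.toMatrix_apply, Matrix.one_apply]
  have h2 : (σ.toPEquiv.toMatrix : Matrix (Fin n) (Fin n) A) * σ.symm.toPEquiv.toMatrix = 1 := by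
    rw [PEquiv.toMatrix_toPEquiv_mul]
    ext i j
    simp [PEquiv.toMatrix_apply, Matrix.one_apply]
  let s : (Matrix (Fin n) (Fin n) A)ˣ := ⟨_, _, h1, h2⟩
  rw [← K1.cls_conj x s]
  congr 1
  apply Units.ext
  show Matrix.reindex σ σ (x : Matrix (Fin n) (Fin n) A) =
    (σ.symm.toPEquiv.toMatrix : Matrix (Fin n) (Fin n) A) * (x : Matrix (Fin n) (Fin n) A) *
      σ.toPEquiv.toMatrix
  rw [PEquiv.toMatrix_toPEquiv_mul, PEquiv.mul_toMatrix_toPEquiv]
  rfl

theorem cls_rI {m n : ℕ} (e : Fin m ≃ Fin n) (x : (Matrix (Fin m) (Fin m) A)ˣ) :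
    K1.cls (rI e x) = K1.cls x := by
  have h : m = n := by simpa using Fintype.card_congr e
  subst h
  exact cls_perm e x

theorem clsF_of {ι : Type w} [Fintype ι] [DecidableEq ι] {n : ℕ} (e : ι ≃ Fin n)
    (x : (Matrix ι ι A)ˣ) : K1.clsF x = K1.cls (rI e x) := by
  have h : rI e x = rI ((Fintype.equivFin ι).symm.trans e) (rI (Fintype.equivFin ι) x) := by
    rw [rI_trans, ← Equiv.trans_assoc, Equiv.self_trans_symm, Equiv.refl_trans]
  rw [h, cls_rI]
  rfl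

theorem clsF_reindex {ι : Type v} {κ : Type w} [Fintype ι] [DecidableEq ι] [Fintype κ]
    [DecidableEq κ] (e : ι ≃ κ) (x : (Matrix ι ι A)ˣ) : K1.clsF (rI e x) = K1.clsF x := by
  rw [clsF_of (Fintype.equivFin κ) (rI e x), rI_trans, clsF_of]

theorem clsF_mul {ι : Type w} [Fintype ι] [DecidableEq ι] (x y : (Matrix ι ι A)ˣ) :
    K1.clsF (x * y) = K1.clsF x + K1.clsF y := by
  unfold K1.clsF
  rw [_root_.map_mul, K1.cls_mul]

theorem clsF_one {ι : Type w} [Fintype ι] [DecidableEq ι] :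
    K1.clsF (1 : (Matrix ι ι A)ˣ) = 0 := by
  have h := clsF_mul (1 : (Matrix ι ι A)ˣ) 1
  rw [one_mul] at h
  exact left_eq_add.1 h

theorem clsF_block {ι : Type v} {κ : Type w} [Fintype ι] [DecidableEq ι] [Fintype κ]
    [DecidableEq κ] (x : (Matrix ι ι A)ˣ) (y : (Matrix κ κ A)ˣ) (b : Matrix ι κ A)
    (z : (Matrix (ι ⊕ κ) (ι ⊕ κ) A)ˣ)
    (hz : (z : Matrix (ι ⊕ κ) (ι ⊕ κ) A) = Matrix.fromBlocks (x : Matrix ι ι A) b 0
      (y : Matrix κ κ A)) : K1.clsF z = K1.clsF x + K1.clsF y := by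
  let e := Fintype.equivFin ι
  let f := Fintype.equivFin κ
  rw [clsF_of ((Equiv.sumCongr e f).trans finSumFinEquiv) z, clsF_of e x, clsF_of f y]
  apply K1.cls_block (rI e x) (rI f y) _ (Matrix.reindex e f b)
  rw [rI_val, hz]
  ext i j
  simp only [Matrix.reindex_apply, Matrix.submatrix_apply, Equiv.symm_trans_apply]
  rcases finSumFinEquiv.symm i with a | a <;> rcases finSumFinEquiv.symm j with c | c <;>
    simp [rI_val]

theorem clsF_blockL {ι : Type v} {κ : Type w} [Fintype ι] [DecidableEq ι] [Fintype κ]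
    [DecidableEq κ] (x : (Matrix ι ι A)ˣ) (y : (Matrix κ κ A)ˣ) (b : Matrix κ ι A)
    (z : (Matrix (ι ⊕ κ) (ι ⊕ κ) A)ˣ)
    (hz : (z : Matrix (ι ⊕ κ) (ι ⊕ κ) A) = Matrix.fromBlocks (x : Matrix ι ι A) 0 b
      (y : Matrix κ κ A)) : K1.clsF z = K1.clsF x + K1.clsF y := by
  rw [← clsF_reindex (Equiv.sumComm ι κ) z, add_comm]
  apply clsF_block y x b
  rw [rI_val, hz]
  ext (i | i) (j | j) <;> simp

theorem map_clsF {B : Type u} [Ring B] (f : A →+* B) {ι : Type w} [Fintype ι] [DecidableEq ι]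
    (x : (Matrix ι ι A)ˣ) :
    K1.map f (K1.clsF x) = K1.clsF (Units.map f.mapMatrix.toMonoidHom x) := by
  unfold K1.clsF
  rw [K1.map_cls]
  congr 1

/-- `(x b; 0 y)` as a unit -/
def bU {ι : Type v} {κ : Type w} [Fintype ι] [DecidableEq ι] [Fintype κ] [DecidableEq κ]
    (x : (Matrix ι ι A)ˣ) (y : (Matrix κ κ A)ˣ) (b : Matrix ι κ A) :
    (Matrix (ι ⊕ κ) (ι ⊕ κ) A)ˣ where
  val := Matrix.fromBlocks (x : Matrix ι ι A) b 0 (y : Matrix κ κ A)
  inv := Matrix.fromBlocks ((x⁻¹ : (Matrix ι ι A)ˣ) : Matrix ι ι A)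
    (-(((x⁻¹ : (Matrix ι ι A)ˣ) : Matrix ι ι A) * b * ((y⁻¹ : (Matrix κ κ A)ˣ) : Matrix κ κ A)))
    0 ((y⁻¹ : (Matrix κ κ A)ˣ) : Matrix κ κ A)
  val_inv := by
    rw [Matrix.fromBlocks_multiply, ← Matrix.fromBlocks_one]
    congr 1
    · simp
    · rw [Matrix.mul_neg, ← Matrix.mul_assoc, ← Matrix.mul_assoc, Units.mul_inv, Matrix.one_mul,
        neg_add_cancel]
    · simp
    · simp
  inv_val := by
    rw [Matrix.fromBlocks_multiply, ← Matrix.fromBlocks_one]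
    congr 1
    · simp
    · rw [Matrix.neg_mul, Matrix.mul_assoc _ _ (y : Matrix κ κ A), Units.inv_mul, Matrix.mul_one,
        add_neg_cancel]
    · simp
    · simp

/-- `(1 0; b 1)` as a unit -/
def bL {ι : Type v} {κ : Type w} [Fintype ι] [DecidableEq ι] [Fintype κ] [DecidableEq κ]
    (b : Matrix κ ι A) : (Matrix (ι ⊕ κ) (ι ⊕ κ) A)ˣ where
  val := Matrix.fromBlocks 1 0 b 1
  inv := Matrix.fromBlocks 1 0 (-b) 1
  val_inv := by
    rw [Matrix.fromBlocks_multiply, ← Matrix.fromBlocks_one]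
    congr 1 <;> simp
  inv_val := by
    rw [Matrix.fromBlocks_multiply, ← Matrix.fromBlocks_one]
    congr 1 <;> simp

theorem clsF_oneAdd {ι : Type v} {κ : Type w} [Fintype ι] [DecidableEq ι] [Fintype κ]
    [DecidableEq κ] (a : Matrix ι κ A) (b : Matrix κ ι A) (x : (Matrix ι ι A)ˣ)
    (y : (Matrix κ κ A)ˣ) (hx : (x : Matrix ι ι A) = 1 + a * b)
    (hy : (y : Matrix κ κ A) = 1 + b * a) : K1.clsF x = K1.clsF y := by
  have h : bL (-b) * bU 1 y a = bU x 1 a * bL (-b) := by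
    apply Units.ext
    show Matrix.fromBlocks 1 0 (-b) 1 * Matrix.fromBlocks ((1 : (Matrix ι ι A)ˣ) : Matrix ι ι A) a 0
        (y : Matrix κ κ A) =
      Matrix.fromBlocks (x : Matrix ι ι A) a 0 ((1 : (Matrix κ κ A)ˣ) : Matrix κ κ A) *
        Matrix.fromBlocks 1 0 (-b) 1
    rw [Matrix.fromBlocks_multiply, Matrix.fromBlocks_multiply, hx, hy]
    congr 1 <;> simp
  have h1 := clsF_mul (bL (-b)) (bU 1 y a)
  have h2 := clsF_mul (bU x 1 a) (bL (-b))
  rw [h, h2, clsF_block x 1 a (bU x 1 a) rfl, clsF_block 1 y a (bU 1 y a) rfl, clsF_one, clsF_one,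
    add_zero, zero_add, add_comm] at h1
  exact add_left_cancel h1

end KM

open KM

theorem specK : SpecK.{u, w} where
  reindex _ _ _ _ _ _ _ _ e x := clsF_reindex e x
  cls A _ n x := by
    rw [clsF_of (Equiv.refl (Fin n)) x]
    rfl
  mul _ _ _ _ _ x y := clsF_mul x y
  block _ _ _ _ _ _ _ _ x y b z hz := clsF_block x y b z hz
  blockL _ _ _ _ _ _ _ _ x y b z hz := clsF_blockL x y b z hz
  map _ _ _ _ f _ _ _ x := map_clsF f x
  oneAdd _ _ _ _ _ _ _ _ a b x y hx hy := clsF_oneAdd a b x y hx hy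

end Pool.Agent.Lib.MPb6f35e.WH
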