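import Pool.Agent.Lib.MP_b6f35e_al.WH.Spec

/-!
# Representations with the same character are isomorphic (module R, first part)
-/

set_option autoImplicit false

noncomputable section

namespace Pool.Agent.Lib.MPb6f35e.WH

namespace RMod

open Representation Module

section Rep

variable {k H V W : Type*} [Field k] [CharZero k] [Group H] [Fintype H]
  [AddCommGroup V] [Module k V] [FiniteDimensional k V]
  [AddCommGroup W] [Module k W] [FiniteDimensional k W]

omit [FiniteDimensional k V] [FiniteDimensional k W] in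
/-- Every equivariant map has an equivariant generalized inverse. -/
lemma exists_genInv (ρ : Representation k H V) (σ : Representation k H W) (T : V →ₗ[k] W)
    (hT : ∀ h v, T (ρ h v) = σ h (T v)) :
    ∃ S : W →ₗ[k] V, (∀ h w, S (σ h w) = ρ h (S w)) ∧ ∀ v, T (S (T v)) = T v := by
  obtain ⟨s, hs⟩ := LinearMap.exists_rightInverse_of_surjective T.rangeRestrict
    (LinearMap.range_rangeRestrict T)
  obtain ⟨S₀, hS₀⟩ := LinearMap.exists_extend s
  have h0 : ∀ v, T (S₀ (T v)) = T v := by
    intro v
    have e1 : S₀ (T v) = s (T.rangeRestrict v) := by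
      rw [← hS₀]; rfl
    have e2 : T.rangeRestrict (s (T.rangeRestrict v)) = T.rangeRestrict v :=
      LinearMap.congr_fun hs (T.rangeRestrict v)
    rw [e1]
    exact congrArg Subtype.val e2
  have hc : (Fintype.card H : k) ≠ 0 := by
    exact_mod_cast Fintype.card_ne_zero
  refine ⟨(Fintype.card H : k)⁻¹ • ∑ h : H, (ρ h⁻¹) ∘ₗ S₀ ∘ₗ (σ h), ?_, ?_⟩
  · intro h w
    simp only [LinearMap.smul_apply, LinearMap.sum_apply, LinearMap.comp_apply, map_smul,
      map_sum]
    congr 1
    refine Fintype.sum_equiv (Equiv.mulRight h) _ _ ?_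
    intro x
    simp only [Equiv.coe_mulRight]
    rw [map_mul, mul_inv_rev, map_mul]
    simp only [Module.End.mul_apply]
    rw [← Module.End.mul_apply (ρ h) (ρ h⁻¹), ← map_mul, mul_inv_cancel, map_one,
      Module.End.one_apply]
  · intro v
    simp only [LinearMap.smul_apply, LinearMap.sum_apply, LinearMap.comp_apply, map_smul,
      map_sum]
    have : ∀ x : H, T (ρ x⁻¹ (S₀ (σ x (T v)))) = T v := by
      intro x
      rw [hT, ← hT x v, h0, ← hT, ← Module.End.mul_apply, ← map_mul, inv_mul_cancel, map_one,
        Module.End.one_apply]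
    rw [Finset.sum_congr rfl (fun x _ => this x), Finset.sum_const, Finset.card_univ,
      ← Nat.cast_smul_eq_nsmul k, smul_smul, inv_mul_cancel₀ hc, one_smul]

/-- If the characters are equal and `T` is equivariant and not injective, there is an equivariant
map with smaller kernel. -/
lemma exists_smaller (ρ : Representation k H V) (σ : Representation k H W)
    (hch : ∀ h, ρ.character h = σ.character h) (T : V →ₗ[k] W)
    (hT : ∀ h v, T (ρ h v) = σ h (T v)) (hker : LinearMap.ker T ≠ ⊥) :
    ∃ T' : V →ₗ[k] W, (∀ h v, T' (ρ h v) = σ h (T' v)) ∧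
      finrank k (LinearMap.ker T') < finrank k (LinearMap.ker T) := by
  obtain ⟨S, hS, hTST⟩ := exists_genInv ρ σ T hT
  -- the subrepresentations `K = ker T` and `C = ker S'`, `C` = range of `1 - T S`
  let K : Subrepresentation ρ :=
    ⟨LinearMap.ker T, by
      intro g v hv
      rw [LinearMap.mem_ker] at hv ⊢
      rw [hT, hv, map_zero]⟩
  let C : Subrepresentation σ :=
    ⟨LinearMap.ker (T ∘ₗ S), by
      intro g v hv
      rw [LinearMap.mem_ker, LinearMap.comp_apply] at hv ⊢
      rw [hS, hT, hv, map_zero]⟩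
  let eK : V →ₗ[k] K.toSubmodule := LinearMap.codRestrict _ (LinearMap.id - S ∘ₗ T) (by
    intro v
    show (LinearMap.id - S ∘ₗ T : V →ₗ[k] V) v ∈ LinearMap.ker T
    simp [hTST])
  let eC : W →ₗ[k] C.toSubmodule := LinearMap.codRestrict _ (LinearMap.id - T ∘ₗ S) (by
    intro v
    show (LinearMap.id - T ∘ₗ S : W →ₗ[k] W) v ∈ LinearMap.ker (T ∘ₗ S)
    simp [hTST])
  have heK : ∀ v : K.toSubmodule, eK v = v := by
    intro v
    apply Subtype.ext
    have hv : T v = 0 := v.2
    show (v : V) - S (T v) = v
    simp [hv]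
  have heC : ∀ v : C.toSubmodule, eC v = v := by
    intro v
    apply Subtype.ext
    have hv : T (S v) = 0 := v.2
    show (v : W) - T (S v) = v
    simp [hv]
  have chK : ∀ h, K.toRepresentation.character h = ρ.character h -
      LinearMap.trace k V (ρ h ∘ₗ (S ∘ₗ T)) := by
    intro h
    have e1 : K.toRepresentation h = eK ∘ₗ (ρ h ∘ₗ K.toSubmodule.subtype) := by
      ext v
      rw [LinearMap.comp_apply, LinearMap.comp_apply]
      have := heK (K.toRepresentation h v)
      rw [← this]
      rfl
    have e2 : K.toSubmodule.subtype ∘ₗ eK = LinearMap.id - S ∘ₗ T := by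
      ext v; rfl
    show LinearMap.trace k _ (K.toRepresentation h) = _
    rw [e1, LinearMap.trace_comp_comm', LinearMap.comp_assoc, e2, LinearMap.comp_sub,
      map_sub, LinearMap.comp_id]
    rfl
  have chC : ∀ h, C.toRepresentation.character h = σ.character h -
      LinearMap.trace k W (σ h ∘ₗ (T ∘ₗ S)) := by
    intro h
    have e1 : C.toRepresentation h = eC ∘ₗ (σ h ∘ₗ C.toSubmodule.subtype) := by
      ext v
      rw [LinearMap.comp_apply, LinearMap.comp_apply]
      have := heC (C.toRepresentation h v)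
      rw [← this]
      rfl
    have e2 : C.toSubmodule.subtype ∘ₗ eC = LinearMap.id - T ∘ₗ S := by
      ext v; rfl
    show LinearMap.trace k _ (C.toRepresentation h) = _
    rw [e1, LinearMap.trace_comp_comm', LinearMap.comp_assoc, e2, LinearMap.comp_sub,
      map_sub, LinearMap.comp_id]
    rfl
  have tr : ∀ h, LinearMap.trace k V (ρ h ∘ₗ (S ∘ₗ T)) = LinearMap.trace k W (σ h ∘ₗ (T ∘ₗ S)) := by
    intro h
    have e1 : σ h ∘ₗ (T ∘ₗ S) = T ∘ₗ (ρ h ∘ₗ S) := by
      ext w
      simp [hT]
    rw [e1]
    exact LinearMap.trace_comp_comm' T (ρ h ∘ₗ S)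
  have hKC : ∀ h, K.toRepresentation.character h = C.toRepresentation.character h := by
    intro h
    rw [chK, chC, hch, tr]
  have hc : (Nat.card H : k) ≠ 0 := by
    have : Nat.card H ≠ 0 := Nat.card_pos.ne'
    exact_mod_cast this
  have : Invertible (Nat.card H : k) := invertibleOfNonzero hc
  have f1 := card_inv_mul_sum_char_mul_char_eq_finrank K.toRepresentation K.toRepresentation
  have f2 := card_inv_mul_sum_char_mul_char_eq_finrank K.toRepresentation C.toRepresentation
  have f3 : (finrank k (IntertwiningMap K.toRepresentation K.toRepresentation) : k) =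
      finrank k (IntertwiningMap K.toRepresentation C.toRepresentation) := by
    rw [← f1, ← f2]
    congr 1
    apply Finset.sum_congr rfl
    intro h _
    rw [hKC h]
  have f4 : finrank k (IntertwiningMap K.toRepresentation K.toRepresentation) =
      finrank k (IntertwiningMap K.toRepresentation C.toRepresentation) := by
    exact_mod_cast f3
  have f5 : 0 < finrank k (IntertwiningMap K.toRepresentation K.toRepresentation) := by
    have : Nontrivial (IntertwiningMap K.toRepresentation K.toRepresentation) := by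
      refine ⟨⟨0, 1, ?_⟩⟩
      intro h01
      apply hker
      rw [eq_bot_iff]
      intro v hv
      have h2 : (0 : IntertwiningMap K.toRepresentation K.toRepresentation) ⟨v, hv⟩ =
        (1 : IntertwiningMap K.toRepresentation K.toRepresentation) ⟨v, hv⟩ := by rw [h01]
      have h3 : (⟨v, hv⟩ : K.toSubmodule) = 0 := h2.symm
      exact congrArg Subtype.val h3
    exact Module.finrank_pos
  have f6 : Nontrivial (IntertwiningMap K.toRepresentation C.toRepresentation) := by
    apply Module.nontrivial_of_finrank_pos (R := k)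
    rw [← f4]; exact f5
  obtain ⟨f, hf⟩ := exists_ne (0 : IntertwiningMap K.toRepresentation C.toRepresentation)
  have heKc : ∀ h v, eK (ρ h v) = K.toRepresentation h (eK v) := by
    intro h v
    apply Subtype.ext
    show ρ h v - S (T (ρ h v)) = ρ h (v - S (T v))
    rw [hT, hS, map_sub]
  refine ⟨T + C.toSubmodule.subtype ∘ₗ f.toLinearMap ∘ₗ eK, ?_, ?_⟩
  · intro h v
    have e1 : (f.toLinearMap (eK (ρ h v)) : W) = σ h (f.toLinearMap (eK v)) := by
      rw [heKc]
      have := IntertwiningMap.isIntertwining _ _ f h (eK v)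
      exact congrArg Subtype.val this
    show T (ρ h v) + (f.toLinearMap (eK (ρ h v)) : W) = σ h (T v + (f.toLinearMap (eK v) : W))
    rw [e1, hT, map_add]
  · -- the kernel is strictly smaller
    have hlt : LinearMap.ker (T + C.toSubmodule.subtype ∘ₗ f.toLinearMap ∘ₗ eK) <
        LinearMap.ker T := by
      have key : ∀ v, T v + (f.toLinearMap (eK v) : W) = 0 → T v = 0 ∧ f.toLinearMap (eK v) = 0 := by
        intro v hv
        have h1 : T (S (f.toLinearMap (eK v) : W)) = 0 := (f.toLinearMap (eK v)).2
        have h2 : T (S (T v + (f.toLinearMap (eK v) : W))) = 0 := by rw [hv]; simp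
        rw [map_add, map_add, h1, hTST, add_zero] at h2
        refine ⟨h2, ?_⟩
        rw [h2, zero_add] at hv
        exact Subtype.ext hv
      rw [lt_iff_le_and_ne]
      constructor
      · intro v hv
        exact (key v hv).1
      · intro heq
        apply hf
        apply IntertwiningMap.ext
        apply LinearMap.ext
        intro v
        have hv : (v : V) ∈ LinearMap.ker T := v.2
        rw [← heq] at hv
        have := (key v hv).2
        rw [heK] at this
        exact this
    exact Submodule.finrank_lt_finrank_of_lt hlt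

/-- Representations with the same character over a field of characteristic zero are isomorphic. -/
theorem exists_bijective_of_character_eq (ρ : Representation k H V) (σ : Representation k H W)
    (hch : ∀ h, ρ.character h = σ.character h) :
    ∃ T : V →ₗ[k] W, (∀ h v, T (ρ h v) = σ h (T v)) ∧ Function.Bijective T := by
  classical
  have hex : ∃ n : ℕ, ∃ T : V →ₗ[k] W, (∀ h v, T (ρ h v) = σ h (T v)) ∧
      finrank k (LinearMap.ker T) = n := ⟨_, 0, by simp, rfl⟩
  obtain ⟨T, hT, hn⟩ := Nat.find_spec hex
  have hmin := fun m (hm : m < Nat.find hex) => Nat.find_min hex hm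
  have hker : LinearMap.ker T = ⊥ := by
    by_contra hne
    obtain ⟨T', hT', hlt⟩ := exists_smaller ρ σ hch T hT hne
    rw [hn] at hlt
    exact hmin _ hlt ⟨T', hT', rfl⟩
  have hinj : Function.Injective T := LinearMap.ker_eq_bot.1 hker
  have hdim : finrank k V = finrank k W := by
    have := hch 1
    rw [char_one, char_one] at this
    exact_mod_cast this
  exact ⟨T, hT, hinj, (LinearMap.injective_iff_surjective_of_finrank_eq_finrank hdim).1 hinj⟩

end Rep

section Perm

variable {H : Type*} [Group H]

/-- The permutation representation on functions. -/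
def permRep (H : Type*) [Group H] (X : Type*) [MulAction H X] : Representation ℚ H (X → ℚ) where
  toFun h := LinearMap.funLeft ℚ ℚ (fun x => h⁻¹ • x)
  map_one' := by ext; simp [LinearMap.funLeft]
  map_mul' a b := by
    apply LinearMap.ext
    intro f
    ext x
    simp [LinearMap.funLeft, mul_smul]

lemma permRep_apply (X : Type*) [MulAction H X] (h : H) (f : X → ℚ) (x : X) :
    permRep H X h f x = f (h⁻¹ • x) := rfl

lemma permRep_character (X : Type*) [MulAction H X] [Fintype X] [DecidableEq X] (h : H) :
    (permRep H X).character h = ((Finset.univ.filter fun x : X => h • x = x).card : ℚ) := by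
  show LinearMap.trace ℚ (X → ℚ) (permRep H X h) = _
  rw [LinearMap.trace_eq_matrix_trace ℚ (Pi.basisFun ℚ X), Matrix.trace]
  rw [Finset.card_filter, Nat.cast_sum]
  apply Finset.sum_congr rfl
  intro x _
  rw [Matrix.diag_apply, LinearMap.toMatrix_apply, Pi.basisFun_apply, Pi.basisFun_repr,
    permRep_apply, Pi.single_apply]
  have : h⁻¹ • x = x ↔ h • x = x := by
    rw [inv_smul_eq_iff]; exact eq_comm
  simp only [this, Nat.cast_ite, Nat.cast_one, Nat.cast_zero]

/-- Clearing denominators. -/
lemma exists_clear {X Y : Type*} [Fintype X] [Fintype Y] (M : Matrix Y X ℚ) :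
    ∃ (n : ℤ) (F : Matrix Y X ℤ), n ≠ 0 ∧ ∀ y x, (F y x : ℚ) = n * M y x := by
  classical
  obtain ⟨b, hb⟩ := IsLocalization.exist_integer_multiples_of_finite (nonZeroDivisors ℤ)
    (fun z : Y × X => M z.1 z.2)
  refine ⟨b, Matrix.of fun y x => (hb (y, x)).choose, nonZeroDivisors.ne_zero b.2, ?_⟩
  intro y x
  have := (hb (y, x)).choose_spec
  simpa using this

/-- Two finite `H`-sets with the same numbers of fixed points: there is an integral intertwiner
with non-zero determinant. -/
theorem exists_intertwiner [Fintype H] (X Y : Type*) [MulAction H X] [MulAction H Y] [Fintype X]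
    [DecidableEq X] [Fintype Y] [DecidableEq Y]
    (hfix : ∀ h : H, (Finset.univ.filter fun x : X => h • x = x).card =
      (Finset.univ.filter fun y : Y => h • y = y).card) :
    ∃ (F : Matrix Y X ℤ) (F' : Matrix X Y ℤ) (d : ℤ), d ≠ 0 ∧ F * F' = d • 1 ∧ F' * F = d • 1 ∧
      ∀ (h : H) (y : Y) (x : X), F (h • y) (h • x) = F y x := by
  obtain ⟨T, hT, hbij⟩ := exists_bijective_of_character_eq (permRep H X) (permRep H Y) (by
    intro h
    rw [permRep_character, permRep_character, hfix])
  let e : (X → ℚ) ≃ₗ[ℚ] (Y → ℚ) := LinearEquiv.ofBijective T hbij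
  have m1 : LinearMap.toMatrix' T * LinearMap.toMatrix' e.symm.toLinearMap = 1 := by
    rw [← LinearMap.toMatrix'_comp]
    have : T ∘ₗ e.symm.toLinearMap = LinearMap.id := by
      apply LinearMap.ext
      intro v
      exact e.apply_symm_apply v
    rw [this, LinearMap.toMatrix'_id]
  have m2 : LinearMap.toMatrix' e.symm.toLinearMap * LinearMap.toMatrix' T = 1 := by
    rw [← LinearMap.toMatrix'_comp]
    have : e.symm.toLinearMap ∘ₗ T = LinearMap.id := by
      apply LinearMap.ext
      intro v
      exact e.symm_apply_apply v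
    rw [this, LinearMap.toMatrix'_id]
  obtain ⟨n, F, hn, hF⟩ := exists_clear (LinearMap.toMatrix' T)
  obtain ⟨n', F', hn', hF'⟩ := exists_clear (LinearMap.toMatrix' e.symm.toLinearMap)
  refine ⟨F, F', n * n', mul_ne_zero hn hn', ?_, ?_, ?_⟩
  · ext i j
    have h1 := congrFun (congrFun m1 i) j
    rw [Matrix.mul_apply] at h1
    have h2 : (((F * F') i j : ℤ) : ℚ) = (n * n' : ℤ) * (1 : Matrix Y Y ℚ) i j := by
      rw [← h1, Matrix.mul_apply, Finset.mul_sum]
      push_cast
      apply Finset.sum_congr rfl
      intro x _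
      rw [hF, hF']
      ring
    have h3 : (((F * F') i j : ℤ) : ℚ) = ((((n * n') • (1 : Matrix Y Y ℤ)) i j : ℤ) : ℚ) := by
      rw [h2, Matrix.smul_apply, Matrix.one_apply, Matrix.one_apply]
      split <;> simp
    exact_mod_cast h3
  · ext i j
    have h1 := congrFun (congrFun m2 i) j
    rw [Matrix.mul_apply] at h1
    have h2 : (((F' * F) i j : ℤ) : ℚ) = (n * n' : ℤ) * (1 : Matrix X X ℚ) i j := by
      rw [← h1, Matrix.mul_apply, Finset.mul_sum]
      push_cast
      apply Finset.sum_congr rfl
      intro x _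
      rw [hF, hF']
      ring
    have h3 : (((F' * F) i j : ℤ) : ℚ) = ((((n * n') • (1 : Matrix X X ℤ)) i j : ℤ) : ℚ) := by
      rw [h2, Matrix.smul_apply, Matrix.one_apply, Matrix.one_apply]
      split <;> simp
    exact_mod_cast h3
  · intro h y x
    have h1 : (F (h • y) (h • x) : ℚ) = F y x := by
      rw [hF, hF, LinearMap.toMatrix'_apply, LinearMap.toMatrix'_apply]
      congr 1
      have e1 : (fun j' => if j' = h • x then (1 : ℚ) else 0) =
          permRep H X h (fun j' => if j' = x then (1 : ℚ) else 0) := by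
        ext z
        rw [permRep_apply]
        simp only [inv_smul_eq_iff]
      have e2 : ∀ z : X, (Pi.single z 1 : X → ℚ) = fun j' => if j' = z then (1 : ℚ) else 0 := by
        intro z
        ext j
        rw [Pi.single_apply]
      rw [e2, e2, e1, hT, permRep_apply, inv_smul_smul]
    exact_mod_cast h1

end Perm

section Artin

variable {H : Type*} [Group H] [Finite H]

/-- Number of fixed points of `h` on `H / C`. -/
def fixC (C : Subgroup H) (h : H) : ℕ := Nat.card {z : H ⧸ C // h • z = z}

/-- Number of `x` such that `x⁻¹ h x` generates `C`. -/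
def genC (C : Subgroup H) (h : H) : ℕ := Nat.card {x : H // Subgroup.zpowers (x⁻¹ * h * x) = C}

omit [Finite H] in
lemma card_mul_fixC (C : Subgroup H) (h : H) :
    Nat.card {x : H // x⁻¹ * h * x ∈ C} = Nat.card C * fixC C h := by
  rw [fixC, ← Nat.card_prod]
  refine Nat.card_congr (Equiv.trans ?_
    (QuotientGroup.preimageMkEquivSubgroupProdSet C {z : H ⧸ C | h • z = z}))
  refine Equiv.subtypeEquivRight ?_
  intro x
  show _ ↔ h • (x : H ⧸ C) = x
  have : (h • (x : H ⧸ C) = x) ↔ ((h * x : H) : H ⧸ C) = (x : H ⧸ C) := Iff.rfl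
  rw [this, QuotientGroup.eq, ← inv_mem_iff]
  simp [mul_assoc]

open Classical in
lemma card_eq_sum_genC (C : Subgroup H) (h : H) [Fintype (Subgroup H)] :
    Nat.card {x : H // x⁻¹ * h * x ∈ C} =
      ∑ B ∈ Finset.univ.filter (fun B : Subgroup H => B ≤ C), genC B h := by
  have := Fintype.ofFinite H
  rw [Nat.card_eq_fintype_card, Fintype.card_subtype]
  rw [Finset.card_eq_sum_card_fiberwise (f := fun x : H => Subgroup.zpowers (x⁻¹ * h * x))
    (t := Finset.univ.filter (fun B : Subgroup H => B ≤ C))]
  · apply Finset.sum_congr rfl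
    intro B hB
    rw [genC, Nat.card_eq_fintype_card, Fintype.card_subtype, Finset.filter_filter]
    congr 1
    apply Finset.filter_congr
    intro x _
    constructor
    · exact fun h => h.2
    · intro hx
      refine ⟨?_, hx⟩
      have h1 := (Finset.mem_filter.1 hB).2
      rw [← hx, Subgroup.zpowers_le] at h1
      exact h1
  · intro x hx
    have h1 := (Finset.mem_filter.1 hx).2
    simp only [Finset.coe_filter, Finset.mem_univ, true_and, Set.mem_ofPred_eq]
    rw [Subgroup.zpowers_le]
    exact h1

open Classical in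
/-- `genC C` is an integral combination of the permutation characters of the cyclic subgroups. -/
lemma exists_genC_eq [Fintype (Subgroup H)] (C : Subgroup H) :
    ∃ a : Subgroup H → ℤ, (∀ B : Subgroup H, ¬ IsCyclic B → a B = 0) ∧
      ∀ h, (genC C h : ℤ) = ∑ B, a B * fixC B h := by
  induction C using WellFoundedLT.induction with
  | ind C ih =>
    by_cases hC : IsCyclic C
    · choose! f hf0 hf using ih
      refine ⟨fun B => (if B = C then (Nat.card C : ℤ) else 0) -
        ∑ D ∈ Finset.univ.filter (fun D : Subgroup H => D < C), f D B, ?_, ?_⟩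
      · intro B hB
        have h1 : B ≠ C := fun h => hB (h ▸ hC)
        beta_reduce
        rw [if_neg h1, zero_sub, neg_eq_zero]
        apply Finset.sum_eq_zero
        intro D hD
        exact hf0 D (Finset.mem_filter.1 hD).2 B hB
      · intro h
        have h1 := card_eq_sum_genC C h
        rw [card_mul_fixC] at h1
        have h2 : Finset.univ.filter (fun B : Subgroup H => B ≤ C) =
            insert C (Finset.univ.filter (fun B : Subgroup H => B < C)) := by
          ext B
          simp only [Finset.mem_filter, Finset.mem_univ, true_and, Finset.mem_insert]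
          rw [le_iff_eq_or_lt]
        rw [h2, Finset.sum_insert (by simp)] at h1
        have h3 : (Nat.card C : ℤ) * fixC C h = genC C h +
            ∑ D ∈ Finset.univ.filter (fun D : Subgroup H => D < C), (genC D h : ℤ) := by
          exact_mod_cast h1
        have h4 : ∑ D ∈ Finset.univ.filter (fun D : Subgroup H => D < C), (genC D h : ℤ) =
            ∑ B, (∑ D ∈ Finset.univ.filter (fun D : Subgroup H => D < C), f D B) * fixC B h := by
          simp only [Finset.sum_mul]
          rw [Finset.sum_comm]
          apply Finset.sum_congr rfl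
          intro D hD
          exact hf D (Finset.mem_filter.1 hD).2 h
        simp only [sub_mul, Finset.sum_sub_distrib, ite_mul, zero_mul, Finset.sum_ite_eq',
          Finset.mem_univ, if_true]
        rw [← h4, h3]
        ring
    · refine ⟨0, by simp, ?_⟩
      intro h
      have : genC C h = 0 := by
        rw [genC, Nat.card_eq_zero]
        left
        constructor
        rintro ⟨x, hx⟩
        apply hC
        rw [← hx]
        infer_instance
      simp [this]

open Classical in
/-- Artin's theorem for the trivial character. -/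
lemma artin [Fintype (Subgroup H)] :
    ∃ a : Subgroup H → ℤ, (∀ B : Subgroup H, ¬ IsCyclic B → a B = 0) ∧
      ∀ h, (Nat.card H : ℤ) = ∑ B, a B * fixC B h := by
  choose f hf0 hf using fun C : Subgroup H => exists_genC_eq C
  refine ⟨fun B => ∑ C, f C B, ?_, ?_⟩
  · intro B hB
    apply Finset.sum_eq_zero
    intro C _
    exact hf0 C B hB
  · intro h
    have h1 := card_eq_sum_genC (⊤ : Subgroup H) h
    have h2 : Nat.card {x : H // x⁻¹ * h * x ∈ (⊤ : Subgroup H)} = Nat.card H :=
      Nat.card_congr (Equiv.subtypeUnivEquiv (fun x => Subgroup.mem_top _))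
    rw [h2] at h1
    have h3 : (Nat.card H : ℤ) = ∑ C : Subgroup H, (genC C h : ℤ) := by
      rw [h1]
      push_cast
      apply Finset.sum_congr _ (fun _ _ => rfl)
      ext B; simp
    rw [h3]
    simp only [Finset.sum_mul]
    rw [Finset.sum_comm]
    apply Finset.sum_congr rfl
    intro C _
    exact hf C h

end Artin

section Families

universe v

variable {H : Type v} [Group H]

/-- The action of `H` on a disjoint union of sets `H / C i`. -/
@[instance_reducible]
def sigmaAct {a : ℕ} (C : Fin a → Subgroup H) : MulAction H (Σ i, H ⧸ C i) where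
  smul h y := ⟨y.1, h • y.2⟩
  one_smul y := by
    show (⟨y.1, (1 : H) • y.2⟩ : Σ i, H ⧸ C i) = y
    rw [one_smul]
  mul_smul g h y := by
    show (⟨y.1, (g * h) • y.2⟩ : Σ i, H ⧸ C i) = ⟨y.1, g • h • y.2⟩
    rw [mul_smul]

/-- The action of `H` on the disjoint union of `m` points and sets `H / C j`. -/
@[instance_reducible]
def sumAct (m : ℕ) {b : ℕ} (C : Fin b → Subgroup H) : MulAction H (Fin m ⊕ Σ j, H ⧸ C j) where
  smul h x := Sum.map id (fun z => ⟨z.1, h • z.2⟩) x
  one_smul x := by
    show Sum.map id (fun z : Σ j, H ⧸ C j => (⟨z.1, (1 : H) • z.2⟩ : Σ j, H ⧸ C j)) x = x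
    rcases x with x | x
    · rfl
    · simp
  mul_smul g h x := by
    show Sum.map id (fun z : Σ j, H ⧸ C j => (⟨z.1, (g * h) • z.2⟩ : Σ j, H ⧸ C j)) x =
      Sum.map id (fun z : Σ j, H ⧸ C j => (⟨z.1, g • z.2⟩ : Σ j, H ⧸ C j))
        (Sum.map id (fun z : Σ j, H ⧸ C j => (⟨z.1, h • z.2⟩ : Σ j, H ⧸ C j)) x)
    rcases x with x | x
    · rfl
    · simp [mul_smul]

lemma card_fix_sigma [Finite H] {a : ℕ} (C : Fin a → Subgroup H) (h : H) :
    Nat.card {y : Σ i, H ⧸ C i // (⟨y.1, h • y.2⟩ : Σ i, H ⧸ C i) = y} = ∑ i, fixC (C i) h := by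
  have e : {y : Σ i, H ⧸ C i // (⟨y.1, h • y.2⟩ : Σ i, H ⧸ C i) = y} ≃
      Σ i, {z : H ⧸ C i // h • z = z} :=
    { toFun := fun y => ⟨y.1.1, ⟨y.1.2, by
        have h1 := y.2
        rw [Sigma.ext_iff] at h1
        exact eq_of_heq h1.2⟩⟩
      invFun := fun z => ⟨⟨z.1, z.2.1⟩, by
        have h1 := z.2.2
        rw [Sigma.ext_iff]
        exact ⟨rfl, heq_of_eq h1⟩⟩
      left_inv := fun y => rfl
      right_inv := fun z => rfl }
  rw [Nat.card_congr e, Nat.card_sigma]
  rfl

lemma card_fix_sum [Finite H] (m : ℕ) {b : ℕ} (C : Fin b → Subgroup H) (h : H) :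
    Nat.card {x : Fin m ⊕ Σ j, H ⧸ C j //
      Sum.map id (fun z : Σ j, H ⧸ C j => (⟨z.1, h • z.2⟩ : Σ j, H ⧸ C j)) x = x} =
      m + ∑ i, fixC (C i) h := by
  rw [← card_fix_sigma C h]
  have e : {x : Fin m ⊕ Σ j, H ⧸ C j //
      Sum.map id (fun z : Σ j, H ⧸ C j => (⟨z.1, h • z.2⟩ : Σ j, H ⧸ C j)) x = x} ≃
      Fin m ⊕ {y : Σ i, H ⧸ C i // (⟨y.1, h • y.2⟩ : Σ i, H ⧸ C i) = y} :=
    { toFun := fun x => match x with
        | ⟨Sum.inl i, _⟩ => Sum.inl i
        | ⟨Sum.inr y, hy⟩ => Sum.inr ⟨y, Sum.inr_injective hy⟩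
      invFun := fun x => match x with
        | Sum.inl i => ⟨Sum.inl i, rfl⟩
        | Sum.inr y => ⟨Sum.inr y.1, congrArg Sum.inr y.2⟩
      left_inv := by rintro ⟨x | x, hx⟩ <;> rfl
      right_inv := by rintro (x | x) <;> rfl }
  rw [Nat.card_congr e, Nat.card_sum, Nat.card_fin]

/-- A finite family of cyclic subgroups with prescribed multiplicities. -/
lemma exists_family [Finite H] [Fintype (Subgroup H)] (n : Subgroup H → ℕ)
    (hn : ∀ B : Subgroup H, ¬ IsCyclic B → n B = 0) :
    ∃ (a : ℕ) (C : Fin a → Subgroup H), (∀ i, IsCyclic (C i)) ∧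
      ∀ f : Subgroup H → ℤ, ∑ i, f (C i) = ∑ B, n B * f B := by
  classical
  refine ⟨Fintype.card (Σ B : Subgroup H, Fin (n B)),
    fun i => ((Fintype.equivFin (Σ B : Subgroup H, Fin (n B))).symm i).1, ?_, ?_⟩
  · intro i
    by_contra hc
    have h1 := hn _ hc
    have h2 := ((Fintype.equivFin (Σ B : Subgroup H, Fin (n B))).symm i).2
    rw [h1] at h2
    exact h2.elim0
  · intro f
    rw [Equiv.sum_comp (Fintype.equivFin (Σ B : Subgroup H, Fin (n B))).symm
      (fun z : (Σ B : Subgroup H, Fin (n B)) => f z.1), Fintype.sum_sigma]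
    apply Finset.sum_congr rfl
    intro B _
    simp

end Families

end RMod

universe v

open RMod in
/-- Module R. -/
theorem specR : SpecR.{v} := by
  intro H _ _
  classical
  have : Fintype (Subgroup H) := Fintype.ofFinite _
  have : Fintype H := Fintype.ofFinite _
  obtain ⟨A, hA0, hA⟩ := artin (H := H)
  obtain ⟨a, C, hC, hCf⟩ := exists_family (fun B : Subgroup H => (A B).toNat)
    (fun B hB => by simp [hA0 B hB])
  obtain ⟨b, C', hC', hCf'⟩ := exists_family (fun B : Subgroup H => (- A B).toNat)
    (fun B hB => by simp [hA0 B hB])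
  have hcyc : ∀ i, IsCyclic (C i) := hC
  let actY : MulAction H (Σ i, H ⧸ C i) := sigmaAct C
  let actX : MulAction H (Fin (Nat.card H) ⊕ Σ j, H ⧸ C' j) := sumAct (Nat.card H) C'
  let fX : Fintype (Fin (Nat.card H) ⊕ Σ j, H ⧸ C' j) := Fintype.ofFinite _
  let fY : Fintype (Σ i, H ⧸ C i) := Fintype.ofFinite _
  have hfix : ∀ h : H, (Finset.univ.filter fun x : Fin (Nat.card H) ⊕ Σ j, H ⧸ C' j =>
      h • x = x).card = (Finset.univ.filter fun y : Σ i, H ⧸ C i => h • y = y).card := by
    intro h
    have h1 := card_fix_sum (Nat.card H) C' h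
    have h2 := card_fix_sigma C h
    rw [Nat.card_eq_fintype_card, Fintype.card_subtype] at h1 h2
    have h3 : (Finset.univ.filter fun x : Fin (Nat.card H) ⊕ Σ j, H ⧸ C' j => h • x = x).card =
        Nat.card H + ∑ i, fixC (C' i) h := by
      rw [← h1]
      congr 1
    have h4 : (Finset.univ.filter fun y : Σ i, H ⧸ C i => h • y = y).card =
        ∑ i, fixC (C i) h := by
      rw [← h2]
      congr 1
    rw [h3, h4]
    have h5 := hCf (fun B => (fixC B h : ℤ))
    have h6 := hCf' (fun B => (fixC B h : ℤ))
    have h7 : ((Nat.card H + ∑ i, fixC (C' i) h : ℕ) : ℤ) = ((∑ i, fixC (C i) h : ℕ) : ℤ) := by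
      push_cast
      rw [h5, h6, hA h, ← Finset.sum_add_distrib]
      apply Finset.sum_congr rfl
      intro B _
      rw [← add_mul]
      congr 1
      have := Int.toNat_sub_toNat_neg (A B)
      linarith
    exact_mod_cast h7
  obtain ⟨F, F', d, hd, hFF', hF'F, hF⟩ := exists_intertwiner (H := H)
    (Fin (Nat.card H) ⊕ Σ j, H ⧸ C' j) (Σ i, H ⧸ C i) hfix
  refine ⟨Nat.card H, Nat.card_pos, a, b, C, C', hC, hC', Fin (Nat.card H) ⊕ Σ j, H ⧸ C' j,
    Σ i, H ⧸ C i, fX, fY, inferInstance, inferInstance, actX, actY, Equiv.refl _, Equiv.refl _,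
    fun h x => rfl, fun h y => rfl, F, F', d, hd, ?_, ?_, hF⟩
  · convert hFF'
  · convert hF'F

end Pool.Agent.Lib.MPb6f35e.WH
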