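import Pool.Agent.Lib.MP_b6f35e_al.WH.Deg
import Pool.Agent.Lib.MP_b6f35e_al.P.Log
import Pool.Agent.Lib.MP_b6f35e_al.P.SRpC

/-!
# Degree one: the final form in every characteristic (hive 30, MP_b6f35e_al)
-/

set_option autoImplicit false

namespace Pool.Agent.Lib.MPb6f35e.WH

universe u v

open Pool.Agent.Lib.MPb6f35e.W2

/-- Module P is complete. -/
theorem specMainP : P.SpecMainP.{u, v} :=
  P.specMainP (P.specGenP_of P.specSRp (P.specERp specK))

/-- The three clauses in any characteristic. -/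
theorem degree_one_all (R : Type u) [CommRing R] [IsDomain R]
    (hR : ∀ a : R, a ≠ 0 → Finite (R ⧸ Ideal.span {a})) (G : Type v) [Group G] :
    (∀ x : ColimK1 R G, IsOfFinAddOrder (toWh R G x) → IsOfFinAddOrder x) ∧
    (∀ (g : G) (x : ColimK1 R G), IsOfFinAddOrder (K1.unit (gUnit R g) + assembly R G x) →
      IsOfFinOrder (Abelianization.of g) ∧ IsOfFinAddOrder x) ∧
    (IsField R → CharZero R → ∀ (x : ColimK1 R G) (y : S2 R G),
      IsOfFinAddOrder (assembly R G x + asm2 R G y) →
        IsOfFinAddOrder x ∧ IsOfFinAddOrder y) :=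
  degree_one_of_P specMainP R hR G

end Pool.Agent.Lib.MPb6f35e.WH
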