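import Pool.Agent.Lib.MP_b6f35e_al.WH.SpecR

/-!
# Module L of WH (hive 30, MP_b6f35e_al): the logarithm of `1 + p ℤ_p[C]`

`theorem specLP : SpecLP`.
-/

set_option autoImplicit false

noncomputable section

namespace Pool.Agent.Lib.MPb6f35e.WH

universe v

open Finset Filter Topology

namespace LP

/-! ### commutative algebra -/

/-- `∑_{i<p} ∑_{l<i} y^l` is divisible by `p` if `y = 1 mod p` and `p` is odd. -/
lemma dvd_double_sum {A : Type*} [CommRing A] {p : ℕ} (hp : Odd p) {y : A}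
    (hy : (p : A) ∣ y - 1) : (p : A) ∣ ∑ i ∈ range p, ∑ l ∈ range i, y ^ l := by
  have h1 : (p : A) ∣ ∑ i ∈ range p, ∑ l ∈ range i, (y ^ l - 1) := by
    refine Finset.dvd_sum fun i _ => Finset.dvd_sum fun l _ => ?_
    exact hy.trans (sub_one_dvd_pow_sub_one y l)
  have h2 : (∑ i ∈ range p, ∑ l ∈ range i, (1 : A)) = (p : A) * ((p - 1) / 2 : ℕ) := by
    have e : ∀ i : ℕ, (∑ l ∈ range i, (1 : A)) = ((i : ℕ) : A) := by intro i; simp
    simp_rw [e]
    rw [← Nat.cast_sum, Finset.sum_range_id, ← Nat.cast_mul]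
    congr 1
    obtain ⟨m, rfl⟩ := hp
    have : 2 * m + 1 - 1 = 2 * m := by omega
    rw [this, Nat.mul_div_cancel_left _ (by norm_num : 0 < 2)]
    rw [show (2 * m + 1) * (2 * m) = 2 * ((2 * m + 1) * m) by ring]
    rw [Nat.mul_div_cancel_left _ (by norm_num : 0 < 2)]
  have h3 : (∑ i ∈ range p, ∑ l ∈ range i, y ^ l) =
      (∑ i ∈ range p, ∑ l ∈ range i, (y ^ l - 1)) + ∑ i ∈ range p, ∑ l ∈ range i, (1 : A) := by
    rw [← Finset.sum_add_distrib]
    refine Finset.sum_congr rfl fun i _ => ?_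
    rw [← Finset.sum_add_distrib]
    refine Finset.sum_congr rfl fun l _ => ?_
    ring
  rw [h3, h2]
  exact dvd_add h1 (dvd_mul_right _ _)

lemma pow_sub_one_sub {A : Type*} [CommRing A] (p : ℕ) (y : A) :
    y ^ p - 1 - (p : A) * (y - 1) =
      (y - 1) ^ 2 * ∑ i ∈ range p, ∑ l ∈ range i, y ^ l := by
  have h1 : y ^ p - 1 = (y - 1) * ∑ i ∈ range p, y ^ i := (mul_geom_sum y p).symm
  have h2 : ∀ i : ℕ, y ^ i - 1 = (y - 1) * ∑ l ∈ range i, y ^ l := fun i =>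
    (mul_geom_sum y i).symm
  have h3 : (∑ i ∈ range p, y ^ i) - (p : A) = ∑ i ∈ range p, (y ^ i - 1) := by
    rw [Finset.sum_sub_distrib]; simp
  calc y ^ p - 1 - (p : A) * (y - 1) = (y - 1) * ((∑ i ∈ range p, y ^ i) - (p : A)) := by
        rw [h1]; ring
    _ = (y - 1) * ∑ i ∈ range p, (y ^ i - 1) := by rw [h3]
    _ = (y - 1) * ∑ i ∈ range p, ((y - 1) * ∑ l ∈ range i, y ^ l) := by
        congr 1
        exact Finset.sum_congr rfl fun i _ => h2 i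
    _ = _ := by rw [← Finset.mul_sum]; ring

/-- `p^(2n+1) ∣ y^p - 1 - p (y - 1)` if `p^n ∣ y - 1`, `n ≥ 1`, `p` odd. -/
lemma dvd_step {A : Type*} [CommRing A] {p : ℕ} (hp : Odd p) {y : A} {n : ℕ} (hn : 1 ≤ n)
    (hy : (p : A) ^ n ∣ y - 1) : (p : A) ^ (2 * n + 1) ∣ y ^ p - 1 - (p : A) * (y - 1) := by
  rw [pow_sub_one_sub, pow_succ, mul_comm 2 n, pow_mul]
  refine mul_dvd_mul (pow_dvd_pow_of_dvd hy 2) (dvd_double_sum hp ?_)
  exact (dvd_pow_self _ (by omega)).trans hy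

/-- `p^(n+j) ∣ x^(p^j) - 1` if `p^n ∣ x - 1`. -/
lemma dvd_pow_sub_one {A : Type*} [CommRing A] {p : ℕ} (hp : Odd p) {x : A} {n : ℕ} (hn : 1 ≤ n)
    (hx : (p : A) ^ n ∣ x - 1) (j : ℕ) : (p : A) ^ (n + j) ∣ x ^ (p ^ j) - 1 := by
  induction j with
  | zero => simpa using hx
  | succ j ih =>
    have h1 := dvd_step hp (by omega) ih
    have h2 : x ^ (p ^ (j + 1)) - 1 = ((x ^ (p ^ j)) ^ p - 1 - (p : A) * (x ^ (p ^ j) - 1)) +
        (p : A) * (x ^ (p ^ j) - 1) := by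
      rw [← pow_mul, ← pow_succ]; ring
    rw [h2]
    refine dvd_add ((pow_dvd_pow _ (by omega)).trans h1) ?_
    rw [← add_assoc, pow_succ, mul_comm]
    exact mul_dvd_mul_left _ ih

/-! ### coefficients -/

variable {p : ℕ} [Fact p.Prime] {C : Type v} [CommGroup C]

lemma natCast_pow_mul_coeff (k : ℕ) (w : MonoidAlgebra ℤ_[p] C) (c : C) :
    (((p : MonoidAlgebra ℤ_[p] C) ^ k * w).coeff c : ℤ_[p]) = (p : ℤ_[p]) ^ k * w.coeff c := by
  have h : (p : MonoidAlgebra ℤ_[p] C) ^ k * w = ((p : ℤ_[p]) ^ k) • w := by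
    rw [Algebra.smul_def, map_pow, map_natCast]
  rw [h, MonoidAlgebra.coeff_smul_apply, smul_eq_mul]

lemma oneModP_iff (x : MonoidAlgebra ℤ_[p] C) :
    OneModP p x ↔ (p : MonoidAlgebra ℤ_[p] C) ^ 1 ∣ x - 1 := by
  have h : ∀ a : MonoidAlgebra ℤ_[p] C, (p : ℤ_[p]) • a = (p : MonoidAlgebra ℤ_[p] C) ^ 1 * a := by
    intro a
    rw [Algebra.smul_def, map_natCast, pow_one]
  constructor
  · rintro ⟨a, rfl⟩
    exact ⟨a, by rw [h]; ring⟩
  · rintro ⟨a, ha⟩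
    refine ⟨a, ?_⟩
    rw [h, ← ha]; ring

/-- Divisibility by `p^k` is a condition on the coefficients. -/
lemma dvd_of_coeff (k : ℕ) (z : MonoidAlgebra ℤ_[p] C)
    (h : ∀ c, (p : ℤ_[p]) ^ k ∣ z.coeff c) : (p : MonoidAlgebra ℤ_[p] C) ^ k ∣ z := by
  choose w hw using h
  classical
  have hz : z = ∑ c ∈ z.coeff.support, MonoidAlgebra.single c (z.coeff c) := by
    ext d
    rw [MonoidAlgebra.coeff_sum, Finsupp.finsetSum_apply]
    simp only [MonoidAlgebra.coeff_single, Finsupp.single_apply]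
    by_cases hd : d ∈ z.coeff.support
    · rw [Finset.sum_eq_single d]
      · simp
      · intro b _ hb; simp [hb]
      · intro hd'; exact absurd hd hd'
    · have h0 : z.coeff d = 0 := by simpa using hd
      rw [h0]
      symm
      refine Finset.sum_eq_zero fun b hb => ?_
      have : b ≠ d := by rintro rfl; exact hd hb
      simp [this]
  rw [hz]
  refine Finset.dvd_sum fun c _ => ?_
  refine ⟨MonoidAlgebra.single c (w c), ?_⟩
  ext d
  rw [natCast_pow_mul_coeff, hw c]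
  simp only [MonoidAlgebra.coeff_single, Finsupp.single_apply]
  split_ifs <;> simp

lemma lgSeqP_succ_sub {x : MonoidAlgebra ℤ_[p] C} (hp : Odd p) {n : ℕ} (hn : 1 ≤ n)
    (hx : (p : MonoidAlgebra ℤ_[p] C) ^ n ∣ x - 1) (c : C) (j : ℕ) :
    ‖lgSeqP p x c (j + 1) - lgSeqP p x c j‖ ≤ (p : ℝ)⁻¹ ^ (2 * n + j) := by
  have hp0 : (p : ℚ_[p]) ≠ 0 := by exact_mod_cast (Fact.out : p.Prime).ne_zero
  obtain ⟨w, hw⟩ := dvd_step hp (by omega) (dvd_pow_sub_one hp hn hx j)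
  have h1 : (x ^ (p ^ (j + 1)) - 1 : MonoidAlgebra ℤ_[p] C) =
      (p : MonoidAlgebra ℤ_[p] C) ^ (2 * (n + j) + 1) * w +
        (p : MonoidAlgebra ℤ_[p] C) ^ 1 * (x ^ (p ^ j) - 1) := by
    rw [← hw, ← pow_mul, ← pow_succ]; ring
  have h2 : ((x ^ (p ^ (j + 1)) - 1 : MonoidAlgebra ℤ_[p] C).coeff c : ℤ_[p]) =
      (p : ℤ_[p]) ^ (2 * (n + j) + 1) * w.coeff c +
        (p : ℤ_[p]) ^ 1 * (x ^ (p ^ j) - 1 : MonoidAlgebra ℤ_[p] C).coeff c := by
    rw [h1, MonoidAlgebra.coeff_add, Finsupp.add_apply, natCast_pow_mul_coeff,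
      natCast_pow_mul_coeff]
  have h3 : lgSeqP p x c (j + 1) - lgSeqP p x c j =
      (p : ℚ_[p]) ^ (2 * n + j) * ((w.coeff c : ℤ_[p]) : ℚ_[p]) := by
    unfold lgSeqP
    rw [h2]
    push_cast
    rw [show 2 * (n + j) + 1 = (2 * n + j) + (j + 1) by ring]
    field_simp
    ring
  rw [h3, norm_mul, norm_pow, Padic.norm_p]
  have h4 : ‖((w.coeff c : ℤ_[p]) : ℚ_[p])‖ ≤ 1 := PadicInt.norm_le_one _
  calc _ ≤ ((p : ℝ)⁻¹) ^ (2 * n + j) * 1 := by
        refine mul_le_mul_of_nonneg_left h4 (by positivity)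
    _ = _ := by rw [mul_one]

lemma exists_tendsto {x : MonoidAlgebra ℤ_[p] C} (hp : Odd p)
    (hx : (p : MonoidAlgebra ℤ_[p] C) ^ 1 ∣ x - 1) (c : C) :
    ∃ l, Tendsto (lgSeqP p x c) atTop (𝓝 l) := by
  have hr : (p : ℝ)⁻¹ < 1 := by
    have : (1 : ℝ) < p := by exact_mod_cast (Fact.out : p.Prime).one_lt
    exact inv_lt_one_of_one_lt₀ this
  have hc : CauchySeq (lgSeqP p x c) := by
    refine cauchySeq_of_le_geometric ((p : ℝ)⁻¹) ((p : ℝ)⁻¹ ^ 2) hr fun j => ?_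
    rw [dist_comm, dist_eq_norm]
    have := lgSeqP_succ_sub hp (le_refl 1) hx c j
    rw [← pow_add]
    simpa using this
  exact cauchySeq_tendsto_of_complete hc

lemma tendsto_lgP {x : MonoidAlgebra ℤ_[p] C} (hp : Odd p)
    (hx : (p : MonoidAlgebra ℤ_[p] C) ^ 1 ∣ x - 1) (c : C) :
    Tendsto (lgSeqP p x c) atTop (𝓝 (lgP p x c)) := by
  have h := exists_tendsto hp hx c
  unfold lgP
  rw [dif_pos h]
  exact h.choose_spec

/-- The logarithm is `x - 1` modulo `p^(2n)`. -/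
lemma lgP_sub {x : MonoidAlgebra ℤ_[p] C} (hp : Odd p) {n : ℕ} (hn : 1 ≤ n)
    (hx : (p : MonoidAlgebra ℤ_[p] C) ^ n ∣ x - 1) (c : C) :
    ‖lgP p x c - (((x - 1 : MonoidAlgebra ℤ_[p] C).coeff c : ℤ_[p]) : ℚ_[p])‖ ≤
      (p : ℝ)⁻¹ ^ (2 * n) := by
  have hr : (p : ℝ)⁻¹ ≤ 1 := by
    have : (1 : ℝ) ≤ p := by exact_mod_cast (Fact.out : p.Prime).one_lt.le
    exact inv_le_one_of_one_le₀ this
  have h0 : lgSeqP p x c 0 = (((x - 1 : MonoidAlgebra ℤ_[p] C).coeff c : ℤ_[p]) : ℚ_[p]) := by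
    unfold lgSeqP; simp
  have h1 : ∀ j, ‖lgSeqP p x c j - lgSeqP p x c 0‖ ≤ (p : ℝ)⁻¹ ^ (2 * n) := by
    intro j
    induction j with
    | zero => simp
    | succ j ih =>
      have e : lgSeqP p x c (j + 1) - lgSeqP p x c 0 =
          (lgSeqP p x c (j + 1) - lgSeqP p x c j) + (lgSeqP p x c j - lgSeqP p x c 0) := by ring
      rw [e]
      refine (Padic.nonarchimedean _ _).trans (max_le ?_ ih)
      refine (lgSeqP_succ_sub hp hn hx c j).trans ?_
      exact pow_le_pow_of_le_one (by positivity) hr (by omega)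
  have hx1 : (p : MonoidAlgebra ℤ_[p] C) ^ 1 ∣ x - 1 := (pow_dvd_pow _ hn).trans hx
  have h2 : Tendsto (fun j => ‖lgSeqP p x c j - lgSeqP p x c 0‖) atTop
      (𝓝 ‖lgP p x c - lgSeqP p x c 0‖) :=
    ((tendsto_lgP hp hx1 c).sub_const _).norm
  rw [← h0]
  exact le_of_tendsto h2 (Filter.Eventually.of_forall h1)

lemma dvd_of_lgP_zero {x : MonoidAlgebra ℤ_[p] C} (hp : Odd p) {n : ℕ} (hn : 1 ≤ n)
    (hx : (p : MonoidAlgebra ℤ_[p] C) ^ n ∣ x - 1) (h0 : ∀ c, lgP p x c = 0) :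
    (p : MonoidAlgebra ℤ_[p] C) ^ (n + 1) ∣ x - 1 := by
  apply dvd_of_coeff
  intro c
  have h := lgP_sub hp hn hx c
  rw [h0 c, zero_sub, norm_neg] at h
  have h2 : ‖((x - 1 : MonoidAlgebra ℤ_[p] C).coeff c : ℤ_[p])‖ ≤ (p : ℝ) ^ (-((n + 1 : ℕ) : ℤ)) := by
    rw [PadicInt.norm_def]
    refine h.trans ?_
    rw [zpow_neg, zpow_natCast, ← inv_pow]
    have hr : (p : ℝ)⁻¹ ≤ 1 := by
      have : (1 : ℝ) ≤ p := by exact_mod_cast (Fact.out : p.Prime).one_lt.le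
      exact inv_le_one_of_one_le₀ this
    exact pow_le_pow_of_le_one (by positivity) hr (by omega)
  rw [PadicInt.norm_le_pow_iff_mem_span_pow, Ideal.mem_span_singleton] at h2
  exact h2

lemma eq_one_of_lgP_zero {x : MonoidAlgebra ℤ_[p] C} (hp : Odd p)
    (hx : (p : MonoidAlgebra ℤ_[p] C) ^ 1 ∣ x - 1) (h0 : ∀ c, lgP p x c = 0) : x = 1 := by
  have hn : ∀ n : ℕ, (p : MonoidAlgebra ℤ_[p] C) ^ (n + 1) ∣ x - 1 := by
    intro n
    induction n with
    | zero => exact hx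
    | succ n ih => exact dvd_of_lgP_zero hp (by omega) ih h0
  have h1 : x - 1 = 0 := by
    ext c
    have hc : ∀ n : ℕ, ‖((x - 1 : MonoidAlgebra ℤ_[p] C).coeff c : ℤ_[p])‖ ≤ (p : ℝ)⁻¹ ^ n := by
      intro n
      obtain ⟨w, hw⟩ := hn n
      rw [hw, natCast_pow_mul_coeff, norm_mul, norm_pow, PadicInt.norm_p]
      have h4 : ‖w.coeff c‖ ≤ 1 := PadicInt.norm_le_one _
      have hr : (p : ℝ)⁻¹ ≤ 1 := by
        have : (1 : ℝ) ≤ p := by exact_mod_cast (Fact.out : p.Prime).one_lt.le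
        exact inv_le_one_of_one_le₀ this
      calc _ ≤ ((p : ℝ)⁻¹) ^ (n + 1) * 1 := mul_le_mul_of_nonneg_left h4 (by positivity)
        _ ≤ _ := by rw [mul_one]; exact pow_le_pow_of_le_one (by positivity) hr (by omega)
    have ht : Tendsto (fun n : ℕ => (p : ℝ)⁻¹ ^ n) atTop (𝓝 0) := by
      apply tendsto_pow_atTop_nhds_zero_of_lt_one (by positivity)
      have : (1 : ℝ) < p := by exact_mod_cast (Fact.out : p.Prime).one_lt
      exact inv_lt_one_of_one_lt₀ this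
    have h5 : ‖((x - 1 : MonoidAlgebra ℤ_[p] C).coeff c : ℤ_[p])‖ ≤ 0 :=
      ge_of_tendsto ht (Filter.Eventually.of_forall hc)
    simpa using norm_le_zero_iff.1 h5
  exact sub_eq_zero.1 h1

lemma lgP_mul {x y : MonoidAlgebra ℤ_[p] C} (hp : Odd p)
    (hx : (p : MonoidAlgebra ℤ_[p] C) ^ 1 ∣ x - 1) (hy : (p : MonoidAlgebra ℤ_[p] C) ^ 1 ∣ y - 1)
    (c : C) : lgP p (x * y) c = lgP p x c + lgP p y c := by
  have hp0 : (p : ℚ_[p]) ≠ 0 := by exact_mod_cast (Fact.out : p.Prime).ne_zero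
  have hxy : (p : MonoidAlgebra ℤ_[p] C) ^ 1 ∣ x * y - 1 := by
    have : x * y - 1 = (x - 1) * y + (y - 1) := by ring
    rw [this]
    exact dvd_add (hx.mul_right _) hy
  have h1 : ∀ j, ‖lgSeqP p (x * y) c j - (lgSeqP p x c j + lgSeqP p y c j)‖ ≤
      (p : ℝ)⁻¹ ^ j := by
    intro j
    obtain ⟨w, hw⟩ := mul_dvd_mul (dvd_pow_sub_one hp (le_refl 1) hx j)
      (dvd_pow_sub_one hp (le_refl 1) hy j)
    have e : ((x * y) ^ (p ^ j) - 1 : MonoidAlgebra ℤ_[p] C) =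
        (p : MonoidAlgebra ℤ_[p] C) ^ ((1 + j) + (1 + j)) * w +
          ((x ^ (p ^ j) - 1) + (y ^ (p ^ j) - 1)) := by
      rw [pow_add, ← hw, mul_pow]; ring
    have e2 : (((x * y) ^ (p ^ j) - 1 : MonoidAlgebra ℤ_[p] C).coeff c : ℤ_[p]) =
        (p : ℤ_[p]) ^ ((1 + j) + (1 + j)) * w.coeff c +
          ((x ^ (p ^ j) - 1 : MonoidAlgebra ℤ_[p] C).coeff c +
            (y ^ (p ^ j) - 1 : MonoidAlgebra ℤ_[p] C).coeff c) := by
      rw [e, MonoidAlgebra.coeff_add, Finsupp.add_apply, natCast_pow_mul_coeff,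
        MonoidAlgebra.coeff_add, Finsupp.add_apply]
    have e3 : lgSeqP p (x * y) c j - (lgSeqP p x c j + lgSeqP p y c j) =
        (p : ℚ_[p]) ^ (j + 2) * ((w.coeff c : ℤ_[p]) : ℚ_[p]) := by
      unfold lgSeqP
      rw [e2]
      push_cast
      rw [show (1 + j) + (1 + j) = (j + 2) + j by ring]
      field_simp
      ring
    rw [e3, norm_mul, norm_pow, Padic.norm_p]
    have h4 : ‖((w.coeff c : ℤ_[p]) : ℚ_[p])‖ ≤ 1 := PadicInt.norm_le_one _
    have hr : (p : ℝ)⁻¹ ≤ 1 := by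
      have : (1 : ℝ) ≤ p := by exact_mod_cast (Fact.out : p.Prime).one_lt.le
      exact inv_le_one_of_one_le₀ this
    calc _ ≤ ((p : ℝ)⁻¹) ^ (j + 2) * 1 := mul_le_mul_of_nonneg_left h4 (by positivity)
      _ ≤ _ := by rw [mul_one]; exact pow_le_pow_of_le_one (by positivity) hr (by omega)
  have ht : Tendsto (fun n : ℕ => (p : ℝ)⁻¹ ^ n) atTop (𝓝 0) := by
    apply tendsto_pow_atTop_nhds_zero_of_lt_one (by positivity)
    have : (1 : ℝ) < p := by exact_mod_cast (Fact.out : p.Prime).one_lt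
    exact inv_lt_one_of_one_lt₀ this
  have h2 : Tendsto (fun j => lgSeqP p (x * y) c j - (lgSeqP p x c j + lgSeqP p y c j)) atTop
      (𝓝 0) := squeeze_zero_norm h1 ht
  have h3 : Tendsto (fun j => lgSeqP p (x * y) c j - (lgSeqP p x c j + lgSeqP p y c j)) atTop
      (𝓝 (lgP p (x * y) c - (lgP p x c + lgP p y c))) :=
    (tendsto_lgP hp hxy c).sub ((tendsto_lgP hp hx c).add (tendsto_lgP hp hy c))
  exact sub_eq_zero.1 (tendsto_nhds_unique h3 h2)

end LP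

open LP in
theorem specLP : SpecLP.{v} where
  tends p _ hp2 C _ x hx c :=
    tendsto_lgP ((Fact.out : p.Prime).odd_of_ne_two hp2) ((oneModP_iff x).1 hx) c
  mul p _ hp2 C _ x y hx hy c :=
    lgP_mul ((Fact.out : p.Prime).odd_of_ne_two hp2) ((oneModP_iff x).1 hx)
      ((oneModP_iff y).1 hy) c
  inj p _ hp2 C _ x hx h :=
    eq_one_of_lgP_zero ((Fact.out : p.Prime).odd_of_ne_two hp2) ((oneModP_iff x).1 hx) h
  map p _ hp2 C C' _ _ φ hφ x hx := by
    have key : ∀ j : ℕ, ((MonoidAlgebra.mapDomainRingHom ℤ_[p] φ x) ^ (p ^ j) - 1 :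
        MonoidAlgebra ℤ_[p] C') =
        MonoidAlgebra.mapDomainRingHom ℤ_[p] φ (x ^ (p ^ j) - 1) := by
      intro j
      rw [map_sub, map_pow, map_one]
    constructor
    · intro c
      have h : lgSeqP p (MonoidAlgebra.mapDomainRingHom ℤ_[p] φ x) (φ c) = lgSeqP p x c := by
        funext j
        unfold lgSeqP
        have : (MonoidAlgebra.mapDomainRingHom ℤ_[p] φ (x ^ (p ^ j) - 1) :
            MonoidAlgebra ℤ_[p] C').coeff (φ c) = (x ^ (p ^ j) - 1).coeff c := by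
          show (MonoidAlgebra.mapDomain φ (x ^ (p ^ j) - 1)).coeff (φ c) = _
          rw [MonoidAlgebra.coeff_mapDomain]
          exact Finsupp.mapDomain_apply hφ _ _
        rw [key j, this]
      unfold lgP
      rw [h]
    · intro c' hc'
      have h : lgSeqP p (MonoidAlgebra.mapDomainRingHom ℤ_[p] φ x) c' = fun _ => 0 := by
        funext j
        unfold lgSeqP
        rw [key j]
        have : (MonoidAlgebra.mapDomainRingHom ℤ_[p] φ (x ^ (p ^ j) - 1) :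
            MonoidAlgebra ℤ_[p] C').coeff c' = 0 := by
          show (MonoidAlgebra.mapDomain φ (x ^ (p ^ j) - 1)).coeff c' = _
          rw [MonoidAlgebra.coeff_mapDomain]
          exact Finsupp.mapDomain_of_notMem_range _ _ hc'
        rw [this]
        simp
      have hx' : (p : MonoidAlgebra ℤ_[p] C') ^ 1 ∣
          MonoidAlgebra.mapDomainRingHom ℤ_[p] φ x - 1 := by
        obtain ⟨w, hw⟩ := (oneModP_iff x).1 hx
        refine ⟨MonoidAlgebra.mapDomainRingHom ℤ_[p] φ w, ?_⟩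
        rw [← map_one (MonoidAlgebra.mapDomainRingHom ℤ_[p] φ), ← map_sub, hw, map_mul, map_pow,
          map_natCast]
      have ht := tendsto_lgP ((Fact.out : p.Prime).odd_of_ne_two hp2) hx' c'
      rw [h] at ht
      exact tendsto_nhds_unique ht tendsto_const_nhds

end Pool.Agent.Lib.MPb6f35e.WH
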