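import Pool.Agent.Lib.MP_b6f35e_al.WH.SpecR

/-!
# The norm `K[C]ˣ → K[D]ˣ` and the logarithm (module L2')
-/

set_option autoImplicit false

noncomputable section

namespace Pool.Agent.Lib.MPb6f35e.WH

universe u v w

namespace L2

open MonoidAlgebra

variable (K : Type u) [CommRing K] {C : Type v} [CommGroup C] (D : Subgroup C)

/-- Representatives of the cosets. -/
abbrev rp (i : C ⧸ D) : C := Quotient.out i

lemma rp_mk (i : C ⧸ D) : (QuotientGroup.mk (rp D i) : C ⧸ D) = i := Quotient.out_eq' i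

lemma mem_of_eq {c : C} {i j : C ⧸ D} (h : (QuotientGroup.mk c : C ⧸ D) * j = i) :
    (rp D i)⁻¹ * c * rp D j ∈ D := by
  rw [mul_assoc]
  apply QuotientGroup.eq.1
  rw [QuotientGroup.mk_mul, rp_mk, rp_mk, h]

open Classical in
/-- The matrix of the multiplication by `c`. -/
def pm (c : C) : Matrix (C ⧸ D) (C ⧸ D) (MonoidAlgebra K D) :=
  Matrix.of fun i j => if h : (QuotientGroup.mk c : C ⧸ D) * j = i then
    MonoidAlgebra.single (⟨(rp D i)⁻¹ * c * rp D j, mem_of_eq D h⟩ : D) 1 else 0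

variable [Finite C]

noncomputable instance instFintypeQuot : Fintype (C ⧸ D) := Fintype.ofFinite _

omit [Finite C] in
open Classical in
lemma pm_one : pm K D (1 : C) = 1 := by
  ext1 i j
  simp only [pm, Matrix.of_apply, QuotientGroup.mk_one, one_mul, Matrix.one_apply]
  by_cases h : j = i
  · subst h
    simp only [dif_pos, if_true, MonoidAlgebra.one_def]
    congr 1
    apply Subtype.ext
    simp
  · rw [dif_neg h, if_neg (fun h' => h h'.symm)]

open Classical in
lemma pm_mul (c c' : C) : pm K D (c * c') = pm K D c * pm K D c' := by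
  ext1 i k
  rw [Matrix.mul_apply, Finset.sum_eq_single ((QuotientGroup.mk c' : C ⧸ D) * k)]
  · simp only [pm, Matrix.of_apply, dif_pos]
    by_cases h : (QuotientGroup.mk (c * c') : C ⧸ D) * k = i
    · have h' : (QuotientGroup.mk c : C ⧸ D) * ((QuotientGroup.mk c' : C ⧸ D) * k) = i := by
        rw [← mul_assoc, ← QuotientGroup.mk_mul, h]
      rw [dif_pos h, dif_pos h', MonoidAlgebra.single_mul_single, mul_one]
      congr 1
      apply Subtype.ext
      show (rp D i)⁻¹ * (c * c') * rp D k = (rp D i)⁻¹ * c * rp D _ * ((rp D _)⁻¹ * c' * rp D k)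
      group
    · have h' : ¬ (QuotientGroup.mk c : C ⧸ D) * ((QuotientGroup.mk c' : C ⧸ D) * k) = i := by
        rw [← mul_assoc, ← QuotientGroup.mk_mul]
        exact h
      rw [dif_neg h, dif_neg h', zero_mul]
  · intro j _ hj
    have h : pm K D c' j k = 0 := dif_neg (fun h => hj h.symm)
    rw [h, mul_zero]
  · intro h
    exact absurd (Finset.mem_univ _) h

open Classical in
/-- The multiplication matrices, as a homomorphism. -/
def pmHom : C →* Matrix (C ⧸ D) (C ⧸ D) (MonoidAlgebra K D) where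
  toFun := pm K D
  map_one' := pm_one K D
  map_mul' := pm_mul K D

open Classical in
/-- The regular representation of `K[C]` over `K[D]`. -/
def rho : MonoidAlgebra K C →+* Matrix (C ⧸ D) (C ⧸ D) (MonoidAlgebra K D) :=
  (MonoidAlgebra.lift K (Matrix (C ⧸ D) (C ⧸ D) (MonoidAlgebra K D)) C (pmHom K D)).toRingHom

open Classical in
lemma rho_single (c : C) (z : K) : rho K D (MonoidAlgebra.single c z) = z • pm K D c := by
  show (MonoidAlgebra.lift K (Matrix (C ⧸ D) (C ⧸ D) (MonoidAlgebra K D)) C (pmHom K D))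
    (MonoidAlgebra.single c z) = _
  rw [MonoidAlgebra.lift_single]
  rfl

open Classical in
lemma rho_smul (z : K) (a : MonoidAlgebra K C) : rho K D (z • a) = z • rho K D a :=
  map_smul (MonoidAlgebra.lift K (Matrix (C ⧸ D) (C ⧸ D) (MonoidAlgebra K D)) C (pmHom K D)) z a

open Classical in
lemma trace_pm (c : C) (d : D) : (Matrix.trace (pm K D c)).coeff d =
    (D.index : K) * (MonoidAlgebra.single c (1 : K)).coeff (d : C) := by
  rw [Matrix.trace]
  by_cases hc : c ∈ D
  · have h1 : ∀ i : C ⧸ D, (pm K D c).diag i = MonoidAlgebra.single (⟨c, hc⟩ : D) (1 : K) := by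
      intro i
      have h2 : (QuotientGroup.mk c : C ⧸ D) * i = i := by
        rw [(QuotientGroup.eq_one_iff c).2 hc, one_mul]
      show (if h : (QuotientGroup.mk c : C ⧸ D) * i = i then
        MonoidAlgebra.single (⟨(rp D i)⁻¹ * c * rp D i, mem_of_eq D h⟩ : D) (1 : K) else 0) = _
      rw [dif_pos h2]
      congr 1
      apply Subtype.ext
      show (rp D i)⁻¹ * c * rp D i = c
      rw [mul_comm (rp D i)⁻¹ c, inv_mul_cancel_right]
    rw [Finset.sum_congr rfl fun i _ => h1 i, Finset.sum_const, Finset.card_univ]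
    rw [MonoidAlgebra.coeff_smul, Finsupp.smul_apply, nsmul_eq_mul]
    congr 1
    · rw [Subgroup.index, Nat.card_eq_fintype_card]
    · rw [MonoidAlgebra.coeff_single, MonoidAlgebra.coeff_single, Finsupp.single_apply,
        Finsupp.single_apply]
      congr 1
      rw [eq_iff_iff, Subtype.ext_iff]
  · have h1 : ∀ i : C ⧸ D, (pm K D c).diag i = 0 := by
      intro i
      refine dif_neg fun h2 => hc ?_
      rw [← QuotientGroup.eq_one_iff]
      exact mul_eq_right.1 h2
    have h3 : ¬ c = (d : C) := fun h => hc (by rw [h]; exact d.2)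
    rw [Finset.sum_congr rfl fun i _ => h1 i, Finset.sum_const_zero, MonoidAlgebra.coeff_single,
      Finsupp.single_apply, if_neg h3, mul_zero]
    rfl

open Classical in
lemma trace_rho (a : MonoidAlgebra K C) (d : D) : (Matrix.trace (rho K D a)).coeff d =
    (D.index : K) * a.coeff (d : C) := by
  induction a using MonoidAlgebra.induction_linear with
  | zero => simp
  | add a b ha hb =>
    rw [map_add, Matrix.trace_add, MonoidAlgebra.coeff_add, Finsupp.add_apply, ha, hb,
      MonoidAlgebra.coeff_add, Finsupp.add_apply, mul_add]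
  | single c z =>
    rw [rho_single, Matrix.trace_smul, MonoidAlgebra.coeff_smul, Finsupp.smul_apply, trace_pm]
    have : MonoidAlgebra.single c z = z • MonoidAlgebra.single c (1 : K) := by
      rw [MonoidAlgebra.smul_single, smul_eq_mul, mul_one]
    rw [this, MonoidAlgebra.coeff_smul, Finsupp.smul_apply, smul_eq_mul, smul_eq_mul]
    ring

open Classical in
lemma det_one_add {n : Type v} [Fintype n] [DecidableEq n] {A : Type w} [CommRing A] (q : A)
    (M : Matrix n n A) : ∃ b : A, (1 + q • M).det = 1 + q * M.trace + q ^ 2 * b := by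
  refine ⟨(Polynomial.eval q (Matrix.det (1 + (Polynomial.X : Polynomial A) •
    M.map Polynomial.C)).divX.divX), ?_⟩
  rw [Matrix.det_one_add_smul]
  ring

open Classical in
lemma det_rho (q : K) (a : MonoidAlgebra K C) : ∃ b : MonoidAlgebra K D,
    (rho K D (1 + q • a)).det = 1 + q • Matrix.trace (rho K D a) + (q ^ 2) • b := by
  obtain ⟨b, hb⟩ := det_one_add (algebraMap K (MonoidAlgebra K D) q) (rho K D a)
  refine ⟨b, ?_⟩
  rw [map_add, map_one, rho_smul, ← algebraMap_smul (MonoidAlgebra K D) q (rho K D a), hb,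
    Algebra.smul_def q, Algebra.smul_def (q ^ 2), map_pow]

open Classical in
/-- The norm. -/
def nrm : (MonoidAlgebra K C)ˣ →* (MonoidAlgebra K D)ˣ :=
  Units.map (Matrix.detMonoidHom.comp (rho K D).toMonoidHom)

variable {K}

open Classical in
lemma rho_map {K' : Type w} [CommRing K'] (f : K →+* K') (a : MonoidAlgebra K C) :
    rho K' D (MonoidAlgebra.mapRingHom C f a) =
      (rho K D a).map (MonoidAlgebra.mapRingHom D f) := by
  induction a using MonoidAlgebra.induction_linear with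
  | zero => simp
  | add a b ha hb =>
    rw [map_add, map_add, ha, hb, map_add, Matrix.map_add]
    intro x y
    rw [map_add]
  | single c z =>
    rw [MonoidAlgebra.mapRingHom_single, rho_single, rho_single]
    ext1 i j
    rw [Matrix.map_apply, Matrix.smul_apply, Matrix.smul_apply]
    simp only [pm, Matrix.of_apply]
    split_ifs with h
    · rw [MonoidAlgebra.smul_single, MonoidAlgebra.smul_single, MonoidAlgebra.mapRingHom_single,
        smul_eq_mul, smul_eq_mul, mul_one, mul_one]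
    · rw [smul_zero, smul_zero, map_zero]

open Classical in
lemma nrm_map {K' : Type w} [CommRing K'] (f : K →+* K') (x : (MonoidAlgebra K C)ˣ) :
    MonoidAlgebra.mapRingHom D f (nrm K D x : MonoidAlgebra K D) =
      (rho K' D (MonoidAlgebra.mapRingHom C f (x : MonoidAlgebra K C))).det := by
  show MonoidAlgebra.mapRingHom D f (rho K D (x : MonoidAlgebra K C)).det = _
  rw [rho_map, RingHom.map_det]
  rfl

end L2

open L2 in
open Classical in
/-- The norm of `x = 1 mod p` and its logarithm, over `ℤ_p`. -/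
theorem lgP_nrm (hL : SpecLP.{v}) (p : ℕ) [Fact p.Prime] (hp : p ≠ 2) (C : Type v) [CommGroup C]
    [Finite C] (D : Subgroup C) (x : MonoidAlgebra ℤ_[p] C) (hx : OneModP p x) :
    OneModP p (rho ℤ_[p] D x).det ∧
      ∀ d : D, lgP p (rho ℤ_[p] D x).det d = (D.index : ℚ_[p]) * lgP p x (d : C) := by
  have hpr : p.Prime := Fact.out
  have hy : OneModP p (rho ℤ_[p] D x).det := by
    obtain ⟨a, ha⟩ := hx
    obtain ⟨b, hb⟩ := det_rho ℤ_[p] D (p : ℤ_[p]) a
    refine ⟨Matrix.trace (rho ℤ_[p] D a) + (p : ℤ_[p]) • b, ?_⟩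
    rw [ha, hb, smul_add, smul_smul, sq, add_assoc]
  refine ⟨hy, fun d => ?_⟩
  have hx1 := hL.tends p hp C x hx (d : C)
  have hy1 := hL.tends p hp D (rho ℤ_[p] D x).det hy d
  have key : ∀ j : ℕ, ∃ z : ℤ_[p], lgSeqP p (rho ℤ_[p] D x).det d j -
      (D.index : ℚ_[p]) * lgSeqP p x d j = (p : ℚ_[p]) ^ (j + 2) * (z : ℚ_[p]) := by
    intro j
    obtain ⟨a, ha⟩ : ∃ a : MonoidAlgebra ℤ_[p] C, x ^ (p ^ j) =
        1 + ((p : ℤ_[p]) ^ (j + 1)) • a := by
      obtain ⟨a₀, ha₀⟩ := hx
      have h1 : ((p : ℕ) : MonoidAlgebra ℤ_[p] C) ∣ x - 1 :=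
        ⟨a₀, by rw [ha₀, Algebra.smul_def, map_natCast]; ring⟩
      obtain ⟨a, ha⟩ := dvd_sub_pow_of_dvd_sub h1 j
      refine ⟨a, ?_⟩
      rw [one_pow] at ha
      rw [Algebra.smul_def, ← sub_eq_iff_eq_add', ha, map_pow, map_natCast]
    obtain ⟨b, hb⟩ := det_rho ℤ_[p] D ((p : ℤ_[p]) ^ (j + 1)) a
    refine ⟨b.coeff d, ?_⟩
    have h2 : (rho ℤ_[p] D x).det ^ (p ^ j) =
        1 + ((p : ℤ_[p]) ^ (j + 1)) • Matrix.trace (rho ℤ_[p] D a) +
          (((p : ℤ_[p]) ^ (j + 1)) ^ 2) • b := by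
      rw [← hb, ← ha, map_pow, Matrix.det_pow]
    have hp0 : (p : ℚ_[p]) ≠ 0 := by
      exact_mod_cast hpr.ne_zero
    have e1 : ((x ^ (p ^ j) - 1 : MonoidAlgebra ℤ_[p] C).coeff (d : C) : ℤ_[p]) =
        (p : ℤ_[p]) ^ (j + 1) * a.coeff (d : C) := by
      rw [ha, add_sub_cancel_left, MonoidAlgebra.coeff_smul, Finsupp.smul_apply, smul_eq_mul]
    have e2 : (((rho ℤ_[p] D x).det ^ (p ^ j) - 1 :
        MonoidAlgebra ℤ_[p] D).coeff d : ℤ_[p]) =
          (p : ℤ_[p]) ^ (j + 1) * ((D.index : ℤ_[p]) * a.coeff (d : C)) +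
          ((p : ℤ_[p]) ^ (j + 1)) ^ 2 * b.coeff d := by
      rw [h2, add_assoc, add_sub_cancel_left, MonoidAlgebra.coeff_add, Finsupp.add_apply,
        MonoidAlgebra.coeff_smul, Finsupp.smul_apply, MonoidAlgebra.coeff_smul,
        Finsupp.smul_apply, trace_rho, smul_eq_mul, smul_eq_mul]
    unfold lgSeqP
    rw [e1, e2]
    push_cast
    field_simp
    ring
  have hlim : Filter.Tendsto (fun j => lgSeqP p (rho ℤ_[p] D x).det d j -
      (D.index : ℚ_[p]) * lgSeqP p x d j) Filter.atTop (nhds 0) := by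
    refine squeeze_zero_norm (a := fun j => ((p : ℝ)⁻¹) ^ j) ?_ ?_
    · intro j
      obtain ⟨z, hz⟩ := key j
      rw [hz, norm_mul, norm_pow, Padic.norm_p]
      have h1 : ‖(z : ℚ_[p])‖ ≤ 1 := z.2
      have h2 : (0 : ℝ) ≤ (p : ℝ)⁻¹ := by positivity
      have h3 : (p : ℝ)⁻¹ ≤ 1 := by
        apply inv_le_one_of_one_le₀
        exact_mod_cast hpr.one_lt.le
      calc ((p : ℝ)⁻¹) ^ (j + 2) * ‖(z : ℚ_[p])‖ ≤ ((p : ℝ)⁻¹) ^ (j + 2) * 1 :=
            mul_le_mul_of_nonneg_left h1 (pow_nonneg h2 _)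
        _ = ((p : ℝ)⁻¹) ^ (j + 2) := mul_one _
        _ ≤ ((p : ℝ)⁻¹) ^ j := pow_le_pow_of_le_one h2 h3 (by omega)
    · apply tendsto_pow_atTop_nhds_zero_of_lt_one
      · positivity
      · apply inv_lt_one_of_one_lt₀
        exact_mod_cast hpr.one_lt
  have h5 := hy1.sub (hx1.const_mul (D.index : ℚ_[p]))
  have h6 := tendsto_nhds_unique h5 hlim
  exact sub_eq_zero.1 h6

open L2 in
/-- L2P. -/
theorem specL2P_of (hL : SpecLP.{v}) : SpecL2P.{u, v} := by
  intro p _ hp R₀ _ i C _ _ D x hx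
  classical
  have h := lgP_nrm hL p hp C D _ hx
  refine ⟨nrm R₀ D x, ?_, fun d => ?_⟩
  · rw [nrm_map]
    exact h.1
  · rw [nrm_map]
    exact h.2 d

end Pool.Agent.Lib.MPb6f35e.WH
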