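import Pool.Agent.Lib.MP_b6f35e_al.WH.SpecR

/-!
# If the product is torsion in the Whitehead group, the sum of the logarithms is zero (module L3')
-/

set_option autoImplicit false

noncomputable section

namespace Pool.Agent.Lib.MPb6f35e.WH

universe u v w

namespace L3

/-! ### the power map on conjugacy classes -/

section Pow

variable {G : Type v} [Group G]

lemma isConj_pow (q : ℕ) {a b : G} (h : IsConj a b) : IsConj (a ^ q) (b ^ q) := by
  rw [isConj_iff] at h ⊢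
  obtain ⟨c, hc⟩ := h
  refine ⟨c, ?_⟩
  rw [← hc, conj_pow]

/-- The power map on conjugacy classes. -/
def powCl (q : ℕ) : ConjClasses G → ConjClasses G :=
  Quotient.map (fun g => g ^ q) (fun _ _ h => isConj_pow q h)

lemma powCl_mk (q : ℕ) (g : G) : powCl q (ConjClasses.mk g) = ConjClasses.mk (g ^ q) := rfl

variable (p : ℕ) [Fact p.Prime]

/-- The power map on functions. -/
def Psi (q : ℕ) : (ConjClasses G →₀ ℚ_[p]) →+ (ConjClasses G →₀ ℚ_[p]) :=
  Finsupp.mapDomain.addMonoidHom (powCl q)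

lemma Psi_single (q : ℕ) (κ : ConjClasses G) (z : ℚ_[p]) :
    Psi p q (Finsupp.single κ z) = Finsupp.single (powCl q κ) z :=
  Finsupp.mapDomain_single

lemma Psi_Psi (q r : ℕ) (f : ConjClasses G →₀ ℚ_[p]) : Psi p q (Psi p r f) = Psi p (r * q) f := by
  induction f using Finsupp.induction_linear with
  | zero => simp
  | add f g hf hg => rw [map_add, map_add, hf, hg, map_add]
  | single κ z =>
    rw [Psi_single, Psi_single, Psi_single]
    congr 1
    induction κ using Quotient.inductionOn with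
    | h g =>
      show ConjClasses.mk ((g ^ r) ^ q) = ConjClasses.mk (g ^ (r * q))
      rw [pow_mul]

lemma Psi_one (f : ConjClasses G →₀ ℚ_[p]) : Psi p 1 f = f := by
  induction f using Finsupp.induction_linear with
  | zero => simp
  | add f g hf hg => rw [map_add, hf, hg]
  | single κ z =>
    rw [Psi_single]
    congr 1
    induction κ using Quotient.inductionOn with
    | h g =>
      show ConjClasses.mk (g ^ 1) = ConjClasses.mk g
      rw [pow_one]

lemma Psi_smul (q : ℕ) (z : ℚ_[p]) (f : ConjClasses G →₀ ℚ_[p]) :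
    Psi p q (z • f) = z • Psi p q f :=
  Finsupp.mapDomain_smul z f

lemma Psi_pushQ (q : ℕ) {C : Type v} [Group C] [Fintype C] (φ : C →* G) (f : C → ℚ_[p]) :
    Psi p q (pushQ p φ f) = ∑ c : C, Finsupp.single (ConjClasses.mk (φ (c ^ q))) (f c) := by
  rw [pushQ, map_sum]
  refine Finset.sum_congr rfl fun c _ => ?_
  rw [Psi_single, powCl_mk, map_pow]

/-- If `p S = Ψ_p S` for `S` a sum of images of finite groups, then `S = 0`. -/
lemma eq_zero_of_Psi {m : ℕ} (C : Fin m → Type v) [∀ i, Group (C i)] [∀ i, Fintype (C i)]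
    (φ : ∀ i, C i →* G) (f : ∀ i, C i → ℚ_[p])
    (h : (p : ℚ_[p]) • (∑ i, pushQ p (φ i) (f i)) = Psi p p (∑ i, pushQ p (φ i) (f i))) :
    ∑ i, pushQ p (φ i) (f i) = 0 := by
  have hpr : p.Prime := Fact.out
  set S := ∑ i, pushQ p (φ i) (f i) with hS
  have h1 : ∀ k : ℕ, ((p : ℚ_[p]) ^ k) • S = Psi p (p ^ k) S := by
    intro k
    induction k with
    | zero => rw [pow_zero, pow_zero, one_smul, Psi_one]
    | succ k ih =>
      rw [pow_succ' (p : ℚ_[p]), mul_smul, ih, ← Psi_smul, h, Psi_Psi, pow_succ']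
  obtain ⟨N, hN, hN0⟩ : ∃ N : ℕ, (∀ i, Fintype.card (C i) ∣ N) ∧ N ≠ 0 :=
    ⟨∏ i, Fintype.card (C i), fun i => Finset.dvd_prod_of_mem _ (Finset.mem_univ i),
      Finset.prod_ne_zero_iff.2 fun i _ => Fintype.card_ne_zero⟩
  have : NeZero N := ⟨hN0⟩
  obtain ⟨a, b, hab, hab2⟩ := Finite.exists_ne_map_eq_of_infinite (fun k : ℕ => (p : ZMod N) ^ k)
  have hab3 : p ^ a ≡ p ^ b [MOD N] := by
    rw [← ZMod.natCast_eq_natCast_iff]
    push_cast
    exact hab2
  have h2 : Psi p (p ^ a) S = Psi p (p ^ b) S := by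
    rw [hS, map_sum, map_sum]
    refine Finset.sum_congr rfl fun i _ => ?_
    rw [Psi_pushQ, Psi_pushQ]
    refine Finset.sum_congr rfl fun c _ => ?_
    have : c ^ (p ^ a) = c ^ (p ^ b) := by
      rw [pow_eq_pow_iff_modEq]
      exact hab3.of_dvd ((orderOf_dvd_card).trans (hN i))
    rw [this]
  rw [← h1, ← h1] at h2
  have h3 : ((p : ℚ_[p]) ^ a - (p : ℚ_[p]) ^ b) • S = 0 := by
    rw [sub_smul, h2, sub_self]
  rcases smul_eq_zero.1 h3 with h4 | h4
  · exfalso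
    rw [sub_eq_zero] at h4
    have h5 : p ^ a = p ^ b := by exact_mod_cast h4
    exact hab (Nat.pow_right_injective hpr.two_le h5)
  · exact h4

end Pow

/-! ### units congruent to one modulo `p` -/

section One

variable (p : ℕ) [Fact p.Prime] {C : Type v} [CommGroup C]

lemma exists_a (x : MonoidAlgebra ℤ_[p] C) (hx : OneModP p x) (j : ℕ) :
    ∃ a : MonoidAlgebra ℤ_[p] C, x ^ (p ^ j) = 1 + ((p : ℤ_[p]) ^ (j + 1)) • a := by
  obtain ⟨a₀, ha₀⟩ := hx
  have h1 : ((p : ℕ) : MonoidAlgebra ℤ_[p] C) ∣ x - 1 :=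
    ⟨a₀, by rw [ha₀, Algebra.smul_def, map_natCast]; ring⟩
  obtain ⟨a, ha⟩ := dvd_sub_pow_of_dvd_sub h1 j
  refine ⟨a, ?_⟩
  rw [one_pow] at ha
  rw [Algebra.smul_def, ← sub_eq_iff_eq_add', ha, map_pow, map_natCast]

variable {p}

lemma lgSeqP_eq {x a : MonoidAlgebra ℤ_[p] C} {j : ℕ}
    (h : x ^ (p ^ j) = 1 + ((p : ℤ_[p]) ^ (j + 1)) • a) (c : C) :
    lgSeqP p x c j = (p : ℚ_[p]) * ((a.coeff c : ℤ_[p]) : ℚ_[p]) := by
  have hp0 : (p : ℚ_[p]) ≠ 0 := by
    exact_mod_cast (Fact.out : p.Prime).ne_zero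
  rw [lgSeqP, h, add_sub_cancel_left, MonoidAlgebra.coeff_smul, Finsupp.smul_apply, smul_eq_mul]
  push_cast
  field_simp
  ring

lemma exists_b (x : (MonoidAlgebra ℤ_[p] C)ˣ) (e : ℕ) (a a' : MonoidAlgebra ℤ_[p] C)
    (ha : (x : MonoidAlgebra ℤ_[p] C) ^ (p ^ e) = 1 + ((p : ℤ_[p]) ^ (e + 1)) • a)
    (ha' : (x : MonoidAlgebra ℤ_[p] C) ^ (p ^ (e + 1)) = 1 + ((p : ℤ_[p]) ^ (e + 2)) • a') :
    ∃ b w : MonoidAlgebra ℤ_[p] C,
      (x : MonoidAlgebra ℤ_[p] C) ^ (p ^ (e + 1)) =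
          (powC ℤ_[p] C p x) ^ (p ^ e) * (1 + (p ^ (e + 1)) • b) ∧
      b = (p : ℤ_[p]) • a' - powC ℤ_[p] C p a + ((p : ℤ_[p]) ^ (e + 1)) • w := by
  obtain ⟨U, hU⟩ : ∃ U : (MonoidAlgebra ℤ_[p] C)ˣ, (U : MonoidAlgebra ℤ_[p] C) =
      (powC ℤ_[p] C p x) ^ (p ^ e) :=
    ⟨(Units.map (powC ℤ_[p] C p).toMonoidHom x) ^ (p ^ e), rfl⟩
  have hU1 : (U : MonoidAlgebra ℤ_[p] C) = 1 + ((p : ℤ_[p]) ^ (e + 1)) • powC ℤ_[p] C p a := by
    rw [hU, ← map_pow, ha, map_add, map_one]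
    congr 1
    rw [Algebra.smul_def, Algebra.smul_def, map_mul, map_pow, map_pow, map_natCast, map_natCast]
  have hUi : (U : MonoidAlgebra ℤ_[p] C) * ((U⁻¹ : (MonoidAlgebra ℤ_[p] C)ˣ) :
    MonoidAlgebra ℤ_[p] C) = 1 := U.mul_inv
  set V : MonoidAlgebra ℤ_[p] C := ((U⁻¹ : (MonoidAlgebra ℤ_[p] C)ˣ) : MonoidAlgebra ℤ_[p] C)
  refine ⟨V * ((p : ℤ_[p]) • a' - powC ℤ_[p] C p a),
    -(V * powC ℤ_[p] C p a * ((p : ℤ_[p]) • a' - powC ℤ_[p] C p a)), ?_, ?_⟩
  · rw [← hU, ha', mul_add, mul_one]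
    rw [← Nat.cast_smul_eq_nsmul ℤ_[p]]
    have h1 : (U : MonoidAlgebra ℤ_[p] C) * (((p ^ (e + 1) : ℕ) : ℤ_[p]) •
        (V * ((p : ℤ_[p]) • a' - powC ℤ_[p] C p a))) = ((p : ℤ_[p]) ^ (e + 1)) •
          ((p : ℤ_[p]) • a' - powC ℤ_[p] C p a) := by
      rw [mul_smul_comm, ← mul_assoc, hUi, one_mul]
      push_cast
      rfl
    rw [h1, hU1, smul_sub, smul_smul, ← pow_succ]
    abel
  · have h2 : V = 1 - ((p : ℤ_[p]) ^ (e + 1)) • (V * powC ℤ_[p] C p a) := by
      have h3 : V * (U : MonoidAlgebra ℤ_[p] C) = 1 := by rw [mul_comm]; exact hUi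
      rw [hU1, mul_add, mul_one, mul_smul_comm] at h3
      rw [← h3, add_sub_cancel_right]
    have h4 : V * ((p : ℤ_[p]) • a' - powC ℤ_[p] C p a) =
        (1 - ((p : ℤ_[p]) ^ (e + 1)) • (V * powC ℤ_[p] C p a)) *
          ((p : ℤ_[p]) • a' - powC ℤ_[p] C p a) := by
      rw [← h2]
    rw [h4, sub_mul, one_mul, smul_neg, smul_mul_assoc, sub_eq_add_neg]

/-! ### evaluation at a class -/

open Classical in
/-- The sum of the coefficients over `{c | g c = κ}`. -/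
def ev (p : ℕ) [Fact p.Prime] {C : Type v} [CommGroup C] [Fintype C] {G : Type w}
    (g : C → G) (κ : G) : MonoidAlgebra ℤ_[p] C →ₗ[ℤ_[p]] ℤ_[p] where
  toFun x := ∑ c, if g c = κ then x.coeff c else 0
  map_add' x y := by
    rw [← Finset.sum_add_distrib]
    refine Finset.sum_congr rfl fun c _ => ?_
    split_ifs
    · rw [MonoidAlgebra.coeff_add, Finsupp.add_apply]
    · rw [add_zero]
  map_smul' z x := by
    rw [RingHom.id_apply, Finset.smul_sum]
    refine Finset.sum_congr rfl fun c _ => ?_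
    split_ifs
    · rw [MonoidAlgebra.coeff_smul, Finsupp.smul_apply]
    · rw [smul_zero]

open Classical in
/-- The sum of the values over `{c | g c = κ}`. -/
def evQ (p : ℕ) [Fact p.Prime] {C : Type v} [Fintype C] {G : Type w}
    (g : C → G) (κ : G) (f : C → ℚ_[p]) : ℚ_[p] := ∑ c, if g c = κ then f c else 0

lemma ev_apply [Fintype C] {G : Type w} [DecidableEq G] (g : C → G) (κ : G)
    (x : MonoidAlgebra ℤ_[p] C) : ev p g κ x = ∑ c, if g c = κ then x.coeff c else 0 := by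
  refine Finset.sum_congr rfl fun c _ => ?_
  by_cases h : g c = κ
  · rw [if_pos h, if_pos h]
  · rw [if_neg h, if_neg h]

omit [CommGroup C] in
lemma evQ_apply [Fintype C] {G : Type w} [DecidableEq G] (g : C → G) (κ : G)
    (f : C → ℚ_[p]) : evQ p g κ f = ∑ c, if g c = κ then f c else 0 := by
  refine Finset.sum_congr rfl fun c _ => ?_
  by_cases h : g c = κ
  · rw [if_pos h, if_pos h]
  · rw [if_neg h, if_neg h]

open Classical in
lemma ev_single [Fintype C] {G : Type w} (g : C → G) (κ : G) (d : C) (z : ℤ_[p]) :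
    ev p g κ (MonoidAlgebra.single d z) = if g d = κ then z else 0 := by
  show (∑ c, if g c = κ then (MonoidAlgebra.single d z).coeff c else 0) = _
  rw [Finset.sum_eq_single d]
  · rw [MonoidAlgebra.coeff_single, Finsupp.single_eq_same]
  · intro c _ hc
    rw [MonoidAlgebra.coeff_single, Finsupp.single_eq_of_ne hc, ite_self]
  · intro h
    exact absurd (Finset.mem_univ _) h

lemma ev_powC [Fintype C] {G : Type w} (g : C → G) (κ : G) (x : MonoidAlgebra ℤ_[p] C) :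
    ev p g κ (powC ℤ_[p] C p x) = ev p (fun c => g (c ^ p)) κ x := by
  classical
  induction x using MonoidAlgebra.induction_linear with
  | zero => simp
  | add x y hx hy => rw [map_add, map_add, hx, hy, map_add]
  | single c z =>
    have h1 : powC ℤ_[p] C p (MonoidAlgebra.single c z) = MonoidAlgebra.single (c ^ p) z := by
      simp [powC]
    rw [h1, ev_single, ev_single]

lemma evQ_coeff [Fintype C] {G : Type w} (g : C → G) (κ : G) (x : MonoidAlgebra ℤ_[p] C) :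
    evQ p g κ (fun c => ((x.coeff c : ℤ_[p]) : ℚ_[p])) = ((ev p g κ x : ℤ_[p]) : ℚ_[p]) := by
  classical
  show (∑ c, if g c = κ then ((x.coeff c : ℤ_[p]) : ℚ_[p]) else 0) =
    ((∑ c, if g c = κ then x.coeff c else 0 : ℤ_[p]) : ℚ_[p])
  rw [PadicInt.coe_sum]
  refine Finset.sum_congr rfl fun c _ => ?_
  split_ifs <;> simp

omit [CommGroup C] in
lemma evQ_mul [Fintype C] {G : Type w} (g : C → G) (κ : G) (z : ℚ_[p]) (f : C → ℚ_[p]) :
    evQ p g κ (fun c => z * f c) = z * evQ p g κ f := by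
  classical
  unfold evQ
  rw [Finset.mul_sum]
  refine Finset.sum_congr rfl fun c _ => ?_
  split_ifs <;> simp

lemma push_apply [Fintype C] {G : Type w} [Group G] (φ : C →* G) (N : ℕ)
    (b : MonoidAlgebra ℤ_[p] C) (κ : ConjClasses G) :
    push ℤ_[p] φ N b κ = Ideal.Quotient.mk (Ideal.span {(N : ℤ_[p])})
      (ev p (fun c => ConjClasses.mk (φ c)) κ b) := by
  classical
  rw [ev_apply, push, Finsupp.sum_fintype _ _ (fun c => by rw [map_zero, Finsupp.single_zero]),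
    Finsupp.finsetSum_apply, map_sum]
  refine Finset.sum_congr rfl fun c _ => ?_
  rw [Finsupp.single_apply]
  split_ifs <;> simp

lemma pushQ_apply [Fintype C] {G : Type w} [Group G] (φ : C →* G) (f : C → ℚ_[p])
    (κ : ConjClasses G) : pushQ p φ f κ = evQ p (fun c => ConjClasses.mk (φ c)) κ f := by
  classical
  rw [pushQ, evQ_apply]
  rw [Finsupp.finsetSum_apply]
  refine Finset.sum_congr rfl fun c _ => ?_
  exact Finsupp.single_apply

lemma Psi_pushQ_apply [Fintype C] {G : Type v} [Group G] (φ : C →* G) (f : C → ℚ_[p])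
    (κ : ConjClasses G) : Psi p p (pushQ p φ f) κ =
      evQ p (fun c => ConjClasses.mk (φ (c ^ p))) κ f := by
  classical
  rw [Psi_pushQ, evQ_apply]
  rw [Finsupp.finsetSum_apply]
  refine Finset.sum_congr rfl fun c _ => ?_
  exact Finsupp.single_apply

end One

/-! ### hypotheses on `ℤ_p` -/

lemma dvd_iff_toZMod (p : ℕ) [Fact p.Prime] (c : ℤ_[p]) :
    (p : ℤ_[p]) ∣ c ↔ PadicInt.toZMod c = 0 := by
  rw [← Ideal.mem_span_singleton, ← PadicInt.maximalIdeal_eq_span_p, ← PadicInt.ker_toZMod,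
    RingHom.mem_ker]

lemma frob (p : ℕ) [Fact p.Prime] (c : ℤ_[p]) : (p : ℤ_[p]) ∣ c ^ p - c := by
  rw [dvd_iff_toZMod, map_sub, map_pow, ZMod.pow_card, sub_self]

lemma tf (p : ℕ) [Fact p.Prime] (c : ℤ_[p]) (h : (p : ℤ_[p]) * c = 0) : c = 0 := by
  rcases mul_eq_zero.1 h with h1 | h1
  · exact absurd h1 (by exact_mod_cast (Fact.out : p.Prime).ne_zero)
  · exact h1

/-! ### limits -/

section Lim

variable {p : ℕ} [Fact p.Prime]

lemma evQ_sub {C : Type v} [Fintype C] {G : Type w} (g : C → G) (κ : G) (f f' : C → ℚ_[p]) :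
    evQ p g κ (fun c => f c - f' c) = evQ p g κ f - evQ p g κ f' := by
  classical
  rw [evQ_apply, evQ_apply, evQ_apply, ← Finset.sum_sub_distrib]
  refine Finset.sum_congr rfl fun c _ => ?_
  split_ifs <;> simp

lemma tendsto_evQ {C : Type v} [Fintype C] {G : Type w} (g : C → G) (κ : G)
    (f : ℕ → C → ℚ_[p]) (l : C → ℚ_[p])
    (h : ∀ c, Filter.Tendsto (fun j => f j c) Filter.atTop (nhds (l c))) :
    Filter.Tendsto (fun j => evQ p g κ (f j)) Filter.atTop (nhds (evQ p g κ l)) := by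
  classical
  unfold evQ
  refine tendsto_finsetSum _ fun c _ => ?_
  split_ifs
  · exact h c
  · exact tendsto_const_nhds

lemma tendsto_pow_mul (z : ℕ → ℤ_[p]) :
    Filter.Tendsto (fun j => (p : ℚ_[p]) ^ (j + 1) * ((z j : ℤ_[p]) : ℚ_[p])) Filter.atTop
      (nhds 0) := by
  have hpr : p.Prime := Fact.out
  refine squeeze_zero_norm (a := fun j => ((p : ℝ)⁻¹) ^ j) ?_ ?_
  · intro j
    rw [norm_mul, norm_pow, Padic.norm_p]
    have h1 : ‖((z j : ℤ_[p]) : ℚ_[p])‖ ≤ 1 := (z j).2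
    have h2 : (0 : ℝ) ≤ (p : ℝ)⁻¹ := by positivity
    have h3 : (p : ℝ)⁻¹ ≤ 1 := by
      apply inv_le_one_of_one_le₀
      exact_mod_cast hpr.one_lt.le
    calc ((p : ℝ)⁻¹) ^ (j + 1) * ‖((z j : ℤ_[p]) : ℚ_[p])‖ ≤ ((p : ℝ)⁻¹) ^ (j + 1) * 1 :=
          mul_le_mul_of_nonneg_left h1 (pow_nonneg h2 _)
      _ = ((p : ℝ)⁻¹) ^ (j + 1) := mul_one _
      _ ≤ ((p : ℝ)⁻¹) ^ j := pow_le_pow_of_le_one h2 h3 (by omega)
  · apply tendsto_pow_atTop_nhds_zero_of_lt_one
    · positivity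
    · apply inv_lt_one_of_one_lt₀
      exact_mod_cast hpr.one_lt

end Lim

end L3

open L3 in
/-- L3P. -/
theorem specL3P_of (hG : SpecG.{0, v}) (hL : SpecLP.{v}) : SpecL3P.{v} := by
  intro p _ hp G _ m C _ _ φ x hx hfin
  classical
  have hpr : p.Prime := Fact.out
  obtain ⟨n, hn, hn0⟩ := isOfFinAddOrder_iff_nsmul_eq_zero.1 hfin
  have hp0 : (p : ℚ_[p]) ≠ 0 := by exact_mod_cast hpr.ne_zero
  -- the logarithms
  set L : ∀ i, C i → ℚ_[p] := fun i => lgP p (x i : MonoidAlgebra ℤ_[p] (C i)) with hLdef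
  apply eq_zero_of_Psi p C φ L
  ext κ
  -- the finite level
  have key : ∀ e : ℕ, ∃ z : ℤ_[p],
      (n : ℚ_[p]) * ∑ i, (evQ p (fun c => ConjClasses.mk (φ i c)) κ
          (fun c => lgSeqP p (x i : MonoidAlgebra ℤ_[p] (C i)) c (e + 1)) -
        (p : ℚ_[p])⁻¹ * evQ p (fun c => ConjClasses.mk (φ i (c ^ p))) κ
          (fun c => lgSeqP p (x i : MonoidAlgebra ℤ_[p] (C i)) c e)) =
        (p : ℚ_[p]) ^ (e + 1) * (z : ℚ_[p]) := by
    intro e
    choose a ha using fun i => exists_a p (x i : MonoidAlgebra ℤ_[p] (C i)) (hx i) e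
    choose a' ha' using fun i => exists_a p (x i : MonoidAlgebra ℤ_[p] (C i)) (hx i) (e + 1)
    choose b w hb hw using fun i => exists_b (x i) e (a i) (a' i) (ha i) (ha' i)
    obtain ⟨Γ, hΓ1, hΓ2⟩ := hG ℤ_[p] G p e hpr hp (tf p) (frob p)
    have hΓ3 : ∀ y ∈ trivialUnits ℤ_[p] G, Γ y = 0 := by
      intro y hy
      have h1 : trivialUnits ℤ_[p] G ≤ Γ.ker := by
        unfold trivialUnits
        rw [AddSubgroup.closure_le]
        rintro y ⟨g, rfl | rfl⟩
        · exact (hΓ1 g).1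
        · exact (hΓ1 g).2
      exact h1 hy
    have h1 : n • (∑ i, K1.unit (Units.map (MonoidAlgebra.mapDomainRingHom ℤ_[p]
        (φ i)).toMonoidHom (x i))) ∈ trivialUnits ℤ_[p] G := by
      rw [← map_nsmul] at hn0
      exact (QuotientAddGroup.eq_zero_iff _).1 hn0
    have h2 := hΓ3 _ h1
    rw [map_nsmul, map_sum] at h2
    have h3 : ∀ i, Γ (K1.unit (Units.map (MonoidAlgebra.mapDomainRingHom ℤ_[p]
        (φ i)).toMonoidHom (x i))) = push ℤ_[p] (φ i) (p ^ (e + 1)) (b i) :=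
      fun i => hΓ2 (C i) (φ i) (x i) (b i) (hb i)
    rw [Finset.sum_congr rfl fun i _ => h3 i] at h2
    have h4 := DFunLike.congr_fun h2 κ
    rw [Finsupp.smul_apply, Finsupp.finsetSum_apply,
      Finset.sum_congr rfl fun i _ => push_apply (φ i) (p ^ (e + 1)) (b i) κ, ← map_sum,
      ← map_nsmul, Finsupp.zero_apply, Ideal.Quotient.eq_zero_iff_mem,
      Ideal.mem_span_singleton] at h4
    obtain ⟨z, hz⟩ := h4
    have h5 : ∀ i, evQ p (fun c => ConjClasses.mk (φ i c)) κ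
          (fun c => lgSeqP p (x i : MonoidAlgebra ℤ_[p] (C i)) c (e + 1)) -
        (p : ℚ_[p])⁻¹ * evQ p (fun c => ConjClasses.mk (φ i (c ^ p))) κ
          (fun c => lgSeqP p (x i : MonoidAlgebra ℤ_[p] (C i)) c e) =
        ((ev p (fun c => ConjClasses.mk (φ i c)) κ (b i) -
          (p : ℤ_[p]) ^ (e + 1) * ev p (fun c => ConjClasses.mk (φ i c)) κ (w i) : ℤ_[p]) :
            ℚ_[p]) := by
      intro i
      have e1 : (fun c => lgSeqP p (x i : MonoidAlgebra ℤ_[p] (C i)) c (e + 1)) =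
          fun c => (p : ℚ_[p]) * (((a' i).coeff c : ℤ_[p]) : ℚ_[p]) :=
        funext fun c => lgSeqP_eq (ha' i) c
      have e2 : (fun c => lgSeqP p (x i : MonoidAlgebra ℤ_[p] (C i)) c e) =
          fun c => (p : ℚ_[p]) * (((a i).coeff c : ℤ_[p]) : ℚ_[p]) :=
        funext fun c => lgSeqP_eq (ha i) c
      rw [e1, e2, evQ_mul, evQ_mul, evQ_coeff, evQ_coeff, hw i, map_add, map_sub, map_smul,
        map_smul, ev_powC, smul_eq_mul, smul_eq_mul, add_sub_cancel_right]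
      push_cast
      field_simp
    rw [Finset.sum_congr rfl fun i _ => h5 i, ← PadicInt.coe_sum]
    refine ⟨z - n * ∑ i, ev p (fun c => ConjClasses.mk (φ i c)) κ (w i), ?_⟩
    have h6 : (n : ℤ_[p]) * ∑ i, (ev p (fun c => ConjClasses.mk (φ i c)) κ (b i) -
          (p : ℤ_[p]) ^ (e + 1) * ev p (fun c => ConjClasses.mk (φ i c)) κ (w i)) =
        (p : ℤ_[p]) ^ (e + 1) * (z - n * ∑ i, ev p (fun c => ConjClasses.mk (φ i c)) κ (w i)) := by
      rw [nsmul_eq_mul] at hz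
      rw [Finset.sum_sub_distrib, mul_sub, hz, ← Finset.mul_sum]
      push_cast
      ring
    have h7 := congrArg (fun y : ℤ_[p] => (y : ℚ_[p])) h6
    push_cast at h7 ⊢
    exact h7
  choose z hz using key
  -- the limit
  have t1 : ∀ i c, Filter.Tendsto (fun e => lgSeqP p (x i : MonoidAlgebra ℤ_[p] (C i)) c (e + 1))
      Filter.atTop (nhds (L i c)) := fun i c =>
    (hL.tends p hp (C i) (x i : MonoidAlgebra ℤ_[p] (C i)) (hx i) c).comp
      (Filter.tendsto_add_atTop_nat 1)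
  have t2 : ∀ i c, Filter.Tendsto (fun e => lgSeqP p (x i : MonoidAlgebra ℤ_[p] (C i)) c e)
      Filter.atTop (nhds (L i c)) := fun i c =>
    hL.tends p hp (C i) (x i : MonoidAlgebra ℤ_[p] (C i)) (hx i) c
  have t3 : Filter.Tendsto (fun e => (n : ℚ_[p]) * ∑ i, (evQ p (fun c => ConjClasses.mk (φ i c)) κ
          (fun c => lgSeqP p (x i : MonoidAlgebra ℤ_[p] (C i)) c (e + 1)) -
        (p : ℚ_[p])⁻¹ * evQ p (fun c => ConjClasses.mk (φ i (c ^ p))) κ
          (fun c => lgSeqP p (x i : MonoidAlgebra ℤ_[p] (C i)) c e))) Filter.atTop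
      (nhds ((n : ℚ_[p]) * ∑ i, (evQ p (fun c => ConjClasses.mk (φ i c)) κ (L i) -
        (p : ℚ_[p])⁻¹ * evQ p (fun c => ConjClasses.mk (φ i (c ^ p))) κ (L i)))) := by
    refine Filter.Tendsto.const_mul _ (tendsto_finsetSum _ fun i _ => ?_)
    exact (tendsto_evQ _ κ _ _ (t1 i)).sub ((tendsto_evQ _ κ _ _ (t2 i)).const_mul _)
  have t4 := tendsto_pow_mul z
  have t5 : (n : ℚ_[p]) * ∑ i, (evQ p (fun c => ConjClasses.mk (φ i c)) κ (L i) -
        (p : ℚ_[p])⁻¹ * evQ p (fun c => ConjClasses.mk (φ i (c ^ p))) κ (L i)) = 0 := by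
    refine tendsto_nhds_unique t3 ?_
    refine t4.congr fun e => ?_
    exact (hz e).symm
  have hnQ : (n : ℚ_[p]) ≠ 0 := by exact_mod_cast hn.ne'
  have t6 := (mul_eq_zero.1 t5).resolve_left hnQ
  rw [Finset.sum_sub_distrib, ← Finset.mul_sum, sub_eq_zero] at t6
  rw [Finsupp.smul_apply, Finsupp.finsetSum_apply, map_sum, Finsupp.finsetSum_apply,
    Finset.sum_congr rfl fun i _ => pushQ_apply (φ i) (L i) κ,
    Finset.sum_congr rfl fun i _ => Psi_pushQ_apply (φ i) (L i) κ, t6, smul_eq_mul]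
  field_simp

end Pool.Agent.Lib.MPb6f35e.WH
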