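import Pool.Agent.Lib.MP_b6f35e_al.WH.E5
import Pool.Agent.Lib.MP_b6f35e_al.WH.CasD

/-!
MP_b6f35e_al, modules ER and CAS in the form of `WH/SpecR.lean`.
-/

set_option autoImplicit false

noncomputable section

namespace Pool.Agent.Lib.MPb6f35e.WH

universe u v

theorem specER (hK : SpecK.{max u v, 0}) : SpecER.{u, v} := by
  intro R _ hR C _ _ x
  exact EM.er_aux hK x

theorem specCAS : SpecCAS.{u} := by
  intro R _ _ _ S M
  obtain ⟨p, hp, hM, i, hi⟩ := MPb6f35eWH.CAS.exists_padic_embedding_adjoin S M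
  exact ⟨p, hp, i, hM, hi⟩

end Pool.Agent.Lib.MPb6f35e.WH
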