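import Pool.Agent.Lib.MP_b6f35e_al.WH.GK1

/-! # WH, module G, part 4: naturality and the value on commutative subgroups -/

set_option autoImplicit false
set_option linter.unusedSectionVars false

noncomputable section

namespace Pool.Agent.Lib.MPb6f35e.WH

universe u v w

variable {k : Type u} [CommRing k] {C G : Type v} [Group G]

/-- exterior product of `N` elements -/
def ten {G : Type v} [Group G] {N : ℕ} [NeZero N] (a : ZMod N → MonoidAlgebra k G) :
    MonoidAlgebra k (ZMod N → G) :=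
  tens k G (ZMod N) N (Matrix.of fun i _ => a i) id id

lemma ten_coeff {N : ℕ} [NeZero N] (a : ZMod N → MonoidAlgebra k G) (γ : ZMod N → G) :
    (ten a).coeff γ = ∏ j, (a j).coeff (γ j) := rfl

lemma tens_eq_ten {ι : Type} {N : ℕ} [NeZero N] (x : Matrix ι ι (MonoidAlgebra k G))
    (I J : ZMod N → ι) : tens k G ι N x I J = ten fun j => x (I j) (J j) := by
  ext γ
  rfl

open Classical in
lemma ten_eq_sum {N : ℕ} [NeZero N] (a : ZMod N → MonoidAlgebra k G) :
    ten a = ∑ γ ∈ Fintype.piFinset fun j => (a j).coeff.support,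
      MonoidAlgebra.single γ (∏ j, (a j).coeff (γ j)) := by
  ext δ
  rw [ten_coeff, MonoidAlgebra.coeff_sum, Finsupp.finsetSum_apply]
  by_cases h : δ ∈ Fintype.piFinset fun j => (a j).coeff.support
  · rw [Finset.sum_eq_single_of_mem δ h]
    · simp
    · intro γ _ hne
      simp [hne]
  · rw [Finset.sum_eq_zero]
    · rw [Fintype.mem_piFinset] at h
      push Not at h
      obtain ⟨j, hj⟩ := h
      rw [Finsupp.notMem_support_iff] at hj
      exact Finset.prod_eq_zero (Finset.mem_univ j) hj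
    · intro γ hγ
      have : γ ≠ δ := by rintro rfl; exact h hγ
      simp [this]

open Classical in
lemma coeff_mapDomain_sum [Group C] (φ : C →* G) (a : MonoidAlgebra k C) (d : G) :
    (MonoidAlgebra.mapDomainRingHom k φ a).coeff d =
      ∑ c ∈ a.coeff.support, if φ c = d then a.coeff c else 0 := by
  have h : a = ∑ c ∈ a.coeff.support, MonoidAlgebra.single c (a.coeff c) := by
    ext δ
    rw [MonoidAlgebra.coeff_sum, Finsupp.finsetSum_apply]
    by_cases h : δ ∈ a.coeff.support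
    · rw [Finset.sum_eq_single_of_mem δ h]
      · simp
      · intro γ _ hne
        simp [hne]
    · rw [Finset.sum_eq_zero]
      · rw [Finsupp.notMem_support_iff] at h
        exact h
      · intro γ hγ
        have : γ ≠ δ := by rintro rfl; exact h hγ
        simp [this]
  conv_lhs => rw [h]
  rw [map_sum, MonoidAlgebra.coeff_sum, Finsupp.finsetSum_apply]
  refine Finset.sum_congr rfl fun c _ => ?_
  simp [Finsupp.single_apply]

open Classical in
/-- (n2) -/
lemma map_ten [Group C] {N : ℕ} [NeZero N] (φ : C →* G) (a : ZMod N → MonoidAlgebra k C) :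
    MonoidAlgebra.mapDomainRingHom k (φ.compLeft (ZMod N)) (ten a) =
      ten fun j => MonoidAlgebra.mapDomainRingHom k φ (a j) := by
  ext δ
  rw [ten_coeff, ten_eq_sum, map_sum, MonoidAlgebra.coeff_sum, Finsupp.finsetSum_apply]
  conv_rhs => rw [Finset.prod_congr rfl fun j _ => coeff_mapDomain_sum φ (a j) (δ j)]
  rw [Finset.prod_univ_sum]
  refine Finset.sum_congr rfl fun γ _ => ?_
  rw [Finset.prod_ite_zero, MonoidAlgebra.mapDomainRingHom_apply, MonoidAlgebra.mapDomain_single,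
    MonoidAlgebra.coeff_single, Finsupp.single_apply]
  congr 1
  simp [funext_iff]

lemma prod_single {α : Type*} {C : Type v} [CommGroup C] (s : Finset α) (g : α → C) (c : α → k) :
    ∏ j ∈ s, MonoidAlgebra.single (g j) (c j) = MonoidAlgebra.single (∏ j ∈ s, g j) (∏ j ∈ s, c j) := by
  classical
  induction s using Finset.induction_on with
  | empty => simp [MonoidAlgebra.one_def]
  | insert x s hx ih =>
    rw [Finset.prod_insert hx, Finset.prod_insert hx, Finset.prod_insert hx, ih,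
      MonoidAlgebra.single_mul_single]

/-- the product homomorphism `C^N → C` -/
def prodH (C : Type v) [CommGroup C] (N : ℕ) [NeZero N] : (ZMod N → C) →* C where
  toFun γ := ∏ j, γ j
  map_one' := by simp
  map_mul' := by intro x y; simp [Finset.prod_mul_distrib]

open Classical in
/-- (c2) -/
lemma prod_ten {C : Type v} [CommGroup C] {N : ℕ} [NeZero N] (a : ZMod N → MonoidAlgebra k C) :
    MonoidAlgebra.mapDomainRingHom k (prodH C N) (ten a) = ∏ j, a j := by
  rw [ten_eq_sum, map_sum]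
  have h : ∀ a : MonoidAlgebra k C,
      a = ∑ c ∈ a.coeff.support, MonoidAlgebra.single c (a.coeff c) := by
    intro a
    ext δ
    rw [MonoidAlgebra.coeff_sum, Finsupp.finsetSum_apply]
    by_cases h : δ ∈ a.coeff.support
    · rw [Finset.sum_eq_single_of_mem δ h]
      · simp
      · intro γ _ hne
        simp [hne]
    · rw [Finset.sum_eq_zero]
      · rw [Finsupp.notMem_support_iff] at h
        exact h
      · intro γ hγ
        have : γ ≠ δ := by rintro rfl; exact h hγ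
        simp [this]
  conv_rhs => rw [Finset.prod_congr rfl fun j _ => h (a j)]
  rw [Finset.prod_univ_sum]
  refine Finset.sum_congr rfl fun γ _ => ?_
  rw [prod_single, MonoidAlgebra.mapDomainRingHom_apply, MonoidAlgebra.mapDomain_single]
  rfl

/-! ### naturality in the group -/

section nat

variable [Group C] (φ : C →* G) {ι : Type} [Fintype ι] [DecidableEq ι]

/-- The map of tensor power rings induced by `φ`. -/
def FT {N : ℕ} [NeZero N] : TR k C ι N →+* TR k G ι N :=
  (MonoidAlgebra.mapDomainRingHom k (φ.compLeft (ZMod N))).mapMatrix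

lemma FT_apply {N : ℕ} [NeZero N] (a : TR k C ι N) (I J : ZMod N → ι) :
    FT φ a I J = MonoidAlgebra.mapDomainRingHom k (φ.compLeft (ZMod N)) (a I J) := rfl

lemma FT_rot {N : ℕ} [NeZero N] (a : TR k C ι N) :
    FT φ (rot k C ι N a) = rot k G ι N (FT φ a) := by
  ext1 I J
  rw [FT_apply, rot_apply, rot_apply, FT_apply, ← RingHom.comp_apply, ← RingHom.comp_apply,
    ← MonoidAlgebra.mapDomainRingHom_comp, ← MonoidAlgebra.mapDomainRingHom_comp]
  rfl

lemma FT_rot_iter {N : ℕ} [NeZero N] (j : ℕ) (a : TR k C ι N) :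
    FT φ ((rot k C ι N)^[j] a) = (rot k G ι N)^[j] (FT φ a) := by
  induction j generalizing a with
  | zero => rfl
  | succ j ih => rw [Function.iterate_succ_apply, Function.iterate_succ_apply, ih, FT_rot]

lemma FT_nm {N : ℕ} [NeZero N] (M : ℕ) (a : TR k C ι N) :
    FT φ (nm (rot k C ι N) M a) = nm (rot k G ι N) M (FT φ a) := by
  simp only [nm, map_sum, FT_rot_iter]

lemma FT_pp {N : ℕ} [NeZero N] (M : ℕ) (a : TR k C ι N) :
    FT φ (pp (rot k C ι N) M a) = pp (rot k G ι N) M (FT φ a) := by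
  simp only [pp, map_sum, map_nsmul, FT_rot_iter]

lemma FT_tens {N : ℕ} [NeZero N] (x : Matrix ι ι (MonoidAlgebra k C)) :
    FT φ (tens k C ι N x) = tens k G ι N (x.map (MonoidAlgebra.mapDomainRingHom k φ)) := by
  ext1 I J
  rw [FT_apply, tens_eq_ten, map_ten, tens_eq_ten]
  rfl

lemma FT_dlt {p e : ℕ} [NeZero (p ^ e)] [NeZero (p ^ (e + 1))] (a : TR k C ι (p ^ e)) :
    FT φ (dlt k C ι p e a) = dlt k G ι p e (FT φ a) := by
  ext1 I J
  rw [FT_apply, dlt_apply, dlt_apply, map_sum]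
  refine Finset.sum_congr rfl fun J' _ => ?_
  split_ifs
  · rw [map_sum]
    refine Finset.sum_congr rfl fun I' _ => ?_
    split_ifs
    · rw [FT_apply, ← RingHom.comp_apply, ← RingHom.comp_apply,
        ← MonoidAlgebra.mapDomainRingHom_comp, ← MonoidAlgebra.mapDomainRingHom_comp]
      rfl
    · rw [map_zero]
  · rw [map_zero]

lemma FT_dhat {p e : ℕ} [NeZero (p ^ e)] [NeZero (p ^ (e + 1))]
    (x : Matrix ι ι (MonoidAlgebra k C)) :
    FT φ (dhat k C ι p e x) = dhat k G ι p e (x.map (MonoidAlgebra.mapDomainRingHom k φ)) := by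
  rw [dhat, dhat, map_add, map_sub, map_one, FT_dlt, FT_dlt, FT_tens, map_one]

/-- push forward of `HN` -/
def pH (N : ℕ) : HN k C N →+ HN k G N :=
  Finsupp.mapDomain.addMonoidHom (ConjClasses.map φ)

lemma cyc_map {N : ℕ} (γ : ZMod N → C) : cyc (fun j => φ (γ j)) = ConjClasses.map φ (cyc γ) := by
  show ConjClasses.mk _ = ConjClasses.mk (φ (((List.range N).map fun j : ℕ => γ (j : ZMod N)).prod))
  rw [map_list_prod, List.map_map]
  rfl

lemma cycHom_single {G : Type v} [Group G] {N : ℕ} (γ : ZMod N → G) (r : k) :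
    cycHom k G N (MonoidAlgebra.single γ r) =
      Finsupp.single (cyc γ) (Ideal.Quotient.mk (Ideal.span {(N : k)}) r) := by
  simp [cycHom]

lemma cycHom_map {N : ℕ} (a : MonoidAlgebra k (ZMod N → C)) :
    cycHom k G N (MonoidAlgebra.mapDomainRingHom k (φ.compLeft (ZMod N)) a) =
      pH φ N (cycHom k C N a) := by
  induction a using MonoidAlgebra.induction_linear with
  | zero => simp
  | add x y hx hy => simp only [map_add, hx, hy]
  | single γ r =>
    rw [MonoidAlgebra.mapDomainRingHom_apply, MonoidAlgebra.mapDomain_single, cycHom_single,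
      cycHom_single, pH, Finsupp.mapDomain.addMonoidHom_apply, Finsupp.mapDomain_single, ← cyc_map]
    rfl

lemma tau_FT {N : ℕ} [NeZero N] (a : TR k C ι N) :
    tau k G ι N (FT φ a) = pH φ N (tau k C ι N a) := by
  show ∑ I : ZMod N → ι, cycHom k G N (FT φ a I (sh I)) =
    pH φ N (∑ I : ZMod N → ι, cycHom k C N (a I (sh I)))
  rw [map_sum]
  exact Finset.sum_congr rfl fun I _ => cycHom_map φ _

lemma gam_nat {p e : ℕ} [NeZero (p ^ e)] [NeZero (p ^ (e + 1))] (hA : SpecA.{max u v, max u v})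
    (hT : SpecT.{u, v}) (hN : SpecN.{u, v}) (hk : Pk k p) (x : (Matrix ι ι (MonoidAlgebra k C))ˣ)
    (y : (Matrix ι ι (MonoidAlgebra k G))ˣ)
    (hy : (y : Matrix ι ι (MonoidAlgebra k G)) = (x : Matrix ι ι (MonoidAlgebra k C)).map
      (MonoidAlgebra.mapDomainRingHom k φ)) :
    gam (e := e) hT hN hk y = pH φ _ (gam hT hN hk x) := by
  obtain ⟨a, ha⟩ := ru_norm (e := e) hT hN hk x
  have hyi : ((y⁻¹ : (Matrix ι ι (MonoidAlgebra k G))ˣ) : Matrix ι ι (MonoidAlgebra k G)) =
      ((x⁻¹ : (Matrix ι ι (MonoidAlgebra k C))ˣ) : Matrix ι ι (MonoidAlgebra k C)).map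
        (MonoidAlgebra.mapDomainRingHom k φ) := by
    apply Units.inv_eq_of_mul_eq_one_right
    rw [hy, ← Matrix.map_mul, Units.mul_inv, Matrix.map_one _ (map_zero _) (map_one _)]
  have hr : FT φ (ru hT p e x : TR k C ι (p ^ (e + 1))) = ru hT p e y := by
    rw [ru_coe, ru_coe, map_mul, FT_tens, FT_dhat, ← hy, ← hyi]
  have hri : FT φ (((ru hT p e x)⁻¹ : (TR k C ι (p ^ (e + 1)))ˣ) : TR k C ι (p ^ (e + 1))) =
      (((ru hT p e y)⁻¹ : (TR k G ι (p ^ (e + 1)))ˣ) : TR k G ι (p ^ (e + 1))) := by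
    rw [ru_inv_coe, ru_inv_coe, map_mul, FT_tens, FT_dhat, ← hy, ← hyi]
  have ha' : nm (rot k G ι (p ^ (e + 1))) (p ^ (e + 1)) (FT φ a) =
      (ru hT p e y : TR k G ι (p ^ (e + 1))) - 1 := by
    rw [← FT_nm, ha, map_sub, hr, map_one]
  have hp : FT φ (a * (((ru hT p e x)⁻¹ : (TR k C ι (p ^ (e + 1)))ˣ) : TR k C ι (p ^ (e + 1))) *
      (1 - pp (rot k C ι (p ^ (e + 1))) (p ^ (e + 1)) a)) = FT φ a *
      FT φ (((ru hT p e x)⁻¹ : (TR k C ι (p ^ (e + 1)))ˣ) : TR k C ι (p ^ (e + 1))) *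
      (1 - pp (rot k G ι (p ^ (e + 1))) (p ^ (e + 1)) (FT φ a)) := by
    rw [map_mul, map_mul, map_sub, map_one, FT_pp]
  rw [gam_eq hA hT hN hk y _ ha', gam_eq hA hT hN hk x _ ha, lam, lam, ← hri, ← tau_FT, hp]

end nat

/-! ### commutative groups, `1 × 1` matrices -/

section comm

variable {C : Type v} [CommGroup C]

lemma prod_zmod {M : Type*} [CommMonoid M] {N : ℕ} [NeZero N] (f : ZMod N → M) :
    ∏ j, f j = ∏ j ∈ Finset.range N, f (j : ZMod N) := by
  refine Finset.prod_nbij' ZMod.val (fun j => (j : ZMod N)) ?_ ?_ ?_ ?_ ?_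
  · intro j _
    exact Finset.mem_range.2 (ZMod.val_lt j)
  · intro j _
    exact Finset.mem_univ _
  · intro j _
    exact ZMod.natCast_zmod_val j
  · intro j hj
    exact ZMod.val_cast_of_lt (Finset.mem_range.1 hj)
  · intro j _
    simp

lemma prod_periodic {M : Type*} [CommMonoid M] (n m : ℕ) (g : ℕ → M) (h : ∀ j, g (j + n) = g j) :
    ∏ j ∈ Finset.range (n * m), g j = (∏ j ∈ Finset.range n, g j) ^ m := by
  have h1 : ∀ m j, g (n * m + j) = g j := by
    intro m
    induction m with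
    | zero => intro j; simp
    | succ m ih => intro j; rw [Nat.mul_succ, add_assoc, add_comm n j, ← add_assoc, h, ih]
  induction m with
  | zero => simp
  | succ m ih =>
    rw [Nat.mul_succ, Finset.prod_range_add, ih, pow_succ]
    simp_rw [h1]

lemma list_prod_range {M : Type*} [CommMonoid M] (n : ℕ) (f : ℕ → M) :
    ((List.range n).map f).prod = ∏ j ∈ Finset.range n, f j := by
  induction n with
  | zero => simp
  | succ n ih => rw [List.range_succ, List.map_append, List.prod_append, ih,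
      Finset.prod_range_succ]; simp

lemma push_add {C G : Type v} [Group C] [Group G] (φ : C →* G) (N : ℕ) (x y : MonoidAlgebra k C) :
    push k φ N (x + y) = push k φ N x + push k φ N y := by
  unfold push
  rw [MonoidAlgebra.coeff_add, Finsupp.sum_add_index']
  · intro c; simp
  · intro c a b; rw [map_add, Finsupp.single_add]

lemma push_single {C G : Type v} [Group C] [Group G] (φ : C →* G) (N : ℕ) (c : C) (r : k) :
    push k φ N (MonoidAlgebra.single c r) =
      Finsupp.single (ConjClasses.mk (φ c)) (Ideal.Quotient.mk _ r) := by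
  unfold push
  rw [MonoidAlgebra.coeff_single, Finsupp.sum_single_index]
  simp

variable {ι : Type} [Fintype ι] [DecidableEq ι]

/-- `R → k[C]` for `1 × 1` matrices (index type `{i₀}`), `C` commutative. -/
def mC (i₀ : ι) {N : ℕ} [NeZero N] (a : TR k C ι N) : MonoidAlgebra k C :=
  MonoidAlgebra.mapDomainRingHom k (prodH C N) (a (fun _ => i₀) (fun _ => i₀))

lemma sum_one {i₀ : ι} (hi : ∀ i, i = i₀) {X M : Type*} [AddCommMonoid M] [Fintype (X → ι)]
    (f : (X → ι) → M) : ∑ I, f I = f (fun _ => i₀) := by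
  classical
  refine Fintype.sum_eq_single _ fun I hI => absurd (funext fun j => hi (I j)) hI

lemma mC_mul {i₀ : ι} (hi : ∀ i, i = i₀) {N : ℕ} [NeZero N] (a b : TR k C ι N) :
    mC i₀ (a * b) = mC i₀ a * mC i₀ b := by
  rw [mC, Matrix.mul_apply, sum_one hi, map_mul]
  rfl

lemma mC_add (i₀ : ι) {N : ℕ} [NeZero N] (a b : TR k C ι N) :
    mC i₀ (a + b) = mC i₀ a + mC i₀ b := by
  rw [mC, Matrix.add_apply, map_add]
  rfl

lemma mC_sub (i₀ : ι) {N : ℕ} [NeZero N] (a b : TR k C ι N) :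
    mC i₀ (a - b) = mC i₀ a - mC i₀ b := by
  rw [mC, Matrix.sub_apply, map_sub]
  rfl

lemma mC_one (i₀ : ι) {N : ℕ} [NeZero N] : mC i₀ (1 : TR k C ι N) = 1 := by
  rw [mC, Matrix.one_apply_eq, map_one]

lemma mC_sum (i₀ : ι) {N : ℕ} [NeZero N] {α : Type*} (s : Finset α) (a : α → TR k C ι N) :
    mC i₀ (∑ i ∈ s, a i) = ∑ i ∈ s, mC i₀ (a i) := by
  rw [mC, Matrix.sum_apply, map_sum]
  rfl

lemma mC_nsmul (i₀ : ι) {N : ℕ} [NeZero N] (n : ℕ) (a : TR k C ι N) :
    mC i₀ (n • a) = n • mC i₀ a := by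
  rw [mC, Matrix.smul_apply, map_nsmul]
  rfl

lemma mC_rot {i₀ : ι} {N : ℕ} [NeZero N] (a : TR k C ι N) : mC i₀ (rot k C ι N a) = mC i₀ a := by
  rw [mC, rot_apply, ← RingHom.comp_apply, ← MonoidAlgebra.mapDomainRingHom_comp]
  have h1 : (prodH C N).comp (rotG N C) = prodH C N := by
    refine MonoidHom.ext fun γ => ?_
    show ∏ j, γ (j - 1) = ∏ j, γ j
    exact Fintype.prod_equiv (Equiv.subRight 1) _ _ fun _ => rfl
  rw [h1]
  rfl

lemma mC_rot_iter {i₀ : ι} {N : ℕ} [NeZero N] (j : ℕ) (a : TR k C ι N) :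
    mC i₀ ((rot k C ι N)^[j] a) = mC i₀ a := by
  induction j generalizing a with
  | zero => rfl
  | succ j ih => rw [Function.iterate_succ_apply, ih, mC_rot]

lemma mC_nm (i₀ : ι) {N : ℕ} [NeZero N] (M : ℕ) (a : TR k C ι N) :
    mC i₀ (nm (rot k C ι N) M a) = M • mC i₀ a := by
  rw [nm, mC_sum, Finset.sum_congr rfl fun j _ => mC_rot_iter j a]
  simp

lemma mC_pp (i₀ : ι) {N : ℕ} [NeZero N] (M : ℕ) (a : TR k C ι N) :
    mC i₀ (pp (rot k C ι N) M a) = (∑ j ∈ Finset.range M, j) • mC i₀ a := by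
  rw [pp, mC_sum, Finset.sum_smul]
  refine Finset.sum_congr rfl fun j _ => ?_
  rw [mC_nsmul, mC_rot_iter]

lemma mC_tens (i₀ : ι) {N : ℕ} [NeZero N] (x : Matrix ι ι (MonoidAlgebra k C)) :
    mC i₀ (tens k C ι N x) = x i₀ i₀ ^ N := by
  rw [mC, tens_eq_ten, prod_ten, Finset.prod_const, Finset.card_univ, ZMod.card]

lemma mC_dlt {i₀ : ι} (hi : ∀ i, i = i₀) {p e : ℕ} [NeZero (p ^ e)] [NeZero (p ^ (e + 1))]
    (a : TR k C ι (p ^ e)) : mC i₀ (dlt k C ι p e a) = powC k C p (mC i₀ a) := by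
  rw [mC, dlt_apply, sum_one hi, if_pos rfl, sum_one hi,
    if_pos rfl, mC, powC, ← RingHom.comp_apply, ← RingHom.comp_apply,
    ← MonoidAlgebra.mapDomainRingHom_comp, ← MonoidAlgebra.mapDomainRingHom_comp]
  have h1 : (prodH C (p ^ (e + 1))).comp (repG p e C) =
      (powMonoidHom p).comp (prodH C (p ^ e)) := by
    refine MonoidHom.ext fun γ => ?_
    show ∏ j, γ (prj p e j) = (∏ j, γ j) ^ p
    have hc : ∀ j : ℕ, prj p e (j : ZMod (p ^ (e + 1))) = (j : ZMod (p ^ e)) := fun j =>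
      map_natCast (ZMod.castHom (pow_dvd_pow p (Nat.le_succ e)) (ZMod (p ^ e))) j
    rw [prod_zmod, prod_zmod, ← prod_periodic (p ^ e) p (fun j => γ (j : ZMod (p ^ e)))]
    · simp_rw [hc]
      rw [pow_succ]
    · intro j
      show γ _ = γ _
      rw [Nat.cast_add, ZMod.natCast_self, add_zero]
  rw [h1]

lemma mC_dhat {i₀ : ι} (hi : ∀ i, i = i₀) {p e : ℕ} [NeZero (p ^ e)] [NeZero (p ^ (e + 1))]
    (x : Matrix ι ι (MonoidAlgebra k C)) :
    mC i₀ (dhat k C ι p e x) = powC k C p (x i₀ i₀) ^ (p ^ e) := by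
  rw [dhat, mC_add, mC_sub, mC_dlt hi, mC_dlt hi, mC_one, mC_one, map_one, sub_self, add_zero,
    mC_tens, map_pow]

lemma cyc_comm {N : ℕ} [NeZero N] (γ : ZMod N → C) : cyc γ = ConjClasses.mk (∏ j, γ j) := by
  unfold cyc
  rw [prod_zmod, list_prod_range]

lemma tau_comm {i₀ : ι} (hi : ∀ i, i = i₀) {N : ℕ} [NeZero N] (a : TR k C ι N) :
    tau k C ι N a = push k (MonoidHom.id C) N (mC i₀ a) := by
  show ∑ I : ZMod N → ι, cycHom k C N (a I (sh I)) = _
  rw [sum_one hi, mC]
  have h2 : sh (fun _ : ZMod N => i₀) = fun _ => i₀ := rfl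
  rw [h2]
  generalize a (fun _ => i₀) (fun _ => i₀) = b
  induction b using MonoidAlgebra.induction_linear with
  | zero => simp [push]
  | add x y hx hy =>
    rw [map_add, map_add, hx, hy, push_add]
  | single γ r =>
    rw [cycHom_single, MonoidAlgebra.mapDomainRingHom_apply, MonoidAlgebra.mapDomain_single,
      push_single, cyc_comm]
    rfl

lemma push_nsmul {C G : Type v} [Group C] [Group G] (φ : C →* G) (N : ℕ) (x : MonoidAlgebra k C) :
    push k φ N (N • x) = 0 := by
  have h : ∀ n : ℕ, push k φ N (n • x) = n • push k φ N x := by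
    intro n
    induction n with
    | zero => simp [push]
    | succ n ih => rw [succ_nsmul, push_add, ih, succ_nsmul]
  rw [h]
  exact HN_tors N _

lemma tf_pow {p : ℕ} (hk : Pk k p) (n : ℕ) (c : k) (h : ((p ^ n : ℕ) : k) * c = 0) : c = 0 := by
  induction n generalizing c with
  | zero => simpa using h
  | succ n ih =>
    apply ih
    apply hk.tf
    rw [← mul_assoc, ← Nat.cast_mul, ← pow_succ']
    exact h

lemma tf_alg {p : ℕ} (hk : Pk k p) (n : ℕ) (a b : MonoidAlgebra k C)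
    (h : (p ^ n) • a = (p ^ n) • b) : a = b := by
  rw [← sub_eq_zero]
  ext c
  apply tf_pow hk n
  have h1 : ∀ z : MonoidAlgebra k C, ((p ^ n) • z).coeff c = ((p ^ n : ℕ) : k) * z.coeff c := by
    intro z
    rw [← nsmul_eq_mul]
    rfl
  rw [MonoidAlgebra.coeff_sub, Finsupp.sub_apply, mul_sub, ← h1, ← h1, h, sub_self]

lemma odd_sum {p : ℕ} (hp : p.Prime) (h2 : p ≠ 2) (n : ℕ) :
    ∃ m : ℕ, ∑ j ∈ Finset.range (p ^ n), j = (p ^ n) * m := by
  have hodd : Odd (p ^ n) := (hp.odd_of_ne_two h2).pow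
  obtain ⟨m, hm⟩ := hodd
  refine ⟨m, ?_⟩
  have := Finset.sum_range_id_mul_two (p ^ n)
  rw [hm] at this ⊢
  have h7 : 2 * m + 1 - 1 = m * 2 := by omega
  rw [h7, ← mul_assoc] at this
  exact Nat.eq_of_mul_eq_mul_right (by norm_num) this

/-- The computation in `k[C]`. -/
lemma alg_val (N m : ℕ) (b s : MonoidAlgebra k C) (h : (1 + N • b) * s = 1) :
    push k (MonoidHom.id C) N (b * s * (1 - (N * m) • b)) = push k (MonoidHom.id C) N b := by
  have h4 : s = 1 - N • (b * s) := by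
    rw [eq_sub_iff_add_eq, ← h]
    simp only [add_mul, one_mul, nsmul_eq_mul]
    ring
  have h8 : b * s * (1 - (N * m) • b) =
      b + N • (-(m • (b * b)) - b * (b * s) + N • m • (b * (b * s) * b)) := by
    calc b * s * (1 - (N * m) • b) = b * (1 - N • (b * s)) * (1 - (N * m) • b) := by rw [← h4]
      _ = _ := by
        simp only [nsmul_eq_mul, Nat.cast_mul]
        ring
  rw [h8, push_add, push_nsmul, add_zero]

lemma tau_val {i₀ : ι} (hi : ∀ i, i = i₀) {p e : ℕ} [NeZero (p ^ e)] (hk : Pk k p)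
    (a r s : TR k C ι (p ^ e)) (hrs : r * s = 1)
    (ha : nm (rot k C ι (p ^ e)) (p ^ e) a = r - 1)
    (b : MonoidAlgebra k C) (hb : mC i₀ r = 1 + (p ^ e) • b) :
    tau k C ι (p ^ e) (a * s * (1 - pp (rot k C ι (p ^ e)) (p ^ e) a)) =
      push k (MonoidHom.id C) (p ^ e) b := by
  have h2 : (p ^ e) • mC i₀ a = (p ^ e) • b := by
    have := congrArg (mC i₀) ha
    rw [mC_nm, mC_sub, hb, mC_one, add_sub_cancel_left] at this
    exact this
  have h3 : mC i₀ a = b := tf_alg hk e _ _ h2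
  have h5 : (1 + (p ^ e) • b) * mC i₀ s = 1 := by rw [← hb, ← mC_mul hi, hrs, mC_one]
  obtain ⟨m, hm⟩ := odd_sum hk.prime hk.odd e
  rw [tau_comm hi, mC_mul hi, mC_mul hi, mC_sub, mC_one, mC_pp, hm, h3]
  exact alg_val _ m b _ h5

/-- The value of `Γ` on a unit of `k[C]`, `C` commutative. -/
lemma gam_comm {i₀ : ι} (hi : ∀ i, i = i₀) {p e : ℕ} [NeZero (p ^ e)] [NeZero (p ^ (e + 1))]
    (hA : SpecA.{max u v, max u v}) (hT : SpecT.{u, v}) (hN : SpecN.{u, v}) (hk : Pk k p)
    (X : (Matrix ι ι (MonoidAlgebra k C))ˣ) (x : (MonoidAlgebra k C)ˣ)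
    (hX : (X : Matrix ι ι (MonoidAlgebra k C)) i₀ i₀ = x)
    (hX' : ((X⁻¹ : (Matrix ι ι (MonoidAlgebra k C))ˣ) : Matrix ι ι (MonoidAlgebra k C)) i₀ i₀ =
      ((x⁻¹ : (MonoidAlgebra k C)ˣ) : MonoidAlgebra k C)) (b : MonoidAlgebra k C)
    (hb : (x : MonoidAlgebra k C) ^ (p ^ (e + 1)) =
      (powC k C p x) ^ (p ^ e) * (1 + (p ^ (e + 1)) • b)) :
    gam (e := e) hT hN hk X = push k (MonoidHom.id C) (p ^ (e + 1)) b := by
  obtain ⟨a, ha⟩ := ru_norm (e := e) hT hN hk X
  have h1 : mC i₀ (ru hT p e X : TR k C ι (p ^ (e + 1))) = 1 + (p ^ (e + 1)) • b := by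
    rw [ru_coe, mC_mul hi, mC_tens, mC_dhat hi, hX, hX', hb, mul_right_comm, ← mul_pow, ← map_mul,
      Units.mul_inv, map_one, one_pow, one_mul]
  rw [gam_eq hA hT hN hk _ a ha, lam]
  exact tau_val hi hk a _ _ (Units.mul_inv _) ha b h1

end comm

/-! ### the theorem -/

theorem specG_of (hA : SpecA.{max u v, max u v}) (hT : SpecT.{u, v}) (hN : SpecN.{u, v}) :
    SpecG.{u, v} := by
  intro k _ G _ p e hp hp2 htf hfr
  have : NeZero (p ^ e) := ⟨pow_ne_zero _ hp.ne_zero⟩
  have : NeZero (p ^ (e + 1)) := ⟨pow_ne_zero _ hp.ne_zero⟩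
  have hk : Pk k p := ⟨hp, hp2, htf, hfr⟩
  have hC : ∀ (C : Type v) [CommGroup C] (φ : C →* G) (x : (MonoidAlgebra k C)ˣ)
      (b : MonoidAlgebra k C),
        ((x : MonoidAlgebra k C) ^ (p ^ (e + 1)) =
          (powC k C p x) ^ (p ^ e) * (1 + (p ^ (e + 1)) • b)) →
        GK hA hT hN hk e G
          (K1.unit (Units.map (MonoidAlgebra.mapDomainRingHom k φ).toMonoidHom x)) =
          push k φ (p ^ (e + 1)) b := by
    intro C _ φ x b hb
    rw [K1.unit, GK, K1.lift_cls, gam_nat φ hA hT hN hk (oneByOne x) _ rfl,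
      gam_comm (i₀ := (0 : Fin 1)) (fun i => Subsingleton.elim _ _) hA hT hN hk (oneByOne x) x
        rfl rfl b hb]
    generalize b = c
    induction c using MonoidAlgebra.induction_linear with
    | zero => simp [push]
    | add x y hx hy => rw [push_add, map_add, hx, hy, push_add]
    | single c r => rw [push_single, push_single, pH]; simp; rfl
  refine ⟨GK hA hT hN hk e G, fun g => ?_, hC⟩
  let C := ULift.{v} (Multiplicative ℤ)
  let φ : C →* G := MonoidHom.comp (zpowersHom G g)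
    (MulEquiv.ulift : C ≃* Multiplicative ℤ).toMonoidHom
  let c : C := ULift.up (Multiplicative.ofAdd 1)
  have hφ : φ c = g := by
    show (zpowersHom G g) (Multiplicative.ofAdd (1 : ℤ)) = g
    simp
  have hodd : ∀ n : ℕ, Odd (p ^ n) := fun n => (hp.odd_of_ne_two hp2).pow
  have e0 : powC k C p (gUnit k c : MonoidAlgebra k C) = MonoidAlgebra.single (c ^ p) 1 := by
    show MonoidAlgebra.mapDomainRingHom k _ (MonoidAlgebra.single c 1) = _
    rw [MonoidAlgebra.mapDomainRingHom_apply, MonoidAlgebra.mapDomain_single]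
    rfl
  have e1 : (gUnit k c : MonoidAlgebra k C) ^ (p ^ (e + 1)) =
      (powC k C p (gUnit k c : MonoidAlgebra k C)) ^ (p ^ e) := by
    rw [e0]
    show (MonoidAlgebra.single c (1 : k)) ^ (p ^ (e + 1)) = _
    rw [MonoidAlgebra.single_pow, MonoidAlgebra.single_pow, one_pow, one_pow, ← pow_mul, pow_succ']
  have e2 : Units.map (MonoidAlgebra.mapDomainRingHom k φ).toMonoidHom (gUnit k c) = gUnit k g := by
    apply Units.ext
    show MonoidAlgebra.mapDomainRingHom k φ (MonoidAlgebra.single c 1) = MonoidAlgebra.single g 1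
    rw [MonoidAlgebra.mapDomainRingHom_apply, MonoidAlgebra.mapDomain_single, hφ]
  have e3 : Units.map (MonoidAlgebra.mapDomainRingHom k φ).toMonoidHom (-gUnit k c) =
      -gUnit k g := by
    rw [← e2]
    apply Units.ext
    show MonoidAlgebra.mapDomainRingHom k φ (-(gUnit k c : MonoidAlgebra k C)) =
      -(MonoidAlgebra.mapDomainRingHom k φ (gUnit k c : MonoidAlgebra k C))
    rw [map_neg]
  constructor
  · rw [← e2, hC C φ (gUnit k c) 0 (by rw [smul_zero, add_zero, mul_one]; exact e1)]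
    simp [push]
  · rw [← e3, hC C φ (-gUnit k c) 0 (by
      rw [smul_zero, add_zero, mul_one, Units.val_neg, map_neg, (hodd _).neg_pow,
        (hodd _).neg_pow, e1])]
    simp [push]

end Pool.Agent.Lib.MPb6f35e.WH
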