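import Mathlib

/-!
# Functions with finite support on a set with a bijection of finite order

The kernel of the norm, and a criterion for an invariant function to be a norm.
-/

set_option autoImplicit false

namespace Pool.Agent.Lib.MPb6f35e.WH.NAbs

universe u v

open Function

variable {W : Type v} {k : Type u} [CommRing k]

theorem sum_mul (g : ℕ → k) (t : ℕ) (hg : ∀ j, g (t + j) = g j) (n : ℕ) :
    ∑ j ∈ Finset.range (n * t), g j = n • ∑ j ∈ Finset.range t, g j := by
  have hg' : ∀ n j, g (n * t + j) = g j := by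
    intro n
    induction n with
    | zero => intro j; simp
    | succ n ih =>
      intro j
      rw [show (n + 1) * t + j = t + (n * t + j) by ring, hg, ih]
  induction n with
  | zero => simp
  | succ n ih =>
    rw [show (n + 1) * t = n * t + t by ring, Finset.sum_range_add, ih, add_smul, one_smul]
    congr 1
    exact Finset.sum_congr rfl fun j _ => hg' n j

theorem prod_mul (g : ℕ → k) (t : ℕ) (hg : ∀ j, g (t + j) = g j) (n : ℕ) :
    ∏ j ∈ Finset.range (n * t), g j = (∏ j ∈ Finset.range t, g j) ^ n := by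
  have hg' : ∀ n j, g (n * t + j) = g j := by
    intro n
    induction n with
    | zero => intro j; simp
    | succ n ih =>
      intro j
      rw [show (n + 1) * t + j = t + (n * t + j) by ring, hg, ih]
  induction n with
  | zero => simp
  | succ n ih =>
    rw [show (n + 1) * t = n * t + t by ring, Finset.prod_range_add, ih, pow_succ]
    congr 1
    exact Finset.prod_congr rfl fun j _ => hg' n j

/-- the same orbit of `σ` -/
def Orb (σ : W → W) (x y : W) : Prop := ∃ n : ℕ, σ^[n] x = y

section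

variable (σ : W → W) (N : ℕ)

theorem iter_mul (hN : ∀ w, σ^[N] w = w) (n : ℕ) (w : W) : σ^[n * N] w = w := by
  induction n with
  | zero => simp
  | succ n ih => rw [show (n + 1) * N = n * N + N by ring, iterate_add_apply, hN, ih]

theorem orb_symm (hN0 : 0 < N) (hN : ∀ w, σ^[N] w = w) {x y : W} (h : Orb σ x y) : Orb σ y x := by
  obtain ⟨n, rfl⟩ := h
  refine ⟨n * N - n, ?_⟩
  rw [← iterate_add_apply, Nat.sub_add_cancel (Nat.le_mul_of_pos_right n hN0)]
  exact iter_mul σ N hN n x

theorem orb_trans {x y z : W} (h : Orb σ x y) (h' : Orb σ y z) : Orb σ x z := by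
  obtain ⟨n, rfl⟩ := h
  obtain ⟨m, rfl⟩ := h'
  exact ⟨m + n, by rw [iterate_add_apply]⟩

/-- a representative of each orbit -/
theorem exists_rep (hN0 : 0 < N) (hN : ∀ w, σ^[N] w = w) :
    ∃ r : W → W, (∀ w, r (σ w) = r w) ∧ ∀ w, Orb σ (r w) w := by
  let S : Setoid W := ⟨Orb σ, fun x => ⟨0, rfl⟩, fun h => orb_symm σ N hN0 hN h,
    fun h h' => orb_trans σ h h'⟩
  refine ⟨fun w => Quotient.out (Quotient.mk S w), fun w => ?_, fun w => ?_⟩
  · have h : Orb σ (σ w) w := orb_symm σ N hN0 hN ⟨1, rfl⟩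
    exact congrArg Quotient.out (Quotient.sound (s := S) h)
  · exact Quotient.exact (Quotient.out_eq (Quotient.mk S w))

theorem orb_lt (hN0 : 0 < N) (hN : ∀ w, σ^[N] w = w) {x y : W} (h : Orb σ x y) :
    ∃ n < N, σ^[n] x = y := by
  obtain ⟨n, rfl⟩ := h
  refine ⟨n % N, Nat.mod_lt _ hN0, ?_⟩
  conv_rhs => rw [← Nat.mod_add_div n N, Nat.mul_comm, iterate_add_apply, iter_mul σ N hN]

/-- the kernel of the norm -/
theorem ker_norm (hN0 : 0 < N) (hN : ∀ w, σ^[N] w = w) (hk : ∀ c : k, (N : k) * c = 0 → c = 0)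
    (f : W → k) (hf : f.support.Finite)
    (h0 : ∀ w, ∑ j ∈ Finset.range N, f (σ^[j] w) = 0) :
    ∃ s : W → k, s.support.Finite ∧ ∀ w, f w = s w - s (σ w) := by
  obtain ⟨r, hr1, hr2⟩ := exists_rep σ N hN0 hN
  -- sums over closed paths vanish
  have h1 : ∀ (t : ℕ) (w : W), σ^[t] w = w → ∑ j ∈ Finset.range t, f (σ^[j] w) = 0 := by
    intro t w ht
    have e1 := sum_mul (fun j => f (σ^[j] w)) t (fun j => by
      rw [Nat.add_comm t j, iterate_add_apply, ht]) N
    have e2 := sum_mul (fun j => f (σ^[j] w)) N (fun j => by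
      rw [iterate_add_apply, hN]) t
    rw [h0 w, smul_zero, Nat.mul_comm t N, e1, nsmul_eq_mul] at e2
    exact hk _ e2
  have h2 : ∀ (m t : ℕ) (w : W), σ^[m + t] w = σ^[m] w →
      ∑ j ∈ Finset.range (m + t), f (σ^[j] w) = ∑ j ∈ Finset.range m, f (σ^[j] w) := by
    intro m t w h
    rw [Finset.sum_range_add, add_eq_left]
    have := h1 t (σ^[m] w) (by rw [← iterate_add_apply, Nat.add_comm t m]; exact h)
    rw [← this]
    refine Finset.sum_congr rfl fun j _ => ?_
    rw [Nat.add_comm m j, iterate_add_apply]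
  have h3 : ∀ (m n : ℕ) (w : W), σ^[n] w = σ^[m] w →
      ∑ j ∈ Finset.range n, f (σ^[j] w) = ∑ j ∈ Finset.range m, f (σ^[j] w) := by
    intro m n w h
    rcases le_total m n with hmn | hmn
    · obtain ⟨t, rfl⟩ := Nat.exists_eq_add_of_le hmn
      exact h2 m t w h
    · obtain ⟨t, rfl⟩ := Nat.exists_eq_add_of_le hmn
      exact (h2 n t w h.symm).symm
  choose n hn using hr2
  refine ⟨fun w => -∑ j ∈ Finset.range (n w), f (σ^[j] (r w)), ?_, fun w => ?_⟩
  · refine Set.Finite.subset ((Finset.range N).finite_toSet.biUnion fun j _ =>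
      hf.image (σ^[j])) fun w hw => ?_
    have hw' : ∑ j ∈ Finset.range (n w), f (σ^[j] (r w)) ≠ 0 := by
      intro h
      exact hw (by simp only [h, neg_zero])
    obtain ⟨j, -, hj⟩ := Finset.exists_ne_zero_of_sum_ne_zero hw'
    have h4 : Orb σ (σ^[j] (r w)) w :=
      orb_trans σ (orb_symm σ N hN0 hN ⟨j, rfl⟩) ⟨n w, hn w⟩
    obtain ⟨i, hi, hi'⟩ := orb_lt σ N hN0 hN h4
    exact Set.mem_biUnion (Finset.mem_coe.2 (Finset.mem_range.2 hi)) ⟨_, hj, hi'⟩
  · have h4 := h3 (n w + 1) (n (σ w)) (r w) (by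
      rw [iterate_succ_apply', hn w, ← hr1 w, hn (σ w)])
    simp only
    rw [hr1 w, h4, Finset.sum_range_succ, hn w]
    ring

/-- invariant functions which are norms -/
theorem norm_of_dvd (hN0 : 0 < N) (hN : ∀ w, σ^[N] w = w) (f : W → k) (hf : f.support.Finite)
    (hinv : ∀ w, f (σ w) = f w)
    (hdvd : ∀ w, ((N / minimalPeriod σ w : ℕ) : k) ∣ f w) :
    ∃ z : W → k, z.support.Finite ∧ ∀ w, ∑ j ∈ Finset.range N, z (σ^[j] w) = f w := by
  classical
  obtain ⟨r, hr1, hr2⟩ := exists_rep σ N hN0 hN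
  have hinv' : ∀ n w, f (σ^[n] w) = f w := by
    intro n
    induction n with
    | zero => intro w; rfl
    | succ n ih => intro w; rw [iterate_succ_apply', hinv, ih]
  have hr1' : ∀ n w, r (σ^[n] w) = r w := by
    intro n
    induction n with
    | zero => intro w; rfl
    | succ n ih => intro w; rw [iterate_succ_apply', hr1, ih]
  have hrr : ∀ w, r (r w) = r w := by
    intro w
    obtain ⟨n, hn⟩ := hr2 w
    rw [← hr1' n (r w), hn]
  have hc : ∀ w, ∃ c : k, ((N / minimalPeriod σ w : ℕ) : k) * c = f w ∧ (f w = 0 → c = 0) := by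
    intro w
    by_cases h : f w = 0
    · exact ⟨0, by simp [h], fun _ => rfl⟩
    · obtain ⟨c, hc⟩ := hdvd w
      exact ⟨c, hc.symm, fun h' => absurd h' h⟩
  choose c hc1 hc2 using hc
  refine ⟨fun w => if r w = w then c w else 0, ?_, fun w => ?_⟩
  · refine hf.subset fun w hw h0 => hw ?_
    simp only
    split_ifs
    · exact hc2 w h0
    · rfl
  · -- the period of `w`
    have hper : IsPeriodicPt σ N w := hN w
    have hL0 : 0 < minimalPeriod σ w := hper.minimalPeriod_pos hN0
    obtain ⟨m, hm⟩ := hper.minimalPeriod_dvd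
    have hmd : N / minimalPeriod σ w = m := by
      rw [hm]
      exact Nat.mul_div_cancel_left m hL0
    have hsum : ∑ j ∈ Finset.range (minimalPeriod σ w),
        (if r (σ^[j] w) = σ^[j] w then c (σ^[j] w) else 0) = c (r w) := by
      obtain ⟨n, hn⟩ := orb_symm σ N hN0 hN (hr2 w)
      have hnL : σ^[n % minimalPeriod σ w] w = r w := by
        rw [iterate_mod_minimalPeriod_eq, hn]
      rw [Finset.sum_eq_single (n % minimalPeriod σ w)]
      · rw [hnL, if_pos (hrr w)]
      · intro j hj hne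
        rw [if_neg]
        intro h
        rw [hr1'] at h
        apply hne
        exact iterate_injOn_Iio_minimalPeriod (f := σ) (x := w)
          (Set.mem_Iio.2 (Finset.mem_range.1 hj)) (Set.mem_Iio.2 (Nat.mod_lt _ hL0))
          (by simp only; rw [← h, hnL])
      · intro h
        exact absurd (Finset.mem_range.2 (Nat.mod_lt _ hL0)) h
    have hlen : minimalPeriod σ (r w) = minimalPeriod σ w := by
      obtain ⟨n, hn⟩ := orb_symm σ N hN0 hN (hr2 w)
      rw [← hn]
      exact minimalPeriod_apply_iterate (mk_mem_periodicPts hN0 hper) n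
    have e1 := sum_mul (fun j => if r (σ^[j] w) = σ^[j] w then c (σ^[j] w) else (0 : k))
      (minimalPeriod σ w) (fun j => by
        rw [Nat.add_comm, iterate_add_apply, iterate_minimalPeriod]) m
    have e2 : Finset.range N = Finset.range (m * minimalPeriod σ w) := by rw [Nat.mul_comm, ← hm]
    simp only
    rw [e2, e1, hsum, nsmul_eq_mul]
    have h5 := hc1 (r w)
    rw [hlen, hmd] at h5
    rw [h5]
    obtain ⟨n, hn⟩ := hr2 w
    conv_rhs => rw [← hn, hinv']

end

end Pool.Agent.Lib.MPb6f35e.WH.NAbs
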