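import Pool.Agent.Lib.MP_b6f35e_al.WH.Spec
import Pool.Agent.Lib.MP_b6f35e_al.WH.NAbs

/-!
# Module N: norms in the tensor power ring
-/

set_option autoImplicit false

noncomputable section

namespace Pool.Agent.Lib.MPb6f35e.WH

open Function

namespace NN

universe u v

variable {k : Type u} [CommRing k] {G : Type v} [Group G] {ι : Type}

/-! ### coefficients indexed by words -/

/-- the coefficient of `b` at the word `w` -/
def cf {N : ℕ} (b : TR k G ι N) (w : ZMod N → ι × ι × G) : k :=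
  (b (fun j => (w j).1) (fun j => (w j).2.1)).coeff (fun j => (w j).2.2)

theorem cf_ext {N : ℕ} {a b : TR k G ι N} (h : ∀ w, cf a w = cf b w) : a = b := by
  apply Matrix.ext
  intro I J
  apply MonoidAlgebra.ext
  apply Finsupp.ext
  intro γ
  exact h fun j => (I j, J j, γ j)

/-- `cf` as an additive homomorphism -/
def cfA {N : ℕ} (w : ZMod N → ι × ι × G) : TR k G ι N →+ k where
  toFun b := cf b w
  map_zero' := rfl
  map_add' _ _ := rfl

theorem cf_sub {N : ℕ} (a b : TR k G ι N) (w : ZMod N → ι × ι × G) :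
    cf (a - b) w = cf a w - cf b w := map_sub (cfA w) a b

theorem cf_add {N : ℕ} (a b : TR k G ι N) (w : ZMod N → ι × ι × G) :
    cf (a + b) w = cf a w + cf b w := rfl

theorem cf_sum {N : ℕ} {α : Type*} (s : Finset α) (a : α → TR k G ι N)
    (w : ZMod N → ι × ι × G) : cf (∑ i ∈ s, a i) w = ∑ i ∈ s, cf (a i) w := map_sum (cfA w) a s

/-- every function with finite support on words is a family of coefficients -/
theorem exists_cf {N : ℕ} (s : (ZMod N → ι × ι × G) → k) (hs : s.support.Finite) :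
    ∃ b : TR k G ι N, ∀ w, cf b w = s w := by
  have h : ∀ I J : ZMod N → ι,
      (support fun γ : ZMod N → G => s fun j => (I j, J j, γ j)).Finite := by
    intro I J
    refine Set.Finite.of_finite_image (f := fun (γ : ZMod N → G) (j : ZMod N) => (I j, J j, γ j))
      (hs.subset ?_) ?_
    · rintro _ ⟨γ, hγ, rfl⟩
      exact hγ
    · intro γ _ γ' _ hγ
      funext j
      exact congrArg (fun x : ι × ι × G => x.2.2) (congrFun hγ j)
  exact ⟨Matrix.of fun I J => MonoidAlgebra.ofCoeff (Finsupp.ofSupportFinite _ (h I J)),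
    fun w => rfl⟩

theorem cf_finite {N : ℕ} [NeZero N] [Finite ι] (b : TR k G ι N) : (support (cf b)).Finite := by
  have h : (⋃ IJ : (ZMod N → ι) × (ZMod N → ι),
      (fun (γ : ZMod N → G) (j : ZMod N) => (IJ.1 j, IJ.2 j, γ j)) ''
        ((b IJ.1 IJ.2).coeff.support : Set (ZMod N → G))).Finite :=
    Set.finite_iUnion fun IJ => (Finset.finite_toSet _).image _
  refine h.subset fun w hw => ?_
  exact Set.mem_iUnion.2 ⟨(fun j => (w j).1, fun j => (w j).2.1), fun j => (w j).2.2,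
    Finset.mem_coe.2 (Finsupp.mem_support_iff.2 hw), rfl⟩

/-! ### the rotation -/

theorem rotG_sh {N : ℕ} (γ : ZMod N → G) : rotG N G (sh γ) = γ := by
  funext j
  show γ (j - 1 + 1) = γ j
  rw [sub_add_cancel]

theorem rotG_inj (N : ℕ) : Injective (rotG N G) := by
  intro γ γ' h
  funext j
  have := congrFun h (j + 1)
  simpa [rotG] using this

theorem cf_rot {N : ℕ} [NeZero N] [Fintype ι] [DecidableEq ι] (b : TR k G ι N)
    (w : ZMod N → ι × ι × G) : cf (rot k G ι N b) w = cf b (sh w) := by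
  have h : (rot k G ι N b) (fun j => (w j).1) (fun j => (w j).2.1) =
      MonoidAlgebra.mapDomain (rotG N G)
        (b (fun j => (sh w j).1) (fun j => (sh w j).2.1)) := rfl
  have h2 := Finsupp.mapDomain_apply (rotG_inj N)
    (b (fun j => (sh w j).1) (fun j => (sh w j).2.1)).coeff (sh fun j => (w j).2.2)
  rw [rotG_sh] at h2
  show ((rot k G ι N b) (fun j => (w j).1) (fun j => (w j).2.1)).coeff _ = _
  rw [h]
  exact h2

theorem cf_iter {N : ℕ} [NeZero N] [Fintype ι] [DecidableEq ι] (b : TR k G ι N) (j : ℕ) :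
    ∀ w : ZMod N → ι × ι × G, cf ((rot k G ι N)^[j] b) w = cf b (sh^[j] w) := by
  induction j with
  | zero => intro w; rfl
  | succ j ih => intro w; rw [iterate_succ_apply', cf_rot, ih, iterate_succ_apply]

theorem cf_nm {N : ℕ} [NeZero N] [Fintype ι] [DecidableEq ι] (n : ℕ) (b : TR k G ι N)
    (w : ZMod N → ι × ι × G) :
    cf (nm (rot k G ι N) n b) w = ∑ j ∈ Finset.range n, cf b (sh^[j] w) := by
  rw [nm, cf_sum]
  exact Finset.sum_congr rfl fun j _ => cf_iter b j w

theorem sh_iter {N : ℕ} {X : Type*} (j : ℕ) : ∀ w : ZMod N → X, sh^[j] w = fun i => w (i + j) := by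
  induction j with
  | zero => intro w; funext i; simp
  | succ j ih =>
    intro w
    rw [iterate_succ_apply', ih]
    funext i
    show w (i + 1 + j) = _
    congr 1
    push_cast
    ring

theorem sh_N {N : ℕ} {X : Type*} (w : ZMod N → X) : sh^[N] w = w := by
  rw [sh_iter]
  funext i
  simp

/-! ### the kernel of the norm -/

theorem pow_torsion {p : ℕ} (hk : ∀ c : k, (p : k) * c = 0 → c = 0) (e : ℕ) :
    ∀ c : k, ((p ^ e : ℕ) : k) * c = 0 → c = 0 := by
  induction e with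
  | zero => intro c hc; simpa using hc
  | succ e ih =>
    intro c hc
    apply ih c
    apply hk
    rw [← hc]
    push_cast
    ring

theorem ker (p e : ℕ) [NeZero (p ^ e)] [Fintype ι] [DecidableEq ι]
    (hk : ∀ c : k, (p : k) * c = 0 → c = 0)
    (y : TR k G ι (p ^ e)) (hy : nm (rot k G ι (p ^ e)) (p ^ e) y = 0) :
    ∃ s, y = s - rot k G ι (p ^ e) s := by
  obtain ⟨s, hs1, hs2⟩ := NAbs.ker_norm (k := k) (sh (N := p ^ e) (X := ι × ι × G)) (p ^ e)
    (Nat.pos_of_ne_zero (NeZero.ne _)) sh_N (pow_torsion hk e) (cf y) (cf_finite y)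
    (fun w => by rw [← cf_nm, hy]; rfl)
  obtain ⟨b, hb⟩ := exists_cf s hs1
  refine ⟨b, cf_ext fun w => ?_⟩
  rw [cf_sub, cf_rot, hb, hb, hs2]

/-! ### repetition of words -/

section

variable (p e : ℕ) [NeZero (p ^ e)] [NeZero (p ^ (e + 1))]

omit [NeZero (p ^ e)] [NeZero (p ^ (e + 1))] in
theorem prj_natCast (j : ℕ) : prj p e (j : ZMod (p ^ (e + 1))) = (j : ZMod (p ^ e)) := by
  rw [prj, map_natCast]

omit [NeZero (p ^ e)] [NeZero (p ^ (e + 1))] in
theorem prj_surj : Surjective (prj p e) := ZMod.castHom_surjective _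

omit [NeZero (p ^ e)] [NeZero (p ^ (e + 1))] in
theorem prj_add_one (j : ZMod (p ^ (e + 1))) : prj p e (j + 1) = prj p e j + 1 := by
  rw [prj, map_add, map_one]

omit [NeZero (p ^ e)] [NeZero (p ^ (e + 1))] in
theorem prj_sub_one (j : ZMod (p ^ (e + 1))) : prj p e (j - 1) = prj p e j - 1 := by
  rw [prj, map_sub, map_one]

omit [NeZero (p ^ e)] [NeZero (p ^ (e + 1))] in
theorem rep_inj {X : Type*} {a b : ZMod (p ^ e) → X}
    (h : (fun j => a (prj p e j)) = fun j => b (prj p e j)) : a = b := by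
  funext i
  obtain ⟨j, rfl⟩ := prj_surj p e i
  exact congrFun h j

omit [NeZero (p ^ e)] in
/-- a word fixed by the shift by `p ^ e` is a repetition -/
theorem exists_rep {X : Type*} (w : ZMod (p ^ (e + 1)) → X) (h : sh^[p ^ e] w = w) :
    ∃ w' : ZMod (p ^ e) → X, w = fun j => w' (prj p e j) := by
  refine ⟨fun i => w ((i.val : ℕ) : ZMod (p ^ (e + 1))), ?_⟩
  have h1 : ∀ (t : ℕ) (i : ZMod (p ^ (e + 1))), w (i + (t * p ^ e : ℕ)) = w i := by
    intro t
    induction t with
    | zero => intro i; simp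
    | succ t ih =>
      intro i
      have h2 := congrFun h (i + (t * p ^ e : ℕ))
      rw [sh_iter] at h2
      rw [← ih i, ← h2]
      congr 1
      push_cast
      ring
  funext j
  have hj : ((j.val : ℕ) : ZMod (p ^ (e + 1))) = j := ZMod.natCast_zmod_val j
  have h3 : (prj p e j).val = j.val % p ^ e := by
    conv_lhs => rw [← hj, prj_natCast]
    exact ZMod.val_natCast _ _
  simp only
  rw [h3, ← h1 (j.val / p ^ e) ((j.val % p ^ e : ℕ) : ZMod (p ^ (e + 1)))]
  congr 1
  conv_lhs => rw [← hj]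
  rw [← Nat.cast_add, Nat.mul_comm, Nat.mod_add_div]

variable [Fintype ι] [DecidableEq ι]

theorem dlt_rep (b : TR k G ι (p ^ e)) (I J : ZMod (p ^ e) → ι) :
    dlt k G ι p e b (fun j => I (prj p e j)) (fun j => J (prj p e j)) =
      MonoidAlgebra.mapDomainRingHom k (repG p e G) (b I J) := by
  rw [dlt, Matrix.mul_apply, Finset.sum_eq_single J]
  · rw [Matrix.mul_apply, Finset.sum_eq_single I]
    · simp [wMat]
    · intro I' _ hne
      rw [Matrix.transpose_apply, wMat, Matrix.of_apply, if_neg, zero_mul]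
      intro h
      exact hne (rep_inj p e h).symm
    · intro h
      exact absurd (Finset.mem_univ _) h
  · intro J' _ hne
    rw [wMat, Matrix.of_apply, if_neg, mul_zero]
    intro h
    exact hne (rep_inj p e h).symm
  · intro h
    exact absurd (Finset.mem_univ _) h

theorem dlt_left (b : TR k G ι (p ^ e)) (I J : ZMod (p ^ (e + 1)) → ι)
    (h : ∀ I' : ZMod (p ^ e) → ι, I ≠ fun j => I' (prj p e j)) : dlt k G ι p e b I J = 0 := by
  rw [dlt, Matrix.mul_apply]
  refine Finset.sum_eq_zero fun J' _ => ?_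
  rw [Matrix.mul_apply, Finset.sum_eq_zero, zero_mul]
  intro I' _
  rw [Matrix.transpose_apply, wMat, Matrix.of_apply, if_neg (h I'), zero_mul]

theorem dlt_right (b : TR k G ι (p ^ e)) (I J : ZMod (p ^ (e + 1)) → ι)
    (h : ∀ J' : ZMod (p ^ e) → ι, J ≠ fun j => J' (prj p e j)) : dlt k G ι p e b I J = 0 := by
  rw [dlt, Matrix.mul_apply]
  refine Finset.sum_eq_zero fun J' _ => ?_
  rw [wMat, Matrix.of_apply, if_neg (h J'), mul_zero]

omit [NeZero (p ^ e)] [NeZero (p ^ (e + 1))] in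
theorem repG_inj : Injective (repG p e G) := fun _ _ h => rep_inj p e h

theorem cf_dlt_rep (b : TR k G ι (p ^ e)) (w : ZMod (p ^ e) → ι × ι × G) :
    cf (dlt k G ι p e b) (fun j => w (prj p e j)) = cf b w := by
  have h := dlt_rep p e b (fun i => (w i).1) (fun i => (w i).2.1)
  show (dlt k G ι p e b (fun j => (w (prj p e j)).1) (fun j => (w (prj p e j)).2.1)).coeff _ = _
  rw [h]
  exact Finsupp.mapDomain_apply (repG_inj p e)
    (b (fun i => (w i).1) (fun i => (w i).2.1)).coeff (fun i => (w i).2.2)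

theorem cf_dlt_zero (b : TR k G ι (p ^ e)) (w : ZMod (p ^ (e + 1)) → ι × ι × G)
    (h : ¬ ∃ w' : ZMod (p ^ e) → ι × ι × G, w = fun j => w' (prj p e j)) :
    cf (dlt k G ι p e b) w = 0 := by
  by_cases hI : ∃ I' : ZMod (p ^ e) → ι, (fun j => (w j).1) = fun j => I' (prj p e j)
  · by_cases hJ : ∃ J' : ZMod (p ^ e) → ι, (fun j => (w j).2.1) = fun j => J' (prj p e j)
    · obtain ⟨I', hI'⟩ := hI
      obtain ⟨J', hJ'⟩ := hJ
      by_contra hne
      have h1 : (dlt k G ι p e b (fun j => (w j).1) (fun j => (w j).2.1)).coeff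
          (fun j => (w j).2.2) ≠ 0 := hne
      rw [hI', hJ', dlt_rep] at h1
      obtain ⟨γ, hγ⟩ := Finsupp.mem_range_of_mapDomain_ne_zero h1
      apply h
      refine ⟨fun i => (I' i, J' i, γ i), ?_⟩
      funext j
      exact Prod.ext (congrFun hI' j) (Prod.ext (congrFun hJ' j) (congrFun hγ j).symm)
    · have h1 := dlt_right p e b (fun j => (w j).1) (fun j => (w j).2.1)
        (fun J' hJ' => hJ ⟨J', hJ'⟩)
      show (dlt k G ι p e b _ _).coeff _ = 0
      rw [h1]
      rfl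
  · have h1 := dlt_left p e b (fun j => (w j).1) (fun j => (w j).2.1)
      (fun I' hI' => hI ⟨I', hI'⟩)
    show (dlt k G ι p e b _ _).coeff _ = 0
    rw [h1]
    rfl

/-- `dlt` and rotations -/
theorem cf_dlt_sh (b : TR k G ι (p ^ e)) (hb : ∀ w, cf b (sh w) = cf b w)
    (w : ZMod (p ^ (e + 1)) → ι × ι × G) :
    cf (dlt k G ι p e b) (sh w) = cf (dlt k G ι p e b) w := by
  by_cases h : ∃ w' : ZMod (p ^ e) → ι × ι × G, w = fun j => w' (prj p e j)
  · obtain ⟨w', rfl⟩ := h
    have h1 : (sh fun j => w' (prj p e j)) = fun j => (sh w') (prj p e j) := by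
      funext j
      show w' (prj p e (j + 1)) = w' (prj p e j + 1)
      rw [prj_add_one]
    rw [h1, cf_dlt_rep, cf_dlt_rep, hb]
  · rw [cf_dlt_zero p e b w h, cf_dlt_zero p e b (sh w)]
    rintro ⟨w', hw'⟩
    apply h
    refine ⟨fun i => w' (i - 1), ?_⟩
    funext j
    have h1 := congrFun hw' (j - 1)
    have h2 : sh w (j - 1) = w j := by
      show w (j - 1 + 1) = w j
      rw [sub_add_cancel]
    rw [← h2, h1, prj_sub_one]

theorem cf_tens {N : ℕ} [NeZero N] (x : Matrix ι ι (MonoidAlgebra k G))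
    (w : ZMod N → ι × ι × G) :
    cf (tens k G ι N x) w = ∏ j, (x (w j).1 (w j).2.1).coeff (w j).2.2 := rfl

theorem cf_tens_sh {N : ℕ} [NeZero N] (x : Matrix ι ι (MonoidAlgebra k G))
    (w : ZMod N → ι × ι × G) : cf (tens k G ι N x) (sh w) = cf (tens k G ι N x) w := by
  rw [cf_tens, cf_tens]
  exact Equiv.prod_comp (Equiv.addRight (1 : ZMod N))
    (fun j => (x (w j).1 (w j).2.1).coeff (w j).2.2)

open Classical in
theorem cf_one {N : ℕ} [NeZero N] (w : ZMod N → ι × ι × G) :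
    cf (1 : TR k G ι N) w =
      if (∀ j, (w j).1 = (w j).2.1) ∧ ∀ j, (w j).2.2 = 1 then 1 else 0 := by
  show ((1 : TR k G ι N) (fun j => (w j).1) (fun j => (w j).2.1)).coeff (fun j => (w j).2.2) = _
  rw [Matrix.one_apply]
  by_cases h1 : (fun j => (w j).1) = fun j => (w j).2.1
  · rw [if_pos h1, MonoidAlgebra.one_def, MonoidAlgebra.coeff_single, Finsupp.single_apply]
    by_cases h2 : (1 : ZMod N → G) = fun j => (w j).2.2
    · have h3 : (∀ j, (w j).1 = (w j).2.1) ∧ ∀ j, (w j).2.2 = 1 :=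
        ⟨fun j => congrFun h1 j, fun j => (congrFun h2 j).symm⟩
      rw [if_pos h2, if_pos h3]
    · rw [if_neg h2, if_neg]
      rintro ⟨-, h3⟩
      exact h2 (funext fun j => (h3 j).symm)
  · rw [if_neg h1, if_neg]
    · rfl
    · rintro ⟨h3, -⟩
      exact h1 (funext h3)

open Classical in
theorem cf_one_sh {N : ℕ} [NeZero N] (w : ZMod N → ι × ι × G) :
    cf (1 : TR k G ι N) (sh w) = cf (1 : TR k G ι N) w := by
  rw [cf_one, cf_one]
  have h : ∀ P : ZMod N → Prop, (∀ j, P (j + 1)) ↔ ∀ j, P j := by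
    intro P
    constructor
    · intro h j
      have := h (j - 1)
      rwa [sub_add_cancel] at this
    · intro h j
      exact h _
  have h2 : ((∀ j, (sh w j).1 = (sh w j).2.1) ∧ ∀ j, (sh w j).2.2 = 1) ↔
      ((∀ j, (w j).1 = (w j).2.1) ∧ ∀ j, (w j).2.2 = 1) :=
    and_congr (h fun j => (w j).1 = (w j).2.1) (h fun j => (w j).2.2 = 1)
  exact if_congr h2 rfl rfl

open Classical in
theorem cf_one_rep (w : ZMod (p ^ e) → ι × ι × G) :
    cf (1 : TR k G ι (p ^ (e + 1))) (fun j => w (prj p e j)) = cf (1 : TR k G ι (p ^ e)) w := by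
  rw [cf_one, cf_one]
  have h : ∀ P : ZMod (p ^ e) → Prop, (∀ j, P (prj p e j)) ↔ ∀ j, P j :=
    fun P => (prj_surj p e).forall.symm
  exact if_congr (and_congr (h fun j => (w j).1 = (w j).2.1) (h fun j => (w j).2.2 = 1)) rfl rfl

omit [NeZero (p ^ e)] [NeZero (p ^ (e + 1))] in
theorem prod_zmod (N : ℕ) [NeZero N] (g : ZMod N → k) :
    ∏ j, g j = ∏ j ∈ Finset.range N, g (j : ZMod N) := by
  symm
  refine Finset.prod_bij' (fun j _ => (j : ZMod N)) (fun j _ => j.val) (fun _ _ => Finset.mem_univ _)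
    (fun j _ => Finset.mem_range.2 (ZMod.val_lt j)) (fun j hj => ?_) (fun j _ => ?_)
    (fun _ _ => rfl)
  · exact ZMod.val_cast_of_lt (Finset.mem_range.1 hj)
  · exact ZMod.natCast_zmod_val j

/-- the congruence -/
theorem dvd_word [hp : Fact p.Prime] (hk : ∀ c : k, (p : k) ∣ c ^ p - c)
    (x : Matrix ι ι (MonoidAlgebra k G)) (w : ZMod (p ^ (e + 1)) → ι × ι × G) :
    ((p ^ (e + 1) / minimalPeriod sh w : ℕ) : k) ∣
      cf (tens k G ι (p ^ (e + 1)) x - dhat k G ι p e x) w := by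
  have hper : IsPeriodicPt sh (p ^ (e + 1)) w := sh_N w
  obtain ⟨l, hl, hL⟩ := (Nat.dvd_prime_pow hp.out).1 hper.minimalPeriod_dvd
  have hp0 : 0 < p := hp.out.pos
  rw [hL, Nat.pow_div hl hp0]
  rcases Nat.eq_or_lt_of_le hl with h1 | h1
  · rw [h1, Nat.sub_self, pow_zero, Nat.cast_one]
    exact one_dvd _
  · -- the word is a repetition
    have hl' : l ≤ e := by omega
    have h2 : sh^[p ^ e] w = w := by
      have h3 : minimalPeriod sh w ∣ p ^ e := by rw [hL]; exact pow_dvd_pow p hl'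
      exact (isPeriodicPt_iff_minimalPeriod_dvd.2 h3)
    obtain ⟨w', hw'⟩ := exists_rep p e w h2
    have h4 : cf (tens k G ι (p ^ (e + 1)) x - dhat k G ι p e x) w =
        (∏ j, (x (w j).1 (w j).2.1).coeff (w j).2.2) -
          ∏ j, (x (w' j).1 (w' j).2.1).coeff (w' j).2.2 := by
      rw [cf_sub, dhat, cf_add, cf_sub, cf_tens]
      rw [hw', cf_dlt_rep, cf_dlt_rep, cf_one_rep, cf_tens, sub_self, add_zero]
    rw [h4, prod_zmod, prod_zmod]
    -- the letters
    let g : ℕ → k := fun j => (x (w (j : ZMod (p ^ (e + 1)))).1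
      (w (j : ZMod (p ^ (e + 1)))).2.1).coeff (w (j : ZMod (p ^ (e + 1)))).2.2
    have hg : ∀ j, g (p ^ l + j) = g j := by
      intro j
      have h5 : sh^[p ^ l] w = w := by rw [← hL]; exact iterate_minimalPeriod
      have h6 := congrFun h5 (j : ZMod (p ^ (e + 1)))
      rw [sh_iter] at h6
      have h7 : w ((p ^ l + j : ℕ) : ZMod (p ^ (e + 1))) = w (j : ZMod (p ^ (e + 1))) := by
        rw [← h6]
        congr 1
        push_cast
        ring
      show (x (w ((p ^ l + j : ℕ) : ZMod (p ^ (e + 1)))).1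
        (w ((p ^ l + j : ℕ) : ZMod (p ^ (e + 1)))).2.1).coeff
        (w ((p ^ l + j : ℕ) : ZMod (p ^ (e + 1)))).2.2 = _
      rw [h7]
    have hg' : ∀ j : ℕ, (x (w' (j : ZMod (p ^ e))).1 (w' (j : ZMod (p ^ e))).2.1).coeff
        (w' (j : ZMod (p ^ e))).2.2 = g j := by
      intro j
      have h8 : w (j : ZMod (p ^ (e + 1))) = w' (j : ZMod (p ^ e)) := by
        rw [hw']
        show w' (prj p e (j : ZMod (p ^ (e + 1)))) = _
        rw [prj_natCast]
      show _ = (x (w (j : ZMod (p ^ (e + 1)))).1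
        (w (j : ZMod (p ^ (e + 1)))).2.1).coeff (w (j : ZMod (p ^ (e + 1)))).2.2
      rw [h8]
    have e1 : ∏ j ∈ Finset.range (p ^ (e + 1)), g j =
        (∏ j ∈ Finset.range (p ^ l), g j) ^ (p ^ (e + 1 - l)) := by
      rw [← NAbs.prod_mul g (p ^ l) hg, ← pow_add, Nat.sub_add_cancel hl]
    have e2 : ∏ j ∈ Finset.range (p ^ e), g j =
        (∏ j ∈ Finset.range (p ^ l), g j) ^ (p ^ (e - l)) := by
      rw [← NAbs.prod_mul g (p ^ l) hg, ← pow_add, Nat.sub_add_cancel hl']
    have e3 : (∏ j ∈ Finset.range (p ^ e),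
        (x (w' (j : ZMod (p ^ e))).1 (w' (j : ZMod (p ^ e))).2.1).coeff
          (w' (j : ZMod (p ^ e))).2.2) = ∏ j ∈ Finset.range (p ^ e), g j :=
      Finset.prod_congr rfl fun j _ => hg' j
    rw [e3, e2]
    show _ ∣ (∏ j ∈ Finset.range (p ^ (e + 1)), g j) - _
    rw [e1, show e + 1 - l = (e - l) + 1 by omega, pow_succ p (e - l), Nat.mul_comm, pow_mul]
    have h9 := dvd_sub_pow_of_dvd_sub (hk (∏ j ∈ Finset.range (p ^ l), g j)) (e - l)
    rw [Nat.mul_comm, ← pow_succ p (e - l)]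
    exact_mod_cast h9

theorem norm [hp : Fact p.Prime] (hk : ∀ c : k, (p : k) ∣ c ^ p - c)
    (x : Matrix ι ι (MonoidAlgebra k G)) :
    ∃ z, nm (rot k G ι (p ^ (e + 1))) (p ^ (e + 1)) z =
      tens k G ι (p ^ (e + 1)) x - dhat k G ι p e x := by
  obtain ⟨z, hz1, hz2⟩ := NAbs.norm_of_dvd (k := k) (sh (N := p ^ (e + 1)) (X := ι × ι × G))
    (p ^ (e + 1)) (Nat.pos_of_ne_zero (NeZero.ne _)) sh_N
    (cf (tens k G ι (p ^ (e + 1)) x - dhat k G ι p e x)) (cf_finite _)
    (fun w => by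
      rw [cf_sub, cf_sub, dhat, cf_add, cf_add, cf_sub, cf_sub, cf_tens_sh, cf_one_sh,
        cf_dlt_sh p e _ (fun w => cf_tens_sh x w), cf_dlt_sh p e _ (fun w => cf_one_sh w)])
    (dvd_word p e hk x)
  obtain ⟨b, hb⟩ := exists_cf z hz1
  refine ⟨b, cf_ext fun w => ?_⟩
  rw [cf_nm, ← hz2 w]
  exact Finset.sum_congr rfl fun j _ => hb _

end

end NN

/-- Module N. -/
theorem specN : SpecN where
  ker := fun k _ G _ ι _ _ p e _ _ hk y hy => NN.ker p e hk y hy
  norm := fun k _ G _ ι _ _ p e _ _ _ hk x => NN.norm p e hk x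

end Pool.Agent.Lib.MPb6f35e.WH
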