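import Pool.Agent.Lib.MP_b6f35e_al.WH.N

/-!
# Module T: the tensor power ring
-/

set_option autoImplicit false

noncomputable section

namespace Pool.Agent.Lib.MPb6f35e.WH

open Function NN

namespace TT

universe u v

variable {k : Type u} [CommRing k] {G : Type v} [Group G] {ι : Type}

/-! ### the tensor product of elements of the group ring -/

/-- `a_0 ⊗ ... ⊗ a_{N-1}` -/
def tt {N : ℕ} [NeZero N] (a : ZMod N → MonoidAlgebra k G) : MonoidAlgebra k (ZMod N → G) :=
  MonoidAlgebra.ofCoeff (Finsupp.onFinset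
    (Fintype.piFinset fun j => (a j).coeff.support)
    (fun γ => ∏ j, (a j).coeff (γ j))
    (by
      intro γ hγ
      rw [Fintype.mem_piFinset]
      intro j
      rw [Finsupp.mem_support_iff]
      intro h0
      exact hγ (Finset.prod_eq_zero (Finset.mem_univ j) h0)))

theorem tt_coeff {N : ℕ} [NeZero N] (a : ZMod N → MonoidAlgebra k G) (γ : ZMod N → G) :
    (tt a).coeff γ = ∏ j, (a j).coeff (γ j) := rfl

theorem tens_apply {N : ℕ} [NeZero N] (x : Matrix ι ι (MonoidAlgebra k G)) (I J : ZMod N → ι) :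
    tens k G ι N x I J = tt fun j => x (I j) (J j) := rfl

theorem tt_mul {N : ℕ} [NeZero N] (a b : ZMod N → MonoidAlgebra k G) :
    tt (fun j => a j * b j) = tt a * tt b := by
  apply MonoidAlgebra.ext
  apply Finsupp.ext
  intro γ
  rw [tt_coeff]
  have h1 : ∀ (A B : MonoidAlgebra k G) (g : G),
      (A * B).coeff g = ∑ h ∈ A.coeff.support, A.coeff h * B.coeff (h⁻¹ * g) := by
    intro A B g
    rw [MonoidAlgebra.coeff_mul_apply_left]
    rfl
  have h2 : (tt a * tt b).coeff γ =
      ∑ η ∈ Fintype.piFinset fun j => (a j).coeff.support,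
        (tt a).coeff η * (tt b).coeff (η⁻¹ * γ) := by
    rw [MonoidAlgebra.coeff_mul_apply_left, Finsupp.sum]
    refine Finset.sum_subset ?_ ?_
    · intro η hη
      rw [Fintype.mem_piFinset]
      intro j
      rw [Finsupp.mem_support_iff] at hη ⊢
      intro h0
      exact hη (Finset.prod_eq_zero (Finset.mem_univ j) h0)
    · intro η _ hη
      rw [Finsupp.notMem_support_iff.1 hη, zero_mul]
  rw [h2]
  simp only [h1]
  rw [Finset.prod_univ_sum]
  refine Finset.sum_congr rfl fun η _ => ?_
  rw [tt_coeff, tt_coeff, ← Finset.prod_mul_distrib]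
  rfl

theorem tt_sum {N : ℕ} [NeZero N] [Fintype ι] [DecidableEq ι] (c : ZMod N → ι → MonoidAlgebra k G) :
    tt (fun j => ∑ i, c j i) = ∑ K : ZMod N → ι, tt fun j => c j (K j) := by
  apply MonoidAlgebra.ext
  apply Finsupp.ext
  intro γ
  have h1 : ∀ (α : Type) (s : Finset α) (f : α → MonoidAlgebra k (ZMod N → G)),
      (∑ i ∈ s, f i).coeff γ = ∑ i ∈ s, (f i).coeff γ := by
    intro α s f
    rw [MonoidAlgebra.coeff_sum, Finsupp.finsetSum_apply]
  have h2 : ∀ (j : ZMod N), (∑ i, c j i).coeff (γ j) = ∑ i, (c j i).coeff (γ j) := by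
    intro j
    rw [MonoidAlgebra.coeff_sum, Finsupp.finsetSum_apply]
  rw [tt_coeff, h1]
  simp only [h2, tt_coeff]
  rw [Finset.prod_univ_sum, Fintype.piFinset_univ]

theorem tensMul {N : ℕ} [NeZero N] [Fintype ι] [DecidableEq ι]
    (x y : Matrix ι ι (MonoidAlgebra k G)) :
    tens k G ι N (x * y) = tens k G ι N x * tens k G ι N y := by
  apply Matrix.ext
  intro I J
  rw [tens_apply, Matrix.mul_apply]
  simp only [tens_apply]
  simp only [← tt_mul]
  rw [← tt_sum (fun j i => x (I j) i * y i (J j))]
  rfl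

open Classical in
theorem tensOne {N : ℕ} [NeZero N] [Fintype ι] [DecidableEq ι] :
    tens k G ι N (1 : Matrix ι ι (MonoidAlgebra k G)) = 1 := by
  refine cf_ext fun w => ?_
  rw [cf_tens, cf_one]
  by_cases h : (∀ j, (w j).1 = (w j).2.1) ∧ ∀ j, (w j).2.2 = 1
  · rw [if_pos h]
    refine Finset.prod_eq_one fun j _ => ?_
    rw [← h.1 j, h.2 j, Matrix.one_apply_eq, MonoidAlgebra.one_def, MonoidAlgebra.coeff_single,
      Finsupp.single_eq_same]
  · rw [if_neg h]
    rw [not_and_or, not_forall, not_forall] at h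
    rcases h with ⟨j, hj⟩ | ⟨j, hj⟩
    · refine Finset.prod_eq_zero (Finset.mem_univ j) ?_
      rw [Matrix.one_apply_ne hj]
      rfl
    · refine Finset.prod_eq_zero (Finset.mem_univ j) ?_
      rw [Matrix.one_apply]
      split_ifs
      · rw [MonoidAlgebra.one_def, MonoidAlgebra.coeff_single, Finsupp.single_apply, if_neg]
        exact fun h => hj h.symm
      · rfl

/-! ### repetition -/

section

variable (p e : ℕ) [NeZero (p ^ e)] [NeZero (p ^ (e + 1))] [Fintype ι] [DecidableEq ι]

theorem wMat_mul_transpose : wMat k G ι p e * (wMat k G ι p e).transpose = 1 := by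
  apply Matrix.ext
  intro I J
  rw [Matrix.mul_apply, Finset.sum_eq_single (fun j => I (prj p e j))]
  · rw [Matrix.transpose_apply, wMat, Matrix.of_apply, Matrix.of_apply, if_pos rfl, one_mul,
      Matrix.one_apply]
    by_cases h : I = J
    · rw [if_pos h, if_pos (by rw [h])]
    · rw [if_neg h, if_neg]
      intro h2
      exact h (rep_inj p e h2)
  · intro K _ hne
    rw [wMat, Matrix.of_apply, if_neg hne, zero_mul]
  · intro h
    exact absurd (Finset.mem_univ _) h

theorem dlt_mul (a b : TR k G ι (p ^ e)) :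
    dlt k G ι p e (a * b) = dlt k G ι p e a * dlt k G ι p e b := by
  simp only [dlt]
  rw [Matrix.map_mul]
  calc (wMat k G ι p e).transpose *
        (a.map (MonoidAlgebra.mapDomainRingHom k (repG p e G)) *
          b.map (MonoidAlgebra.mapDomainRingHom k (repG p e G))) * wMat k G ι p e
      = (wMat k G ι p e).transpose *
        (a.map (MonoidAlgebra.mapDomainRingHom k (repG p e G)) * 1 *
          b.map (MonoidAlgebra.mapDomainRingHom k (repG p e G))) * wMat k G ι p e := by
        rw [Matrix.mul_one]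
    _ = _ := by
        rw [← wMat_mul_transpose (k := k) (G := G) (ι := ι) p e]
        simp only [Matrix.mul_assoc]

theorem dhat_mul (x y : Matrix ι ι (MonoidAlgebra k G)) :
    dhat k G ι p e (x * y) = dhat k G ι p e x * dhat k G ι p e y := by
  simp only [dhat]
  rw [tensMul, dlt_mul]
  have h1 := dlt_mul p e (tens k G ι (p ^ e) x) 1
  have h2 := dlt_mul p e 1 (tens k G ι (p ^ e) y)
  have h3 := dlt_mul (k := k) (G := G) (ι := ι) p e 1 1
  rw [mul_one] at h1 h3
  rw [one_mul] at h2
  generalize dlt k G ι p e (tens k G ι (p ^ e) x) = A at *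
  generalize dlt k G ι p e (tens k G ι (p ^ e) y) = B at *
  generalize dlt k G ι p e 1 = E at *
  have h4 : A * (1 - E) = 0 := by rw [mul_sub, mul_one, ← h1, sub_self]
  have h5 : (1 - E) * B = 0 := by rw [sub_mul, one_mul, ← h2, sub_self]
  have h6 : (1 - E) * (1 - E) = 1 - E := by
    rw [mul_sub, mul_one, sub_mul, one_mul, ← h3, sub_self, sub_zero]
  rw [add_mul, mul_add, mul_add, h4, h5, h6, add_zero, zero_add]

theorem dhat_one : dhat k G ι p e (1 : Matrix ι ι (MonoidAlgebra k G)) = 1 := by
  rw [dhat, tensOne]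
  abel

theorem rot_dhat (x : Matrix ι ι (MonoidAlgebra k G)) :
    rot k G ι (p ^ (e + 1)) (dhat k G ι p e x) = dhat k G ι p e x := by
  refine cf_ext fun w => ?_
  rw [cf_rot]
  simp only [dhat, cf_add, cf_sub]
  rw [cf_dlt_sh p e _ (fun w => cf_tens_sh x w), cf_one_sh, cf_dlt_sh p e _ (fun w => cf_one_sh w)]

end

/-! ### the twisted trace -/

theorem cyc_rot {N : ℕ} (γ δ : ZMod N → G) : cyc (rotG N G δ * γ) = cyc (γ * δ) := by
  have h : ∀ n : ℕ, (((List.range n).map fun j : ℕ =>
      (rotG N G δ * γ) (j : ZMod N)).prod) * δ ((n : ZMod N) - 1) =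
      δ (-1) * ((List.range n).map fun j : ℕ => (γ * δ) (j : ZMod N)).prod := by
    intro n
    induction n with
    | zero => simp
    | succ n ih =>
      rw [List.range_succ, List.map_append, List.map_append, List.prod_append, List.prod_append,
        ← mul_assoc (δ (-1)), ← ih]
      simp only [List.map_cons, List.map_nil, List.prod_cons, List.prod_nil, mul_one]
      have h1 : ((n + 1 : ℕ) : ZMod N) - 1 = (n : ZMod N) := by push_cast; ring
      rw [h1]
      show _ * (δ ((n : ZMod N) - 1) * γ (n : ZMod N)) * δ (n : ZMod N) =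
        _ * δ ((n : ZMod N) - 1) * (γ (n : ZMod N) * δ (n : ZMod N))
      simp only [mul_assoc]
  have hN := h N
  rw [ZMod.natCast_self, zero_sub] at hN
  rw [cyc, cyc, ConjClasses.mk_eq_mk_iff_isConj, isConj_iff]
  refine ⟨(δ (-1))⁻¹, ?_⟩
  rw [inv_inv]
  rw [mul_assoc, hN, inv_mul_cancel_left]

theorem cycHom_single {N : ℕ} (γ : ZMod N → G) (c : k) :
    cycHom k G N (MonoidAlgebra.single γ c) =
      Finsupp.single (cyc γ) (Ideal.Quotient.mk (Ideal.span {(N : k)}) c) := by
  show (Finsupp.liftAddHom _) (Finsupp.single γ c) = _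
  rw [Finsupp.liftAddHom_apply_single]
  rfl

theorem cycHom_mul {N : ℕ} (α β : MonoidAlgebra k (ZMod N → G)) :
    cycHom k G N (α * β) =
      cycHom k G N (MonoidAlgebra.mapDomainRingHom k (rotG N G) β * α) := by
  induction α using MonoidAlgebra.induction_linear with
  | zero => simp
  | add x y hx hy => rw [add_mul, mul_add, map_add, map_add, hx, hy]
  | single γ c =>
    induction β using MonoidAlgebra.induction_linear with
    | zero => simp
    | add x y hx hy => rw [mul_add, map_add, map_add, add_mul, map_add, hx, hy]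
    | single δ d =>
      rw [MonoidAlgebra.mapDomainRingHom_apply, MonoidAlgebra.mapDomain_single,
        MonoidAlgebra.single_mul_single, MonoidAlgebra.single_mul_single, cycHom_single,
        cycHom_single, cyc_rot, mul_comm c d]

theorem tau_rot {N : ℕ} [NeZero N] [Fintype ι] [DecidableEq ι] (a b : TR k G ι N) :
    tau k G ι N (a * b) = tau k G ι N (rot k G ι N b * a) := by
  show ∑ I : ZMod N → ι, cycHom k G N ((a * b) I (sh I)) =
    ∑ I : ZMod N → ι, cycHom k G N ((rot k G ι N b * a) I (sh I))
  simp only [Matrix.mul_apply, map_sum]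
  have hsh : Function.Bijective (sh : (ZMod N → ι) → (ZMod N → ι)) := by
    constructor
    · intro I J h
      funext j
      have h1 := congrFun h (j - 1)
      have h2 : ∀ K : ZMod N → ι, sh K (j - 1) = K j := by
        intro K
        show K (j - 1 + 1) = K j
        rw [sub_add_cancel]
      rw [h2, h2] at h1
      exact h1
    · intro J
      refine ⟨fun j => J (j - 1), ?_⟩
      funext j
      show J (j + 1 - 1) = J j
      rw [add_sub_cancel_right]
  have h1 : ∀ (I K : ZMod N → ι), cycHom k G N (rot k G ι N b I K * a K (sh I)) =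
      cycHom k G N (a K (sh I) * b (sh I) (sh K)) := fun I K =>
    (cycHom_mul (a K (sh I)) (b (sh I) (sh K))).symm
  simp only [h1]
  rw [Finset.sum_comm]
  rw [← Function.Bijective.sum_comp hsh
    (fun K => ∑ I : ZMod N → ι, cycHom k G N (a I K * b K (sh I)))]

end TT

/-- module T -/
theorem specT : SpecT where
  rotN := by
    intro k _ G _ ι _ _ N _ a
    exact cf_ext fun w => by rw [cf_iter, sh_N]
  tensMul := by
    intro k _ G _ ι _ _ N _ x y
    exact TT.tensMul x y
  tensOne := by
    intro k _ G _ ι _ _ N _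
    exact TT.tensOne
  rotTens := by
    intro k _ G _ ι _ _ N _ x
    exact cf_ext fun w => by rw [cf_rot, cf_tens_sh]
  dhatMul := by
    intro k _ G _ ι _ _ p e _ _ x y
    exact TT.dhat_mul p e x y
  dhatOne := by
    intro k _ G _ ι _ _ p e _ _
    exact TT.dhat_one p e
  rotDhat := by
    intro k _ G _ ι _ _ p e _ _ x
    exact TT.rot_dhat p e x
  tauRot := by
    intro k _ G _ ι _ _ N _ a b
    exact TT.tau_rot a b

end Pool.Agent.Lib.MPb6f35e.WH
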