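import Pool.Agent.Lib.MP_b6f35e_al.WH.GCore

/-! # WH, module G, part 2: blocks -/

set_option autoImplicit false
set_option linter.unusedSectionVars false

noncomputable section

namespace Pool.Agent.Lib.MPb6f35e.WH

universe u v w

variable {k : Type u} [CommRing k] {G : Type v} [Group G] {ι κ : Type} [Fintype ι] [DecidableEq ι]
  [Fintype κ] [DecidableEq κ]

/-- Restriction to words with letters in the image of `f : κ → ι`. -/
def sb (f : κ → ι) {N : ℕ} (a : TR k G ι N) : TR k G κ N :=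
  a.submatrix (fun I j => f (I j)) (fun I j => f (I j))

lemma sb_sub (f : κ → ι) {N : ℕ} (a b : TR k G ι N) : sb f (a - b) = sb f a - sb f b := rfl

lemma sb_add (f : κ → ι) {N : ℕ} (a b : TR k G ι N) : sb f (a + b) = sb f a + sb f b := rfl

lemma sb_sum (f : κ → ι) {N : ℕ} {α : Type*} (s : Finset α) (a : α → TR k G ι N) :
    sb f (∑ i ∈ s, a i) = ∑ i ∈ s, sb f (a i) := by
  classical
  induction s using Finset.induction_on with
  | empty => simp [sb]
  | insert x s hx ih => rw [Finset.sum_insert hx, Finset.sum_insert hx, sb_add, ih]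

lemma sb_nsmul (f : κ → ι) {N : ℕ} (n : ℕ) (a : TR k G ι N) : sb f (n • a) = n • sb f a := rfl

lemma comp_inj {f : κ → ι} (hf : Function.Injective f) {X : Type*} :
    Function.Injective (fun (I : X → κ) j => f (I j)) := by
  intro I J h
  funext j
  exact hf (congrFun h j)

lemma sb_one {f : κ → ι} (hf : Function.Injective f) {N : ℕ} [NeZero N] :
    sb f (1 : TR k G ι N) = 1 := by
  ext I J
  rw [sb, Matrix.submatrix_apply, Matrix.one_apply, Matrix.one_apply]
  by_cases h : I = J
  · subst h; simp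
  · rw [if_neg h, if_neg (fun h' => h (comp_inj hf h'))]

lemma rot_apply {N : ℕ} [NeZero N] (a : TR k G ι N) (I J : ZMod N → ι) :
    rot k G ι N a I J = MonoidAlgebra.mapDomainRingHom k (rotG N G) (a (sh I) (sh J)) := rfl

lemma sb_rot (f : κ → ι) {N : ℕ} [NeZero N] (a : TR k G ι N) :
    sb f (rot k G ι N a) = rot k G κ N (sb f a) := rfl

lemma sb_rot_iter (f : κ → ι) {N : ℕ} [NeZero N] (j : ℕ) (a : TR k G ι N) :
    sb f ((rot k G ι N)^[j] a) = (rot k G κ N)^[j] (sb f a) := by
  induction j generalizing a with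
  | zero => rfl
  | succ j ih => rw [Function.iterate_succ_apply, Function.iterate_succ_apply, ih, sb_rot]

lemma sb_nm (f : κ → ι) {N : ℕ} [NeZero N] (M : ℕ) (a : TR k G ι N) :
    sb f (nm (rot k G ι N) M a) = nm (rot k G κ N) M (sb f a) := by
  simp only [nm, sb_sum, sb_rot_iter]

lemma sb_pp (f : κ → ι) {N : ℕ} [NeZero N] (M : ℕ) (a : TR k G ι N) :
    sb f (pp (rot k G ι N) M a) = pp (rot k G κ N) M (sb f a) := by
  simp only [pp, sb_sum, sb_nsmul, sb_rot_iter]

lemma sb_tens (f : κ → ι) {N : ℕ} [NeZero N] (x : Matrix ι ι (MonoidAlgebra k G)) :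
    sb f (tens k G ι N x) = tens k G κ N (x.submatrix f f) := rfl

lemma wMat_mul (p e : ℕ) [NeZero (p ^ e)] [NeZero (p ^ (e + 1))] {X : Type*}
    (a : Matrix (ZMod (p ^ e) → ι) X (MonoidAlgebra k (ZMod (p ^ (e + 1)) → G)))
    (I : ZMod (p ^ (e + 1)) → ι) (J : X) :
    ((wMat k G ι p e).transpose * a) I J =
      ∑ I' : ZMod (p ^ e) → ι, if I = fun j => I' (prj p e j) then a I' J else 0 := by
  rw [Matrix.mul_apply]
  refine Finset.sum_congr rfl fun I' _ => ?_
  rw [Matrix.transpose_apply, wMat, Matrix.of_apply]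
  split_ifs <;> simp

lemma mul_wMat (p e : ℕ) [NeZero (p ^ e)] [NeZero (p ^ (e + 1))] {X : Type*}
    (a : Matrix X (ZMod (p ^ e) → ι) (MonoidAlgebra k (ZMod (p ^ (e + 1)) → G)))
    (I : X) (J : ZMod (p ^ (e + 1)) → ι) :
    (a * wMat k G ι p e) I J =
      ∑ J' : ZMod (p ^ e) → ι, if J = fun j => J' (prj p e j) then a I J' else 0 := by
  rw [Matrix.mul_apply]
  refine Finset.sum_congr rfl fun I' _ => ?_
  rw [wMat, Matrix.of_apply]
  split_ifs <;> simp

lemma dlt_apply (p e : ℕ) [NeZero (p ^ e)] [NeZero (p ^ (e + 1))] (a : TR k G ι (p ^ e))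
    (I J : ZMod (p ^ (e + 1)) → ι) :
    dlt k G ι p e a I J = ∑ J' : ZMod (p ^ e) → ι, if J = fun j => J' (prj p e j) then
      ∑ I' : ZMod (p ^ e) → ι, if I = fun j => I' (prj p e j) then
        MonoidAlgebra.mapDomainRingHom k (repG p e G) (a I' J') else 0 else 0 := by
  rw [dlt, mul_wMat]
  refine Finset.sum_congr rfl fun J' _ => ?_
  rw [wMat_mul]
  rfl

/-- A word `f ∘ I` is periodic iff `I` is. -/
lemma per_iff {f : κ → ι} (hf : Function.Injective f) {p e : ℕ} [NeZero (p ^ e)]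
    [NeZero (p ^ (e + 1))] (I : ZMod (p ^ (e + 1)) → κ) (I' : ZMod (p ^ e) → ι)
    (h : (fun j => f (I j)) = fun j => I' (prj p e j)) :
    ∃ I₁ : ZMod (p ^ e) → κ, I' = (fun j => f (I₁ j)) ∧ I = fun j => I₁ (prj p e j) := by
  have hs : Function.Surjective (prj p e) := ZMod.castHom_surjective _
  choose g hg using hs
  refine ⟨fun j => I (g j), ?_, ?_⟩
  · funext j
    have := congrFun h (g j)
    simp only [hg] at this
    exact this.symm
  · funext j
    apply hf
    have h1 : f (I j) = I' (prj p e j) := congrFun h j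
    have h2 : f (I (g (prj p e j))) = I' (prj p e (g (prj p e j))) := congrFun h _
    rw [hg] at h2
    rw [h1, h2]

lemma sb_dlt {f : κ → ι} (hf : Function.Injective f) (p e : ℕ) [NeZero (p ^ e)]
    [NeZero (p ^ (e + 1))] (a : TR k G ι (p ^ e)) :
    sb f (dlt k G ι p e a) = dlt k G κ p e (sb f a) := by
  have key : ∀ (I : ZMod (p ^ (e + 1)) → κ)
      (F : (ZMod (p ^ e) → ι) → MonoidAlgebra k (ZMod (p ^ (e + 1)) → G)),
      (∑ I' : ZMod (p ^ e) → ι, if (fun j => f (I j)) = fun j => I' (prj p e j) then F I' else 0) =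
      ∑ I' : ZMod (p ^ e) → κ, if I = fun j => I' (prj p e j) then F (fun j => f (I' j)) else 0 := by
    intro I F
    rw [← Finset.sum_filter, ← Finset.sum_filter]
    symm
    refine Finset.sum_bij (fun I' _ j => f (I' j)) ?_ ?_ ?_ ?_
    · intro I' h
      rw [Finset.mem_filter] at h ⊢
      refine ⟨Finset.mem_univ _, ?_⟩
      rw [h.2]
    · intro a _ b _ h
      exact comp_inj hf h
    · intro I' h
      rw [Finset.mem_filter] at h
      obtain ⟨I₁, h1, h2⟩ := per_iff hf I I' h.2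
      exact ⟨I₁, by rw [Finset.mem_filter]; exact ⟨Finset.mem_univ _, h2⟩, h1.symm⟩
    · intro I' _
      rfl
  ext1 I J
  rw [dlt_apply]
  show dlt k G ι p e a (fun j => f (I j)) (fun j => f (J j)) = _
  rw [dlt_apply, key J]
  refine Finset.sum_congr rfl fun J' _ => ?_
  split_ifs
  · rw [key I]
    rfl
  · rfl

lemma sb_dhat {f : κ → ι} (hf : Function.Injective f) (p e : ℕ) [NeZero (p ^ e)]
    [NeZero (p ^ (e + 1))] (x : Matrix ι ι (MonoidAlgebra k G)) :
    sb f (dhat k G ι p e x) = dhat k G κ p e (x.submatrix f f) := by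
  rw [dhat, dhat, sb_add, sb_sub, sb_dlt hf, sb_dlt hf, sb_tens, sb_one hf, sb_one hf]

/-! ### multiplicativity of `sb` -/

/-- `a(I, J) = 0` if exactly one of `I`, `J` takes values in the image of `f`; one half. -/
def ClosedR (f : κ → ι) {N : ℕ} (a : TR k G ι N) : Prop :=
  ∀ (I : ZMod N → κ) (J : ZMod N → ι), (¬ ∃ J₁ : ZMod N → κ, J = fun j => f (J₁ j)) →
    a (fun j => f (I j)) J = 0

lemma sb_mul {f : κ → ι} (hf : Function.Injective f) {N : ℕ} [NeZero N] (a b : TR k G ι N)
    (ha : ClosedR f a) : sb f (a * b) = sb f a * sb f b := by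
  ext1 I J
  show (a * b) (fun j => f (I j)) (fun j => f (J j)) = _
  rw [Matrix.mul_apply, Matrix.mul_apply]
  symm
  refine Finset.sum_of_injOn (fun L j => f (L j)) ?_ ?_ ?_ ?_
  · intro x _ y _ h
    exact comp_inj hf h
  · intro x _
    exact Finset.mem_coe.2 (Finset.mem_univ _)
  · intro L _ hL
    rw [ha I L, zero_mul]
    rintro ⟨L₁, rfl⟩
    exact hL ⟨L₁, Finset.mem_coe.2 (Finset.mem_univ _), rfl⟩
  · intro L _
    rfl

/-! ### block diagonal elements -/

/-- `a` is block diagonal for the partition `t`. -/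
def BD {β : Type} (t : ι → β) {N : ℕ} (a : TR k G ι N) : Prop :=
  ∀ I J : ZMod N → ι, (fun j => t (I j)) ≠ (fun j => t (J j)) → a I J = 0

section BD

variable {β : Type} [DecidableEq β] (t : ι → β)

lemma BD_add {N : ℕ} {a b : TR k G ι N} (ha : BD t a) (hb : BD t b) : BD t (a + b) := by
  intro I J h
  rw [Matrix.add_apply, ha I J h, hb I J h, add_zero]

lemma BD_sub {N : ℕ} {a b : TR k G ι N} (ha : BD t a) (hb : BD t b) : BD t (a - b) := by
  intro I J h
  rw [Matrix.sub_apply, ha I J h, hb I J h, sub_zero]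

lemma BD_sum {N : ℕ} {α : Type*} (s : Finset α) (a : α → TR k G ι N) (ha : ∀ i, BD t (a i)) :
    BD t (∑ i ∈ s, a i) := by
  intro I J h
  rw [Matrix.sum_apply]
  exact Finset.sum_eq_zero fun i _ => ha i I J h

lemma BD_nsmul {N : ℕ} (n : ℕ) {a : TR k G ι N} (ha : BD t a) : BD t (n • a) := by
  intro I J h
  rw [Matrix.smul_apply, ha I J h, smul_zero]

lemma BD_one {N : ℕ} [NeZero N] : BD t (1 : TR k G ι N) := by
  intro I J h
  rw [Matrix.one_apply, if_neg]
  rintro rfl
  exact h rfl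

lemma BD_mul {N : ℕ} [NeZero N] {a b : TR k G ι N} (ha : BD t a) (hb : BD t b) :
    BD t (a * b) := by
  intro I J h
  rw [Matrix.mul_apply]
  refine Finset.sum_eq_zero fun L _ => ?_
  by_cases h1 : (fun j => t (I j)) = fun j => t (L j)
  · rw [hb L J (by rw [← h1]; exact h), mul_zero]
  · rw [ha I L h1, zero_mul]

lemma BD_rot {N : ℕ} [NeZero N] {a : TR k G ι N} (ha : BD t a) : BD t (rot k G ι N a) := by
  intro I J h
  rw [rot_apply, ha (sh I) (sh J), map_zero]
  intro h'
  apply h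
  funext j
  have := congrFun h' (j - 1)
  simp only [sh, sub_add_cancel] at this
  exact this

lemma BD_rot_iter {N : ℕ} [NeZero N] (j : ℕ) {a : TR k G ι N} (ha : BD t a) :
    BD t ((rot k G ι N)^[j] a) := by
  induction j generalizing a with
  | zero => exact ha
  | succ j ih => rw [Function.iterate_succ_apply]; exact ih (BD_rot t ha)

lemma BD_pp {N : ℕ} [NeZero N] (M : ℕ) {a : TR k G ι N} (ha : BD t a) :
    BD t (pp (rot k G ι N) M a) :=
  BD_sum t _ _ fun j => BD_nsmul t _ (BD_rot_iter t j ha)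

lemma BD_tens {N : ℕ} [NeZero N] {x : Matrix ι ι (MonoidAlgebra k G)}
    (hx : ∀ i j, t i ≠ t j → x i j = 0) : BD t (tens k G ι N x) := by
  intro I J h
  obtain ⟨j, hj⟩ := Function.ne_iff.1 h
  ext γ
  show ∏ j, (x (I j) (J j)).coeff (γ j) = 0
  exact Finset.prod_eq_zero (Finset.mem_univ j) (by rw [hx _ _ hj]; rfl)

lemma BD_dlt {p e : ℕ} [NeZero (p ^ e)] [NeZero (p ^ (e + 1))] {a : TR k G ι (p ^ e)}
    (ha : BD t a) : BD t (dlt k G ι p e a) := by
  intro I J h
  rw [dlt_apply]
  refine Finset.sum_eq_zero fun J' _ => ?_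
  split_ifs with h1
  · refine Finset.sum_eq_zero fun I' _ => ?_
    split_ifs with h2
    · rw [ha I' J', map_zero]
      intro h3
      apply h
      rw [h1, h2]
      funext j
      exact congrFun h3 (prj p e j)
    · rfl
  · rfl

lemma BD_dhat {p e : ℕ} [NeZero (p ^ e)] [NeZero (p ^ (e + 1))]
    {x : Matrix ι ι (MonoidAlgebra k G)} (hx : ∀ i j, t i ≠ t j → x i j = 0) :
    BD t (dhat k G ι p e x) :=
  BD_add t (BD_dlt t (BD_tens t hx)) (BD_sub t (BD_one t) (BD_dlt t (BD_one t)))

/-- The block diagonal part. -/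
def tr {N : ℕ} [NeZero N] (a : TR k G ι N) : TR k G ι N :=
  Matrix.of fun I J => if (fun j => t (I j)) = (fun j => t (J j)) then a I J else 0

lemma BD_tr {N : ℕ} [NeZero N] (a : TR k G ι N) : BD t (tr t a) := by
  intro I J h
  rw [tr, Matrix.of_apply, if_neg h]

lemma tr_rot {N : ℕ} [NeZero N] (a : TR k G ι N) : tr t (rot k G ι N a) = rot k G ι N (tr t a) := by
  ext1 I J
  rw [rot_apply, tr, tr, Matrix.of_apply, Matrix.of_apply, rot_apply]
  have : ((fun j => t (I j)) = fun j => t (J j)) ↔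
      ((fun j => t (sh I j)) = fun j => t (sh J j)) := by
    constructor
    · intro h
      funext j
      exact congrFun h (j + 1)
    · intro h
      funext j
      have := congrFun h (j - 1)
      simp only [sh, sub_add_cancel] at this
      exact this
  by_cases h : (fun j => t (I j)) = fun j => t (J j)
  · rw [if_pos h, if_pos (this.1 h)]
  · rw [if_neg h, if_neg (fun h' => h (this.2 h')), map_zero]

lemma tr_rot_iter {N : ℕ} [NeZero N] (j : ℕ) (a : TR k G ι N) :
    tr t ((rot k G ι N)^[j] a) = (rot k G ι N)^[j] (tr t a) := by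
  induction j generalizing a with
  | zero => rfl
  | succ j ih => rw [Function.iterate_succ_apply, Function.iterate_succ_apply, ih, tr_rot]

lemma tr_sum {N : ℕ} [NeZero N] {α : Type*} (s : Finset α) (a : α → TR k G ι N) :
    tr t (∑ i ∈ s, a i) = ∑ i ∈ s, tr t (a i) := by
  ext1 I J
  rw [Matrix.sum_apply, tr, Matrix.of_apply, Matrix.sum_apply]
  split_ifs with h
  · refine Finset.sum_congr rfl fun i _ => ?_
    rw [tr, Matrix.of_apply, if_pos h]
  · symm
    refine Finset.sum_eq_zero fun i _ => ?_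
    rw [tr, Matrix.of_apply, if_neg h]

lemma tr_nm {N : ℕ} [NeZero N] (M : ℕ) (a : TR k G ι N) :
    tr t (nm (rot k G ι N) M a) = nm (rot k G ι N) M (tr t a) := by
  simp only [nm, tr_sum, tr_rot_iter]

lemma tr_of_BD {N : ℕ} [NeZero N] {a : TR k G ι N} (ha : BD t a) : tr t a = a := by
  ext1 I J
  rw [tr, Matrix.of_apply]
  split_ifs with h
  · rfl
  · rw [ha I J h]

/-- A shift invariant function on `ℤ/N` is constant. -/
lemma const_of_shift {N : ℕ} [NeZero N] {X : Type*} (g : ZMod N → X) (h : ∀ j, g j = g (j + 1)) :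
    ∀ j, g j = g 0 := by
  have h1 : ∀ n : ℕ, g (n : ZMod N) = g 0 := by
    intro n
    induction n with
    | zero => simp
    | succ n ih => rw [Nat.cast_succ, ← h, ih]
  intro j
  rw [← ZMod.natCast_zmod_val j]
  exact h1 _

end BD

end Pool.Agent.Lib.MPb6f35e.WH
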