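import Pool.Agent.Lib.MP_b6f35e_al.WH.E4

/-!
MP_b6f35e_al, module E, part 5: the group ring of a finite commutative group over a domain of
characteristic zero with finite quotients.
-/

set_option autoImplicit false

noncomputable section

namespace Pool.Agent.Lib.MPb6f35e.WH.EM

universe u v

/-- `L / c L` is finite if `c` divides a nonzero element `x` of `R` with `R/(x)` finite and `L` is a
finite `R`-module. -/
lemma finite_quot {R : Type u} {L : Type v} [CommRing R] [CommRing L] [Algebra R L]
    [Module.Finite R L] (x : R) (hx : Finite (R ⧸ Ideal.span {x})) (c : L)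
    (hc : c ∣ algebraMap R L x) : Finite (L ⧸ Ideal.span {c}) := by
  set I : Ideal R := Ideal.span {x} with hI
  have h1 : Module.Finite (R ⧸ I) (L ⧸ (I • ⊤ : Submodule R L)) := inferInstance
  have h2 : Finite (L ⧸ (I • ⊤ : Submodule R L)) := Module.finite_of_finite (R ⧸ I)
  have hle : (I • ⊤ : Submodule R L) ≤
      LinearMap.ker (Ideal.Quotient.mkₐ R (Ideal.span {c})).toLinearMap := by
    rw [Submodule.smul_le]
    intro r hr n _
    rw [hI, Ideal.mem_span_singleton'] at hr
    obtain ⟨s, rfl⟩ := hr
    rw [LinearMap.mem_ker]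
    show Ideal.Quotient.mk (Ideal.span {c}) ((s * x) • n) = 0
    rw [Ideal.Quotient.eq_zero_iff_mem, Ideal.mem_span_singleton, Algebra.smul_def, map_mul]
    exact Dvd.dvd.mul_right (Dvd.dvd.mul_left hc _) _
  refine Finite.of_surjective
    (Submodule.liftQ (I • ⊤ : Submodule R L)
      (Ideal.Quotient.mkₐ R (Ideal.span {c})).toLinearMap hle) ?_
  intro y
  obtain ⟨z, rfl⟩ := Ideal.Quotient.mk_surjective y
  exact ⟨Submodule.Quotient.mk z, rfl⟩

/-- a unit modulo a nonunit of `R` is a nonzerodivisor -/
lemma nonZeroDivisor_of_unit_mod {R : Type u} {L : Type v} [CommRing R] [IsDomain R] [CommRing L]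
    [Algebra R L] [Module.Finite R L] [Module.IsTorsionFree R L] (q : R) (hq : ¬ IsUnit q) (a : L)
    (ha : IsUnit (Ideal.Quotient.mk (Ideal.span {algebraMap R L q}) a)) :
    a ∈ nonZeroDivisors L := by
  obtain ⟨b', hb⟩ := ha.exists_left_inv
  obtain ⟨b, rfl⟩ := Ideal.Quotient.mk_surjective b'
  rw [← map_mul, ← map_one (Ideal.Quotient.mk (Ideal.span {algebraMap R L q})),
    Ideal.Quotient.eq, Ideal.mem_span_singleton'] at hb
  obtain ⟨z, hz⟩ := hb
  rw [mem_nonZeroDivisors_iff_right]
  intro v hv
  -- `v = - q z v`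
  have h1 : v = q • (-(z * v)) := by
    rw [Algebra.smul_def]
    linear_combination v * hz + b * hv
  set N : Submodule R L := LinearMap.range (LinearMap.mulRight R v) with hN
  have hfg : N.FG := by
    rw [hN, LinearMap.range_eq_map]
    exact Submodule.FG.map _ Module.Finite.fg_top
  have hle : N ≤ (Ideal.span {q}) • N := by
    rintro _ ⟨y, rfl⟩
    have h2 : (LinearMap.mulRight R v) y = q • ((LinearMap.mulRight R v) (-(y * z))) := by
      show y * v = q • (-(y * z) * v)
      conv_lhs => rw [h1]
      rw [mul_smul_comm]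
      congr 1
      ring
    rw [h2]
    exact Submodule.smul_mem_smul (Ideal.mem_span_singleton_self q) ⟨_, rfl⟩
  obtain ⟨r, hr, hr0⟩ := Submodule.exists_sub_one_mem_and_smul_eq_zero_of_fg_of_le_smul
    (Ideal.span {q}) N hfg hle
  have hvN : v ∈ N := ⟨1, by show 1 * v = v; rw [one_mul]⟩
  have h3 : r • v = 0 := hr0 v hvN
  by_contra hv0
  have hr00 : r = 0 := by
    by_contra hr0'
    exact hv0 ((smul_eq_zero_iff_right hr0').mp h3)
  rw [hr00, zero_sub, Ideal.mem_span_singleton] at hr
  apply hq
  obtain ⟨s, hs⟩ := hr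
  exact IsUnit.of_mul_eq_one (-s) (by linear_combination hs)

/-- ER, for domains with finite proper quotients, of any characteristic. -/
theorem er_gen {R : Type u} [CommRing R] [IsDomain R]
    (hfq : ∀ a : R, a ≠ 0 → Finite (R ⧸ Ideal.span {a})) {C : Type v} [CommGroup C] [Finite C]
    (hK : SpecK.{max u v, 0}) (x : K1 (MonoidAlgebra R C)) :
    ∃ (m : ℕ) (_ : 0 < m) (y : (MonoidAlgebra R C)ˣ), m • x = K1.unit y := by
  have hfree : Module.Free R (MonoidAlgebra R C) := inferInstance
  have hfin : Module.Finite R (MonoidAlgebra R C) := inferInstance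
  have htf : Module.IsTorsionFree R (MonoidAlgebra R C) := inferInstance
  have hinj : Function.Injective (algebraMap R (MonoidAlgebra R C)) :=
    FaithfulSMul.algebraMap_injective R (MonoidAlgebra R C)
  have hQ : ∀ c ∈ nonZeroDivisors (MonoidAlgebra R C),
      Finite (MonoidAlgebra R C ⧸ Ideal.span {c}) := by
    intro c hc
    have halg : IsAlgebraic R c := (Algebra.IsIntegral.isIntegral c).isAlgebraic
    obtain ⟨x, hx, hdvd⟩ := halg.exists_nonzero_dvd hc
    exact finite_quot x (hfq x hx) c hdvd
  by_cases hF : IsField R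
  · have hart : IsArtinianRing R := by
      let _ : Field R := hF.toField
      infer_instance
    have hL : IsArtinianRing (MonoidAlgebra R C) := IsArtinianRing.of_finite R _
    have : IsArtinianRing (MonoidAlgebra R C ⧸
        Ideal.span {algebraMap R (MonoidAlgebra R C) 0}) := inferInstance
    exact E0 hK hQ _ (nonZeroDivisor_of_unit_mod (0 : R) not_isUnit_zero) x
  · obtain ⟨q, hq0, hq⟩ := Ring.exists_not_isUnit_of_not_isField hF
    have hfin2 : Finite (MonoidAlgebra R C ⧸
        Ideal.span {algebraMap R (MonoidAlgebra R C) q}) :=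
      finite_quot q (hfq q hq0) _ dvd_rfl
    have : IsArtinianRing (MonoidAlgebra R C ⧸
        Ideal.span {algebraMap R (MonoidAlgebra R C) q}) := inferInstance
    exact E0 hK hQ _ (nonZeroDivisor_of_unit_mod q hq) x

/-- ER. -/
theorem er_aux {R : Type u} [CommRing R] [hR : FinQuot R] {C : Type v} [CommGroup C] [Finite C]
    (hK : SpecK.{max u v, 0}) (x : K1 (MonoidAlgebra R C)) :
    ∃ (m : ℕ) (_ : 0 < m) (y : (MonoidAlgebra R C)ˣ), m • x = K1.unit y := by
  have hdom : IsDomain R := hR.dom
  exact er_gen hR.fin hK x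

end Pool.Agent.Lib.MPb6f35e.WH.EM
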