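import Pool.Agent.Lib.MP_b6f35e_al.WH.SpecR

/-!
# WH, module F1, part 1: the class `th φ x` in the colimit of a unit `x` of `R[C]`, `φ : C → G`
(hive 30, MP_b6f35e_al)
-/

set_option autoImplicit false

noncomputable section

namespace Pool.Agent.Lib.MPb6f35e.WH

universe u v w

namespace F1

/-! ### classes of units -/

lemma unit_mul {A : Type u} [Ring A] (a b : Aˣ) :
    K1.unit (a * b) = K1.unit a + K1.unit b := by
  unfold K1.unit
  rw [← K1.cls_mul]
  congr 1
  apply Units.ext
  ext i j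
  fin_cases i; fin_cases j
  simp [oneByOne, Matrix.mul_apply]

lemma unit_map {A : Type u} {B : Type v} [Ring A] [Ring B] (f : A →+* B) (a : Aˣ) :
    K1.map f (K1.unit a) = K1.unit (Units.map f.toMonoidHom a) := by
  unfold K1.unit
  rw [K1.map_cls]
  congr 1

/-- `K1.unit` as a homomorphism. -/
def unitHom (A : Type u) [Ring A] : Additive Aˣ →+ K1 A where
  toFun a := K1.unit a.toMul
  map_zero' := by
    have h := unit_mul (1 : Aˣ) 1
    rw [mul_one] at h
    exact left_eq_add.mp h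
  map_add' a b := unit_mul a.toMul b.toMul

/-- the map `R[C]ˣ → R[C']ˣ` induced by a homomorphism `C → C'` -/
def mU (R : Type u) [CommRing R] {C : Type v} {C' : Type w} [Group C] [Group C'] (f : C →* C') :
    (MonoidAlgebra R C)ˣ →* (MonoidAlgebra R C')ˣ :=
  Units.map (MonoidAlgebra.mapDomainRingHom R f).toMonoidHom

lemma mU_comp {R : Type u} [CommRing R] {C : Type v} {C' : Type v} {C'' : Type v} [Group C]
    [Group C'] [Group C''] (f : C →* C') (g : C' →* C'') (x : (MonoidAlgebra R C)ˣ) :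
    mU R g (mU R f x) = mU R (g.comp f) x := by
  apply Units.ext
  show MonoidAlgebra.mapDomainRingHom R g (MonoidAlgebra.mapDomainRingHom R f x) =
    MonoidAlgebra.mapDomainRingHom R (g.comp f) x
  rw [MonoidAlgebra.mapDomainRingHom_comp]
  rfl

variable {R : Type u} [CommRing R] {G : Type v} [Group G]

instance rangeFinite {C : Type v} [Group C] [Finite C] (φ : C →* G) : Finite φ.range :=
  Set.finite_range φ

/-- The class in the colimit of the image of a unit of `R[C]` under `φ : C → G`. -/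
def th {C : Type v} [Group C] [Finite C] (φ : C →* G) :
    Additive (MonoidAlgebra R C)ˣ →+ ColimK1 R G :=
  (ColimK1.ofSub (R := R) (⟨φ.range, rangeFinite φ⟩ : FinSub G)).comp
    ((unitHom (MonoidAlgebra R φ.range)).comp (mU R φ.rangeRestrict).toAdditive)

lemma th_apply {C : Type v} [Group C] [Finite C] (φ : C →* G) (x : (MonoidAlgebra R C)ˣ) :
    th φ (Additive.ofMul x) = ColimK1.ofSub (R := R) (⟨φ.range, rangeFinite φ⟩ : FinSub G)
      (K1.unit (mU R φ.rangeRestrict x)) := rfl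

open Classical in
lemma ofSub_rel (H K : FinSub G) (g : G) (h : ∀ x ∈ H.1, g * x * g⁻¹ ∈ K.1)
    (a : K1 (MonoidAlgebra R H.1)) :
    ColimK1.ofSub K (K1.map (MonoidAlgebra.mapDomainRingHom R (conjHom g H.1 K.1 h)) a) =
      ColimK1.ofSub H a := by
  have h1 : (QuotientAddGroup.mk (DirectSum.of (fun H : FinSub G => K1 (MonoidAlgebra R H.1)) K
        (K1.map (MonoidAlgebra.mapDomainRingHom R (conjHom g H.1 K.1 h)) a)
      - DirectSum.of (fun H : FinSub G => K1 (MonoidAlgebra R H.1)) H a) : ColimK1 R G) = 0 :=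
    (QuotientAddGroup.eq_zero_iff _).2 (AddSubgroup.subset_closure ⟨H, K, g, h, a, rfl⟩)
  have h2 : ColimK1.ofSub K (K1.map (MonoidAlgebra.mapDomainRingHom R (conjHom g H.1 K.1 h)) a) -
      ColimK1.ofSub H a = 0 := h1
  exact sub_eq_zero.1 h2

/-- The relations of the colimit for `th`. -/
lemma th_rel {C C' : Type v} [Group C] [Finite C] [Group C'] [Finite C'] (φ : C →* G)
    (φ' : C' →* G) (f : C →* C') (g : G) (h : ∀ c, φ' (f c) = g * φ c * g⁻¹)
    (x : (MonoidAlgebra R C)ˣ) :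
    th φ' (Additive.ofMul (mU R f x)) = th φ (Additive.ofMul x) := by
  have hH : ∀ y ∈ (⟨φ.range, rangeFinite φ⟩ : FinSub G).1,
      g * y * g⁻¹ ∈ (⟨φ'.range, rangeFinite φ'⟩ : FinSub G).1 := by
    rintro y ⟨c, rfl⟩
    exact ⟨f c, h c⟩
  rw [th_apply, th_apply, ← ofSub_rel _ (⟨φ'.range, rangeFinite φ'⟩ : FinSub G) g hH, unit_map]
  congr 2
  show mU R φ'.rangeRestrict (mU R f x) = mU R (conjHom g φ.range φ'.range hH)
    (mU R φ.rangeRestrict x)
  rw [mU_comp, mU_comp]
  congr 1
  congr 1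
  ext c
  exact h c

/-- For a finite subgroup. -/
lemma th_subtype (C : FinSub G) [Finite C.1] (x : (MonoidAlgebra R C.1)ˣ) :
    th C.1.subtype (Additive.ofMul x) = ColimK1.ofSub C (K1.unit x) := by
  have hH : ∀ y ∈ C.1, (1 : G) * y * 1⁻¹ ∈
      (⟨C.1.subtype.range, rangeFinite C.1.subtype⟩ : FinSub G).1 := by
    intro y hy
    exact ⟨⟨y, hy⟩, by simp⟩
  rw [th_apply, ← ofSub_rel C (⟨C.1.subtype.range, rangeFinite C.1.subtype⟩ : FinSub G) 1 hH,
    unit_map]
  congr 2
  show mU R C.1.subtype.rangeRestrict x = mU R (conjHom 1 C.1 C.1.subtype.range hH) x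
  congr 1
  congr 1
  ext c
  show (c : G) = 1 * (c : G) * 1⁻¹
  simp

end F1

end Pool.Agent.Lib.MPb6f35e.WH
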