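import Pool.Agent.Lib.MP_b6f35e_al.WH.F1a

/-!
# WH: the classes of the group elements are independent of the colimit (hive 30, MP_b6f35e_al)
-/

set_option autoImplicit false

noncomputable section

namespace Pool.Agent.Lib.MPb6f35e.WH

universe u v w

namespace Cor

/-- The determinant of an invertible matrix. -/
def detU {A : Type u} [CommRing A] {ι : Type v} [Fintype ι] [DecidableEq ι] :
    (Matrix ι ι A)ˣ →* Aˣ :=
  Units.map (Matrix.detMonoidHom (n := ι) (R := A))

/-- The determinant on `K_1`. -/
def det (A : Type u) [CommRing A] : K1 A →+ Additive Aˣ :=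
  K1.lift (fun _ u => Additive.ofMul (detU u))
    (by
      rintro x (⟨n, u, v⟩ | ⟨m, n, u, v, w, y, h⟩)
      · simp only [map_sub, FreeAbelianGroup.lift_apply_of, map_mul, ofMul_mul]
        abel
      · simp only [map_sub, FreeAbelianGroup.lift_apply_of]
        rw [sub_sub, sub_eq_zero, ← ofMul_mul]
        congr 1
        apply Units.ext
        show (w : Matrix (Fin (m + n)) (Fin (m + n)) A).det =
          (u : Matrix (Fin m) (Fin m) A).det * (v : Matrix (Fin n) (Fin n) A).det
        rw [h, Matrix.det_reindex_self, Matrix.det_fromBlocks_zero₂₁])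

lemma det_unit {A : Type u} [CommRing A] (a : Aˣ) : det A (K1.unit a) = Additive.ofMul a := by
  unfold det K1.unit
  rw [K1.lift_cls]
  congr 1
  apply Units.ext
  show (Matrix.of fun _ _ : Fin 1 => (a : A)).det = a
  simp

variable {R : Type u} [CommRing R] {G : Type v} [Group G]

lemma map_gUnit {H : Type v} [Group H] (f : G →* H) (g : G) :
    Units.map (MonoidAlgebra.mapDomainRingHom R f).toMonoidHom (gUnit R g) = gUnit R (f g) := by
  apply Units.ext
  show MonoidAlgebra.mapDomainRingHom R f (MonoidAlgebra.single g 1) = MonoidAlgebra.single (f g) 1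
  exact MonoidAlgebra.mapDomain_single

/-- If the class of `g` has finite order in `K_1(R[G])` then the image of `g` in the abelianization
has finite order. -/
lemma gUnit_torsion [Nontrivial R] (g : G)
    (h : IsOfFinAddOrder (K1.unit (gUnit R g) : K1 (MonoidAlgebra R G))) :
    IsOfFinOrder (Abelianization.of g) := by
  have h1 := (det (MonoidAlgebra R (Abelianization G))).isOfFinAddOrder
    ((K1.map (MonoidAlgebra.mapDomainRingHom R (Abelianization.of (G := G)))).isOfFinAddOrder h)
  rw [F1.unit_map, det_unit, isOfFinAddOrder_ofMul_iff] at h1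
  have h2 : Units.map (MonoidAlgebra.mapDomainRingHom R (Abelianization.of (G := G))).toMonoidHom
      (gUnit R g) = gUnit R (Abelianization.of g) := map_gUnit _ g
  rw [h2, isOfFinOrder_iff_pow_eq_one] at h1
  obtain ⟨n, hn, h3⟩ := h1
  rw [isOfFinOrder_iff_pow_eq_one]
  refine ⟨n, hn, ?_⟩
  have h4 : MonoidAlgebra.of R (Abelianization G) (Abelianization.of g) ^ n = 1 := by
    have := congrArg (Units.val) h3
    simpa [gUnit] using this
  rw [← map_pow] at h4
  exact MonoidAlgebra.of_injective (h4.trans (map_one _).symm)

end Cor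

/-- The direct sum of the abelianization of `G` and the colimit maps to `K_1(R[G])` with torsion
kernel, as soon as this holds for the colimit modulo trivial units. -/
theorem cor (R : Type u) [CommRing R] [Nontrivial R] (G : Type v) [Group G]
    (hW : ∀ x : ColimK1 R G, IsOfFinAddOrder (toWh R G x) → IsOfFinAddOrder x)
    (g : G) (x : ColimK1 R G)
    (h : IsOfFinAddOrder (K1.unit (gUnit R g) + assembly R G x)) :
    IsOfFinOrder (Abelianization.of g) ∧ IsOfFinAddOrder x := by
  have hx : IsOfFinAddOrder x := by
    apply hW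
    have h1 := (QuotientAddGroup.mk' (trivialUnits R G)).isOfFinAddOrder h
    rw [map_add] at h1
    have h2 : QuotientAddGroup.mk' (trivialUnits R G) (K1.unit (gUnit R g)) = 0 :=
      (QuotientAddGroup.eq_zero_iff _).2 (AddSubgroup.subset_closure ⟨g, Or.inl rfl⟩)
    rw [h2, zero_add] at h1
    exact h1
  refine ⟨?_, hx⟩
  apply Cor.gUnit_torsion (R := R)
  have h3 := (assembly R G).isOfFinAddOrder hx
  have h4 := h.add h3.neg
  rwa [add_neg_cancel_right] at h4

end Pool.Agent.Lib.MPb6f35e.WH
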