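import Mathlib

/-!
# The rotation number of a norm unit

`R` is a ring with an action of the cyclic group `ZMod N` by ring automorphisms, `tau : R → B` is
an additive map to a `ZMod N`-module with `tau (a * b) = tau ((1 • b) * a)`.  For `y` in `R` with
`1 + Nm y` invertible (`Nm y = ∑ i, i • y`), inverse `s`, put
`lam y s = tau (y * s) - ∑ i, i • tau (y * s * (i • y))`.
We prove that `lam` is additive, and that it depends only on `1 + Nm y` if `N` is odd.
-/

namespace Pool.MPb6f35e.WH

open Finset

variable {N : ℕ} [NeZero N] {R B : Type*} [Ring R] [AddCommGroup B] [Module (ZMod N) B]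

/-- A ring with a rotation of order `N` and a twisted trace. -/
structure Rot (N : ℕ) (R B : Type*) [Ring R] [AddCommGroup B] [Module (ZMod N) B] where
  act : ZMod N → R →+* R
  act_zero : ∀ x, act 0 x = x
  act_add : ∀ i j x, act (i + j) x = act i (act j x)
  tau : R →+ B
  tau_mul : ∀ a b, tau (a * b) = tau (act 1 b * a)

namespace Rot

variable (D : Rot N R B)

/-- The norm. -/
def Nm : R →+ R where
  toFun y := ∑ i : ZMod N, D.act i y
  map_zero' := by simp
  map_add' x y := by simp [Finset.sum_add_distrib]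

/-- The rotation number of `1 + Nm y`, `s` is the inverse of `1 + Nm y`. -/
def lam (y s : R) : B := D.tau (y * s) - ∑ i : ZMod N, i • D.tau (y * s * D.act i y)

theorem Nm_apply (y : R) : D.Nm y = ∑ i : ZMod N, D.act i y := rfl

theorem act_Nm (i : ZMod N) (y : R) : D.act i (D.Nm y) = D.Nm y := by
  rw [D.Nm_apply, map_sum]
  simp only [← D.act_add]
  exact Fintype.sum_equiv (Equiv.addLeft i) _ _ (fun j => rfl)

theorem Nm_act (i : ZMod N) (y : R) : D.Nm (D.act i y) = D.Nm y := by
  rw [D.Nm_apply, D.Nm_apply]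
  simp only [← D.act_add]
  exact Fintype.sum_equiv (Equiv.addRight i) _ _ (fun j => rfl)

theorem tau_act_one (x : R) : D.tau (D.act 1 x) = D.tau x := by
  have := D.tau_mul 1 x
  rw [one_mul, mul_one] at this
  exact this.symm

theorem tau_act_nat (n : ℕ) (x : R) : D.tau (D.act (n : ZMod N) x) = D.tau x := by
  induction n with
  | zero => simp [D.act_zero]
  | succ n ih => rw [Nat.cast_succ, add_comm, D.act_add, D.tau_act_one, ih]

theorem tau_act (i : ZMod N) (x : R) : D.tau (D.act i x) = D.tau x := by
  have := D.tau_act_nat i.val x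
  rwa [ZMod.natCast_zmod_val] at this

/-- the twisted trace property: an element can be moved around. -/
theorem tau_cyc (i j : ZMod N) (h : i + j = -1) (a b : R) :
    D.tau (a * D.act i b) = D.tau (b * D.act j a) := by
  rw [D.tau_mul, ← D.act_add, ← D.tau_act j, map_mul, ← D.act_add]
  have : j + (1 + i) = 0 := by linear_combination h
  rw [this, D.act_zero]

/-- The action of the cyclic group. -/
@[reducible] def msa : MulSemiringAction (Multiplicative (ZMod N)) R where
  smul g x := D.act g.toAdd x
  one_smul x := D.act_zero x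
  mul_smul g h x := D.act_add _ _ x
  smul_zero g := map_zero _
  smul_add g := map_add _
  smul_one g := map_one _
  smul_mul g := map_mul _

end Rot

section Skew

open Multiplicative

variable [MulSemiringAction (Multiplicative (ZMod N)) R] (tau : R →+ B)

/-- `T (u * D v)` where `D (x ρ^j) = j x ρ^j` and `T` is `tau` of the coefficient at `-1`. -/
noncomputable def TD (u v : SkewMonoidAlgebra R (Multiplicative (ZMod N))) : B :=
  ∑ i : ZMod N, (-1 - i) • tau (u.coeff (ofAdd i) * (ofAdd i • v.coeff (ofAdd (-1 - i))))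

theorem TD_add_left (u u' v : SkewMonoidAlgebra R (Multiplicative (ZMod N))) :
    TD tau (u + u') v = TD tau u v + TD tau u' v := by
  simp [TD, add_mul, smul_add, Finset.sum_add_distrib]

theorem TD_add_right (u v v' : SkewMonoidAlgebra R (Multiplicative (ZMod N))) :
    TD tau u (v + v') = TD tau u v + TD tau u v' := by
  simp [TD, mul_add, smul_add, Finset.sum_add_distrib]

theorem TD_single (i j : ZMod N) (a b : R) :
    TD tau (SkewMonoidAlgebra.single (ofAdd i) a) (SkewMonoidAlgebra.single (ofAdd j) b) =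
      if i + j = -1 then j • tau (a * (ofAdd i • b)) else 0 := by
  rw [TD, Finset.sum_eq_single i]
  · simp only [SkewMonoidAlgebra.coeff_single, Finsupp.single_eq_same]
    split_ifs with h
    · have : -1 - i = j := by rw [← h]; ring
      rw [this, Finsupp.single_eq_same]
    · rw [Finsupp.single_eq_of_ne]
      · simp
      · intro h'
        apply h
        have := congrArg toAdd h'
        simp only [toAdd_ofAdd] at this
        rw [← this]; ring
  · intro k _ hk
    simp only [SkewMonoidAlgebra.coeff_single]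
    rw [Finsupp.single_eq_of_ne]
    · simp
    · intro h'; exact hk (congrArg toAdd h')
  · simp

variable (hcyc : ∀ (i j : ZMod N), i + j = -1 → ∀ a b : R,
  tau (a * (ofAdd i • b)) = tau (b * (ofAdd j • a)))

include hcyc in
/-- `T (u D (v w)) = T (u v D w) + T (w u D v)`. -/
theorem TD_mul (u v w : SkewMonoidAlgebra R (Multiplicative (ZMod N))) :
    TD tau u (v * w) = TD tau (u * v) w + TD tau (w * u) v := by
  induction u using SkewMonoidAlgebra.induction_on with
  | zero => simp [TD]
  | add u u' hu hu' => simp only [TD_add_left, TD_add_right, add_mul, mul_add, hu, hu']; abel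
  | single i a =>
  induction v using SkewMonoidAlgebra.induction_on with
  | zero => simp [TD]
  | add u u' hu hu' => simp only [TD_add_left, TD_add_right, add_mul, mul_add, hu, hu']; abel
  | single j b =>
  induction w using SkewMonoidAlgebra.induction_on with
  | zero => simp [TD]
  | add u u' hu hu' => simp only [TD_add_left, TD_add_right, add_mul, mul_add, hu, hu']; abel
  | single k c =>
  obtain ⟨i, rfl⟩ := ofAdd.surjective i
  obtain ⟨j, rfl⟩ := ofAdd.surjective j
  obtain ⟨k, rfl⟩ := ofAdd.surjective k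
  simp only [SkewMonoidAlgebra.single_mul_single, ← ofAdd_add, TD_single]
  by_cases h : i + (j + k) = -1
  · rw [if_pos h, if_pos (by rw [← h]; ring), if_pos (by rw [← h]; ring)]
    rw [add_smul, add_comm]
    congr 1
    · rw [smul_mul', smul_smul, ← ofAdd_add, ← mul_assoc]
    · rw [smul_mul', smul_smul, ← ofAdd_add, ← mul_assoc,
        hcyc (i + j) k (by rw [← h]; ring), smul_mul', smul_smul, ← ofAdd_add, ← mul_assoc]
  · rw [if_neg h, if_neg (fun h' => h (by rw [← h']; ring)),
      if_neg (fun h' => h (by rw [← h']; ring)), add_zero]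

include hcyc in
theorem TD_hom (u u' v v' : SkewMonoidAlgebra R (Multiplicative (ZMod N)))
    (hu : u' * u = 1) (hv : v' * v = 1) (hv' : v * v' = 1) :
    TD tau (v' * u') (u * v) = TD tau u' u + TD tau v' v := by
  rw [TD_mul tau hcyc, mul_assoc, hu, mul_one, ← mul_assoc, hv', one_mul, add_comm]

/-- The element `y ν`. -/
noncomputable def en (y : R) : SkewMonoidAlgebra R (Multiplicative (ZMod N)) :=
  ∑ i : ZMod N, SkewMonoidAlgebra.single (ofAdd i) y

theorem en_add (x y : R) : en (N := N) (x + y) = en x + en y := by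
  simp [en, SkewMonoidAlgebra.single_add, Finset.sum_add_distrib]

theorem en_neg (x : R) : en (N := N) (- x) = - en x := by
  simp [en, SkewMonoidAlgebra.single_neg]

theorem TD_zero_left (v : SkewMonoidAlgebra R (Multiplicative (ZMod N))) :
    TD tau 0 v = 0 := by simp [TD]

theorem TD_zero_right (v : SkewMonoidAlgebra R (Multiplicative (ZMod N))) :
    TD tau v 0 = 0 := by simp [TD]

theorem TD_sum_left {ι : Type*} (s : Finset ι)
    (f : ι → SkewMonoidAlgebra R (Multiplicative (ZMod N)))
    (v : SkewMonoidAlgebra R (Multiplicative (ZMod N))) :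
    TD tau (∑ i ∈ s, f i) v = ∑ i ∈ s, TD tau (f i) v := by
  classical
  induction s using Finset.induction_on with
  | empty => simp [TD_zero_left]
  | insert a s ha ih => rw [Finset.sum_insert ha, Finset.sum_insert ha, TD_add_left, ih]

theorem TD_sum_right {ι : Type*} (s : Finset ι)
    (f : ι → SkewMonoidAlgebra R (Multiplicative (ZMod N)))
    (v : SkewMonoidAlgebra R (Multiplicative (ZMod N))) :
    TD tau v (∑ i ∈ s, f i) = ∑ i ∈ s, TD tau v (f i) := by
  classical
  induction s using Finset.induction_on with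
  | empty => simp [TD_zero_right]
  | insert a s ha ih => rw [Finset.sum_insert ha, Finset.sum_insert ha, TD_add_right, ih]

theorem TD_single_en (i : ZMod N) (a y : R) :
    TD tau (SkewMonoidAlgebra.single (ofAdd i) a) (en y) =
      (-1 - i) • tau (a * (ofAdd i • y)) := by
  rw [en, TD_sum_right, Finset.sum_eq_single (-1 - i)]
  · rw [TD_single, if_pos (by ring)]
  · intro j _ hj
    rw [TD_single, if_neg (fun h => hj (by rw [← h]; ring))]
  · simp

theorem TD_en_en (x y : R) :
    TD tau (en (N := N) x) (en y) = ∑ i : ZMod N, (-1 - i) • tau (x * (ofAdd i • y)) := by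
  have : en (N := N) x = ∑ i : ZMod N, SkewMonoidAlgebra.single (ofAdd i) x := rfl
  rw [this, TD_sum_left]
  exact Finset.sum_congr rfl (fun i _ => TD_single_en tau i x y)

theorem TD_one_en (y : R) : TD tau (1 : SkewMonoidAlgebra R (Multiplicative (ZMod N))) (en y) =
    - tau y := by
  rw [SkewMonoidAlgebra.one_def, ← ofAdd_zero, TD_single_en]
  simp

theorem TD_right_one (u : SkewMonoidAlgebra R (Multiplicative (ZMod N))) :
    TD tau u 1 = 0 := by
  induction u using SkewMonoidAlgebra.induction_on with
  | zero => simp [TD]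
  | add u u' hu hu' => rw [TD_add_left, hu, hu', add_zero]
  | single i a =>
    obtain ⟨i, rfl⟩ := ofAdd.surjective i
    rw [SkewMonoidAlgebra.one_def, ← ofAdd_zero, TD_single]
    simp

theorem SkewMonoidAlgebra_single_sum {ι : Type*} (s : Finset ι) (f : ι → R)
    (k : Multiplicative (ZMod N)) :
    SkewMonoidAlgebra.single k (∑ i ∈ s, f i) = ∑ i ∈ s, SkewMonoidAlgebra.single k (f i) := by
  classical
  induction s using Finset.induction_on with
  | empty => simp
  | insert a s ha ih =>
    rw [Finset.sum_insert ha, Finset.sum_insert ha, SkewMonoidAlgebra.single_add, ih]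

theorem en_mul (x y : R) :
    en (N := N) x * en y = en (x * ∑ i : ZMod N, (ofAdd i • y)) := by
  rw [en, en, Finset.sum_mul]
  simp only [Finset.mul_sum, SkewMonoidAlgebra.single_mul_single, ← ofAdd_add]
  have h : ∀ i : ZMod N, ∑ j : ZMod N,
      SkewMonoidAlgebra.single (ofAdd (i + j)) (x * (ofAdd i • y)) =
      ∑ k : ZMod N, SkewMonoidAlgebra.single (ofAdd k) (x * (ofAdd i • y)) := fun i =>
    Fintype.sum_equiv (Equiv.addLeft i) _ _ (fun j => rfl)
  rw [Finset.sum_congr rfl (fun i _ => h i), Finset.sum_comm, en]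
  refine Finset.sum_congr rfl (fun k _ => ?_)
  rw [← SkewMonoidAlgebra_single_sum]

/-- The value of the rotation number at `1 + y ν`. -/
theorem TD_value (y s : R) (h : y * s * (∑ i : ZMod N, (ofAdd i • y)) = y - y * s) :
    TD tau (1 - en (N := N) (y * s)) (1 + en y) =
      -(tau (y * s) - ∑ i : ZMod N, i • tau (y * s * (ofAdd i • y))) := by
  rw [sub_eq_add_neg, ← en_neg, TD_add_left, TD_add_right, TD_add_right, TD_right_one,
    TD_right_one, TD_one_en, TD_en_en]
  have h1 : ∀ i : ZMod N, (-1 - i) • tau (-(y * s) * (ofAdd i • y)) =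
      tau (y * s * (ofAdd i • y)) + i • tau (y * s * (ofAdd i • y)) := by
    intro i
    rw [neg_mul, map_neg, smul_neg, sub_smul, neg_smul, one_smul]
    abel
  rw [Finset.sum_congr rfl (fun i _ => h1 i), Finset.sum_add_distrib, ← map_sum,
    ← Finset.mul_sum, h, map_sub]
  abel

end Skew

namespace Rot

variable (D : Rot N R B)

theorem lam_eq_TD (y s : R) (h : (1 + D.Nm y) * s = 1) (h' : s * (1 + D.Nm y) = 1) :
    letI := D.msa
    (D.lam y s = - TD D.tau (1 - en (N := N) (y * s)) (1 + en y)) ∧
    ((1 - en (N := N) (y * s)) * (1 + en y) = 1) ∧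
    ((1 + en y) * (1 - en (N := N) (y * s)) = 1) := by
  letI := D.msa
  have hact : ∀ (i : ZMod N) (x : R), Multiplicative.ofAdd i • x = D.act i x := fun i x => rfl
  have hs : s * D.Nm y = 1 - s := by
    have := h'; rw [mul_add, mul_one] at this; rw [← this]; abel
  have hs' : D.Nm y * s = 1 - s := by
    have := h; rw [add_mul, one_mul] at this; rw [← this]; abel
  have hsinv : ∀ i, D.act i s = s := by
    intro i
    have h1 : (1 + D.Nm y) * D.act i s = 1 := by
      have := congrArg (D.act i) h
      rwa [map_mul, map_add, map_one, D.act_Nm] at this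
    calc D.act i s = s * (1 + D.Nm y) * D.act i s := by rw [h', one_mul]
      _ = s := by rw [mul_assoc, h1, mul_one]
  have hN : ∑ i : ZMod N, D.act i (y * s) = D.Nm y * s := by
    rw [D.Nm_apply, Finset.sum_mul]
    exact Finset.sum_congr rfl (fun i _ => by rw [map_mul, hsinv])
  refine ⟨?_, ?_, ?_⟩
  · rw [TD_value]
    · rw [neg_neg]; rfl
    · simp only [hact]
      rw [← D.Nm_apply, mul_assoc, hs, mul_sub, mul_one]
  · have e : (1 - en (N := N) (y * s)) * (1 + en y) =
        1 + (en y + -(en (y * s)) + -(en (N := N) (y * s) * en y)) := by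
      noncomm_ring
    rw [e, en_mul, ← en_neg, ← en_neg, ← en_add, ← en_add]
    simp only [hact]
    rw [← D.Nm_apply, mul_assoc, hs]
    have : y + -(y * s) + -(y * (1 - s)) = 0 := by noncomm_ring
    rw [this]
    simp [en]
  · have e : (1 + en y) * (1 - en (N := N) (y * s)) =
        1 + (en y + -(en (y * s)) + -(en (N := N) y * en (y * s))) := by
      noncomm_ring
    rw [e, en_mul, ← en_neg, ← en_neg, ← en_add, ← en_add]
    simp only [hact]
    rw [hN, hs']
    have : y + -(y * s) + -(y * (1 - s)) = 0 := by noncomm_ring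
    rw [this]
    simp [en]

/-- Multiplicativity of the rotation number. -/
theorem lam_mul (y s y' s' : R) (h : (1 + D.Nm y) * s = 1) (h' : s * (1 + D.Nm y) = 1)
    (k : (1 + D.Nm y') * s' = 1) (k' : s' * (1 + D.Nm y') = 1) :
    1 + D.Nm (y' + y * (1 + D.Nm y')) = (1 + D.Nm y) * (1 + D.Nm y') ∧
    D.lam (y' + y * (1 + D.Nm y')) (s' * s) = D.lam y s + D.lam y' s' := by
  letI := D.msa
  have hact : ∀ (i : ZMod N) (x : R), Multiplicative.ofAdd i • x = D.act i x := fun i x => rfl
  have hN : 1 + D.Nm (y' + y * (1 + D.Nm y')) = (1 + D.Nm y) * (1 + D.Nm y') := by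
    have : D.Nm (y * (1 + D.Nm y')) = D.Nm y * (1 + D.Nm y') := by
      rw [D.Nm_apply, D.Nm_apply y, Finset.sum_mul]
      refine Finset.sum_congr rfl (fun i _ => ?_)
      rw [map_mul, map_add, map_one, D.act_Nm]
    rw [map_add, this]
    noncomm_ring
  refine ⟨hN, ?_⟩
  have m : (1 + D.Nm (y' + y * (1 + D.Nm y'))) * (s' * s) = 1 := by
    rw [hN]
    calc (1 + D.Nm y) * (1 + D.Nm y') * (s' * s) =
        (1 + D.Nm y) * ((1 + D.Nm y') * s') * s := by noncomm_ring
      _ = 1 := by rw [k, mul_one, h]
  have m' : (s' * s) * (1 + D.Nm (y' + y * (1 + D.Nm y'))) = 1 := by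
    rw [hN]
    calc s' * s * ((1 + D.Nm y) * (1 + D.Nm y')) =
        s' * (s * (1 + D.Nm y)) * (1 + D.Nm y') := by noncomm_ring
      _ = 1 := by rw [h', mul_one, k']
  obtain ⟨a1, a2, a3⟩ := D.lam_eq_TD y s h h'
  obtain ⟨b1, b2, b3⟩ := D.lam_eq_TD y' s' k k'
  obtain ⟨c1, c2, c3⟩ := D.lam_eq_TD _ _ m m'
  rw [a1, b1, c1]
  have hprod : (1 + en y) * (1 + en y') = 1 + en (N := N) (y' + y * (1 + D.Nm y')) := by
    have e : (1 + en y) * (1 + en y') = 1 + (en y' + (en y + en (N := N) y * en y')) := by
      noncomm_ring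
    rw [e, en_mul, ← en_add, ← en_add]
    simp only [hact]
    rw [← D.Nm_apply, mul_add, mul_one]
  have hinv : (1 - en (N := N) (y' * s')) * (1 - en (y * s)) =
      1 - en (N := N) ((y' + y * (1 + D.Nm y')) * (s' * s)) := by
    rw [← hprod] at c2 c3
    calc (1 - en (N := N) (y' * s')) * (1 - en (y * s)) =
        (1 - en (N := N) (y' * s')) * (1 - en (y * s)) *
        (((1 + en y) * (1 + en y')) *
          (1 - en (N := N) ((y' + y * (1 + D.Nm y')) * (s' * s)))) := by rw [c3, mul_one]
      _ = (1 - en (N := N) (y' * s')) * ((1 - en (y * s)) * (1 + en y)) * (1 + en y') *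
          (1 - en (N := N) ((y' + y * (1 + D.Nm y')) * (s' * s))) := by
          simp only [mul_assoc]
      _ = _ := by rw [a2, mul_one, b2, one_mul]
  rw [← hprod, ← hinv, TD_hom D.tau (fun i j hij a b => D.tau_cyc i j hij a b) _ _ _ _ a2 b2 b3]
  abel

theorem lam_one : D.lam 0 1 = 0 := by simp [lam]

/-- The rotation number vanishes on `1 + c ν` with `Nm c = 0`. -/
theorem lam_zero (hN : Odd N) (hP : ∀ c, D.Nm c = 0 → D.tau c = 0) (c : R) (hc : D.Nm c = 0) :
    D.lam c 1 = 0 := by
  rw [lam, mul_one, hP c hc, zero_sub, neg_eq_zero]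
  set S := ∑ i : ZMod N, i • D.tau (c * D.act i c) with hS
  have h1 : ∑ i : ZMod N, D.tau (c * D.act i c) = 0 := by
    rw [← map_sum, ← Finset.mul_sum, ← D.Nm_apply, hc, mul_zero, map_zero]
  have h2 : S = - S := by
    calc S = ∑ i : ZMod N, (-1 - i) • D.tau (c * D.act (-1 - i) c) :=
          (Fintype.sum_equiv (Equiv.subLeft (-1)) _ _ (fun j => rfl)).symm
      _ = ∑ i : ZMod N, (-1 - i) • D.tau (c * D.act i c) := by
          refine Finset.sum_congr rfl (fun i _ => ?_)
          rw [D.tau_cyc (-1 - i) i (by ring)]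
      _ = ∑ i : ZMod N, (-(D.tau (c * D.act i c)) - i • D.tau (c * D.act i c)) := by
          refine Finset.sum_congr rfl (fun i _ => ?_)
          rw [sub_smul, neg_smul, one_smul]
      _ = - S := by rw [Finset.sum_sub_distrib, Finset.sum_neg_distrib, h1, ← hS]; simp
  have h3 : (2 : ZMod N) • S = 0 := by
    rw [two_smul]; nth_rewrite 1 [h2]; simp
  have h4 : IsUnit (2 : ZMod N) := by
    have : IsUnit ((2 : ℕ) : ZMod N) := by
      rw [ZMod.isUnit_iff_coprime]
      exact (Nat.coprime_two_left).2 hN
    simpa using this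
  obtain ⟨u, hu⟩ := h4
  rw [← hu] at h3
  calc S = (↑u⁻¹ : ZMod N) • ((u : ZMod N) • S) := by
        rw [smul_smul, Units.inv_mul, one_smul]
    _ = 0 := by rw [h3, smul_zero]

/-- The rotation number vanishes on `1 + c ν` with `c = s - ρ s` (also for even `N`). -/
theorem lam_zero' (c s : R) (hc : c = s - D.act 1 s) : D.lam c 1 = 0 := by
  have h0 : D.tau c = 0 := by rw [hc, map_sub, D.tau_act_one, sub_self]
  rw [lam, mul_one, h0, zero_sub, neg_eq_zero]
  have h1 : ∑ i : ZMod N, i • D.tau (c * D.act i c) =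
      ∑ i : ZMod N, (i • D.tau (c * D.act i s) - i • D.tau (c * D.act (i + 1) s)) := by
    refine Finset.sum_congr rfl (fun i _ => ?_)
    conv_lhs => rw [show D.act i c = D.act i s - D.act (i + 1) s by
      rw [hc, map_sub, ← D.act_add]]
    rw [mul_sub, map_sub, smul_sub]
  have h2 : ∑ i : ZMod N, i • D.tau (c * D.act (i + 1) s) =
      ∑ i : ZMod N, (i - 1) • D.tau (c * D.act i s) :=
    Fintype.sum_equiv (Equiv.addRight 1) _ _ (fun i => by simp)
  rw [h1, Finset.sum_sub_distrib, h2, ← Finset.sum_sub_distrib]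
  simp only [← sub_smul, sub_sub_cancel, one_smul]
  rw [← map_sum, ← Finset.mul_sum, ← D.Nm_apply, hc, sub_mul, map_sub]
  have h3 : D.act 1 s * D.Nm s = D.act 1 (s * D.Nm s) := by rw [map_mul, D.act_Nm]
  rw [h3, D.tau_act_one, sub_self]

/-- Independence of the choice of `y`, second form. -/
theorem lam_indep' (hP : ∀ c, D.Nm c = 0 → ∃ s, c = s - D.act 1 s) (y y' s : R)
    (h : (1 + D.Nm y) * s = 1) (h' : s * (1 + D.Nm y) = 1) (hy : D.Nm y' = D.Nm y) :
    D.lam y' s = D.lam y s := by
  have hc : D.Nm (y' - y) = 0 := by rw [map_sub, hy, sub_self]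
  have h2 := (D.lam_mul y s (y' - y) 1 h h' (by rw [hc]; simp) (by rw [hc]; simp)).2
  obtain ⟨t, ht⟩ := hP _ hc
  rw [hc, D.lam_zero' _ t ht] at h2
  simpa using h2

/-- Independence of the choice of `y`. -/
theorem lam_indep (hN : Odd N) (hP : ∀ c, D.Nm c = 0 → D.tau c = 0) (y y' s : R)
    (h : (1 + D.Nm y) * s = 1) (h' : s * (1 + D.Nm y) = 1) (hy : D.Nm y' = D.Nm y) :
    D.lam y' s = D.lam y s := by
  have hc : D.Nm (y' - y) = 0 := by rw [map_sub, hy, sub_self]
  have h2 := (D.lam_mul y s (y' - y) 1 h h' (by rw [hc]; simp) (by rw [hc]; simp)).2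
  rw [hc, D.lam_zero hN hP _ hc] at h2
  simpa using h2

/-- Invariance under conjugation by invariant units. -/
theorem lam_conj (y s g g' : R) (hg : ∀ i, D.act i g = g) (hg' : ∀ i, D.act i g' = g')
    (h : g' * g = 1) : D.lam (g * y * g') (g * s * g') = D.lam y s := by
  have key : ∀ x, D.tau (g * x * g') = D.tau x := by
    intro x
    rw [D.tau_mul, hg', ← mul_assoc, h, one_mul]
  unfold lam
  congr 1
  · rw [← key (y * s)]
    congr 1
    calc g * y * g' * (g * s * g') = g * y * (g' * g) * s * g' := by noncomm_ring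
      _ = _ := by rw [h, mul_one]; noncomm_ring
  · refine Finset.sum_congr rfl (fun i _ => ?_)
    have e : D.act i (g * y * g') = g * D.act i y * g' := by rw [map_mul, map_mul, hg, hg']
    rw [← key (y * s * D.act i y), e]
    congr 2
    calc g * y * g' * (g * s * g') * (g * D.act i y * g') =
        g * y * (g' * g) * s * (g' * g) * D.act i y * g' := by noncomm_ring
      _ = _ := by rw [h]; noncomm_ring

end Rot

end Pool.MPb6f35e.WH
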