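import Pool.Agent.Lib.MP_b6f35e_al.WH.Spec
import Pool.Agent.Lib.MP_b6f35e_al.WH.Lam

/-!
# Module A of WH (hive 30, MP_b6f35e_al): the rotation number
-/

set_option autoImplicit false

noncomputable section

namespace Pool.Agent.Lib.MPb6f35e.WH

open Pool.MPb6f35e.WH

universe v w

section

variable {R : Type v} [Ring R] {H : Type w} [AddCommGroup H]

theorem pow_val_one (ρ : R →+* R) (N : ℕ) [NeZero N] (hρ : ∀ x, ρ^[N] x = x) (b : R) :
    (ρ ^ (1 : ZMod N).val : R →+* R) b = ρ b := by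
  rcases Nat.lt_or_ge 1 N with h | h
  · have : (1 : ZMod N).val = 1 := by
      haveI : Fact (1 < N) := ⟨h⟩
      exact ZMod.val_one N
    rw [this, pow_one]
  · have h1 : N = 1 := le_antisymm h (Nat.one_le_iff_ne_zero.2 (NeZero.ne N))
    subst h1
    have := hρ b
    simp only [Function.iterate_one] at this
    rw [this, Subsingleton.elim (1 : ZMod 1) 0]
    simp

/-- The rotation datum attached to a ring automorphism of order dividing `N`. -/
@[reducible] def rotOf (ρ : R →+* R) (N : ℕ) [NeZero N] [Module (ZMod N) H]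
    (hρ : ∀ x, ρ^[N] x = x) (τ : R →+ H) (hτ : ∀ a b, τ (a * b) = τ (ρ b * a)) : Rot N R H where
  act i := ρ ^ i.val
  act_zero x := by simp
  act_add i j x := by
    have hmod : ∀ n : ℕ, (ρ ^ (n % N) : R →+* R) x = (ρ ^ n : R →+* R) x := by
      intro n
      have hq : ∀ (q m : ℕ), (ρ ^ (m + N * q) : R →+* R) x = (ρ ^ m : R →+* R) x := by
        intro q m
        induction q with
        | zero => simp
        | succ q ih =>
          rw [mul_add, mul_one, ← add_assoc, pow_add]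
          have : (ρ ^ N : R →+* R) x = x := by rw [RingHom.coe_pow]; exact hρ x
          rw [RingHom.mul_def, RingHom.comp_apply, this, ih]
      conv_rhs => rw [← Nat.mod_add_div n N]
      rw [hq]
    rw [ZMod.val_add, hmod, pow_add]
    rfl
  tau := τ
  tau_mul a b := by
    rw [hτ, pow_val_one ρ N hρ]

theorem sum_range_eq {N : ℕ} [NeZero N] {X : Type*} [AddCommMonoid X] (f : ℕ → X) :
    ∑ j ∈ Finset.range N, f j = ∑ i : ZMod N, f i.val := by
  symm
  refine Finset.sum_bij (fun i _ => i.val) (fun i _ => ?_) (fun i _ j _ h => ?_) (fun j hj => ?_)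
    (fun i _ => rfl)
  · exact Finset.mem_range.2 (ZMod.val_lt i)
  · exact ZMod.val_injective N h
  · exact ⟨(j : ZMod N), Finset.mem_univ _, ZMod.val_cast_of_lt (Finset.mem_range.1 hj)⟩

theorem nm_eq (ρ : R →+* R) (N : ℕ) [NeZero N] [Module (ZMod N) H]
    (hρ : ∀ x, ρ^[N] x = x) (τ : R →+ H) (hτ : ∀ a b, τ (a * b) = τ (ρ b * a)) (y : R) :
    nm ρ N y = (rotOf ρ N hρ τ hτ).Nm y := by
  rw [nm, sum_range_eq, Rot.Nm_apply]
  refine Finset.sum_congr rfl (fun i _ => ?_)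
  show _ = (ρ ^ i.val : R →+* R) y
  rw [RingHom.coe_pow]

theorem lam_eq' (ρ : R →+* R) (N : ℕ) [NeZero N] [Module (ZMod N) H]
    (hρ : ∀ x, ρ^[N] x = x) (τ : R →+ H) (hτ : ∀ a b, τ (a * b) = τ (ρ b * a)) (r : Rˣ) (y : R) :
    lam ρ N τ r y = (rotOf ρ N hρ τ hτ).lam y ((r⁻¹ : Rˣ) : R) := by
  rw [lam, pp, sum_range_eq, mul_sub, mul_one, map_sub, Finset.mul_sum, map_sum, Rot.lam]
  congr 1
  refine Finset.sum_congr rfl (fun i _ => ?_)
  show τ (y * ((r⁻¹ : Rˣ) : R) * i.val • ρ^[i.val] y) =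
    i • τ (y * ((r⁻¹ : Rˣ) : R) * (ρ ^ i.val : R →+* R) y)
  rw [RingHom.coe_pow, mul_smul_comm, map_nsmul]
  conv_rhs => rw [← ZMod.natCast_zmod_val i]
  rw [Nat.cast_smul_eq_nsmul, ZMod.natCast_zmod_val]

end

theorem specA : SpecA.{v, w} where
  indep := by
    intro R _ H _ ρ N hN hρ hH τ hτ hk r y y' hy hy'
    haveI : NeZero N := ⟨hN.ne'⟩
    letI : Module (ZMod N) H := AddCommGroup.zmodModule hH
    rw [lam_eq' ρ N hρ τ hτ, lam_eq' ρ N hρ τ hτ]
    rw [nm_eq ρ N hρ τ hτ] at hy hy'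
    symm
    apply Rot.lam_indep'
    · intro c hc
      rw [← nm_eq] at hc
      obtain ⟨s, hs⟩ := hk c hc
      refine ⟨s, ?_⟩
      rw [hs]
      congr 1
      exact (pow_val_one ρ N hρ s).symm
    · rw [hy]; simp
    · rw [hy]; simp
    · rw [hy, hy']
  mul := by
    intro R _ H _ ρ N hN hρ hH τ hτ r s y x hy hx
    haveI : NeZero N := ⟨hN.ne'⟩
    letI : Module (ZMod N) H := AddCommGroup.zmodModule hH
    rw [lam_eq' ρ N hρ τ hτ, lam_eq' ρ N hρ τ hτ, lam_eq' ρ N hρ τ hτ]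
    rw [nm_eq ρ N hρ τ hτ] at hy hx ⊢
    have hy1 : 1 + (rotOf ρ N hρ τ hτ).Nm y = r := by rw [hy]; abel
    have hx1 : 1 + (rotOf ρ N hρ τ hτ).Nm x = s := by rw [hx]; abel
    have := (rotOf ρ N hρ τ hτ).lam_mul y ((r⁻¹ : Rˣ) : R) x ((s⁻¹ : Rˣ) : R)
      (by rw [hy1]; simp) (by rw [hy1]; simp) (by rw [hx1]; simp) (by rw [hx1]; simp)
    rw [hx1, hy1] at this
    refine ⟨?_, ?_⟩
    · rw [Units.val_mul, ← this.1]; abel
    · rw [← this.2, mul_inv_rev, Units.val_mul]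
  conj := by
    intro R _ H _ ρ N hN hρ hH τ hτ r t y hy ht
    haveI : NeZero N := ⟨hN.ne'⟩
    letI : Module (ZMod N) H := AddCommGroup.zmodModule hH
    have ht' : ρ ((t⁻¹ : Rˣ) : R) = ((t⁻¹ : Rˣ) : R) := by
      have h1 : ρ ((t⁻¹ : Rˣ) : R) * t = 1 := by
        calc ρ ((t⁻¹ : Rˣ) : R) * t = ρ ((t⁻¹ : Rˣ) : R) * ρ t := by rw [ht]
          _ = 1 := by rw [← map_mul, Units.inv_mul, map_one]
      rw [← Units.mul_left_inj t, h1, Units.inv_mul]
    have hti : ∀ n : ℕ, ρ^[n] (t : R) = t := fun n => Function.iterate_fixed ht n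
    have hti' : ∀ n : ℕ, ρ^[n] ((t⁻¹ : Rˣ) : R) = ((t⁻¹ : Rˣ) : R) :=
      fun n => Function.iterate_fixed ht' n
    refine ⟨?_, ?_⟩
    · have e : nm ρ N (t * y * ((t⁻¹ : Rˣ) : R)) = t * nm ρ N y * ((t⁻¹ : Rˣ) : R) := by
        rw [nm, nm, Finset.mul_sum, Finset.sum_mul]
        refine Finset.sum_congr rfl (fun i _ => ?_)
        rw [iterate_map_mul, iterate_map_mul, hti, hti']
      rw [e, hy]
      simp [mul_sub, sub_mul]
    · rw [lam_eq' ρ N hρ τ hτ, lam_eq' ρ N hρ τ hτ]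
      have := (rotOf ρ N hρ τ hτ).lam_conj y ((r⁻¹ : Rˣ) : R) t ((t⁻¹ : Rˣ) : R)
        (fun i => by
          show (ρ ^ i.val : R →+* R) _ = _
          rw [RingHom.coe_pow]; exact hti _)
        (fun i => by
          show (ρ ^ i.val : R →+* R) _ = _
          rw [RingHom.coe_pow]; exact hti' _) (by simp)
      rw [← this]
      congr 1
      simp [mul_assoc]

end Pool.Agent.Lib.MPb6f35e.WH
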