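import Pool.Agent.Lib.MP_b6f35e_al.WH.Defs

/-!
# `K_1` commutes with directed unions (hive 30, MP_b6f35e_al, WH)
-/

set_option autoImplicit false

noncomputable section

namespace Pool.Agent.Lib.MPb6f35e.WH

universe u v w

namespace Desc

/-- The map on matrices units induced by a ring homomorphism. -/
abbrev mU {A : Type u} {B : Type v} [Ring A] [Ring B] (f : A →+* B) {n : ℕ} :
    (Matrix (Fin n) (Fin n) A)ˣ →* (Matrix (Fin n) (Fin n) B)ˣ :=
  Units.map (f.mapMatrix).toMonoidHom

/-- The map on generators. -/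
def mG {A : Type u} {B : Type v} [Ring A] [Ring B] (f : A →+* B) (x : K1Gen A) : K1Gen B :=
  ⟨x.1, mU f x.2⟩

theorem mU_injective {A : Type u} {B : Type v} [Ring A] [Ring B] (f : A →+* B)
    (hf : Function.Injective f) (n : ℕ) :
    Function.Injective (mU f : (Matrix (Fin n) (Fin n) A)ˣ →* _) := by
  intro x y h
  apply Units.ext
  have h1 := congrArg (fun z : (Matrix (Fin n) (Fin n) B)ˣ => (z : Matrix (Fin n) (Fin n) B)) h
  apply Matrix.ext
  intro i j
  apply hf
  exact congrFun (congrFun h1 i) j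

theorem mG_injective {A : Type u} {B : Type v} [Ring A] [Ring B] (f : A →+* B)
    (hf : Function.Injective f) : Function.Injective (mG f) := by
  rintro ⟨n, x⟩ ⟨m, y⟩ h
  have h1 : n = m := congrArg Sigma.fst h
  subst h1
  have h2 : mU f x = mU f y := by
    simpa [mG] using h
  rw [mU_injective f hf n h2]

/-- The map on free abelian groups. -/
abbrev mF {A : Type u} {B : Type v} [Ring A] [Ring B] (f : A →+* B) :
    FreeAbelianGroup (K1Gen A) →+ FreeAbelianGroup (K1Gen B) :=
  FreeAbelianGroup.map (mG f)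

theorem mF_injective {A : Type u} {B : Type v} [Ring A] [Ring B] (f : A →+* B)
    (hf : Function.Injective f) : Function.Injective (mF f) := by
  haveI : Nonempty (K1Gen A) := ⟨⟨0, 1⟩⟩
  have h := Function.leftInverse_invFun (mG_injective f hf)
  have h2 : Function.LeftInverse (FreeAbelianGroup.map (Function.invFun (mG f))) (mF f) := by
    intro x
    rw [mF, ← AddMonoidHom.comp_apply, ← FreeAbelianGroup.map_comp, h.comp_eq_id,
      FreeAbelianGroup.map_id]
    rfl
  exact h2.injective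

theorem rel_map {A : Type u} {B : Type v} [Ring A] [Ring B] (f : A →+* B)
    {x : FreeAbelianGroup (K1Gen A)} (hx : K1Rel A x) : K1Rel B (mF f x) := by
  rcases hx with ⟨n, u, v⟩ | ⟨m, n, u, v, w, y, h⟩
  · simp only [map_sub, FreeAbelianGroup.map_of_apply, mG, map_mul]
    exact K1Rel.mul n _ _
  · simp only [map_sub, FreeAbelianGroup.map_of_apply, mG]
    refine K1Rel.block m n _ _ _ (y.map f) ?_
    show (w : Matrix (Fin (m + n)) (Fin (m + n)) A).map f = _
    rw [h]
    ext i j
    simp only [Matrix.map_apply, Matrix.reindex_apply, Matrix.submatrix_apply]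
    rcases finSumFinEquiv.symm i with a | a <;> rcases finSumFinEquiv.symm j with b | b <;>
      simp [Matrix.fromBlocks]

theorem clo_map {A : Type u} {B : Type v} [Ring A] [Ring B] (f : A →+* B)
    {x : FreeAbelianGroup (K1Gen A)} (hx : x ∈ AddSubgroup.closure {x | K1Rel A x}) :
    mF f x ∈ AddSubgroup.closure {x | K1Rel B x} := by
  have : AddSubgroup.closure {x | K1Rel A x} ≤
      (AddSubgroup.closure {x | K1Rel B x}).comap (mF f) := by
    rw [AddSubgroup.closure_le]
    intro y hy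
    exact AddSubgroup.subset_closure (rel_map f hy)
  exact this hx

/-- `K1.map` on representatives. -/
theorem map_mk {A : Type u} {B : Type v} [Ring A] [Ring B] (f : A →+* B)
    (x : FreeAbelianGroup (K1Gen A)) :
    K1.map f (QuotientAddGroup.mk x : K1 A) = (QuotientAddGroup.mk (mF f x) : K1 B) := by
  show FreeAbelianGroup.lift _ x = _
  have : (FreeAbelianGroup.lift (fun g : K1Gen A => K1.cls (mU f g.2)) :
      FreeAbelianGroup (K1Gen A) →+ K1 B) =
      (QuotientAddGroup.mk' (AddSubgroup.closure {x | K1Rel B x})).comp (mF f) := by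
    ext ⟨n, g⟩
    simp [mG, K1.cls]
    rfl
  exact congrArg (fun F => F x) this

section Family

variable {A : Type u} [Ring A] {ι : Type w} [SemilatticeSup ι] [Nonempty ι]
  (B : ι → Type v) [∀ i, Ring (B i)] (f : ∀ i j, i ≤ j → B i →+* B j) (g : ∀ i, B i →+* A)
  (hg : ∀ i, Function.Injective (g i)) (hfg : ∀ i j (h : i ≤ j) (x : B i), g j (f i j h x) = g i x)
  (hs : ∀ a : A, ∃ i, ∃ x : B i, g i x = a)

include hfg hs in
theorem lift_fin {κ : Type*} [Finite κ] (a : κ → A) : ∃ i, ∃ x : κ → B i, ∀ k, g i (x k) = a k := by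
  choose i x hx using fun k => hs (a k)
  obtain ⟨M, hM⟩ := Finite.exists_le i
  exact ⟨M, fun k => f (i k) M (hM k) (x k), fun k => by rw [hfg, hx]⟩

include hfg hs hg in
theorem lift_unit {n : ℕ} (u : (Matrix (Fin n) (Fin n) A)ˣ) :
    ∃ i, ∃ x : (Matrix (Fin n) (Fin n) (B i))ˣ, mU (g i) x = u := by
  obtain ⟨i, x, hx⟩ := lift_fin B f g hfg hs (fun k : (Fin n × Fin n) ⊕ (Fin n × Fin n) =>
    Sum.elim (fun k => (u : Matrix (Fin n) (Fin n) A) k.1 k.2)
      (fun k => ((u⁻¹ : (Matrix (Fin n) (Fin n) A)ˣ) : Matrix (Fin n) (Fin n) A) k.1 k.2) k)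
  let X : Matrix (Fin n) (Fin n) (B i) := Matrix.of fun k l => x (Sum.inl (k, l))
  let Y : Matrix (Fin n) (Fin n) (B i) := Matrix.of fun k l => x (Sum.inr (k, l))
  have hX : (g i).mapMatrix X = u := by
    ext k l; exact hx (Sum.inl (k, l))
  have hY : (g i).mapMatrix Y = ((u⁻¹ : (Matrix (Fin n) (Fin n) A)ˣ) :
      Matrix (Fin n) (Fin n) A) := by
    ext k l; exact hx (Sum.inr (k, l))
  have hinj : Function.Injective ((g i).mapMatrix : Matrix (Fin n) (Fin n) (B i) →+* _) := by
    intro p q hpq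
    ext k l
    exact hg i (congrFun (congrFun hpq k) l)
  refine ⟨i, ⟨X, Y, ?_, ?_⟩, ?_⟩
  · apply hinj
    rw [map_mul, hX, hY, map_one, Units.mul_inv]
  · apply hinj
    rw [map_mul, hX, hY, map_one, Units.inv_mul]
  · apply Units.ext
    exact hX

include hfg in
theorem pushU {i j : ι} (h : i ≤ j) {n : ℕ} (x : (Matrix (Fin n) (Fin n) (B i))ˣ) :
    mU (g j) (mU (f i j h) x) = mU (g i) x := by
  apply Units.ext
  ext k l
  exact hfg i j h _

include hfg hs hg in
theorem lift_clo {z : FreeAbelianGroup (K1Gen A)}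
    (hz : z ∈ AddSubgroup.closure {x | K1Rel A x}) :
    ∃ i, ∃ z' ∈ AddSubgroup.closure {x | K1Rel (B i) x}, mF (g i) z' = z := by
  have push : ∀ {i j : ι} (h : i ≤ j) (x : FreeAbelianGroup (K1Gen (B i))),
      mF (g j) (mF (f i j h) x) = mF (g i) x := by
    intro i j h x
    rw [mF, mF, mF, ← AddMonoidHom.comp_apply, ← FreeAbelianGroup.map_comp]
    congr 2
    funext ⟨n, y⟩
    simp only [Function.comp, mG]
    congr 1
    apply Units.ext
    ext k l
    exact hfg i j h _
  induction hz using AddSubgroup.closure_induction with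
  | mem x hx =>
    rcases hx with ⟨n, a, b⟩ | ⟨m, n, a, b, c, y, h⟩
    · obtain ⟨i, a', ha⟩ := lift_unit B f g hg hfg hs a
      obtain ⟨j, b', hb⟩ := lift_unit B f g hg hfg hs b
      refine ⟨i ⊔ j, _, AddSubgroup.subset_closure (K1Rel.mul n (mU (f i _ le_sup_left) a')
        (mU (f j _ le_sup_right) b')), ?_⟩
      simp only [map_sub, FreeAbelianGroup.map_of_apply, mG, map_mul]
      rw [pushU B f g hfg, pushU B f g hfg, ha, hb]
    · obtain ⟨i, a', ha⟩ := lift_unit B f g hg hfg hs a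
      obtain ⟨j, b', hb⟩ := lift_unit B f g hg hfg hs b
      obtain ⟨k, c', hc⟩ := lift_unit B f g hg hfg hs c
      obtain ⟨l, y', hy⟩ := lift_fin B f g hfg hs (fun q : Fin m × Fin n => y q.1 q.2)
      have h1 : i ≤ (i ⊔ j) ⊔ (k ⊔ l) := le_sup_left.trans le_sup_left
      have h2 : j ≤ (i ⊔ j) ⊔ (k ⊔ l) := le_sup_right.trans le_sup_left
      have h3 : k ≤ (i ⊔ j) ⊔ (k ⊔ l) := le_sup_left.trans le_sup_right
      have h4 : l ≤ (i ⊔ j) ⊔ (k ⊔ l) := le_sup_right.trans le_sup_right
      refine ⟨(i ⊔ j) ⊔ (k ⊔ l), _, AddSubgroup.subset_closure (K1Rel.block m n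
        (mU (f i _ h1) a') (mU (f j _ h2) b') (mU (f k _ h3) c')
        (Matrix.of fun p q => f l _ h4 (y' (p, q))) ?_), ?_⟩
      · have hinj : Function.Injective ((g ((i ⊔ j) ⊔ (k ⊔ l))).mapMatrix :
            Matrix (Fin (m + n)) (Fin (m + n)) (B ((i ⊔ j) ⊔ (k ⊔ l))) →+* _) := by
          intro p q hpq
          ext k l
          exact hg _ (congrFun (congrFun hpq k) l)
        apply hinj
        have e : (g ((i ⊔ j) ⊔ (k ⊔ l))).mapMatrix ((mU (f k _ h3) c' :
            (Matrix (Fin (m + n)) (Fin (m + n)) (B ((i ⊔ j) ⊔ (k ⊔ l))))ˣ) : Matrix _ _ _) =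
            ((mU (g _) (mU (f k _ h3) c') : (Matrix (Fin (m + n)) (Fin (m + n)) A)ˣ) :
              Matrix (Fin (m + n)) (Fin (m + n)) A) := rfl
        rw [e, pushU B f g hfg, hc, h, ← ha, ← hb]
        ext p q
        simp only [RingHom.mapMatrix_apply, Matrix.map_apply, Matrix.reindex_apply,
          Matrix.submatrix_apply]
        rcases finSumFinEquiv.symm p with a | a <;> rcases finSumFinEquiv.symm q with b | b
        · simp [Matrix.fromBlocks, hfg]
        · simp only [Matrix.fromBlocks, Matrix.of_apply, Sum.elim_inl, Sum.elim_inr]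
          rw [hfg]
          exact (hy (a, b)).symm
        · simp [Matrix.fromBlocks]
        · simp [Matrix.fromBlocks, hfg]
      · simp only [map_sub, FreeAbelianGroup.map_of_apply, mG]
        rw [pushU B f g hfg, pushU B f g hfg, pushU B f g hfg, ha, hb, hc]
  | zero => exact ⟨Classical.arbitrary ι, 0, zero_mem _, map_zero _⟩
  | add x y _ _ hx hy =>
    obtain ⟨i, x', hx', rfl⟩ := hx
    obtain ⟨j, y', hy', rfl⟩ := hy
    refine ⟨i ⊔ j, mF (f i _ le_sup_left) x' + mF (f j _ le_sup_right) y',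
      add_mem (clo_map _ hx') (clo_map _ hy'), ?_⟩
    rw [map_add, push, push]
  | neg x _ hx =>
    obtain ⟨i, x', hx', rfl⟩ := hx
    exact ⟨i, -x', neg_mem hx', map_neg _ _⟩

include hfg hs hg in
/-- An element of `K_1(B_i)` which dies in `K_1(A)` dies in some `K_1(B_j)`. -/
theorem ker_lift (i : ι) (x : K1 (B i)) (hx : K1.map (g i) x = 0) :
    ∃ j, ∃ h : i ≤ j, K1.map (f i j h) x = 0 := by
  obtain ⟨x, rfl⟩ := QuotientAddGroup.mk_surjective x
  rw [map_mk] at hx
  have hx' : mF (g i) x ∈ AddSubgroup.closure {x | K1Rel A x} :=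
    (QuotientAddGroup.eq_zero_iff _).1 hx
  obtain ⟨k, z, hz, hz'⟩ := lift_clo B f g hg hfg hs hx'
  have push : ∀ {i j : ι} (h : i ≤ j) (x : FreeAbelianGroup (K1Gen (B i))),
      mF (g j) (mF (f i j h) x) = mF (g i) x := by
    intro i j h x
    rw [mF, mF, mF, ← AddMonoidHom.comp_apply, ← FreeAbelianGroup.map_comp]
    congr 2
    funext ⟨n, y⟩
    simp only [Function.comp, mG]
    congr 1
    apply Units.ext
    ext k l
    exact hfg i j h _
  refine ⟨i ⊔ k, le_sup_left, ?_⟩
  rw [map_mk]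
  have : mF (f i _ le_sup_left) x = mF (f k (i ⊔ k) le_sup_right) z := by
    apply mF_injective _ (hg (i ⊔ k))
    rw [push, push, hz']
  rw [this]
  exact (QuotientAddGroup.eq_zero_iff _).2 (clo_map _ hz)

end Family

end Desc

end Pool.Agent.Lib.MPb6f35e.WH
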