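import Pool.Agent.Lib.MP_b6f35e_al.WH.SpecR
import Pool.Agent.Lib.MP_b6f35e_al.WH.Desc

/-!
# Module DSC of WH (hive 30, MP_b6f35e_al): descent to finitely generated coefficient rings
-/

set_option autoImplicit false

noncomputable section

namespace Pool.Agent.Lib.MPb6f35e.WH

universe u v w

namespace Desc

theorem map_unit {A : Type u} {B : Type v} [Ring A] [Ring B] (f : A →+* B) (a : Aˣ) :
    K1.map f (K1.unit a) = K1.unit (Units.map f.toMonoidHom a) := by
  rw [K1.unit, K1.map_cls, K1.unit]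
  congr 1

section

variable (R : Type u) [CommRing R]

theorem gen_inc {U V : Subalgebra ℤ R} (h : U ≤ V) (x : U) :
    V.val.toRingHom ((Subalgebra.inclusion h).toRingHom x) = U.val.toRingHom x := rfl

/-- The ring generated by a finite set. -/
abbrev Adj (S : Finset R) : Type u := Algebra.adjoin ℤ (S : Set R)

/-- The inclusion. -/
def adjInc {S T : Finset R} (h : S ≤ T) : Adj R S →+* Adj R T :=
  (Subalgebra.inclusion (Algebra.adjoin_mono (by exact_mod_cast h))).toRingHom

/-- The inclusion into `R`. -/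
abbrev adjVal (S : Finset R) : Adj R S →+* R := (Algebra.adjoin ℤ (S : Set R)).val.toRingHom

theorem adjVal_inc {S T : Finset R} (h : S ≤ T) (x : Adj R S) :
    adjVal R T (adjInc R h x) = adjVal R S x :=
  gen_inc R _ x

variable (C : Type v) [Group C]

/-- The family of group rings. -/
abbrev fB (S : Finset R) : Type (max u v) := MonoidAlgebra (Adj R S) C

/-- The transition maps. -/
def fF (S T : Finset R) (h : S ≤ T) : fB R C S →+* fB R C T :=
  MonoidAlgebra.mapRingHom C (adjInc R h)

/-- The maps to the limit. -/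
def fG (S : Finset R) : fB R C S →+* MonoidAlgebra R C :=
  MonoidAlgebra.mapRingHom C (adjVal R S)

theorem fG_inj (S : Finset R) : Function.Injective (fG R C S) := by
  intro x y h
  ext c
  have h1 := congrArg (fun z : MonoidAlgebra R C => z.coeff c) h
  simp only [fG, MonoidAlgebra.coeff_mapRingHom] at h1
  exact h1

theorem fFG (S T : Finset R) (h : S ≤ T) (x : fB R C S) : fG R C T (fF R C S T h x) =
    fG R C S x := by
  ext c
  rw [fG, fG, fF, MonoidAlgebra.coeff_mapRingHom, MonoidAlgebra.coeff_mapRingHom,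
    MonoidAlgebra.coeff_mapRingHom, adjVal_inc]

open Classical in
theorem fSurj (a : MonoidAlgebra R C) : ∃ S, ∃ x : fB R C S, fG R C S x = a := by
  induction a using MonoidAlgebra.induction_linear with
  | zero => exact ⟨∅, 0, map_zero _⟩
  | add x y hx hy =>
    obtain ⟨S, x', rfl⟩ := hx
    obtain ⟨T, y', rfl⟩ := hy
    refine ⟨S ∪ T, fF R C S _ Finset.subset_union_left x' + fF R C T _ Finset.subset_union_right y',
      ?_⟩
    rw [map_add, fFG, fFG]
  | single c r =>
    refine ⟨{r}, MonoidAlgebra.single c ⟨r, Algebra.subset_adjoin (by simp)⟩, ?_⟩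
    ext c'
    simp only [fG, MonoidAlgebra.coeff_mapRingHom, MonoidAlgebra.coeff_single]
    by_cases h : c = c'
    · subst h; simp
    · rw [Finsupp.single_eq_of_ne' h, Finsupp.single_eq_of_ne' h]; simp

open Classical in
theorem fUnit (u : (MonoidAlgebra R C)ˣ) : ∃ S, ∃ x : (fB R C S)ˣ,
    Units.map (fG R C S).toMonoidHom x = u := by
  obtain ⟨S, x, hx⟩ := fSurj R C u
  obtain ⟨T, y, hy⟩ := fSurj R C ((u⁻¹ : (MonoidAlgebra R C)ˣ) : MonoidAlgebra R C)
  refine ⟨S ∪ T, ⟨fF R C S _ Finset.subset_union_left x, fF R C T _ Finset.subset_union_right y,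
    ?_, ?_⟩, ?_⟩
  · apply fG_inj; rw [map_mul, fFG, fFG, hx, hy, map_one, Units.mul_inv]
  · apply fG_inj; rw [map_mul, fFG, fFG, hx, hy, map_one, Units.inv_mul]
  · apply Units.ext
    show fG R C _ (fF R C S _ _ x) = u
    rw [fFG, hx]

end

theorem map_trivialUnits {R S : Type*} [CommRing R] [CommRing S] (f : R →+* S)
    (G : Type v) [Group G] :
    (trivialUnits R G).map (K1.map (MonoidAlgebra.mapRingHom G f)) = trivialUnits S G := by
  rw [trivialUnits, trivialUnits, AddMonoidHom.map_closure]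
  congr 1
  have key : ∀ g : G, K1.map (MonoidAlgebra.mapRingHom G f) (K1.unit (gUnit R g)) =
      K1.unit (gUnit S g) := by
    intro g
    rw [map_unit]
    congr 1
    apply Units.ext
    show MonoidAlgebra.mapRingHom G f (MonoidAlgebra.single g 1) = MonoidAlgebra.single g 1
    ext c
    rw [MonoidAlgebra.coeff_mapRingHom]
    by_cases h : g = c
    · subst h; simp
    · simp [MonoidAlgebra.coeff_single, Finsupp.single_eq_of_ne' h]
  have key2 : ∀ g : G, K1.map (MonoidAlgebra.mapRingHom G f) (K1.unit (-gUnit R g)) =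
      K1.unit (-gUnit S g) := by
    intro g
    rw [map_unit]
    congr 1
    apply Units.ext
    show MonoidAlgebra.mapRingHom G f (-MonoidAlgebra.single g 1) = -MonoidAlgebra.single g 1
    rw [map_neg]
    congr 1
    ext c
    rw [MonoidAlgebra.coeff_mapRingHom]
    by_cases h : g = c
    · subst h; simp
    · simp [MonoidAlgebra.coeff_single, Finsupp.single_eq_of_ne' h]
  ext y
  constructor
  · rintro ⟨x, ⟨g, rfl | rfl⟩, rfl⟩
    · exact ⟨g, Or.inl (key g)⟩
    · exact ⟨g, Or.inr (key2 g)⟩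
  · rintro ⟨g, rfl | rfl⟩
    · exact ⟨_, ⟨g, Or.inl rfl⟩, key g⟩
    · exact ⟨_, ⟨g, Or.inr rfl⟩, key2 g⟩

theorem mapRing_mapDomain {R S : Type*} [CommRing R] [CommRing S] (f : R →+* S)
    {C G : Type*} [Group C] [Group G] (φ : C →* G) (x : MonoidAlgebra R C) :
    MonoidAlgebra.mapRingHom G f (MonoidAlgebra.mapDomainRingHom R φ x) =
      MonoidAlgebra.mapDomainRingHom S φ (MonoidAlgebra.mapRingHom C f x) := by
  induction x using MonoidAlgebra.induction_linear with
  | zero => simp
  | add x y hx hy => rw [map_add, map_add, map_add, map_add, hx, hy]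
  | single c r => simp [MonoidAlgebra.mapRingHom]

end Desc

open Desc in
open Classical in
theorem specDSC : SpecDSC.{u, v} := by
  intro R _ G _ m C _ φ x hx
  obtain ⟨n, hn, hx⟩ := isOfFinAddOrder_iff_nsmul_eq_zero.1 hx
  rw [← map_nsmul, QuotientAddGroup.mk'_apply, QuotientAddGroup.eq_zero_iff] at hx
  choose S₀ y₀ hy₀ using fun i => fUnit R (C i) (x i)
  obtain ⟨S, hS⟩ := Finite.exists_le S₀
  let y : ∀ i, (fB R (C i) S)ˣ := fun i => Units.map (fF R (C i) _ _ (hS i)).toMonoidHom (y₀ i)
  have hy : ∀ i, Units.map (fG R (C i) S).toMonoidHom (y i) = x i := by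
    intro i
    rw [← hy₀ i]
    apply Units.ext
    exact fFG R (C i) _ _ (hS i) _
  have push : ∀ {P Q : Type u} [CommRing P] [CommRing Q] (h : P →+* Q) (i : Fin m)
      (z : (MonoidAlgebra P (C i))ˣ),
      K1.map (MonoidAlgebra.mapRingHom G h)
        (K1.unit (Units.map (MonoidAlgebra.mapDomainRingHom P (φ i)).toMonoidHom z)) =
      K1.unit (Units.map (MonoidAlgebra.mapDomainRingHom Q (φ i)).toMonoidHom
        (Units.map (MonoidAlgebra.mapRingHom (C i) h).toMonoidHom z)) := by
    intro P Q _ _ h i z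
    rw [map_unit]
    congr 1
    apply Units.ext
    exact mapRing_mapDomain h (φ i) _
  rw [← map_trivialUnits (adjVal R S) G] at hx
  obtain ⟨t, ht, ht'⟩ := hx
  have hz : K1.map (fG R G S) (n • ∑ i, K1.unit (Units.map (MonoidAlgebra.mapDomainRingHom
      (Adj R S) (φ i)).toMonoidHom (y i)) - t) = 0 := by
    rw [map_sub, map_nsmul, map_sum, sub_eq_zero]
    refine Eq.trans ?_ ht'.symm
    congr 1
    refine Finset.sum_congr rfl (fun i _ => ?_)
    rw [fG, push]
    congr 2
    exact hy i
  obtain ⟨T, hST, hT⟩ := ker_lift (fB R G) (fF R G) (fG R G) (fG_inj R G) (fFG R G) (fSurj R G) S _ hz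
  refine ⟨T, fun i => Units.map (fF R (C i) S T hST).toMonoidHom (y i), fun i => ?_, ?_⟩
  · rw [← hy i]
    apply Units.ext
    exact fFG R (C i) _ _ hST _
  · rw [isOfFinAddOrder_iff_nsmul_eq_zero]
    refine ⟨n, hn, ?_⟩
    rw [← map_nsmul, QuotientAddGroup.mk'_apply, QuotientAddGroup.eq_zero_iff]
    rw [map_sub, sub_eq_zero, map_nsmul, map_sum] at hT
    have : ∀ i, K1.map (fF R G S T hST) (K1.unit (Units.map (MonoidAlgebra.mapDomainRingHom
      (Adj R S) (φ i)).toMonoidHom (y i))) = K1.unit (Units.map (MonoidAlgebra.mapDomainRingHom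
      (Adj R T) (φ i)).toMonoidHom (Units.map (fF R (C i) S T hST).toMonoidHom (y i))) :=
      fun i => push _ i _
    rw [Finset.sum_congr rfl (fun i _ => this i)] at hT
    rw [hT, ← map_trivialUnits (adjInc R hST) G]
    exact ⟨t, ht, rfl⟩

end Pool.Agent.Lib.MPb6f35e.WH
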