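import Mathlib

/-!
# K_1, the colimit over finite subgroups, Whitehead group  (hive 30, MP_b6f35e_al, WH)

Definitions used by the hand-in `WhiteheadInjective`.
-/

set_option autoImplicit false

noncomputable section

namespace Pool.Agent.Lib.MPb6f35e.WH

universe u v

/-! ### `K_1` of a ring -/

/-- Generators of `K_1(A)`: an invertible `n × n` matrix over `A`, `n ≥ 0`. -/
abbrev K1Gen (A : Type u) [Ring A] : Type u := Σ n : ℕ, (Matrix (Fin n) (Fin n) A)ˣ

/-- Relations of `K_1(A)`: `[u v] = [u] + [v]`, and `[w] = [u] + [v]` for the block triangular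
matrix `w = (u x; 0 v)`. -/
inductive K1Rel (A : Type u) [Ring A] : FreeAbelianGroup (K1Gen A) → Prop
  | mul (n : ℕ) (u v : (Matrix (Fin n) (Fin n) A)ˣ) :
      K1Rel A (FreeAbelianGroup.of ⟨n, u * v⟩ - FreeAbelianGroup.of ⟨n, u⟩
        - FreeAbelianGroup.of ⟨n, v⟩)
  | block (m n : ℕ) (u : (Matrix (Fin m) (Fin m) A)ˣ) (v : (Matrix (Fin n) (Fin n) A)ˣ)
      (w : (Matrix (Fin (m + n)) (Fin (m + n)) A)ˣ) (x : Matrix (Fin m) (Fin n) A)
      (h : (w : Matrix (Fin (m + n)) (Fin (m + n)) A) =
        Matrix.reindex finSumFinEquiv finSumFinEquiv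
          (Matrix.fromBlocks (u : Matrix (Fin m) (Fin m) A) x 0
            (v : Matrix (Fin n) (Fin n) A))) :
      K1Rel A (FreeAbelianGroup.of ⟨m + n, w⟩ - FreeAbelianGroup.of ⟨m, u⟩
        - FreeAbelianGroup.of ⟨n, v⟩)

/-- The group `K_1(A) = GL(A) / E(A)`, by generators and relations. -/
def K1 (A : Type u) [Ring A] : Type u :=
  FreeAbelianGroup (K1Gen A) ⧸ AddSubgroup.closure {x | K1Rel A x}

instance (A : Type u) [Ring A] : AddCommGroup (K1 A) :=
  inferInstanceAs (AddCommGroup (FreeAbelianGroup (K1Gen A) ⧸ AddSubgroup.closure {x | K1Rel A x}))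

/-- The class in `K_1(A)` of an invertible matrix. -/
def K1.cls {A : Type u} [Ring A] {n : ℕ} (u : (Matrix (Fin n) (Fin n) A)ˣ) : K1 A :=
  QuotientAddGroup.mk (FreeAbelianGroup.of ⟨n, u⟩)

/-- The `1 × 1` matrix with entry the unit `a`. -/
def oneByOne {A : Type u} [Ring A] (a : Aˣ) : (Matrix (Fin 1) (Fin 1) A)ˣ :=
  ⟨Matrix.of fun _ _ => (a : A), Matrix.of fun _ _ => ((a⁻¹ : Aˣ) : A),
    by ext i j; fin_cases i; fin_cases j; simp [Matrix.mul_apply],
    by ext i j; fin_cases i; fin_cases j; simp [Matrix.mul_apply]⟩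

/-- The class in `K_1(A)` of a unit of `A`. -/
def K1.unit {A : Type u} [Ring A] (a : Aˣ) : K1 A := K1.cls (oneByOne a)

/-- Universal property. -/
def K1.lift {A : Type u} [Ring A] {H : Type v} [AddCommGroup H]
    (f : ∀ n : ℕ, (Matrix (Fin n) (Fin n) A)ˣ → H)
    (h : ∀ x, K1Rel A x → FreeAbelianGroup.lift (fun g : K1Gen A => f g.1 g.2) x = 0) :
    K1 A →+ H :=
  QuotientAddGroup.lift (AddSubgroup.closure {x | K1Rel A x})
    (FreeAbelianGroup.lift (fun g : K1Gen A => f g.1 g.2))
    (by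
      intro x hx
      have : AddSubgroup.closure {x | K1Rel A x} ≤
          (FreeAbelianGroup.lift (fun g : K1Gen A => f g.1 g.2)).ker := by
        rw [AddSubgroup.closure_le]
        intro y hy
        exact h y hy
      exact this hx)

@[simp] lemma K1.lift_cls {A : Type u} [Ring A] {H : Type v} [AddCommGroup H]
    (f : ∀ n : ℕ, (Matrix (Fin n) (Fin n) A)ˣ → H)
    (h : ∀ x, K1Rel A x → FreeAbelianGroup.lift (fun g : K1Gen A => f g.1 g.2) x = 0)
    {n : ℕ} (u : (Matrix (Fin n) (Fin n) A)ˣ) : K1.lift f h (K1.cls u) = f n u := by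
  show FreeAbelianGroup.lift _ (FreeAbelianGroup.of _) = _
  simp

lemma K1.cls_mul {A : Type u} [Ring A] {n : ℕ} (u v : (Matrix (Fin n) (Fin n) A)ˣ) :
    K1.cls (u * v) = K1.cls u + K1.cls v := by
  have h : (QuotientAddGroup.mk (FreeAbelianGroup.of (⟨n, u * v⟩ : K1Gen A)
      - FreeAbelianGroup.of ⟨n, u⟩ - FreeAbelianGroup.of ⟨n, v⟩) : K1 A) = 0 :=
    (QuotientAddGroup.eq_zero_iff _).2 (AddSubgroup.subset_closure (K1Rel.mul n u v))
  have h2 : K1.cls (u * v) - K1.cls u - K1.cls v = 0 := h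
  rw [sub_sub, sub_eq_zero] at h2
  exact h2

lemma K1.cls_mul' {A : Type u} [Ring A] {n : ℕ} (u v : (Matrix (Fin n) (Fin n) A)ˣ) :
    K1.cls (v * u) = K1.cls u + K1.cls v := by
  rw [K1.cls_mul, add_comm]

lemma K1.cls_block {A : Type u} [Ring A] {m n : ℕ} (u : (Matrix (Fin m) (Fin m) A)ˣ)
    (v : (Matrix (Fin n) (Fin n) A)ˣ) (w : (Matrix (Fin (m + n)) (Fin (m + n)) A)ˣ)
    (x : Matrix (Fin m) (Fin n) A)
    (h : (w : Matrix (Fin (m + n)) (Fin (m + n)) A) =
      Matrix.reindex finSumFinEquiv finSumFinEquiv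
        (Matrix.fromBlocks (u : Matrix (Fin m) (Fin m) A) x 0 (v : Matrix (Fin n) (Fin n) A))) :
    K1.cls w = K1.cls u + K1.cls v := by
  have h : (QuotientAddGroup.mk (FreeAbelianGroup.of (⟨m + n, w⟩ : K1Gen A)
      - FreeAbelianGroup.of ⟨m, u⟩ - FreeAbelianGroup.of ⟨n, v⟩) : K1 A) = 0 :=
    (QuotientAddGroup.eq_zero_iff _).2 (AddSubgroup.subset_closure (K1Rel.block m n u v w x h))
  have h2 : K1.cls w - K1.cls u - K1.cls v = 0 := h
  rw [sub_sub, sub_eq_zero] at h2
  exact h2

/-- Induction principle: `K_1(A)` is generated by classes of matrices. -/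
lemma K1.ext {A : Type u} [Ring A] {H : Type v} [AddCommGroup H] {f g : K1 A →+ H}
    (h : ∀ (n : ℕ) (u : (Matrix (Fin n) (Fin n) A)ˣ), f (K1.cls u) = g (K1.cls u)) : f = g := by
  apply QuotientAddGroup.addMonoidHom_ext
  ext ⟨n, u⟩
  exact h n u

/-- Functoriality of `K_1`. -/
def K1.map {A : Type u} {B : Type v} [Ring A] [Ring B] (f : A →+* B) : K1 A →+ K1 B :=
  K1.lift (fun _ u => K1.cls (Units.map (f.mapMatrix).toMonoidHom u))
    (by
      rintro x (⟨n, u, v⟩ | ⟨m, n, u, v, w, y, h⟩)
      · simp only [map_sub, FreeAbelianGroup.lift_apply_of, _root_.map_mul, K1.cls_mul]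
        abel
      · simp only [map_sub, FreeAbelianGroup.lift_apply_of]
        rw [K1.cls_block (Units.map (f.mapMatrix).toMonoidHom u)
          (Units.map (f.mapMatrix).toMonoidHom v) _ (y.map f) ?_]
        · abel
        · show (w : Matrix (Fin (m + n)) (Fin (m + n)) A).map f = _
          rw [h]
          ext i j
          simp only [Matrix.map_apply, Matrix.reindex_apply, Matrix.submatrix_apply]
          rcases finSumFinEquiv.symm i with a | a <;> rcases finSumFinEquiv.symm j with b | b <;>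
            simp [Matrix.fromBlocks])

@[simp] lemma K1.map_cls {A : Type u} {B : Type v} [Ring A] [Ring B] (f : A →+* B) {n : ℕ}
    (u : (Matrix (Fin n) (Fin n) A)ˣ) :
    K1.map f (K1.cls u) = K1.cls (Units.map (f.mapMatrix).toMonoidHom u) := by
  simp [K1.map]

/-! ### the colimit over the finite subgroups -/

/-- The finite subgroups of `G`. -/
abbrev FinSub (G : Type v) [Group G] : Type v := {H : Subgroup G // Finite H}

/-- Conjugation by `g`, as a homomorphism `H → K`, if `g H g⁻¹ ≤ K`. -/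
def conjHom {G : Type v} [Group G] (g : G) (H K : Subgroup G) (h : ∀ x ∈ H, g * x * g⁻¹ ∈ K) :
    H →* K where
  toFun x := ⟨g * x * g⁻¹, h x x.2⟩
  map_one' := by ext; simp
  map_mul' x y := by ext; simp

open Classical in
/-- The relations of the colimit: `f_*(a) = a` for `a ∈ K_1(R[H])`, `f : H → K`, `f(h) = g h g⁻¹`,
`H`, `K` finite subgroups of `G`, `g ∈ G`. -/
def ColimRel (R : Type u) [CommRing R] (G : Type v) [Group G] :
    Set (DirectSum (FinSub G) fun H => K1 (MonoidAlgebra R H.1)) :=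
  {y | ∃ (H K : FinSub G) (g : G) (h : ∀ x ∈ H.1, g * x * g⁻¹ ∈ K.1)
      (a : K1 (MonoidAlgebra R H.1)),
    y = DirectSum.of (fun H : FinSub G => K1 (MonoidAlgebra R H.1)) K
        (K1.map (MonoidAlgebra.mapDomainRingHom R (conjHom g H.1 K.1 h)) a)
      - DirectSum.of (fun H : FinSub G => K1 (MonoidAlgebra R H.1)) H a}

/-- The colimit of `K_1(R[H])` over the finite subgroups `H` of `G` (and the maps induced by
inclusion and conjugation): direct sum modulo relations. -/
def ColimK1 (R : Type u) [CommRing R] (G : Type v) [Group G] : Type (max u v) :=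
  (DirectSum (FinSub G) fun H => K1 (MonoidAlgebra R H.1)) ⧸ AddSubgroup.closure (ColimRel R G)

instance (R : Type u) [CommRing R] (G : Type v) [Group G] : AddCommGroup (ColimK1 R G) :=
  inferInstanceAs (AddCommGroup ((DirectSum (FinSub G) fun H => K1 (MonoidAlgebra R H.1)) ⧸
    AddSubgroup.closure (ColimRel R G)))

open Classical in
/-- The class in the colimit of an element of `K_1(R[H])`. -/
def ColimK1.ofSub {R : Type u} [CommRing R] {G : Type v} [Group G] (H : FinSub G) :
    K1 (MonoidAlgebra R H.1) →+ ColimK1 R G :=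
  (QuotientAddGroup.mk' (AddSubgroup.closure (ColimRel R G))).comp
    (DirectSum.of (fun H : FinSub G => K1 (MonoidAlgebra R H.1)) H)

open Classical in
/-- The map on the direct sum: inclusions `H → G`. -/
def assemblyDS (R : Type u) [CommRing R] (G : Type v) [Group G] :
    (DirectSum (FinSub G) fun H => K1 (MonoidAlgebra R H.1)) →+ K1 (MonoidAlgebra R G) :=
  DirectSum.toAddMonoid fun H : FinSub G =>
    K1.map (MonoidAlgebra.mapDomainRingHom R H.1.subtype)

/-- The group element `g` as a unit of `R[G]`. -/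
def gUnit (R : Type u) [CommRing R] {G : Type v} [Group G] (g : G) :
    (MonoidAlgebra R G)ˣ :=
  Units.map (MonoidAlgebra.of R G) (toUnits g)

/-- The subgroup of `K_1(R[G])` generated by the classes of the trivial units `g`, `-g`. -/
def trivialUnits (R : Type u) [CommRing R] (G : Type v) [Group G] :
    AddSubgroup (K1 (MonoidAlgebra R G)) :=
  AddSubgroup.closure {y | ∃ g : G, y = K1.unit (gUnit R g) ∨ y = K1.unit (-gUnit R g)}

/-- `K_1(R[G])` modulo the trivial units `±g`; for `R = ℤ` this is the Whitehead group. -/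
def Wh (R : Type u) [CommRing R] (G : Type v) [Group G] : Type (max u v) :=
  K1 (MonoidAlgebra R G) ⧸ trivialUnits R G

instance (R : Type u) [CommRing R] (G : Type v) [Group G] : AddCommGroup (Wh R G) :=
  inferInstanceAs (AddCommGroup (K1 (MonoidAlgebra R G) ⧸ trivialUnits R G))

/-- Conjugate matrices have the same class. -/
lemma K1.cls_conj {A : Type u} [Ring A] {n : ℕ} (u s : (Matrix (Fin n) (Fin n) A)ˣ) :
    K1.cls (s * u * s⁻¹) = K1.cls u := by
  have h1 : K1.cls (s * u * s⁻¹) + K1.cls s = K1.cls u + K1.cls s := by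
    rw [← K1.cls_mul, ← K1.cls_mul', inv_mul_cancel_right]
  exact add_right_cancel h1

open Classical in
lemma assemblyDS_rel (R : Type u) [CommRing R] (G : Type v) [Group G] (H K : FinSub G) (g : G)
    (h : ∀ x ∈ H.1, g * x * g⁻¹ ∈ K.1) (a : K1 (MonoidAlgebra R H.1)) :
    assemblyDS R G (DirectSum.of (fun H : FinSub G => K1 (MonoidAlgebra R H.1)) K
        (K1.map (MonoidAlgebra.mapDomainRingHom R (conjHom g H.1 K.1 h)) a)
      - DirectSum.of (fun H : FinSub G => K1 (MonoidAlgebra R H.1)) H a) = 0 := by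
  rw [map_sub, assemblyDS, DirectSum.toAddMonoid_of, DirectSum.toAddMonoid_of, sub_eq_zero,
    ← AddMonoidHom.comp_apply]
  congr 1
  apply K1.ext
  intro n u
  rw [AddMonoidHom.comp_apply, K1.map_cls, K1.map_cls, K1.map_cls]
  rw [← K1.cls_conj (Units.map _ u) (Units.map (Matrix.scalar (Fin n)).toMonoidHom (gUnit R g))]
  congr 1
  have key : ∀ z : MonoidAlgebra R H.1,
      MonoidAlgebra.mapDomainRingHom R K.1.subtype
        (MonoidAlgebra.mapDomainRingHom R (conjHom g H.1 K.1 h) z) =
      (gUnit R g : MonoidAlgebra R G) * MonoidAlgebra.mapDomainRingHom R H.1.subtype z *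
        ((gUnit R g)⁻¹ : (MonoidAlgebra R G)ˣ) := by
    intro z
    have e1 : (gUnit R g : MonoidAlgebra R G) = MonoidAlgebra.single g 1 := rfl
    have e2 : ((gUnit R g)⁻¹ : (MonoidAlgebra R G)ˣ) = MonoidAlgebra.single g⁻¹ (1 : R) := rfl
    induction z using MonoidAlgebra.induction_linear with
    | zero => simp
    | add x y hx hy => simp only [map_add, mul_add, add_mul, hx, hy]
    | single x r =>
      rw [e1, e2]
      simp [conjHom, MonoidAlgebra.mapDomain_single, MonoidAlgebra.single_mul_single]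
  apply Units.ext
  apply Matrix.ext
  intro i j
  show MonoidAlgebra.mapDomainRingHom R K.1.subtype
        (MonoidAlgebra.mapDomainRingHom R (conjHom g H.1 K.1 h)
          ((u : Matrix (Fin n) (Fin n) (MonoidAlgebra R H.1)) i j)) = _
  rw [key]
  have e3 : ((Units.map (Matrix.scalar (Fin n)).toMonoidHom (gUnit R g))⁻¹ :
      (Matrix (Fin n) (Fin n) (MonoidAlgebra R G))ˣ) =
      Units.map (Matrix.scalar (Fin n)).toMonoidHom (gUnit R g)⁻¹ := by
    rw [map_inv]
  rw [e3]
  simp only [Units.val_mul, Units.coe_map]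
  show _ = (Matrix.scalar (Fin n) (gUnit R g : MonoidAlgebra R G) *
    (u : Matrix (Fin n) (Fin n) (MonoidAlgebra R H.1)).map
      (MonoidAlgebra.mapDomainRingHom R H.1.subtype) *
    Matrix.scalar (Fin n) (((gUnit R g)⁻¹ : (MonoidAlgebra R G)ˣ) : MonoidAlgebra R G)) i j
  rw [Matrix.scalar_apply, Matrix.scalar_apply, Matrix.mul_diagonal, Matrix.diagonal_mul,
    Matrix.map_apply]

/-- The natural map from the colimit of the `K_1(R[H])`, `H` finite, to `K_1(R[G])`. -/
def assembly (R : Type u) [CommRing R] (G : Type v) [Group G] :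
    ColimK1 R G →+ K1 (MonoidAlgebra R G) :=
  QuotientAddGroup.lift (AddSubgroup.closure (ColimRel R G)) (assemblyDS R G)
    (by
      intro x hx
      have : AddSubgroup.closure (ColimRel R G) ≤ (assemblyDS R G).ker := by
        rw [AddSubgroup.closure_le]
        rintro y ⟨H, K, g, h, a, rfl⟩
        exact assemblyDS_rel R G H K g h a
      exact this hx)

/-- The map from the colimit to the Whitehead group. -/
def toWh (R : Type u) [CommRing R] (G : Type v) [Group G] : ColimK1 R G →+ Wh R G :=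
  (QuotientAddGroup.mk' (trivialUnits R G)).comp (assembly R G)

end Pool.Agent.Lib.MPb6f35e.WH
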