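import Pool.Agent.Lib.MP_b6f35e_al.WH.Main
import Pool.Agent.Lib.MP_b6f35e_al.W2.Final
import Pool.Agent.Lib.MP_b6f35e_al.P.Fin

/-!
# Degree one: the final form (hive 30, MP_b6f35e_al)
-/

set_option autoImplicit false

namespace Pool.Agent.Lib.MPb6f35e.WH

universe u v

open Pool.Agent.Lib.MPb6f35e.W2

/-- The three clauses in characteristic zero. -/
theorem degree_one (R : Type u) [CommRing R] [IsDomain R] [CharZero R]
    (hR : ∀ a : R, a ≠ 0 → Finite (R ⧸ Ideal.span {a})) (G : Type v) [Group G] :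
    (∀ x : ColimK1 R G, IsOfFinAddOrder (toWh R G x) → IsOfFinAddOrder x) ∧
    (∀ (g : G) (x : ColimK1 R G), IsOfFinAddOrder (K1.unit (gUnit R g) + assembly R G x) →
      IsOfFinOrder (Abelianization.of g) ∧ IsOfFinAddOrder x) ∧
    (IsField R → ∀ (x : ColimK1 R G) (y : S2 R G),
      IsOfFinAddOrder (assembly R G x + asm2 R G y) →
        IsOfFinAddOrder x ∧ IsOfFinAddOrder y) := by
  have hF : FinQuot R := ⟨inferInstance, inferInstance, hR⟩
  refine ⟨specF2 R G, kernel_torsion R G, fun h x y hxy => ?_⟩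
  letI : Field R := h.toField
  exact degree_one_of specF2 R G x y hxy

/-- The three clauses in any characteristic. -/
theorem degree_one_of_P (hP : P.SpecMainP.{u, v}) (R : Type u) [CommRing R] [IsDomain R]
    (hR : ∀ a : R, a ≠ 0 → Finite (R ⧸ Ideal.span {a})) (G : Type v) [Group G] :
    (∀ x : ColimK1 R G, IsOfFinAddOrder (toWh R G x) → IsOfFinAddOrder x) ∧
    (∀ (g : G) (x : ColimK1 R G), IsOfFinAddOrder (K1.unit (gUnit R g) + assembly R G x) →
      IsOfFinOrder (Abelianization.of g) ∧ IsOfFinAddOrder x) ∧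
    (IsField R → CharZero R → ∀ (x : ColimK1 R G) (y : S2 R G),
      IsOfFinAddOrder (assembly R G x + asm2 R G y) →
        IsOfFinAddOrder x ∧ IsOfFinAddOrder y) := by
  obtain ⟨p, hp⟩ := CharP.exists R
  rcases CharP.char_is_prime_or_zero R p with h | h
  · have hpf : Fact p.Prime := ⟨h⟩
    have hQ : P.FinQuotP p R := ⟨inferInstance, hp, hR⟩
    refine ⟨hP p R G, fun g x hx => cor R G (hP p R G) g x hx, fun _ h0 => ?_⟩
    exact absurd (CharP.cast_eq_zero R p) (Nat.cast_ne_zero.2 h.ne_zero)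
  · subst h
    have h0 : CharZero R := CharP.charP_to_charZero R
    obtain ⟨h1, h2, h3⟩ := degree_one R hR G
    exact ⟨h1, h2, fun hf _ => h3 hf⟩

end Pool.Agent.Lib.MPb6f35e.WH
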