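import Mathlib

/-!
MP_b6f35e_al, module E, part 1: unimodular vectors over a commutative ring.
-/

set_option autoImplicit false

namespace Pool.Agent.Lib.MPb6f35e.WH.EM

/-- Artinian commutative rings have stable range one. -/
lemma stable_range {A : Type*} [CommRing A] [IsArtinianRing A] (a b : A)
    (h : ∃ x y, x * a + y * b = 1) : ∃ t, IsUnit (a + t * b) := by
  classical
  obtain ⟨t, ht⟩ := Ideal.exists_forall_sub_mem_ideal
    (I := fun m : MaximalSpectrum A => m.asIdeal) (by
      intro m n hmn
      rw [Function.onFun]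
      exact Ideal.isCoprime_of_isMaximal (fun h => hmn (MaximalSpectrum.ext h)))
    (fun m => if a ∈ m.asIdeal then 1 else 0)
  refine ⟨t, ?_⟩
  by_contra hcon
  obtain ⟨m, hm, hmem⟩ := exists_max_ideal_of_mem_nonunits hcon
  have h1 := ht ⟨m, hm⟩
  obtain ⟨x, y, hxy⟩ := h
  simp only at h1
  by_cases ha : a ∈ m
  · rw [if_pos ha] at h1
    have h2 : t * b ∈ m := by
      have := m.sub_mem hmem ha
      simpa using this
    have h3 : b ∈ m := by
      have h4 : b = t * b - (t - 1) * b := by ring
      rw [h4]
      exact m.sub_mem h2 (m.mul_mem_right _ h1)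
    apply hm.ne_top
    rw [Ideal.eq_top_iff_one, ← hxy]
    exact m.add_mem (m.mul_mem_left _ ha) (m.mul_mem_left _ h3)
  · rw [if_neg ha, sub_zero] at h1
    apply ha
    have h4 : a = (a + t * b) - t * b := by ring
    rw [h4]
    exact m.sub_mem hmem (m.mul_mem_right _ h1)

/-- The same modulo an ideal with Artinian quotient: a given coordinate of a vector which is
unimodular modulo `J` becomes a unit modulo `J` after adding a combination of other
coordinates. -/
lemma stable_range_mod {L : Type*} [CommRing L] (J : Ideal L) [IsArtinianRing (L ⧸ J)]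
    {ι : Type*} [Fintype ι] [DecidableEq ι] (a c : ι → L) (i : ι)
    (h : ∑ j, c j * a j - 1 ∈ J) :
    ∃ t : ι → L, t i = 0 ∧ IsUnit (Ideal.Quotient.mk J (a i + ∑ j, t j * a j)) ∧
      ∀ j, c j = 0 → t j = 0 := by
  have h1 : Ideal.Quotient.mk J (∑ j, c j * a j) = 1 := by
    rw [← map_one (Ideal.Quotient.mk J), Ideal.Quotient.eq]
    exact h
  have h2 : ∑ j, c j * a j = c i * a i + ∑ j, (if j = i then 0 else c j) * a j := by
    rw [← Finset.add_sum_erase _ _ (Finset.mem_univ i),
      ← Finset.add_sum_erase (f := fun j => (if j = i then 0 else c j) * a j) _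
        (Finset.mem_univ i)]
    simp only [if_true, zero_mul, zero_add]
    congr 1
    refine Finset.sum_congr rfl fun j hj => ?_
    rw [if_neg (Finset.ne_of_mem_erase hj)]
  obtain ⟨t, ht⟩ := stable_range (Ideal.Quotient.mk J (a i))
    (Ideal.Quotient.mk J (∑ j, (if j = i then 0 else c j) * a j))
    ⟨Ideal.Quotient.mk J (c i), 1, by rw [one_mul, ← map_mul, ← map_add, ← h2, h1]⟩
  obtain ⟨t', rfl⟩ := Ideal.Quotient.mk_surjective t
  refine ⟨fun j => t' * (if j = i then 0 else c j), by simp, ?_, ?_⟩
  · rw [← map_mul, ← map_add, Finset.mul_sum] at ht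
    simp only [mul_assoc]
    exact ht
  · intro j hj
    simp [hj]

end Pool.Agent.Lib.MPb6f35e.WH.EM
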