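import Pool.Agent.Lib.MP_b6f35e_al.WH.SpecR
import Pool.Agent.Lib.MP_b6f35e_al.WH.E1

/-!
MP_b6f35e_al, module E, part 2: elementary matrices and unimodular columns.
-/

set_option autoImplicit false

noncomputable section

namespace Pool.Agent.Lib.MPb6f35e.WH.EM

universe u

variable {L : Type u} [CommRing L] {ι : Type} [Fintype ι] [DecidableEq ι]

open Matrix

lemma clsF_one (hK : SpecK.{u, 0}) : K1.clsF (1 : (Matrix ι ι L)ˣ) = 0 := by
  have h := hK.mul L ι 1 1
  rw [mul_one] at h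
  exact left_eq_add.mp h

lemma clsF_inv (hK : SpecK.{u, 0}) (x : (Matrix ι ι L)ˣ) : K1.clsF x⁻¹ = - K1.clsF x := by
  have h := hK.mul L ι x x⁻¹
  rw [mul_inv_cancel, clsF_one hK] at h
  exact (neg_eq_of_add_eq_zero_right h.symm).symm

lemma clsF_pow (hK : SpecK.{u, 0}) (x : (Matrix ι ι L)ˣ) (m : ℕ) :
    K1.clsF (x ^ m) = m • K1.clsF x := by
  induction m with
  | zero => rw [pow_zero, zero_smul, clsF_one hK]
  | succ m ih => rw [pow_succ, hK.mul, ih, add_smul, one_smul]

/-- the matrix `1 + x yᵗ` with `y ⬝ x = 0` -/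
def tv (x y : ι → L) (h : ∑ i, y i * x i = 0) : (Matrix ι ι L)ˣ where
  val := 1 + vecMulVec x y
  inv := 1 - vecMulVec x y
  val_inv := by
    have h1 : vecMulVec x y * vecMulVec x y = 0 := by
      rw [vecMulVec_mul_vecMulVec]
      have : y ⬝ᵥ x = 0 := h
      rw [this, zero_smul, vecMulVec_zero]
    rw [mul_sub, mul_one, add_mul, one_mul, h1]
    abel
  inv_val := by
    have h1 : vecMulVec x y * vecMulVec x y = 0 := by
      rw [vecMulVec_mul_vecMulVec]
      have : y ⬝ᵥ x = 0 := h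
      rw [this, zero_smul, vecMulVec_zero]
    rw [mul_add, mul_one, sub_mul, one_mul, h1]
    abel

lemma clsF_tv (hK : SpecK.{u, 0}) (x y : ι → L) (h : ∑ i, y i * x i = 0) :
    K1.clsF (tv x y h) = 0 := by
  have h1 := hK.oneAdd L ι (Fin 1) (Matrix.of fun i _ => x i) (Matrix.of fun _ j => y j)
    (tv x y h) 1 (by
      show 1 + vecMulVec x y = _
      congr 1
      ext i j
      simp [vecMulVec_apply, Matrix.mul_apply]) (by
      ext i j
      fin_cases i
      fin_cases j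
      simp [Matrix.mul_apply, h])
  rw [h1, clsF_one hK]

lemma tv_mulVec (x y : ι → L) (h : ∑ i, y i * x i = 0) (a : ι → L) :
    (tv x y h : Matrix ι ι L) *ᵥ a = a + (∑ i, y i * a i) • x := by
  show (1 + vecMulVec x y) *ᵥ a = _
  rw [add_mulVec, one_mulVec]
  congr 1
  ext i
  simp only [mulVec, dotProduct, vecMulVec_apply, Pi.smul_apply, smul_eq_mul, Finset.sum_mul]
  exact Finset.sum_congr rfl fun j _ => by ring

/-- `b` is obtained from `a` by a matrix of class zero -/
def Reach (a b : ι → L) : Prop :=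
  ∃ w : (Matrix ι ι L)ˣ, K1.clsF w = 0 ∧ (w : Matrix ι ι L) *ᵥ a = b

lemma Reach.trans (hK : SpecK.{u, 0}) {a b c : ι → L} (h1 : Reach a b) (h2 : Reach b c) :
    Reach a c := by
  obtain ⟨w, hw, hwa⟩ := h1
  obtain ⟨v, hv, hvb⟩ := h2
  refine ⟨v * w, by rw [hK.mul, hw, hv, add_zero], ?_⟩
  rw [Units.val_mul, ← mulVec_mulVec, hwa, hvb]

/-- add to the coordinate `i` a combination of the others -/
lemma reach_to (hK : SpecK.{u, 0}) (a t : ι → L) (i : ι) (h : t i = 0) :
    Reach a (a + (∑ j, t j * a j) • Pi.single i 1) := by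
  refine ⟨tv (Pi.single i 1) t ?_, clsF_tv hK _ _ _, tv_mulVec _ _ _ _⟩
  rw [Finset.sum_eq_single i]
  · rw [h, zero_mul]
  · intro j _ hj
    rw [Pi.single_eq_of_ne hj, mul_zero]
  · intro h
    exact absurd (Finset.mem_univ i) h

/-- add multiples of the coordinate `i` to the others -/
lemma reach_from (hK : SpecK.{u, 0}) (a s : ι → L) (i : ι) (h : s i = 0) :
    Reach a (a + a i • s) := by
  have h0 : ∀ b : ι → L, ∑ j, (Pi.single i 1 : ι → L) j * b j = b i := by
    intro b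
    rw [Finset.sum_eq_single i]
    · rw [Pi.single_eq_same, one_mul]
    · intro j _ hj
      rw [Pi.single_eq_of_ne hj, zero_mul]
    · intro h
      exact absurd (Finset.mem_univ i) h
  refine ⟨tv s (Pi.single i 1) (by rw [h0, h]), clsF_tv hK _ _ _, ?_⟩
  rw [tv_mulVec, h0]

/-- unimodular vectors -/
def Unim (a : ι → L) : Prop := ∃ c : ι → L, ∑ j, c j * a j = 1

lemma Unim.reach {a b : ι → L} (h : Unim a) (hab : Reach a b) : Unim b := by
  obtain ⟨c, hc⟩ := h
  obtain ⟨w, -, rfl⟩ := hab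
  refine ⟨c ᵥ* ((w⁻¹ : (Matrix ι ι L)ˣ) : Matrix ι ι L), ?_⟩
  have h1 : (c ᵥ* ((w⁻¹ : (Matrix ι ι L)ˣ) : Matrix ι ι L)) ⬝ᵥ ((w : Matrix ι ι L) *ᵥ a) = 1 := by
    rw [dotProduct_mulVec, vecMul_vecMul, ← Units.val_mul, inv_mul_cancel, Units.val_one,
      vecMul_one]
    exact hc
  exact h1

/-- A unimodular vector of length at least three can be moved to a basis vector. -/
theorem reach_single (hK : SpecK.{u, 0})
    (hQ : ∀ c ∈ nonZeroDivisors L, Finite (L ⧸ Ideal.span {c}))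
    (J : Ideal L) [IsArtinianRing (L ⧸ J)]
    (hJu : ∀ a : L, IsUnit (Ideal.Quotient.mk J a) → a ∈ nonZeroDivisors L)
    (i0 i1 i2 : ι) (h01 : i0 ≠ i1) (h02 : i0 ≠ i2) (h12 : i1 ≠ i2) (a : ι → L) (ha : Unim a) :
    Reach a (Pi.single i0 1) := by
  -- first step
  obtain ⟨c, hc⟩ := ha
  obtain ⟨t, ht, hu, -⟩ := stable_range_mod J a c i1 (by rw [hc, sub_self]; exact J.zero_mem)
  have r1 := reach_to hK a t i1 ht
  set a1 : ι → L := a + (∑ j, t j * a j) • Pi.single i1 1 with ha1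
  have hn : a1 i1 ∈ nonZeroDivisors L := by
    apply hJu
    have : a1 i1 = a i1 + ∑ j, t j * a j := by simp [ha1]
    rw [this]
    exact hu
  obtain ⟨c1, hc1⟩ := Unim.reach ⟨c, hc⟩ r1
  -- second step
  have hfin := hQ _ hn
  set J1 : Ideal L := Ideal.span {a1 i1} with hJ1
  have hart : IsArtinianRing (L ⧸ J1) := inferInstance
  have hmem1 : a1 i1 ∈ J1 := Ideal.mem_span_singleton_self _
  obtain ⟨t1, ht1, hu1, hz1⟩ := stable_range_mod J1 a1 (Function.update c1 i1 0) i2 (by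
    have h1 : ∑ j, (Function.update c1 i1 0) j * a1 j = 1 - c1 i1 * a1 i1 := by
      rw [← hc1, ← Finset.add_sum_erase _ _ (Finset.mem_univ i1),
        ← Finset.add_sum_erase (f := fun j => c1 j * a1 j) _ (Finset.mem_univ i1)]
      rw [Function.update_self, zero_mul, zero_add, add_sub_cancel_left]
      exact Finset.sum_congr rfl fun j hj => by
        rw [Function.update_of_ne (Finset.ne_of_mem_erase hj)]
    rw [h1]
    have h2 : 1 - c1 i1 * a1 i1 - 1 = -(c1 i1 * a1 i1) := by ring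
    rw [h2]
    exact J1.neg_mem (J1.mul_mem_left _ hmem1))
  have r2 := reach_to hK a1 t1 i2 ht1
  set a2 : ι → L := a1 + (∑ j, t1 j * a1 j) • Pi.single i2 1 with ha2
  have e21 : a2 i1 = a1 i1 := by
    rw [ha2, Pi.add_apply, Pi.smul_apply, Pi.single_eq_of_ne h12, smul_zero, add_zero]
  have e22 : a2 i2 = a1 i2 + ∑ j, t1 j * a1 j := by simp [ha2]
  rw [← e22] at hu1
  obtain ⟨x, y, hxy⟩ : ∃ x y : L, x * a2 i1 + y * a2 i2 = 1 := by
    obtain ⟨v, hv⟩ := hu1.exists_left_inv
    obtain ⟨y, rfl⟩ := Ideal.Quotient.mk_surjective v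
    rw [← map_mul, ← map_one (Ideal.Quotient.mk J1), Ideal.Quotient.eq, hJ1,
      Ideal.mem_span_singleton'] at hv
    obtain ⟨x, hx⟩ := hv
    refine ⟨-x, y, ?_⟩
    rw [e21]
    linear_combination -hx
  -- third step
  set t2 : ι → L := (1 - a2 i0) • (x • Pi.single i1 1 + y • Pi.single i2 1) with ht2
  have ht20 : t2 i0 = 0 := by
    simp [ht2, Pi.single_eq_of_ne h01, Pi.single_eq_of_ne h02]
  have hs : ∑ j, t2 j * a2 j = 1 - a2 i0 := by
    have h1 : ∑ j, t2 j * a2 j = (1 - a2 i0) * (x * a2 i1 + y * a2 i2) := by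
      simp only [ht2, Pi.smul_apply, Pi.add_apply, smul_eq_mul]
      have h2 : ∀ (k : ι), ∑ j, (Pi.single k 1 : ι → L) j * a2 j = a2 k := by
        intro k
        rw [Finset.sum_eq_single k]
        · rw [Pi.single_eq_same, one_mul]
        · intro j _ hj
          rw [Pi.single_eq_of_ne hj, zero_mul]
        · intro h
          exact absurd (Finset.mem_univ k) h
      rw [← h2 i1, ← h2 i2, Finset.mul_sum, Finset.mul_sum, ← Finset.sum_add_distrib,
        Finset.mul_sum]
      exact Finset.sum_congr rfl fun j _ => by ring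
    rw [h1, hxy, mul_one]
  have r3 := reach_to hK a2 t2 i0 ht20
  rw [hs] at r3
  set a3 : ι → L := a2 + (1 - a2 i0) • Pi.single i0 1 with ha3
  have e3 : a3 i0 = 1 := by simp [ha3]
  -- fourth step
  have r4 := reach_from hK a3 (Pi.single i0 1 - a3) i0 (by
    rw [Pi.sub_apply, Pi.single_eq_same, e3, sub_self])
  rw [e3, one_smul, add_sub_cancel] at r4
  exact ((r1.trans hK r2).trans hK r3).trans hK r4

end Pool.Agent.Lib.MPb6f35e.WH.EM
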