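import Pool.Agent.Lib.MP_b6f35e_al.WH.E2

/-!
MP_b6f35e_al, module E, part 3: two by two matrices of determinant one have finite order in `K_1`.
-/

set_option autoImplicit false

noncomputable section

namespace Pool.Agent.Lib.MPb6f35e.WH.EM

universe u

variable {L : Type u} [CommRing L]

open Matrix

/-- `(A, B C; 1, D)` with `A D - B C = 1` has class zero -/
lemma exists_phi (hK : SpecK.{u, 0}) (A B C D : L) (h : A * D - B * C = 1) :
    ∃ φ : (Matrix (Fin 2) (Fin 2) L)ˣ, K1.clsF φ = 0 ∧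
      (φ : Matrix (Fin 2) (Fin 2) L) = !![A, B * C; 1, D] := by
  let e1 : (Matrix (Fin 2) (Fin 2) L)ˣ := tv ![1, 0] ![0, A - 1] (by simp [Fin.sum_univ_two])
  let e2 : (Matrix (Fin 2) (Fin 2) L)ˣ := tv ![0, 1] ![1, 0] (by simp [Fin.sum_univ_two])
  let e3 : (Matrix (Fin 2) (Fin 2) L)ˣ := tv ![1, 0] ![0, D - 1] (by simp [Fin.sum_univ_two])
  refine ⟨e1 * e2 * e3, ?_, ?_⟩
  · rw [hK.mul, hK.mul, clsF_tv hK, clsF_tv hK, clsF_tv hK, add_zero, add_zero]
  · have h1 : (e1 : Matrix (Fin 2) (Fin 2) L) = !![1, A - 1; 0, 1] := by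
      show 1 + vecMulVec _ _ = _
      ext i j
      fin_cases i <;> fin_cases j <;> simp
    have h2 : (e2 : Matrix (Fin 2) (Fin 2) L) = !![1, 0; 1, 1] := by
      show 1 + vecMulVec _ _ = _
      ext i j
      fin_cases i <;> fin_cases j <;> simp
    have h3 : (e3 : Matrix (Fin 2) (Fin 2) L) = !![1, D - 1; 0, 1] := by
      show 1 + vecMulVec _ _ = _
      ext i j
      fin_cases i <;> fin_cases j <;> simp
    rw [Units.val_mul, Units.val_mul, h1, h2, h3]
    ext i j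
    fin_cases i <;> fin_cases j
    · simp
    · simp
      linear_combination h
    · simp
    · simp

theorem sl_core (hK : SpecK.{u, 0}) (σ : (Matrix (Fin 2) (Fin 2) L)ˣ)
    (hdet : (σ : Matrix (Fin 2) (Fin 2) L).det = 1)
    (hc : (σ : Matrix (Fin 2) (Fin 2) L) 1 0 ∈ nonZeroDivisors L)
    (hfin : Finite (L ⧸ Ideal.span {(σ : Matrix (Fin 2) (Fin 2) L) 1 0})) :
    ∃ m : ℕ, 0 < m ∧ m • K1.clsF σ = 0 := by
  set A := (σ : Matrix (Fin 2) (Fin 2) L) 0 0 with hA
  set B := (σ : Matrix (Fin 2) (Fin 2) L) 0 1 with hB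
  set C := (σ : Matrix (Fin 2) (Fin 2) L) 1 0 with hC
  set D := (σ : Matrix (Fin 2) (Fin 2) L) 1 1 with hD
  have hσ : (σ : Matrix (Fin 2) (Fin 2) L) = !![A, B; C, D] := by
    ext i j
    fin_cases i <;> fin_cases j <;> rfl
  have hd : A * D - B * C = 1 := by
    rw [hσ, det_fin_two_of] at hdet
    exact hdet
  obtain ⟨φ, hφ0, hφ⟩ := exists_phi hK A B C D hd
  -- the order of `A` modulo `C`
  have hu : IsUnit (Ideal.Quotient.mk (Ideal.span {C}) A) := by
    refine IsUnit.of_mul_eq_one (Ideal.Quotient.mk _ D) ?_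
    rw [← map_mul, ← map_one (Ideal.Quotient.mk (Ideal.span {C})), Ideal.Quotient.eq,
      Ideal.mem_span_singleton']
    exact ⟨B, by linear_combination -hd⟩
  obtain ⟨v, hv⟩ := hu
  have hfo : IsOfFinOrder v := isOfFinOrder_of_finite v
  obtain ⟨m, hm, hvm⟩ := hfo.exists_pow_eq_one
  have hAm : C ∣ A ^ m - 1 := by
    have h1 : Ideal.Quotient.mk (Ideal.span {C}) (A ^ m) = 1 := by
      rw [map_pow, ← hv, ← Units.val_pow_eq_pow_val, hvm, Units.val_one]
    rw [← map_one (Ideal.Quotient.mk (Ideal.span {C})), Ideal.Quotient.eq,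
      Ideal.mem_span_singleton] at h1
    exact h1
  have hpow : ∀ k : ℕ, C ∣ ((φ ^ k : (Matrix (Fin 2) (Fin 2) L)ˣ) : Matrix (Fin 2) (Fin 2) L) 0 0
      - A ^ k ∧ C ∣ ((φ ^ k : (Matrix (Fin 2) (Fin 2) L)ˣ) : Matrix (Fin 2) (Fin 2) L) 0 1 := by
    intro k
    induction k with
    | zero => simp
    | succ k ih =>
      obtain ⟨⟨x, hx⟩, ⟨y, hy⟩⟩ := ih
      rw [pow_succ φ k, Units.val_mul, hφ]
      constructor
      · refine ⟨x * A + y, ?_⟩
        rw [Matrix.mul_apply, Fin.sum_univ_two]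
        simp only [of_apply, cons_val', cons_val_zero, cons_val_one, cons_val_fin_one]
        rw [hy, pow_succ]
        linear_combination A * hx
      · refine ⟨((φ ^ k : (Matrix (Fin 2) (Fin 2) L)ˣ) : Matrix (Fin 2) (Fin 2) L) 0 0 * B
          + y * D, ?_⟩
        rw [Matrix.mul_apply, Fin.sum_univ_two]
        simp only [of_apply, cons_val', cons_val_zero, cons_val_one, cons_val_fin_one]
        rw [hy]
        ring
  obtain ⟨⟨x, hx⟩, ⟨y, hy⟩⟩ := hpow m
  obtain ⟨z, hz⟩ := hAm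
  set P : Matrix (Fin 2) (Fin 2) L :=
    ((φ ^ m : (Matrix (Fin 2) (Fin 2) L)ˣ) : Matrix (Fin 2) (Fin 2) L) with hP
  set ι : Matrix (Fin 2) (Fin 2) L := !![C, 0; 0, 1] with hι
  set ψ : Matrix (Fin 2) (Fin 2) L := !![x + z, y; P 1 0, P 1 1 - 1] with hψ
  have e1 : P = 1 + ι * ψ := by
    ext i j
    fin_cases i <;> fin_cases j
    · simp [hι, hψ]
      linear_combination hx + hz
    · simp [hι, hψ]
      exact hy
    · simp [hι, hψ]
    · simp [hι, hψ]
  have e2 : ι * (σ : Matrix (Fin 2) (Fin 2) L) = (φ : Matrix (Fin 2) (Fin 2) L) * ι := by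
    rw [hσ, hφ, hι]
    ext i j
    fin_cases i <;> fin_cases j
    · simp [mul_comm]
    · simp [mul_comm]
    · simp
    · simp
  have e3 : ∀ k : ℕ, ι * ((σ ^ k : (Matrix (Fin 2) (Fin 2) L)ˣ) : Matrix (Fin 2) (Fin 2) L) =
      ((φ ^ k : (Matrix (Fin 2) (Fin 2) L)ˣ) : Matrix (Fin 2) (Fin 2) L) * ι := by
    intro k
    induction k with
    | zero => simp
    | succ k ih =>
      rw [pow_succ, Units.val_mul, ← mul_assoc, ih, mul_assoc, e2, ← mul_assoc, pow_succ φ k,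
        Units.val_mul]
  have e4 : ((σ ^ m : (Matrix (Fin 2) (Fin 2) L)ˣ) : Matrix (Fin 2) (Fin 2) L) = 1 + ψ * ι := by
    have h1 : ι * ((σ ^ m : (Matrix (Fin 2) (Fin 2) L)ˣ) : Matrix (Fin 2) (Fin 2) L) =
        ι * (1 + ψ * ι) := by
      rw [e3 m, ← hP, e1]
      noncomm_ring
    have h2 : ∀ M N : Matrix (Fin 2) (Fin 2) L, ι * M = ι * N → M = N := by
      intro M N h
      ext i j
      fin_cases i
      · have h3 := congrFun (congrFun h 0) j
        rw [Matrix.mul_apply, Matrix.mul_apply, Fin.sum_univ_two, Fin.sum_univ_two] at h3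
        simp [hι] at h3
        have h4 : (M 0 j - N 0 j) * C = 0 := by linear_combination h3
        exact sub_eq_zero.mp ((mem_nonZeroDivisors_iff.mp hc).2 _ h4)
      · have h3 := congrFun (congrFun h 1) j
        rw [Matrix.mul_apply, Matrix.mul_apply, Fin.sum_univ_two, Fin.sum_univ_two] at h3
        simp [hι] at h3
        exact h3
    exact h2 _ _ h1
  refine ⟨m, hm, ?_⟩
  have h5 := hK.oneAdd L (Fin 2) (Fin 2) ι ψ (φ ^ m) (σ ^ m) e1 e4
  rw [clsF_pow hK, clsF_pow hK, hφ0, smul_zero] at h5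
  exact h5.symm

end Pool.Agent.Lib.MPb6f35e.WH.EM
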