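import Pool.Agent.Lib.MP_b6f35e_al.WH.E3

/-!
MP_b6f35e_al, module E, part 4: `K_1(L)` is `Lˣ` up to torsion, if `L` has finite quotients by
nonzerodivisors.
-/

set_option autoImplicit false

noncomputable section

namespace Pool.Agent.Lib.MPb6f35e.WH.EM

universe u

variable {L : Type u} [CommRing L]

open Matrix

lemma unit_mul (a b : Lˣ) : K1.unit (a * b) = K1.unit a + K1.unit b := by
  unfold K1.unit
  rw [← K1.cls_mul]
  congr 1
  apply Units.ext
  ext i j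
  fin_cases i
  fin_cases j
  simp [oneByOne, Matrix.mul_apply]

lemma unit_one : K1.unit (1 : Lˣ) = 0 := by
  have h := unit_mul (1 : Lˣ) 1
  rw [mul_one] at h
  exact left_eq_add.mp h

/-- the homomorphism `Lˣ → K_1(L)` -/
def unitHom : Additive Lˣ →+ K1 L where
  toFun a := K1.unit a.toMul
  map_zero' := unit_one
  map_add' _ _ := unit_mul _ _

lemma unit_pow (a : Lˣ) (m : ℕ) : K1.unit (a ^ m) = m • K1.unit a :=
  (unitHom (L := L)).map_nsmul m (Additive.ofMul a)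

lemma unit_inv (a : Lˣ) : K1.unit a⁻¹ = - K1.unit a :=
  (unitHom (L := L)).map_neg (Additive.ofMul a)

lemma exists_diag (hK : SpecK.{u, 0}) (δ : Lˣ) :
    ∃ g : (Matrix (Fin 2) (Fin 2) L)ˣ, K1.clsF g = K1.unit δ ∧
      (g : Matrix (Fin 2) (Fin 2) L) = !![(δ : L), 0; 0, 1] := by
  refine ⟨⟨!![(δ : L), 0; 0, 1], !![((δ⁻¹ : Lˣ) : L), 0; 0, 1], ?_, ?_⟩, ?_, rfl⟩
  · ext i j
    fin_cases i <;> fin_cases j <;> simp
  · ext i j
    fin_cases i <;> fin_cases j <;> simp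
  · have h1 := hK.oneAdd L (Fin 2) (Fin 1) !![(δ : L) - 1; 0] !![1, 0]
      ⟨!![(δ : L), 0; 0, 1], !![((δ⁻¹ : Lˣ) : L), 0; 0, 1], by
        ext i j
        fin_cases i <;> fin_cases j <;> simp, by
        ext i j
        fin_cases i <;> fin_cases j <;> simp⟩ (oneByOne δ) (by
        ext i j
        fin_cases i <;> fin_cases j <;> simp) (by
        ext i j
        fin_cases i
        fin_cases j
        simp [oneByOne])
    rw [h1, hK.cls]
    rfl

variable (hK : SpecK.{u, 0})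
  (hQ : ∀ c ∈ nonZeroDivisors L, Finite (L ⧸ Ideal.span {c}))
  (J : Ideal L) [hart : IsArtinianRing (L ⧸ J)]
  (hJu : ∀ a : L, IsUnit (Ideal.Quotient.mk J a) → a ∈ nonZeroDivisors L)

/-- the statement for a class -/
def Good (x : K1 L) : Prop := ∃ (m : ℕ) (_ : 0 < m) (y : Lˣ), m • x = K1.unit y

lemma good_add {x y : K1 L} (hx : Good x) (hy : Good y) : Good (x + y) := by
  obtain ⟨m, hm, a, ha⟩ := hx
  obtain ⟨n, hn, b, hb⟩ := hy
  refine ⟨m * n, Nat.mul_pos hm hn, a ^ n * b ^ m, ?_⟩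
  rw [unit_mul, unit_pow, unit_pow, smul_add, ← ha, ← hb, smul_smul, smul_smul, mul_comm n m]

lemma good_neg {x : K1 L} (hx : Good x) : Good (-x) := by
  obtain ⟨m, hm, a, ha⟩ := hx
  refine ⟨m, hm, a⁻¹, ?_⟩
  rw [unit_inv, ← ha, smul_neg]

lemma good_zero : Good (0 : K1 L) := ⟨1, one_pos, 1, by rw [smul_zero, unit_one]⟩

lemma good_unit (a : Lˣ) : Good (K1.unit a) := ⟨1, one_pos, a, one_smul _ _⟩

lemma good_of_torsion {x : K1 L} {m : ℕ} (hm : 0 < m) (h : m • x = 0) : Good x :=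
  ⟨m, hm, 1, by rw [h, unit_one]⟩

include hK hQ hJu in
lemma good_two (u : (Matrix (Fin 2) (Fin 2) L)ˣ) : Good (K1.clsF u) := by
  have hdu : IsUnit (u : Matrix (Fin 2) (Fin 2) L).det :=
    (Matrix.isUnit_iff_isUnit_det _).mp u.isUnit
  obtain ⟨δ, hδ⟩ := hdu
  obtain ⟨g, hg, hgv⟩ := exists_diag hK δ⁻¹
  set σ0 : (Matrix (Fin 2) (Fin 2) L)ˣ := g * u with hσ0
  have hdet0 : (σ0 : Matrix (Fin 2) (Fin 2) L).det = 1 := by
    rw [hσ0, Units.val_mul, det_mul, hgv, ← hδ, det_fin_two_of]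
    simp
  set a : Fin 2 → L := fun i => (σ0 : Matrix (Fin 2) (Fin 2) L) i 0 with ha
  have huni : ∑ j, (![(σ0 : Matrix (Fin 2) (Fin 2) L) 1 1,
      -(σ0 : Matrix (Fin 2) (Fin 2) L) 0 1] : Fin 2 → L) j * a j = 1 := by
    rw [Fin.sum_univ_two]
    rw [det_fin_two] at hdet0
    simp only [cons_val_zero, cons_val_one, cons_val_fin_one, ha]
    linear_combination hdet0
  obtain ⟨t, ht, hu, -⟩ := stable_range_mod J a _ 1 (by rw [huni, sub_self]; exact J.zero_mem)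
  have hs : ∑ i, t i * (Pi.single 1 1 : Fin 2 → L) i = 0 := by
    rw [Fin.sum_univ_two, ht]
    simp
  set w : (Matrix (Fin 2) (Fin 2) L)ˣ := tv (Pi.single 1 1) t hs with hw
  have hw0 : K1.clsF w = 0 := clsF_tv hK _ _ _
  have hwdet : (w : Matrix (Fin 2) (Fin 2) L).det = 1 := by
    show (1 + vecMulVec (Pi.single 1 1) t).det = 1
    rw [det_fin_two]
    simp [vecMulVec_apply, ht]
  set σ : (Matrix (Fin 2) (Fin 2) L)ˣ := w * σ0 with hσ
  have hdet : (σ : Matrix (Fin 2) (Fin 2) L).det = 1 := by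
    rw [hσ, Units.val_mul, det_mul, hwdet, hdet0, one_mul]
  have hC : (σ : Matrix (Fin 2) (Fin 2) L) 1 0 = a 1 + ∑ j, t j * a j := by
    have h1 : (σ : Matrix (Fin 2) (Fin 2) L) 1 0 = ((w : Matrix (Fin 2) (Fin 2) L) *ᵥ a) 1 := by
      rw [hσ, Units.val_mul]
      rfl
    rw [h1, hw, tv_mulVec]
    simp
  have hn : (σ : Matrix (Fin 2) (Fin 2) L) 1 0 ∈ nonZeroDivisors L := by
    rw [hC]
    exact hJu _ hu
  obtain ⟨m, hm, hmσ⟩ := sl_core hK σ hdet hn (hQ _ hn)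
  have h2 : K1.clsF u = K1.unit δ + K1.clsF σ := by
    rw [hσ, hK.mul, hw0, zero_add, hσ0, hK.mul, hg, unit_inv, add_neg_cancel_left]
  rw [h2]
  exact good_add (good_unit δ) (good_of_torsion hm hmσ)

include hK hQ hJu in
lemma good_cls : ∀ (n : ℕ) (u : (Matrix (Fin n) (Fin n) L)ˣ), Good (K1.cls u) := by
  intro n
  induction n with
  | zero =>
    intro u
    have h1 : u = 1 := Units.ext (by ext i; exact i.elim0)
    rw [h1, ← hK.cls, clsF_one hK]
    exact good_zero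
  | succ n ih =>
    intro u
    by_cases hn0 : n = 0
    · subst hn0
      -- one by one matrices
      have hd : IsUnit (u : Matrix (Fin 1) (Fin 1) L).det :=
        (Matrix.isUnit_iff_isUnit_det _).mp u.isUnit
      obtain ⟨δ, hδ⟩ := hd
      have h1 : u = oneByOne δ := by
        apply Units.ext
        ext i j
        fin_cases i
        fin_cases j
        show (u : Matrix (Fin 1) (Fin 1) L) 0 0 = δ
        rw [hδ, det_fin_one]
      rw [h1]
      exact good_unit δ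
    by_cases hn1 : n = 1
    · subst hn1
      rw [← hK.cls]
      exact good_two hK hQ J hJu u
    obtain ⟨k, rfl⟩ : ∃ k, n = k + 2 := ⟨n - 2, by omega⟩
    let e : Fin (k + 2 + 1) ≃ Fin 1 ⊕ Fin (k + 2) :=
      ((finCongr (by omega)).trans (finSumFinEquiv (m := 1) (n := k + 2)).symm)
    set u' : (Matrix (Fin 1 ⊕ Fin (k + 2)) (Fin 1 ⊕ Fin (k + 2)) L)ˣ :=
      Units.map (Matrix.reindexRingEquiv L e).toMonoidHom u with hu'
    have hcu : K1.clsF u' = K1.cls u := by rw [hu', hK.reindex, hK.cls]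
    set a : Fin 1 ⊕ Fin (k + 2) → L := fun i =>
      (u' : Matrix (Fin 1 ⊕ Fin (k + 2)) (Fin 1 ⊕ Fin (k + 2)) L) i (Sum.inl 0) with ha
    have huni : Unim a := by
      refine ⟨fun j => ((u'⁻¹ : (Matrix (Fin 1 ⊕ Fin (k + 2)) (Fin 1 ⊕ Fin (k + 2)) L)ˣ) :
        Matrix (Fin 1 ⊕ Fin (k + 2)) (Fin 1 ⊕ Fin (k + 2)) L) (Sum.inl 0) j, ?_⟩
      have h1 : ((u'⁻¹ * u' : (Matrix (Fin 1 ⊕ Fin (k + 2)) (Fin 1 ⊕ Fin (k + 2)) L)ˣ) :
        Matrix (Fin 1 ⊕ Fin (k + 2)) (Fin 1 ⊕ Fin (k + 2)) L) (Sum.inl 0) (Sum.inl 0) = 1 := by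
        rw [inv_mul_cancel, Units.val_one, one_apply_eq]
      rw [Units.val_mul, Matrix.mul_apply] at h1
      exact h1
    obtain ⟨w, hw0, hwa⟩ := reach_single hK hQ J hJu (Sum.inl 0) (Sum.inr 0) (Sum.inr 1)
      (by simp) (by simp) (by simp) a huni
    set z : (Matrix (Fin 1 ⊕ Fin (k + 2)) (Fin 1 ⊕ Fin (k + 2)) L)ˣ := w * u' with hz
    have hcz : K1.clsF z = K1.cls u := by rw [hz, hK.mul, hw0, zero_add, hcu]
    have hcol : ∀ i, (z : Matrix (Fin 1 ⊕ Fin (k + 2)) (Fin 1 ⊕ Fin (k + 2)) L) i (Sum.inl 0) =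
        (Pi.single (Sum.inl 0) 1 : Fin 1 ⊕ Fin (k + 2) → L) i := by
      intro i
      rw [← hwa, hz, Units.val_mul]
      rfl
    set d : Matrix (Fin (k + 2)) (Fin (k + 2)) L :=
      (z : Matrix (Fin 1 ⊕ Fin (k + 2)) (Fin 1 ⊕ Fin (k + 2)) L).toBlocks₂₂ with hd
    set b : Matrix (Fin 1) (Fin (k + 2)) L :=
      (z : Matrix (Fin 1 ⊕ Fin (k + 2)) (Fin 1 ⊕ Fin (k + 2)) L).toBlocks₁₂ with hb
    have hzb : (z : Matrix (Fin 1 ⊕ Fin (k + 2)) (Fin 1 ⊕ Fin (k + 2)) L) =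
        fromBlocks 1 b 0 d := by
      rw [← fromBlocks_toBlocks (z : Matrix (Fin 1 ⊕ Fin (k + 2)) (Fin 1 ⊕ Fin (k + 2)) L)]
      congr 1
      · ext i j
        fin_cases i
        fin_cases j
        show (z : Matrix (Fin 1 ⊕ Fin (k + 2)) (Fin 1 ⊕ Fin (k + 2)) L) (Sum.inl 0)
          (Sum.inl 0) = _
        rw [hcol]
        simp
      · ext i j
        fin_cases j
        show (z : Matrix (Fin 1 ⊕ Fin (k + 2)) (Fin 1 ⊕ Fin (k + 2)) L) (Sum.inr i)
          (Sum.inl 0) = _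
        rw [hcol]
        simp
    have hdu : IsUnit d := by
      rw [Matrix.isUnit_iff_isUnit_det]
      have h1 : IsUnit (z : Matrix (Fin 1 ⊕ Fin (k + 2)) (Fin 1 ⊕ Fin (k + 2)) L).det :=
        (Matrix.isUnit_iff_isUnit_det _).mp z.isUnit
      rw [hzb, det_fromBlocks_zero₂₁, det_one, one_mul] at h1
      exact h1
    obtain ⟨v, hv⟩ := hdu
    have h3 := hK.block L (Fin 1) (Fin (k + 2)) 1 v b z (by rw [hzb, hv, Units.val_one])
    rw [clsF_one hK, zero_add, hcz, hK.cls] at h3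
    rw [h3]
    exact ih v

include hK hQ hJu in
/-- `K_1(L)` is `Lˣ` up to torsion. -/
theorem E0 (x : K1 L) : Good x := by
  obtain ⟨y, rfl⟩ := QuotientAddGroup.mk_surjective x
  induction y using FreeAbelianGroup.induction_on with
  | zero => exact good_zero
  | of g => exact good_cls hK hQ J hJu g.1 g.2
  | neg g ih => exact good_neg ih
  | add a b ha hb => exact good_add ha hb

end Pool.Agent.Lib.MPb6f35e.WH.EM
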