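import Pool.Agent.Lib.MP_b6f35e_al.WH.F1b

/-!
# WH, module F1: vanishing logarithms imply torsion in the colimit  (hive 30, MP_b6f35e_al)

`specF1 : SpecLP → SpecL2P → SpecF1`
-/

set_option autoImplicit false

noncomputable section

namespace Pool.Agent.Lib.MPb6f35e.WH

universe u v w

namespace F1

variable {p : ℕ} [Fact p.Prime] {R₀ : Type u} [CommRing R₀] {i : R₀ →+* ℤ_[p]}
  {G : Type v} [Group G]

/-- The isomorphisms `C → D` induced by conjugation in `G`. -/
def Cj {C D : Type v} [Group C] [Group D] (φ : C →* G) (ψ : D →* G) : Type v :=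
  {f : C ≃* D // ∃ g : G, ∀ c, ψ (f c) = g * φ c * g⁻¹}

instance {C D : Type v} [Group C] [Group D] [Finite C] [Finite D] (φ : C →* G) (ψ : D →* G) :
    Finite (Cj φ ψ) := by
  unfold Cj
  have : Finite (C ≃* D) := Finite.of_injective (fun f : C ≃* D => (f : C → D))
    DFunLike.coe_injective
  infer_instance

/-- A generator determines the isomorphism. -/
lemma cj_ext {C D : Type v} [Group C] [Group D] (φ : C →* G) (ψ : D →* G) (d : D)
    (hd : Subgroup.zpowers d = ⊤) (f f' : Cj φ ψ) (h : f.1.symm d = f'.1.symm d) : f = f' := by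
  apply Subtype.ext
  have h2 : f.1.symm = f'.1.symm := by
    apply MulEquiv.ext
    intro x
    have hx : x ∈ Subgroup.zpowers d := by rw [hd]; trivial
    obtain ⟨k, rfl⟩ := hx
    rw [map_zpow, map_zpow, h]
  rw [← MulEquiv.symm_symm f.1, h2, MulEquiv.symm_symm]

/-- Conjugate generators: the isomorphism. -/
lemma cj_exists {C D : Type v} [Group C] [Group D] (φ : C →* G) (ψ : D →* G)
    (hφ : Function.Injective φ) (hψ : Function.Injective ψ) (c : C) (d : D)
    (hc : Subgroup.zpowers c = ⊤) (hd : Subgroup.zpowers d = ⊤)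
    (h : ConjClasses.mk (φ c) = ConjClasses.mk (ψ d)) : ∃ f : Cj φ ψ, f.1.symm d = c := by
  rw [ConjClasses.mk_eq_mk_iff_isConj, isConj_iff] at h
  obtain ⟨g, hg⟩ := h
  have hpow : ∀ k : ℤ, g * φ (c ^ k) * g⁻¹ = ψ (d ^ k) := by
    intro k
    rw [map_zpow, map_zpow, ← hg, ← conj_zpow]
  have h1 : ∀ x : C, ∃ y : D, ψ y = g * φ x * g⁻¹ := by
    intro x
    have hx : x ∈ Subgroup.zpowers c := by rw [hc]; trivial
    obtain ⟨k, rfl⟩ := hx
    exact ⟨d ^ k, (hpow k).symm⟩
  have h2 : ∀ y : D, ∃ x : C, ψ y = g * φ x * g⁻¹ := by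
    intro y
    have hy : y ∈ Subgroup.zpowers d := by rw [hd]; trivial
    obtain ⟨k, rfl⟩ := hy
    exact ⟨c ^ k, (hpow k).symm⟩
  choose F hF using h1
  choose F' hF' using h2
  refine ⟨⟨{ toFun := F, invFun := F', left_inv := ?_, right_inv := ?_, map_mul' := ?_ }, g,
    hF⟩, ?_⟩
  · intro x
    apply hφ
    have e := hF' (F x)
    rw [hF x] at e
    exact (mul_left_cancel (mul_right_cancel e)).symm
  · intro y
    apply hψ
    rw [hF, hF' y]
  · intro x y
    apply hψ
    rw [map_mul, hF, hF, hF, map_mul]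
    group
  · show F' d = c
    apply hφ
    have e := hF' d
    rw [← hg] at e
    exact (mul_left_cancel (mul_right_cancel e)).symm

/-- The number of isomorphisms does not depend on the source. -/
lemma cj_card {C D : Type v} [Group C] [Group D] (φ : C →* G) (ψ : D →* G) (f : Cj φ ψ) :
    Nat.card (Cj φ ψ) = Nat.card (Cj ψ ψ) := by
  obtain ⟨f, g, hg⟩ := f
  apply Nat.card_congr
  refine ⟨fun a => ⟨f.symm.trans a.1, ?_⟩, fun b => ⟨f.trans b.1, ?_⟩, ?_, ?_⟩
  · obtain ⟨a, g', hg'⟩ := a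
    refine ⟨g' * g⁻¹, fun d => ?_⟩
    have e := hg (f.symm d)
    rw [MulEquiv.apply_symm_apply] at e
    show ψ (a (f.symm d)) = _
    rw [hg', e]
    group
  · obtain ⟨b, g', hg'⟩ := b
    refine ⟨g' * g, fun c => ?_⟩
    show ψ (b (f c)) = _
    rw [hg', hg]
    group
  · intro a
    apply Subtype.ext
    apply MulEquiv.ext
    intro x
    simp
  · intro a
    apply Subtype.ext
    apply MulEquiv.ext
    intro x
    simp

/-- The value of the sum of logarithms at the class `κ`. -/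
def cl [DecidableEq (ConjClasses G)] {C : Type v} [Group C] [Fintype C] (φ : C →* G)
    (κ : ConjClasses G) (f : C → ℚ_[p]) : ℚ_[p] :=
  ∑ c : C, if ConjClasses.mk (φ c) = κ then f c else 0

lemma zpowers_equiv {C D : Type v} [Group C] [Group D] (f : C ≃* D) (c : C) :
    Subgroup.zpowers (f c) = ⊤ ↔ Subgroup.zpowers c = ⊤ := by
  have h : ∀ {C D : Type v} [Group C] [Group D] (f : C ≃* D) (c : C),
      Subgroup.zpowers c = ⊤ → Subgroup.zpowers (f c) = ⊤ := by
    intro C D _ _ f c hc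
    rw [eq_top_iff]
    intro d _
    have hx : f.symm d ∈ Subgroup.zpowers c := by rw [hc]; trivial
    obtain ⟨k, hk⟩ := hx
    refine ⟨k, ?_⟩
    show f c ^ k = d
    rw [← map_zpow]
    show f ((fun k : ℤ => c ^ k) k) = d
    rw [hk, MulEquiv.apply_symm_apply]
  refine ⟨fun h1 => ?_, h f c⟩
  have h2 := h f.symm (f c) h1
  rwa [MulEquiv.symm_apply_apply] at h2

lemma cj_mk {C D : Type v} [Group C] [Group D] (φ : C →* G) (ψ : D →* G) (f : Cj φ ψ) (c : C) :
    ConjClasses.mk (φ c) = ConjClasses.mk (ψ (f.1 c)) := by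
  obtain ⟨f, g, hg⟩ := f
  rw [ConjClasses.mk_eq_mk_iff_isConj, isConj_iff]
  exact ⟨g, (hg c).symm⟩

open Classical in
lemma sum_cj {C D : Type v} [Group C] [Fintype C] [Group D] [Finite D] (φ : C →* G) (ψ : D →* G)
    [Fintype (Cj φ ψ)]
    (hφ : Function.Injective φ) (hψ : Function.Injective ψ) (F : C → ℚ_[p])
    (hF : ∀ c, Subgroup.zpowers c ≠ ⊤ → F c = 0) (d : D) (hd : Subgroup.zpowers d = ⊤) :
    ∑ f : Cj φ ψ, F (f.1.symm d) = cl φ (ConjClasses.mk (ψ d)) F := by
  unfold cl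
  apply Finset.sum_of_injOn (fun f : Cj φ ψ => f.1.symm d)
  · intro f _ f' _ h
    exact cj_ext φ ψ d hd f f' h
  · intro f _
    exact Finset.mem_coe.2 (Finset.mem_univ _)
  · intro c _ hc
    split_ifs with h
    · apply hF
      intro hgen
      obtain ⟨f, hf⟩ := cj_exists φ ψ hφ hψ c d hgen hd h
      exact hc ⟨f, Finset.mem_coe.2 (Finset.mem_univ _), hf⟩
    · rfl
  · intro f _
    rw [if_pos]
    rw [cj_mk φ ψ f, MulEquiv.apply_symm_apply]

open Classical in
/-- The orbit argument. -/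
theorem orb (hL : SpecLP.{v}) (hp : p ≠ 2) (hi : Function.Injective i) {J : Type w}
    (C : J → Type v) [∀ j, CommGroup (C j)] [∀ j, Fintype (C j)] (φ : ∀ j, C j →* G)
    (hφ : ∀ j, Function.Injective (φ j)) (z : ∀ j, W i (C j))
    (hz : ∀ j (c : C j), Subgroup.zpowers c ≠ ⊤ → LL i hL hp (C j) (z j) c = 0) (s : Finset J) :
    (∀ κ : ConjClasses G, ∑ j ∈ s, cl (φ j) κ (LL i hL hp (C j) (z j)) = 0) →
    ∃ (n : ℕ) (_ : 0 < n), n • ∑ j ∈ s, thW (φ j) (z j) = 0 := by
  induction s using Finset.strongInduction with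
  | _ s ih =>
    intro hs
    rcases s.eq_empty_or_nonempty with rfl | ⟨j₀, hj₀⟩
    · exact ⟨1, one_pos, by simp⟩
    have : ∀ j, Fintype (Cj (φ j) (φ j₀)) := fun j => Fintype.ofFinite _
    -- the product over all isomorphisms
    have hw : (∑ j ∈ s, ∑ f : Cj (φ j) (φ j₀), wM f.1.toMonoidHom (z j) : W i (C j₀)) = 0 := by
      apply LL_inj hL hp hi
      intro d
      rw [map_sum, Finset.sum_apply]
      have h1 : ∀ j ∈ s, LL i hL hp (C j₀) (∑ f : Cj (φ j) (φ j₀), wM f.1.toMonoidHom (z j)) d =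
          ∑ f : Cj (φ j) (φ j₀), LL i hL hp (C j) (z j) (f.1.symm d) := by
        intro j _
        rw [map_sum, Finset.sum_apply]
        refine Finset.sum_congr rfl fun f _ => ?_
        have h2 := LL_wM hL hp f.1.toMonoidHom f.1.injective (z j) (f.1.symm d)
        have h3 : f.1.toMonoidHom (f.1.symm d) = d := f.1.apply_symm_apply d
        rw [h3] at h2
        exact h2
      rw [Finset.sum_congr rfl h1]
      by_cases hd : Subgroup.zpowers d = ⊤
      · rw [← hs (ConjClasses.mk (φ j₀ d))]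
        exact Finset.sum_congr rfl fun j _ =>
          sum_cj (φ j) (φ j₀) (hφ j) (hφ j₀) _ (hz j) d hd
      · apply Finset.sum_eq_zero
        intro j _
        apply Finset.sum_eq_zero
        intro f _
        apply hz
        intro h
        apply hd
        rw [← zpowers_equiv f.1.symm d]
        exact h
    -- the relation
    have hrel : ∑ j ∈ s, Nat.card (Cj (φ j) (φ j₀)) • thW (φ j) (z j) = 0 := by
      have h1 := congrArg (thW (φ j₀)) hw
      rw [map_zero, map_sum] at h1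
      rw [← h1]
      refine Finset.sum_congr rfl fun j _ => ?_
      rw [map_sum]
      have h2 : ∀ f ∈ (Finset.univ : Finset (Cj (φ j) (φ j₀))),
          thW (φ j₀) (wM f.1.toMonoidHom (z j)) = thW (φ j) (z j) := by
        intro f _
        obtain ⟨g, hg⟩ := f.2
        exact thW_rel (φ j) (φ j₀) f.1.toMonoidHom g hg (z j)
      rw [Finset.sum_congr rfl h2, Finset.sum_const, Finset.card_univ, Nat.card_eq_fintype_card]
    -- the class of `j₀`
    set I := s.filter (fun j => Nonempty (Cj (φ j) (φ j₀))) with hI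
    set s' := s.filter (fun j => ¬ Nonempty (Cj (φ j) (φ j₀))) with hs'
    have hN : 0 < Nat.card (Cj (φ j₀) (φ j₀)) := by
      have : Nonempty (Cj (φ j₀) (φ j₀)) := ⟨⟨MulEquiv.refl _, 1, by simp⟩⟩
      exact Nat.card_pos
    have hIrel : Nat.card (Cj (φ j₀) (φ j₀)) • ∑ j ∈ I, thW (φ j) (z j) = 0 := by
      rw [← hrel, ← Finset.sum_filter_add_sum_filter_not s
        (fun j => Nonempty (Cj (φ j) (φ j₀))) (fun j => Nat.card (Cj (φ j) (φ j₀)) •
          thW (φ j) (z j))]
      have h1 : ∑ j ∈ s.filter (fun j => ¬ Nonempty (Cj (φ j) (φ j₀))),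
          Nat.card (Cj (φ j) (φ j₀)) • thW (φ j) (z j) = 0 := by
        apply Finset.sum_eq_zero
        intro j hj
        have h2 := (Finset.mem_filter.1 hj).2
        rw [not_nonempty_iff] at h2
        rw [Nat.card_of_isEmpty, zero_smul]
      rw [h1, add_zero, Finset.smul_sum]
      refine Finset.sum_congr rfl fun j hj => ?_
      obtain ⟨f⟩ := (Finset.mem_filter.1 hj).2
      rw [cj_card (φ j) (φ j₀) f]
    have hlt : s' ⊂ s := by
      rw [Finset.ssubset_iff_of_subset (Finset.filter_subset _ _)]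
      refine ⟨j₀, hj₀, fun h => ?_⟩
      exact (Finset.mem_filter.1 h).2 ⟨⟨MulEquiv.refl _, 1, by simp⟩⟩
    have hs'' : ∀ κ : ConjClasses G,
        ∑ j ∈ s', cl (φ j) κ (LL i hL hp (C j) (z j)) = 0 := by
      intro κ
      by_cases hκ : ∃ d : C j₀, Subgroup.zpowers d = ⊤ ∧ ConjClasses.mk (φ j₀ d) = κ
      · obtain ⟨d, hd, rfl⟩ := hκ
        apply Finset.sum_eq_zero
        intro j hj
        apply Finset.sum_eq_zero
        intro c _
        split_ifs with h
        · apply hz
          intro hc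
          obtain ⟨f, -⟩ := cj_exists (φ j) (φ j₀) (hφ j) (hφ j₀) c d hc hd h
          exact (Finset.mem_filter.1 hj).2 ⟨f⟩
        · rfl
      · have h1 := hs κ
        rw [← Finset.sum_filter_add_sum_filter_not s
          (fun j => Nonempty (Cj (φ j) (φ j₀)))] at h1
        have h2 : ∑ j ∈ s.filter (fun j => Nonempty (Cj (φ j) (φ j₀))),
            cl (φ j) κ (LL i hL hp (C j) (z j)) = 0 := by
          apply Finset.sum_eq_zero
          intro j hj
          obtain ⟨f⟩ := (Finset.mem_filter.1 hj).2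
          apply Finset.sum_eq_zero
          intro c _
          split_ifs with h
          · apply hz
            intro hc
            apply hκ
            refine ⟨f.1 c, (zpowers_equiv f.1 c).2 hc, ?_⟩
            rw [← cj_mk (φ j) (φ j₀) f c, h]
          · rfl
        rw [h2, zero_add] at h1
        exact h1
    obtain ⟨n, hn, hn2⟩ := ih s' hlt hs''
    refine ⟨Nat.card (Cj (φ j₀) (φ j₀)) * n, Nat.mul_pos hN hn, ?_⟩
    rw [← Finset.sum_filter_add_sum_filter_not s (fun j => Nonempty (Cj (φ j) (φ j₀))), smul_add,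
      mul_comm, mul_smul, hIrel, smul_zero, zero_add, mul_comm, mul_smul, hn2, smul_zero]

open Classical in
lemma cl_sum {C : Type v} [Group C] [Fintype C] (φ : C →* G) (κ : ConjClasses G) {α : Type*}
    (s : Finset α) (F : α → C → ℚ_[p]) : cl φ κ (∑ a ∈ s, F a) = ∑ a ∈ s, cl φ κ (F a) := by
  unfold cl
  rw [Finset.sum_comm]
  refine Finset.sum_congr rfl fun c _ => ?_
  rw [Finset.sum_apply]
  split_ifs
  · rfl
  · rw [Finset.sum_const_zero]

open Classical in
lemma cl_nsmul {C : Type v} [Group C] [Fintype C] (φ : C →* G) (κ : ConjClasses G) (n : ℕ)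
    (F : C → ℚ_[p]) : cl φ κ (n • F) = n • cl φ κ F := by
  unfold cl
  rw [Finset.smul_sum]
  refine Finset.sum_congr rfl fun c _ => ?_
  rw [Pi.smul_apply]
  split_ifs
  · rfl
  · rw [smul_zero]

open Classical in
lemma cl_wM (hL : SpecLP.{v}) (hp : p ≠ 2) {C D : Type v} [CommGroup C] [Fintype C]
    [CommGroup D] [Fintype D] (φ : C →* G) (f : D →* C) (hf : Function.Injective f)
    (κ : ConjClasses G) (z : W i D) :
    cl (φ.comp f) κ (LL i hL hp D z) = cl φ κ (LL i hL hp C (wM f z)) := by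
  unfold cl
  apply Finset.sum_of_injOn f
  · exact hf.injOn
  · intro d _
    exact Finset.mem_coe.2 (Finset.mem_univ _)
  · intro c _ hc
    rw [LL_wM_not hL hp f hf, ite_self]
    rintro ⟨d, hd⟩
    exact hc ⟨d, Finset.mem_coe.2 (Finset.mem_univ _), hd⟩
  · intro d _
    rw [LL_wM hL hp f hf]
    rfl

open Classical in
theorem main (hL : SpecLP.{v}) (hL2 : SpecL2P.{u, v}) (hp : p ≠ 2) (hi : Function.Injective i)
    {m : ℕ} (C : Fin m → Type v) [∀ j, CommGroup (C j)] [∀ j, Fintype (C j)]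
    (φ : ∀ j, C j →* G) (hφ : ∀ j, Function.Injective (φ j)) (x : ∀ j, W i (C j))
    (hx : ∀ κ : ConjClasses G, ∑ j, cl (φ j) κ (LL i hL hp (C j) (x j)) = 0) :
    ∃ (n : ℕ) (_ : 0 < n), n • ∑ j, thW (φ j) (x j) = 0 := by
  have : ∀ j, Fintype (Subgroup (C j)) := fun j => Fintype.ofFinite _
  choose M hM z hz hdec using fun j => dec hL hL2 hp hi (C j) (x j)
  set N := ∏ j, M j with hN
  have hNpos : 0 < N := Finset.prod_pos fun j _ => hM j
  have hdiv : ∀ j, N / M j * M j = N := fun j =>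
    Nat.div_mul_cancel (Finset.dvd_prod_of_mem _ (Finset.mem_univ j))
  let C' : (Σ j, Subgroup (C j)) → Type v := fun a => a.2
  let φ' : ∀ a, C' a →* G := fun a => (φ a.1).comp a.2.subtype
  let z' : ∀ a, W i (C' a) := fun a => (N / M a.1) • z a.1 a.2
  let iG : ∀ a, CommGroup (C' a) := fun a => inferInstanceAs (CommGroup a.2)
  let iF : ∀ a, Fintype (C' a) := fun a => Fintype.ofFinite _
  have hsum : ∀ j, ∑ D : Subgroup (C j), wM D.subtype (z' ⟨j, D⟩) = N • x j := by
    intro j
    have h1 : ∀ D ∈ (Finset.univ : Finset (Subgroup (C j))),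
        wM D.subtype (z' ⟨j, D⟩) = (N / M j) • wM D.subtype (z j D) := by
      intro D _
      exact map_nsmul (wM D.subtype) (N / M j) (z j D)
    rw [Finset.sum_congr rfl h1, Finset.sum_nsmul, ← hdec j, ← mul_nsmul', hdiv]
  have hA : ∀ a (c : C' a), Subgroup.zpowers c ≠ ⊤ → LL i hL hp (C' a) (z' a) c = 0 := by
    rintro ⟨j, D⟩ d hd
    show LL i hL hp D ((N / M j) • z j D) d = 0
    rw [map_nsmul, Pi.smul_apply, hz, if_neg hd, smul_zero]
  have hB : ∀ κ : ConjClasses G, ∑ a ∈ Finset.univ, cl (φ' a) κ (LL i hL hp (C' a) (z' a)) = 0 := by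
    intro κ
    rw [Fintype.sum_sigma]
    have h1 : ∀ j ∈ (Finset.univ : Finset (Fin m)),
        ∑ D : Subgroup (C j), cl (φ' ⟨j, D⟩) κ (LL i hL hp (C' ⟨j, D⟩) (z' ⟨j, D⟩)) =
          N • cl (φ j) κ (LL i hL hp (C j) (x j)) := by
      intro j _
      rw [← cl_nsmul, ← map_nsmul, ← hsum j, map_sum, cl_sum]
      refine Finset.sum_congr rfl fun D _ => ?_
      let _ : Fintype D := iF ⟨j, D⟩
      exact cl_wM hL hp (φ j) D.subtype D.subtype_injective κ (z' ⟨j, D⟩)
    rw [Finset.sum_congr rfl h1, ← Finset.smul_sum, hx, smul_zero]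
  obtain ⟨n, hn, h⟩ := orb (i := i) (G := G) hL hp hi C' φ'
    (fun a => (hφ a.1).comp a.2.subtype_injective) z' hA Finset.univ hB
  refine ⟨n * N, Nat.mul_pos hn hNpos, ?_⟩
  rw [mul_nsmul', Finset.smul_sum, ← h]
  congr 1
  rw [Fintype.sum_sigma]
  refine Finset.sum_congr rfl fun j _ => ?_
  rw [← map_nsmul, ← hsum j, map_sum]
  refine Finset.sum_congr rfl fun D _ => ?_
  exact thW_rel _ _ D.subtype 1 (fun c => by simp [φ']) (z' ⟨j, D⟩)

end F1

open Classical in
/-- Module F1. -/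
theorem specF1 (hL : SpecLP.{v}) (hL2 : SpecL2P.{u, v}) : SpecF1.{u, v} := by
  intro p _ hp R₀ _ i hi G _ m C hC _ x hx hsum
  let iG : ∀ j, CommGroup (C j).1 := fun j =>
    { (inferInstance : Group (C j).1) with
      mul_comm := by
        obtain ⟨g, hg⟩ := (hC j).exists_generator
        intro a b
        obtain ⟨k, rfl⟩ := hg a
        obtain ⟨l, rfl⟩ := hg b
        exact zpow_mul_comm g k l }
  have hF : ∀ j, Finite (C j).1 := fun j => (C j).2
  have hA : ∀ κ : ConjClasses G, ∑ j, F1.cl (C j).1.subtype κ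
      (F1.LL i hL hp (C j).1 (Additive.ofMul ⟨x j, hx j⟩)) = 0 := by
    intro κ
    have h1 := congrArg (fun F : ConjClasses G →₀ ℚ_[p] => F κ) hsum
    simp only [Finsupp.coe_zero, Pi.zero_apply, Finsupp.finsetSum_apply] at h1
    rw [← h1]
    refine Finset.sum_congr rfl fun j _ => ?_
    unfold pushQ F1.cl
    rw [Finsupp.finsetSum_apply]
    refine Finset.sum_congr rfl fun c _ => ?_
    rw [Finsupp.single_apply]
    rfl
  obtain ⟨n, hn, h⟩ := F1.main (i := i) (G := G) hL hL2 hp hi (fun j => ((C j).1 : Type v))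
    (fun j => (C j).1.subtype) (fun j => (C j).1.subtype_injective)
    (fun j => Additive.ofMul ⟨x j, hx j⟩) hA
  rw [isOfFinAddOrder_iff_nsmul_eq_zero]
  refine ⟨n, hn, ?_⟩
  rw [← h]
  congr 1
  refine Finset.sum_congr rfl fun j _ => ?_
  exact (F1.th_subtype (C j) (x j)).symm

end Pool.Agent.Lib.MPb6f35e.WH
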