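import Pool.Agent.Lib.MP_b6f35e_al.WH.F1a

/-!
# WH, module F1, part 2: logarithms of units, decomposition along the subgroups
(hive 30, MP_b6f35e_al)
-/

set_option autoImplicit false

noncomputable section

namespace Pool.Agent.Lib.MPb6f35e.WH

universe u v w

namespace F1

variable {p : ℕ} [Fact p.Prime] {R₀ : Type u} [CommRing R₀] (i : R₀ →+* ℤ_[p])

/-- The units of `R₀[C]` which are `1` modulo `p` in `ℤ_p[C]`. -/
def U1 (C : Type v) [Group C] : Subgroup (MonoidAlgebra R₀ C)ˣ where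
  carrier := {x | OneModP p (MonoidAlgebra.mapRingHom C i (x : MonoidAlgebra R₀ C))}
  one_mem' := ⟨0, by simp⟩
  mul_mem' := by
    rintro x y ⟨a, ha⟩ ⟨b, hb⟩
    refine ⟨a + b + (p : ℤ_[p]) • (a * b), ?_⟩
    rw [Units.val_mul, map_mul, ha, hb]
    simp only [mul_add, add_mul, one_mul, mul_one, smul_add, smul_mul_assoc, mul_smul_comm]
    abel
  inv_mem' := by
    rintro x ⟨a, ha⟩
    refine ⟨-(MonoidAlgebra.mapRingHom C i ((x⁻¹ : (MonoidAlgebra R₀ C)ˣ) : MonoidAlgebra R₀ C)
      * a), ?_⟩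
    have h : MonoidAlgebra.mapRingHom C i ((x⁻¹ : (MonoidAlgebra R₀ C)ˣ) : MonoidAlgebra R₀ C) *
        (1 + (p : ℤ_[p]) • a) = 1 := by
      rw [← ha, ← map_mul, Units.inv_mul, map_one]
    rw [mul_add, mul_one, mul_smul_comm] at h
    rw [smul_neg, ← sub_eq_add_neg, eq_sub_iff_add_eq]
    exact h

/-- The same group, written additively. -/
abbrev W (C : Type v) [Group C] : Type (max u v) := Additive (U1 i C)

/-- The underlying unit. -/
def W.val {i : R₀ →+* ℤ_[p]} {C : Type v} [Group C] (x : W i C) : (MonoidAlgebra R₀ C)ˣ :=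
  (x.toMul : (MonoidAlgebra R₀ C)ˣ)

/-- The logarithm. -/
def LL (hL : SpecLP.{v}) (hp : p ≠ 2) (C : Type v) [CommGroup C] : W i C →+ (C → ℚ_[p]) where
  toFun x := fun c => lgP p (MonoidAlgebra.mapRingHom C i (x.val : MonoidAlgebra R₀ C)) c
  map_zero' := by
    funext c
    have h := hL.mul p hp C (MonoidAlgebra.mapRingHom C i ((1 : (MonoidAlgebra R₀ C)ˣ) :
      MonoidAlgebra R₀ C)) (MonoidAlgebra.mapRingHom C i ((1 : (MonoidAlgebra R₀ C)ˣ) :
      MonoidAlgebra R₀ C)) (U1 i C).one_mem (U1 i C).one_mem c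
    rw [← map_mul, ← Units.val_mul, mul_one] at h
    exact left_eq_add.mp h
  map_add' x y := by
    funext c
    have h := hL.mul p hp C (MonoidAlgebra.mapRingHom C i (x.val : MonoidAlgebra R₀ C))
      (MonoidAlgebra.mapRingHom C i (y.val : MonoidAlgebra R₀ C)) x.toMul.2 y.toMul.2 c
    rw [← map_mul, ← Units.val_mul] at h
    exact h

variable {i}

lemma LL_inj (hL : SpecLP.{v}) (hp : p ≠ 2) (hi : Function.Injective i) {C : Type v}
    [CommGroup C] (x : W i C) (h : ∀ c, LL i hL hp C x c = 0) : x = 0 := by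
  have h1 := hL.inj p hp C (MonoidAlgebra.mapRingHom C i (x.val : MonoidAlgebra R₀ C)) x.toMul.2 h
  have h2 : Function.Injective (MonoidAlgebra.mapRingHom C i) := by
    intro a b hab
    ext c
    apply hi
    rw [← MonoidAlgebra.coeff_mapRingHom, ← MonoidAlgebra.coeff_mapRingHom, hab]
  have h3 : (x.val : MonoidAlgebra R₀ C) = 1 := by
    apply h2
    rw [h1, map_one]
  apply Additive.toMul.injective
  apply Subtype.ext
  apply Units.ext
  exact h3

lemma mapRing_mU {C C' : Type v} [Group C] [Group C'] (f : C →* C')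
    (x : (MonoidAlgebra R₀ C)ˣ) :
    MonoidAlgebra.mapRingHom C' i (mU R₀ f x : MonoidAlgebra R₀ C') =
      MonoidAlgebra.mapDomainRingHom ℤ_[p] f (MonoidAlgebra.mapRingHom C i
        (x : MonoidAlgebra R₀ C)) := by
  have h := MonoidAlgebra.mapRingHom_comp_mapDomainRingHom i f
  exact congrArg (fun F : MonoidAlgebra R₀ C →+* MonoidAlgebra ℤ_[p] C' => F x) h

lemma mem_U1_mU {C C' : Type v} [Group C] [Group C'] (f : C →* C') (x : U1 i C) :
    mU R₀ f x ∈ U1 i C' := by
  obtain ⟨a, ha⟩ := x.2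
  refine ⟨MonoidAlgebra.mapDomainRingHom ℤ_[p] f a, ?_⟩
  rw [mapRing_mU, ha, map_add, map_one]
  congr 1
  exact MonoidAlgebra.mapDomain_smul _ _ _

/-- functoriality -/
def wM {C C' : Type v} [Group C] [Group C'] (f : C →* C') : W i C →+ W i C' :=
  MonoidHom.toAdditive (((mU R₀ f).comp (U1 i C).subtype).codRestrict (U1 i C')
    (fun x => mem_U1_mU f x))

lemma wM_val {C C' : Type v} [Group C] [Group C'] (f : C →* C') (x : W i C) :
    (wM f x).val = mU R₀ f x.val := rfl

lemma LL_wM (hL : SpecLP.{v}) (hp : p ≠ 2) {C C' : Type v} [CommGroup C] [CommGroup C']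
    (f : C →* C') (hf : Function.Injective f) (x : W i C) (c : C) :
    LL i hL hp C' (wM f x) (f c) = LL i hL hp C x c := by
  show lgP p (MonoidAlgebra.mapRingHom C' i (mU R₀ f x.val : MonoidAlgebra R₀ C')) (f c) = _
  rw [mapRing_mU]
  exact (hL.map p hp C C' f hf _ x.toMul.2).1 c

lemma LL_wM_not (hL : SpecLP.{v}) (hp : p ≠ 2) {C C' : Type v} [CommGroup C] [CommGroup C']
    (f : C →* C') (hf : Function.Injective f) (x : W i C) (c' : C') (h : c' ∉ Set.range f) :
    LL i hL hp C' (wM f x) c' = 0 := by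
  show lgP p (MonoidAlgebra.mapRingHom C' i (mU R₀ f x.val : MonoidAlgebra R₀ C')) c' = _
  rw [mapRing_mU]
  exact (hL.map p hp C C' f hf _ x.toMul.2).2 c' h

lemma LL_norm (hL : SpecLP.{v}) (hL2 : SpecL2P.{u, v}) (hp : p ≠ 2) {C : Type v} [CommGroup C]
    [Finite C] (D : Subgroup C) (x : W i C) :
    ∃ y : W i D, ∀ d : D, LL i hL hp D y d = (D.index : ℚ_[p]) * LL i hL hp C x d := by
  obtain ⟨y, h1, h2⟩ := hL2 p hp R₀ i C D x.val x.toMul.2
  exact ⟨Additive.ofMul ⟨y, h1⟩, h2⟩

variable {G : Type v} [Group G]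

/-- The class in the colimit. -/
def thW {C : Type v} [Group C] [Finite C] (φ : C →* G) : W i C →+ ColimK1 R₀ G :=
  (th φ).comp (U1 i C).subtype.toAdditive

lemma thW_rel {C C' : Type v} [Group C] [Finite C] [Group C'] [Finite C'] (φ : C →* G)
    (φ' : C' →* G) (f : C →* C') (g : G) (h : ∀ c, φ' (f c) = g * φ c * g⁻¹) (x : W i C) :
    thW φ' (wM f x) = thW φ x :=
  th_rel φ φ' f g h x.val

/-! ### the part of a logarithm supported on the generators -/

open Classical in
lemma LL_sub (hL : SpecLP.{v}) (hp : p ≠ 2) {C : Type v} [CommGroup C] (D : Subgroup C)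
    (x : W i D) (c : C) :
    LL i hL hp C (wM D.subtype x) c = if h : c ∈ D then LL i hL hp D x ⟨c, h⟩ else 0 := by
  split_ifs with h
  · exact LL_wM hL hp D.subtype D.subtype_injective x ⟨c, h⟩
  · apply LL_wM_not hL hp D.subtype D.subtype_injective
    rintro ⟨d, rfl⟩
    exact h d.2

lemma zpowers_sub {C : Type v} [Group C] (D : Subgroup C) (c : C) (h : c ∈ D) :
    Subgroup.zpowers (⟨c, h⟩ : D) = ⊤ ↔ D = Subgroup.zpowers c := by
  constructor
  · intro h1
    apply le_antisymm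
    · intro d hd
      have h2 : (⟨d, hd⟩ : D) ∈ Subgroup.zpowers (⟨c, h⟩ : D) := by rw [h1]; trivial
      obtain ⟨k, hk⟩ := h2
      refine ⟨k, ?_⟩
      have := congrArg (Subtype.val) hk
      simpa using this
    · rwa [Subgroup.zpowers_le]
  · intro h1
    rw [eq_top_iff]
    rintro ⟨d, hd⟩ -
    have h2 : d ∈ Subgroup.zpowers c := h1 ▸ hd
    obtain ⟨k, hk⟩ := h2
    refine ⟨k, ?_⟩
    apply Subtype.ext
    simpa using hk

open Classical in
lemma LL_sub_gen (hL : SpecLP.{v}) (hp : p ≠ 2) {C : Type v} [CommGroup C] (D : Subgroup C)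
    (x : W i C) (N : ℕ) (z : W i D)
    (hz : ∀ d : D, LL i hL hp D z d =
      if Subgroup.zpowers d = ⊤ then (N : ℚ_[p]) * LL i hL hp C x d else 0) (c : C) :
    LL i hL hp C (wM D.subtype z) c =
      if D = Subgroup.zpowers c then (N : ℚ_[p]) * LL i hL hp C x c else 0 := by
  rw [LL_sub]
  by_cases h : c ∈ D
  · rw [dif_pos h, hz, zpowers_sub D c h]
  · rw [dif_neg h, if_neg]
    rintro rfl
    exact h (Subgroup.mem_zpowers c)

open Classical in
theorem gen (hL : SpecLP.{v}) (hL2 : SpecL2P.{u, v}) (hp : p ≠ 2) (n : ℕ) :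
    ∀ (C : Type v) [CommGroup C] [Finite C] (_ : Nat.card C = n) (x : W i C),
    ∃ (M : ℕ) (_ : 0 < M) (z : W i C), ∀ c, LL i hL hp C z c =
      if Subgroup.zpowers c = ⊤ then (M : ℚ_[p]) * LL i hL hp C x c else 0 := by
  induction n using Nat.strong_induction_on with
  | _ n ih =>
    intro C _ _ hn x
    have key : ∀ D : Subgroup C, ∃ (N : ℕ) (_ : 0 < N) (z : W i D), D ≠ ⊤ → ∀ d : D,
        LL i hL hp D z d = if Subgroup.zpowers d = ⊤ then (N : ℚ_[p]) * LL i hL hp C x d
          else 0 := by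
      intro D
      by_cases hD : D = ⊤
      · exact ⟨1, one_pos, 0, fun h => absurd hD h⟩
      · obtain ⟨y, hy⟩ := LL_norm hL hL2 hp D x
        have hlt : Nat.card D < n := by
          rw [← hn]
          refine lt_of_le_of_ne (Subgroup.card_le_card_group D) ?_
          intro h
          exact hD (Subgroup.eq_top_of_card_eq D h)
        obtain ⟨M, hM, z, hz⟩ := ih _ hlt D rfl y
        have hidx : 0 < D.index := Nat.pos_of_ne_zero Subgroup.index_ne_zero_of_finite
        refine ⟨M * D.index, Nat.mul_pos hM hidx, z, fun _ d => ?_⟩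
        rw [hz, hy]
        split_ifs
        · push_cast; ring
        · rfl
    choose N hN z hz using key
    have : Fintype (Subgroup C) := Fintype.ofFinite _
    refine ⟨∏ D, N D, Finset.prod_pos fun D _ => hN D,
      (∏ D, N D) • x - ∑ D ∈ Finset.univ.filter (fun D : Subgroup C => D ≠ ⊤),
        ((∏ D, N D) / N D) • wM D.subtype (z D), fun c => ?_⟩
    rw [map_sub, map_nsmul, map_sum, Pi.sub_apply, Pi.smul_apply, Finset.sum_apply]
    have h1 : ∀ D ∈ Finset.univ.filter (fun D : Subgroup C => D ≠ ⊤),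
        LL i hL hp C (((∏ D, N D) / N D) • wM D.subtype (z D)) c =
          if D = Subgroup.zpowers c then ((∏ D, N D : ℕ) : ℚ_[p]) * LL i hL hp C x c else 0 := by
      intro D hD
      have hD' : D ≠ ⊤ := (Finset.mem_filter.1 hD).2
      rw [map_nsmul, Pi.smul_apply, LL_sub_gen hL hp D x (N D) (z D) (hz D hD') c]
      split_ifs with h
      · rw [nsmul_eq_mul, ← mul_assoc, ← Nat.cast_mul,
          Nat.div_mul_cancel (Finset.dvd_prod_of_mem _ (Finset.mem_univ D))]
      · rw [smul_zero]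
    rw [Finset.sum_congr rfl h1]
    by_cases hc : Subgroup.zpowers c = ⊤
    · rw [if_pos hc, Finset.sum_eq_zero, sub_zero, nsmul_eq_mul]
      intro D hD
      have hD' : D ≠ ⊤ := (Finset.mem_filter.1 hD).2
      rw [if_neg]
      rw [hc]
      exact hD'
    · rw [if_neg hc, Finset.sum_eq_single (Subgroup.zpowers c), if_pos rfl, nsmul_eq_mul, sub_self]
      · intro D _ hD
        rw [if_neg hD]
      · intro h
        exact absurd (Finset.mem_filter.2 ⟨Finset.mem_univ (Subgroup.zpowers c), hc⟩) h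

open Classical in
/-- Decomposition along the subgroups. -/
theorem dec (hL : SpecLP.{v}) (hL2 : SpecL2P.{u, v}) (hp : p ≠ 2) (hi : Function.Injective i)
    (C : Type v) [CommGroup C] [Finite C] [Fintype (Subgroup C)] (x : W i C) :
    ∃ (M : ℕ) (_ : 0 < M) (z : ∀ D : Subgroup C, W i D),
      (∀ (D : Subgroup C) (d : D), LL i hL hp D (z D) d =
        if Subgroup.zpowers d = ⊤ then (M : ℚ_[p]) * LL i hL hp C x d else 0) ∧
      M • x = ∑ D, wM D.subtype (z D) := by
  have key : ∀ D : Subgroup C, ∃ (N : ℕ) (_ : 0 < N) (z : W i D), ∀ d : D,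
      LL i hL hp D z d = if Subgroup.zpowers d = ⊤ then (N : ℚ_[p]) * LL i hL hp C x d
        else 0 := by
    intro D
    obtain ⟨y, hy⟩ := LL_norm hL hL2 hp D x
    obtain ⟨M, hM, z, hz⟩ := gen hL hL2 hp _ D rfl y
    have hidx : 0 < D.index := Nat.pos_of_ne_zero Subgroup.index_ne_zero_of_finite
    refine ⟨M * D.index, Nat.mul_pos hM hidx, z, fun d => ?_⟩
    rw [hz, hy]
    split_ifs
    · push_cast; ring
    · rfl
  choose N hN z hz using key
  have hz' : ∀ (D : Subgroup C) (d : D),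
      LL i hL hp D (((∏ D, N D) / N D) • z D) d =
        if Subgroup.zpowers d = ⊤ then ((∏ D, N D : ℕ) : ℚ_[p]) * LL i hL hp C x d else 0 := by
    intro D d
    rw [map_nsmul, Pi.smul_apply, hz]
    split_ifs with h
    · rw [nsmul_eq_mul, ← mul_assoc, ← Nat.cast_mul,
        Nat.div_mul_cancel (Finset.dvd_prod_of_mem _ (Finset.mem_univ D))]
    · rw [smul_zero]
  refine ⟨∏ D, N D, Finset.prod_pos fun D _ => hN D, fun D => ((∏ D, N D) / N D) • z D, hz', ?_⟩
  rw [← sub_eq_zero]
  apply LL_inj hL hp hi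
  intro c
  rw [map_sub, map_nsmul, map_sum, Pi.sub_apply, Pi.smul_apply, Finset.sum_apply]
  have h1 : ∀ D ∈ (Finset.univ : Finset (Subgroup C)),
      LL i hL hp C (wM D.subtype (((∏ D, N D) / N D) • z D)) c =
        if D = Subgroup.zpowers c then ((∏ D, N D : ℕ) : ℚ_[p]) * LL i hL hp C x c else 0 :=
    fun D _ => LL_sub_gen hL hp D x _ _ (hz' D) c
  rw [Finset.sum_congr rfl h1, Finset.sum_ite_eq', if_pos (Finset.mem_univ _), nsmul_eq_mul,
    sub_self]

end F1

end Pool.Agent.Lib.MPb6f35e.WH
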