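import Pool.Agent.Lib.MP_b6f35e_al.WH.Spec

/-! # WH, module G, part 1: `Γ` on `GL_ι(k[G])` -/

set_option autoImplicit false

noncomputable section

namespace Pool.Agent.Lib.MPb6f35e.WH

universe u v w

lemma iter_add {R : Type v} [Ring R] (ρ : R →+* R) (j : ℕ) (x y : R) :
    ρ^[j] (x + y) = ρ^[j] x + ρ^[j] y := iterate_map_add ρ j x y

lemma iter_mul {R : Type v} [Ring R] (ρ : R →+* R) (j : ℕ) (x y : R) :
    ρ^[j] (x * y) = ρ^[j] x * ρ^[j] y := iterate_map_mul ρ j x y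

lemma iter_fix {R : Type v} [Ring R] (ρ : R →+* R) (j : ℕ) (x : R) (h : ρ x = x) :
    ρ^[j] x = x := Function.iterate_fixed h j

lemma nm_mul_fix {R : Type v} [Ring R] (ρ : R →+* R) (N : ℕ) (y c : R) (h : ρ c = c) :
    nm ρ N (y * c) = nm ρ N y * c := by
  unfold nm
  rw [Finset.sum_mul]
  refine Finset.sum_congr rfl fun j _ => ?_
  rw [iter_mul, iter_fix ρ j c h]

/-- The data used to define `Γ` in one size. -/
structure Pk (k : Type u) [CommRing k] (p : ℕ) : Prop where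
  prime : p.Prime
  odd : p ≠ 2
  tf : ∀ c : k, (p : k) * c = 0 → c = 0
  frob : ∀ c : k, (p : k) ∣ c ^ p - c

section core

variable {k : Type u} [CommRing k] {G : Type v} [Group G] {ι : Type} [Fintype ι] [DecidableEq ι]
  {p e : ℕ} [NeZero (p ^ e)] [NeZero (p ^ (e + 1))]

/-- `tens` as a monoid homomorphism. -/
def tensHom (hT : SpecT.{u, v}) (k : Type u) [CommRing k] (G : Type v) [Group G] (ι : Type)
    [Fintype ι] [DecidableEq ι] (N : ℕ) [NeZero N] :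
    Matrix ι ι (MonoidAlgebra k G) →* TR k G ι N where
  toFun := tens k G ι N
  map_one' := hT.tensOne k G ι N
  map_mul' := hT.tensMul k G ι N

/-- `dhat` as a monoid homomorphism. -/
def dhatHom (hT : SpecT.{u, v}) (k : Type u) [CommRing k] (G : Type v) [Group G] (ι : Type)
    [Fintype ι] [DecidableEq ι] (p e : ℕ) [NeZero (p ^ e)] [NeZero (p ^ (e + 1))] :
    Matrix ι ι (MonoidAlgebra k G) →* TR k G ι (p ^ (e + 1)) where
  toFun := dhat k G ι p e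
  map_one' := hT.dhatOne k G ι p e
  map_mul' := hT.dhatMul k G ι p e

/-- `r_u = T(u) D^(u)⁻¹` -/
def ru (hT : SpecT.{u, v}) (p e : ℕ) [NeZero (p ^ e)] [NeZero (p ^ (e + 1))]
    (x : (Matrix ι ι (MonoidAlgebra k G))ˣ) : (TR k G ι (p ^ (e + 1)))ˣ :=
  Units.map (tensHom hT k G ι (p ^ (e + 1))) x * (Units.map (dhatHom hT k G ι p e) x)⁻¹

lemma ru_coe (hT : SpecT.{u, v}) (x : (Matrix ι ι (MonoidAlgebra k G))ˣ) :
    (ru hT p e x : TR k G ι (p ^ (e + 1))) =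
      tens k G ι (p ^ (e + 1)) x * dhat k G ι p e ((x⁻¹ : (Matrix ι ι (MonoidAlgebra k G))ˣ)) := by
  rw [ru, ← map_inv]
  rfl

lemma ru_inv_coe (hT : SpecT.{u, v}) (x : (Matrix ι ι (MonoidAlgebra k G))ˣ) :
    (((ru hT p e x)⁻¹ : (TR k G ι (p ^ (e + 1)))ˣ) : TR k G ι (p ^ (e + 1))) =
      dhat k G ι p e x * tens k G ι (p ^ (e + 1)) ((x⁻¹ : (Matrix ι ι (MonoidAlgebra k G))ˣ)) := by
  rw [ru, mul_inv_rev, inv_inv, ← map_inv]
  rfl

lemma ru_mul (hT : SpecT.{u, v}) (x y : (Matrix ι ι (MonoidAlgebra k G))ˣ) :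
    ru hT p e (x * y) =
      (Units.map (tensHom hT k G ι (p ^ (e + 1))) x * ru hT p e y *
        (Units.map (tensHom hT k G ι (p ^ (e + 1))) x)⁻¹) * ru hT p e x := by
  simp only [ru, map_mul, mul_inv_rev]
  group

lemma ru_norm (hT : SpecT.{u, v}) (hN : SpecN.{u, v}) (hk : Pk k p)
    (x : (Matrix ι ι (MonoidAlgebra k G))ˣ) :
    ∃ y, nm (rot k G ι (p ^ (e + 1))) (p ^ (e + 1)) y =
      (ru hT p e x : TR k G ι (p ^ (e + 1))) - 1 := by
  have : Fact p.Prime := ⟨hk.prime⟩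
  obtain ⟨z, hz⟩ := hN.norm k G ι p e hk.frob (x : Matrix ι ι (MonoidAlgebra k G))
  refine ⟨z * dhat k G ι p e ((x⁻¹ : (Matrix ι ι (MonoidAlgebra k G))ˣ)), ?_⟩
  rw [nm_mul_fix _ _ _ _ (hT.rotDhat k G ι p e _), hz, sub_mul, ← hT.dhatMul, ru_coe]
  simp [hT.dhatOne]

/-- `Γ` in one size. -/
def gam (hT : SpecT.{u, v}) (hN : SpecN.{u, v}) (hk : Pk k p)
    (x : (Matrix ι ι (MonoidAlgebra k G))ˣ) : HN k G (p ^ (e + 1)) :=
  lam (rot k G ι (p ^ (e + 1))) (p ^ (e + 1)) (tau k G ι (p ^ (e + 1))) (ru hT p e x)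
    (ru_norm (e := e) hT hN hk x).choose

lemma HN_tors (N : ℕ) (h : HN k G N) : N • h = 0 := by
  ext c
  rw [Finsupp.smul_apply, Finsupp.zero_apply, nsmul_eq_mul]
  have : ((N : ℕ) : k ⧸ Ideal.span {(N : k)}) = 0 := by
    rw [← map_natCast (Ideal.Quotient.mk (Ideal.span {(N : k)})), Ideal.Quotient.eq_zero_iff_mem]
    exact Ideal.subset_span rfl
  rw [this, zero_mul]

lemma gam_eq (hA : SpecA.{max u v, max u v}) (hT : SpecT.{u, v}) (hN : SpecN.{u, v}) (hk : Pk k p)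
    (x : (Matrix ι ι (MonoidAlgebra k G))ˣ) (y : TR k G ι (p ^ (e + 1)))
    (hy : nm (rot k G ι (p ^ (e + 1))) (p ^ (e + 1)) y =
      (ru hT p e x : TR k G ι (p ^ (e + 1))) - 1) :
    gam hT hN hk x = lam (rot k G ι (p ^ (e + 1))) (p ^ (e + 1)) (tau k G ι (p ^ (e + 1)))
      (ru hT p e x) y := by
  have : Fact p.Prime := ⟨hk.prime⟩
  exact hA.indep _ _ _ _ (Nat.pos_of_ne_zero (NeZero.ne _)) (hT.rotN k G ι _) (HN_tors _) _
    (hT.tauRot k G ι _) (hN.ker k G ι p (e + 1) hk.tf) _ _ _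
    (ru_norm (e := e) hT hN hk x).choose_spec hy

lemma gam_mul (hA : SpecA.{max u v, max u v}) (hT : SpecT.{u, v}) (hN : SpecN.{u, v}) (hk : Pk k p)
    (x y : (Matrix ι ι (MonoidAlgebra k G))ˣ) :
    gam (e := e) hT hN hk (x * y) = gam hT hN hk x + gam hT hN hk y := by
  obtain ⟨a, ha⟩ := ru_norm (e := e) hT hN hk x
  obtain ⟨b, hb⟩ := ru_norm (e := e) hT hN hk y
  have h1 := hA.conj (TR k G ι (p ^ (e + 1))) (HN k G (p ^ (e + 1))) (rot k G ι (p ^ (e + 1)))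
    (p ^ (e + 1)) (Nat.pos_of_ne_zero (NeZero.ne _))
    (hT.rotN k G ι _) (HN_tors _) (tau k G ι (p ^ (e + 1))) (hT.tauRot k G ι _) (ru hT p e y)
    (Units.map (tensHom hT k G ι (p ^ (e + 1))) x) b hb (hT.rotTens k G ι _ _)
  have h2 := hA.mul (TR k G ι (p ^ (e + 1))) (HN k G (p ^ (e + 1))) (rot k G ι (p ^ (e + 1)))
    (p ^ (e + 1)) (Nat.pos_of_ne_zero (NeZero.ne _))
    (hT.rotN k G ι _) (HN_tors _) (tau k G ι (p ^ (e + 1))) (hT.tauRot k G ι _) _ (ru hT p e x)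
    _ a h1.1 ha
  rw [← ru_mul] at h2
  rw [gam_eq hA hT hN hk (x * y) _ h2.1, h2.2, h1.2, gam_eq hA hT hN hk x a ha,
    gam_eq hA hT hN hk y b hb]
  exact add_comm _ _

end core

end Pool.Agent.Lib.MPb6f35e.WH
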