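import Pool.Agent.Lib.MP_b6f35e_al.WH.GBlock

/-! # WH, module G, part 3: `Γ` on `K_1` -/

set_option autoImplicit false
set_option linter.unusedSectionVars false

noncomputable section

namespace Pool.Agent.Lib.MPb6f35e.WH

universe u v w

variable {k : Type u} [CommRing k] {G : Type v} [Group G] {ι κ : Type} [Fintype ι] [DecidableEq ι]
  [Fintype κ] [DecidableEq κ] {p e : ℕ} [NeZero (p ^ e)] [NeZero (p ^ (e + 1))]

/-! ### block matrices over a general ring -/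

section Aux

variable {R : Type w} [Ring R]

lemma gk1_diag (x xi : Matrix ι ι R) (y yi : Matrix κ κ R) (hx : x * xi = 1) (hy : y * yi = 1) :
    Matrix.fromBlocks x 0 0 y * Matrix.fromBlocks xi 0 0 yi = 1 := by
  rw [Matrix.fromBlocks_multiply, hx, hy]
  simp

lemma gk1_uni (b c : Matrix ι κ R) (h : c + b = 0) :
    Matrix.fromBlocks (1 : Matrix ι ι R) b 0 (1 : Matrix κ κ R) *
      Matrix.fromBlocks (1 : Matrix ι ι R) c 0 (1 : Matrix κ κ R) = 1 := by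
  rw [Matrix.fromBlocks_multiply, Matrix.mul_zero, Matrix.zero_mul, Matrix.zero_mul, Matrix.mul_one,
    Matrix.mul_one, Matrix.one_mul, Matrix.mul_one, Matrix.mul_zero, add_zero, add_zero, zero_add, h,
    Matrix.fromBlocks_one]

lemma gk1_sgn : Matrix.fromBlocks (1 : Matrix ι ι R) 0 0 (-1 : Matrix κ κ R) *
      Matrix.fromBlocks (1 : Matrix ι ι R) 0 0 (-1 : Matrix κ κ R) = 1 :=
  gk1_diag 1 1 (-1) (-1) (Matrix.mul_one 1) (by rw [Matrix.neg_mul, Matrix.one_mul, neg_neg])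

lemma gk1_conj (b : Matrix ι κ R) :
    Matrix.fromBlocks (1 : Matrix ι ι R) b 0 (1 : Matrix κ κ R) *
      (Matrix.fromBlocks (1 : Matrix ι ι R) 0 0 (-1 : Matrix κ κ R) *
        Matrix.fromBlocks (1 : Matrix ι ι R) b 0 (1 : Matrix κ κ R) *
        Matrix.fromBlocks (1 : Matrix ι ι R) 0 0 (-1 : Matrix κ κ R)) = 1 := by
  rw [Matrix.fromBlocks_multiply, Matrix.fromBlocks_multiply, Matrix.fromBlocks_multiply]
  simp

lemma gk1_fac (x : Matrix ι ι R) (y yi : Matrix κ κ R) (b : Matrix ι κ R) (hy : yi * y = 1) :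
    Matrix.fromBlocks x b 0 y = Matrix.fromBlocks (1 : Matrix ι ι R) (b * yi) 0 (1 : Matrix κ κ R) *
      Matrix.fromBlocks x 0 0 y := by
  rw [Matrix.fromBlocks_multiply, Matrix.mul_assoc b yi y, hy]
  simp

lemma gk1_off (x : Matrix ι ι R) (y : Matrix κ κ R) (i j : ι ⊕ κ) (h : Sum.isLeft i ≠ Sum.isLeft j) :
    Matrix.fromBlocks x 0 0 y i j = 0 := by
  rcases i with i | i <;> rcases j with j | j
  · exact absurd rfl h
  · rfl
  · rfl
  · exact absurd rfl h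

lemma gk1_reindex {m n : ℕ} (M : Matrix (Fin m ⊕ Fin n) (Fin m ⊕ Fin n) R)
    (w : Matrix (Fin (m + n)) (Fin (m + n)) R)
    (h : w = Matrix.reindex finSumFinEquiv finSumFinEquiv M) :
    Matrix.reindex finSumFinEquiv.symm finSumFinEquiv.symm w = M := by
  rw [h]
  ext1 i j
  simp

end Aux

/-! ### reindexing -/

lemma tau_equiv (f : κ ≃ ι) {N : ℕ} [NeZero N] (a : TR k G ι N) :
    tau k G κ N (sb f a) = tau k G ι N a := by
  show ∑ I : ZMod N → κ, cycHom k G N (a (fun j => f (I j)) (fun j => f (sh I j))) =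
    ∑ I : ZMod N → ι, cycHom k G N (a I (sh I))
  exact Fintype.sum_equiv (Equiv.arrowCongr (Equiv.refl _) f) _ _ (fun I => rfl)

lemma closedR_equiv (f : κ ≃ ι) {N : ℕ} (a : TR k G ι N) : ClosedR f a := by
  intro I J h
  exact absurd ⟨fun j => f.symm (J j), funext fun j => (f.apply_symm_apply (J j)).symm⟩ h

lemma gam_reindex (hA : SpecA.{max u v, max u v}) (hT : SpecT.{u, v}) (hN : SpecN.{u, v})
    (hk : Pk k p) (f : κ ≃ ι) (x : (Matrix ι ι (MonoidAlgebra k G))ˣ)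
    (y : (Matrix κ κ (MonoidAlgebra k G))ˣ)
    (hy : (y : Matrix κ κ (MonoidAlgebra k G)) = (x : Matrix ι ι (MonoidAlgebra k G)).submatrix f f) :
    gam (e := e) hT hN hk y = gam hT hN hk x := by
  obtain ⟨a, ha⟩ := ru_norm (e := e) hT hN hk x
  have hyi : ((y⁻¹ : (Matrix κ κ (MonoidAlgebra k G))ˣ) : Matrix κ κ (MonoidAlgebra k G)) =
      ((x⁻¹ : (Matrix ι ι (MonoidAlgebra k G))ˣ) : Matrix ι ι (MonoidAlgebra k G)).submatrix f f := by
    have h1 : (y : Matrix κ κ (MonoidAlgebra k G)) *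
        ((x⁻¹ : (Matrix ι ι (MonoidAlgebra k G))ˣ) : Matrix ι ι (MonoidAlgebra k G)).submatrix f f
        = 1 := by
      rw [hy, Matrix.submatrix_mul_equiv, Units.mul_inv, Matrix.submatrix_one_equiv]
    exact (Units.inv_eq_of_mul_eq_one_right h1)
  have hr : sb f (ru hT p e x : TR k G ι (p ^ (e + 1))) = ru hT p e y := by
    rw [ru_coe, ru_coe, sb_mul f.injective _ _ (closedR_equiv f _), sb_tens, sb_dhat f.injective,
      ← hy, ← hyi]
  have hri : sb f (((ru hT p e x)⁻¹ : (TR k G ι (p ^ (e + 1)))ˣ) : TR k G ι (p ^ (e + 1))) =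
      (((ru hT p e y)⁻¹ : (TR k G κ (p ^ (e + 1)))ˣ) : TR k G κ (p ^ (e + 1))) := by
    rw [ru_inv_coe, ru_inv_coe, sb_mul f.injective _ _ (closedR_equiv f _), sb_tens,
      sb_dhat f.injective, ← hy, ← hyi]
  have ha' : nm (rot k G κ (p ^ (e + 1))) (p ^ (e + 1)) (sb f a) =
      (ru hT p e y : TR k G κ (p ^ (e + 1))) - 1 := by
    rw [← sb_nm, ha, sb_sub, hr, sb_one f.injective]
  rw [gam_eq hA hT hN hk y _ ha', gam_eq hA hT hN hk x _ ha, lam, lam, ← hri, ← tau_equiv f,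
    sb_mul f.injective _ _ (closedR_equiv f _), sb_mul f.injective _ _ (closedR_equiv f _), sb_sub,
    sb_one f.injective, sb_pp]

/-! ### direct sums -/

/-- the partition of `ι ⊕ κ` -/
def tS : ι ⊕ κ → Bool := Sum.isLeft

lemma img_inl {N : ℕ} (J : ZMod N → ι ⊕ κ) (h : ∀ j, tS (J j) = true) :
    ∃ J₁ : ZMod N → ι, J = fun j => Sum.inl (J₁ j) := by
  have h2 : ∀ j, ∃ i, J j = Sum.inl i := fun j => Sum.isLeft_iff.1 (h j)
  choose J₁ hJ using h2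
  exact ⟨J₁, funext hJ⟩

lemma img_inr {N : ℕ} (J : ZMod N → ι ⊕ κ) (h : ∀ j, tS (J j) = false) :
    ∃ J₁ : ZMod N → κ, J = fun j => Sum.inr (J₁ j) := by
  have h2 : ∀ j, ∃ i, J j = Sum.inr i := by
    intro j
    have := h j
    rcases hj : J j with i | i
    · rw [hj] at this; exact absurd this (by simp [tS])
    · exact ⟨i, rfl⟩
  choose J₁ hJ using h2
  exact ⟨J₁, funext hJ⟩

lemma closedR_inl {N : ℕ} {a : TR k G (ι ⊕ κ) N} (ha : BD tS a) :
    ClosedR (Sum.inl : ι → ι ⊕ κ) a := by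
  intro I J h
  apply ha
  intro h'
  exact h (img_inl J fun j => (congrFun h' j).symm)

lemma closedR_inr {N : ℕ} {a : TR k G (ι ⊕ κ) N} (ha : BD tS a) :
    ClosedR (Sum.inr : κ → ι ⊕ κ) a := by
  intro I J h
  apply ha
  intro h'
  exact h (img_inr J fun j => (congrFun h' j).symm)

lemma tau_BD {N : ℕ} [NeZero N] {a : TR k G (ι ⊕ κ) N} (ha : BD tS a) :
    tau k G (ι ⊕ κ) N a = tau k G ι N (sb Sum.inl a) + tau k G κ N (sb Sum.inr a) := by
  show ∑ I : ZMod N → ι ⊕ κ, cycHom k G N (a I (sh I)) =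
    ∑ I : ZMod N → ι, cycHom k G N (a (fun j => Sum.inl (I j)) (fun j => Sum.inl (sh I j))) +
    ∑ I : ZMod N → κ, cycHom k G N (a (fun j => Sum.inr (I j)) (fun j => Sum.inr (sh I j)))
  refine Eq.trans ?_ (Fintype.sum_sum_type (fun z : (ZMod N → ι) ⊕ (ZMod N → κ) => Sum.elim
    (fun I : ZMod N → ι => cycHom k G N (a (fun j => Sum.inl (I j)) (fun j => Sum.inl (sh I j))))
    (fun I : ZMod N → κ => cycHom k G N (a (fun j => Sum.inr (I j)) (fun j => Sum.inr (sh I j)))) z))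
  symm
  refine Fintype.sum_of_injective (Sum.elim (fun I j => Sum.inl (I j)) (fun I j => Sum.inr (I j)))
    ?_ _ _ ?_ ?_
  · rintro (I | I) (J | J) h
    · exact congrArg _ (comp_inj Sum.inl_injective h)
    · exact absurd (congrFun h 0) (by simp)
    · exact absurd (congrFun h 0) (by simp)
    · exact congrArg _ (comp_inj Sum.inr_injective h)
  · intro I hI
    rw [ha I (sh I), map_zero]
    intro h
    have hc := const_of_shift (fun j => tS (I j)) (fun j => congrFun h j)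
    rcases h0 : (tS (I 0) : Bool) with _ | _
    · obtain ⟨J₁, hJ⟩ := img_inr I fun j => (hc j).trans h0
      exact hI ⟨Sum.inr J₁, hJ.symm⟩
    · obtain ⟨J₁, hJ⟩ := img_inl I fun j => (hc j).trans h0
      exact hI ⟨Sum.inl J₁, hJ.symm⟩
  · rintro (I | I) <;> rfl

lemma gam_sum (hA : SpecA.{max u v, max u v}) (hT : SpecT.{u, v}) (hN : SpecN.{u, v})
    (hk : Pk k p) (x : (Matrix ι ι (MonoidAlgebra k G))ˣ) (y : (Matrix κ κ (MonoidAlgebra k G))ˣ)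
    (z : (Matrix (ι ⊕ κ) (ι ⊕ κ) (MonoidAlgebra k G))ˣ)
    (hz : (z : Matrix (ι ⊕ κ) (ι ⊕ κ) (MonoidAlgebra k G)) =
      Matrix.fromBlocks (x : Matrix ι ι (MonoidAlgebra k G)) 0 0
        (y : Matrix κ κ (MonoidAlgebra k G))) :
    gam (e := e) hT hN hk z = gam hT hN hk x + gam hT hN hk y := by
  obtain ⟨a, ha⟩ := ru_norm (e := e) hT hN hk z
  have hzi : ((z⁻¹ : (Matrix (ι ⊕ κ) (ι ⊕ κ) (MonoidAlgebra k G))ˣ) :
      Matrix (ι ⊕ κ) (ι ⊕ κ) (MonoidAlgebra k G)) =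
      Matrix.fromBlocks ((x⁻¹ : (Matrix ι ι (MonoidAlgebra k G))ˣ) :
        Matrix ι ι (MonoidAlgebra k G)) 0 0
        ((y⁻¹ : (Matrix κ κ (MonoidAlgebra k G))ˣ) : Matrix κ κ (MonoidAlgebra k G)) := by
    apply Units.inv_eq_of_mul_eq_one_right
    rw [hz]
    exact gk1_diag _ _ _ _ x.mul_inv y.mul_inv
  have hb1 : ∀ i j : ι ⊕ κ, tS i ≠ tS j →
      (z : Matrix (ι ⊕ κ) (ι ⊕ κ) (MonoidAlgebra k G)) i j = 0 := by
    intro i j h
    rw [hz]
    exact gk1_off _ _ i j h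
  have hb2 : ∀ i j : ι ⊕ κ, tS i ≠ tS j →
      ((z⁻¹ : (Matrix (ι ⊕ κ) (ι ⊕ κ) (MonoidAlgebra k G))ˣ) :
        Matrix (ι ⊕ κ) (ι ⊕ κ) (MonoidAlgebra k G)) i j = 0 := by
    intro i j h
    rw [hzi]
    exact gk1_off _ _ i j h
  have hr : BD tS (ru hT p e z : TR k G (ι ⊕ κ) (p ^ (e + 1))) := by
    rw [ru_coe]; exact BD_mul _ (BD_tens _ hb1) (BD_dhat _ hb2)
  have hri : BD tS (((ru hT p e z)⁻¹ : (TR k G (ι ⊕ κ) (p ^ (e + 1)))ˣ) :
      TR k G (ι ⊕ κ) (p ^ (e + 1))) := by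
    rw [ru_inv_coe]; exact BD_mul _ (BD_dhat _ hb1) (BD_tens _ hb2)
  have ha' : nm (rot k G (ι ⊕ κ) (p ^ (e + 1))) (p ^ (e + 1)) (tr tS a) =
      (ru hT p e z : TR k G (ι ⊕ κ) (p ^ (e + 1))) - 1 := by
    rw [← tr_nm, ha, tr_of_BD _ (BD_sub _ hr (BD_one _))]
  have hBa : BD tS (tr tS a) := BD_tr _ a
  have hx : (z : Matrix (ι ⊕ κ) (ι ⊕ κ) (MonoidAlgebra k G)).submatrix Sum.inl Sum.inl =
      (x : Matrix ι ι (MonoidAlgebra k G)) := by rw [hz]; rfl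
  have hy : (z : Matrix (ι ⊕ κ) (ι ⊕ κ) (MonoidAlgebra k G)).submatrix Sum.inr Sum.inr =
      (y : Matrix κ κ (MonoidAlgebra k G)) := by rw [hz]; rfl
  have hxi : ((z⁻¹ : (Matrix (ι ⊕ κ) (ι ⊕ κ) (MonoidAlgebra k G))ˣ) :
      Matrix (ι ⊕ κ) (ι ⊕ κ) (MonoidAlgebra k G)).submatrix Sum.inl Sum.inl =
      ((x⁻¹ : (Matrix ι ι (MonoidAlgebra k G))ˣ) : Matrix ι ι (MonoidAlgebra k G)) := by
    rw [hzi]; rfl
  have hyi : ((z⁻¹ : (Matrix (ι ⊕ κ) (ι ⊕ κ) (MonoidAlgebra k G))ˣ) :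
      Matrix (ι ⊕ κ) (ι ⊕ κ) (MonoidAlgebra k G)).submatrix Sum.inr Sum.inr =
      ((y⁻¹ : (Matrix κ κ (MonoidAlgebra k G))ˣ) : Matrix κ κ (MonoidAlgebra k G)) := by
    rw [hzi]; rfl
  -- the four restrictions
  have e1 : sb Sum.inl (ru hT p e z : TR k G (ι ⊕ κ) (p ^ (e + 1))) = ru hT p e x := by
    rw [ru_coe, ru_coe, sb_mul Sum.inl_injective _ _ (closedR_inl (BD_tens _ hb1)), sb_tens,
      sb_dhat Sum.inl_injective, hx, hxi]
  have e2 : sb Sum.inr (ru hT p e z : TR k G (ι ⊕ κ) (p ^ (e + 1))) = ru hT p e y := by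
    rw [ru_coe, ru_coe, sb_mul Sum.inr_injective _ _ (closedR_inr (BD_tens _ hb1)), sb_tens,
      sb_dhat Sum.inr_injective, hy, hyi]
  have e3 : sb Sum.inl (((ru hT p e z)⁻¹ : (TR k G (ι ⊕ κ) (p ^ (e + 1)))ˣ) :
      TR k G (ι ⊕ κ) (p ^ (e + 1))) =
      (((ru hT p e x)⁻¹ : (TR k G ι (p ^ (e + 1)))ˣ) : TR k G ι (p ^ (e + 1))) := by
    rw [ru_inv_coe, ru_inv_coe, sb_mul Sum.inl_injective _ _ (closedR_inl (BD_dhat _ hb1)), sb_tens,
      sb_dhat Sum.inl_injective, hx, hxi]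
  have e4 : sb Sum.inr (((ru hT p e z)⁻¹ : (TR k G (ι ⊕ κ) (p ^ (e + 1)))ˣ) :
      TR k G (ι ⊕ κ) (p ^ (e + 1))) =
      (((ru hT p e y)⁻¹ : (TR k G κ (p ^ (e + 1)))ˣ) : TR k G κ (p ^ (e + 1))) := by
    rw [ru_inv_coe, ru_inv_coe, sb_mul Sum.inr_injective _ _ (closedR_inr (BD_dhat _ hb1)), sb_tens,
      sb_dhat Sum.inr_injective, hy, hyi]
  have hax : nm (rot k G ι (p ^ (e + 1))) (p ^ (e + 1)) (sb Sum.inl (tr tS a)) =
      (ru hT p e x : TR k G ι (p ^ (e + 1))) - 1 := by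
    rw [← sb_nm, ha', sb_sub, e1, sb_one Sum.inl_injective]
  have hay : nm (rot k G κ (p ^ (e + 1))) (p ^ (e + 1)) (sb Sum.inr (tr tS a)) =
      (ru hT p e y : TR k G κ (p ^ (e + 1))) - 1 := by
    rw [← sb_nm, ha', sb_sub, e2, sb_one Sum.inr_injective]
  rw [gam_eq hA hT hN hk z _ ha', gam_eq hA hT hN hk x _ hax, gam_eq hA hT hN hk y _ hay, lam, lam,
    lam, tau_BD (BD_mul _ (BD_mul _ hBa hri) (BD_sub _ (BD_one _) (BD_pp _ _ hBa))),
    sb_mul Sum.inl_injective _ _ (closedR_inl (BD_mul _ hBa hri)),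
    sb_mul Sum.inl_injective _ _ (closedR_inl hBa),
    sb_mul Sum.inr_injective _ _ (closedR_inr (BD_mul _ hBa hri)),
    sb_mul Sum.inr_injective _ _ (closedR_inr hBa), sb_sub, sb_sub,
    sb_one Sum.inl_injective, sb_one Sum.inr_injective, sb_pp, sb_pp, e3, e4]

/-! ### unipotent matrices -/

lemma gam_one (hA : SpecA.{max u v, max u v}) (hT : SpecT.{u, v}) (hN : SpecN.{u, v})
    (hk : Pk k p) : gam (e := e) hT hN hk (1 : (Matrix ι ι (MonoidAlgebra k G))ˣ) = 0 := by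
  have := gam_mul (e := e) hA hT hN hk (1 : (Matrix ι ι (MonoidAlgebra k G))ˣ) 1
  rw [mul_one] at this
  exact left_eq_add.1 this

lemma gam_inv (hA : SpecA.{max u v, max u v}) (hT : SpecT.{u, v}) (hN : SpecN.{u, v})
    (hk : Pk k p) (x : (Matrix ι ι (MonoidAlgebra k G))ˣ) :
    gam (e := e) hT hN hk x⁻¹ = - gam hT hN hk x := by
  have := gam_mul (e := e) hA hT hN hk x⁻¹ x
  rw [inv_mul_cancel, gam_one hA] at this
  exact eq_neg_of_add_eq_zero_left this.symm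

lemma two_tors (hk : Pk k p) (h : HN k G (p ^ (e + 1))) (h2 : h + h = 0) : h = 0 := by
  have hN := HN_tors (p ^ (e + 1)) h
  have hodd : Odd (p ^ (e + 1)) := (hk.prime.odd_of_ne_two hk.odd).pow
  obtain ⟨m, hm⟩ := hodd
  have h3 : (2 * m + 1) • h = 0 := by rw [← hm]; exact hN
  rw [add_smul, mul_comm, mul_smul, two_smul, one_smul, h2, smul_zero, zero_add] at h3
  exact h3

lemma gam_unip (hA : SpecA.{max u v, max u v}) (hT : SpecT.{u, v}) (hN : SpecN.{u, v})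
    (hk : Pk k p) (b : Matrix ι κ (MonoidAlgebra k G))
    (z : (Matrix (ι ⊕ κ) (ι ⊕ κ) (MonoidAlgebra k G))ˣ)
    (hz : (z : Matrix (ι ⊕ κ) (ι ⊕ κ) (MonoidAlgebra k G)) = Matrix.fromBlocks 1 b 0 1) :
    gam (e := e) hT hN hk z = 0 := by
  let s : (Matrix (ι ⊕ κ) (ι ⊕ κ) (MonoidAlgebra k G))ˣ :=
    ⟨Matrix.fromBlocks 1 0 0 (-1), Matrix.fromBlocks 1 0 0 (-1), gk1_sgn, gk1_sgn⟩
  have h1 : s * z * s⁻¹ = z⁻¹ := by
    rw [eq_comm, inv_eq_iff_mul_eq_one]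
    apply Units.ext
    show (z : Matrix (ι ⊕ κ) (ι ⊕ κ) (MonoidAlgebra k G)) *
      (Matrix.fromBlocks 1 0 0 (-1) * (z : Matrix (ι ⊕ κ) (ι ⊕ κ) (MonoidAlgebra k G)) *
        Matrix.fromBlocks 1 0 0 (-1)) = 1
    rw [hz]
    exact gk1_conj b
  have h2 : gam (e := e) hT hN hk (s * z * s⁻¹) = gam hT hN hk z := by
    rw [gam_mul hA, gam_mul hA, gam_inv hA]
    abel
  rw [h1, gam_inv hA] at h2
  apply two_tors hk
  nth_rewrite 1 [← h2]
  exact neg_add_cancel _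

lemma gam_block (hA : SpecA.{max u v, max u v}) (hT : SpecT.{u, v}) (hN : SpecN.{u, v})
    (hk : Pk k p) (x : (Matrix ι ι (MonoidAlgebra k G))ˣ) (y : (Matrix κ κ (MonoidAlgebra k G))ˣ)
    (b : Matrix ι κ (MonoidAlgebra k G)) (z : (Matrix (ι ⊕ κ) (ι ⊕ κ) (MonoidAlgebra k G))ˣ)
    (hz : (z : Matrix (ι ⊕ κ) (ι ⊕ κ) (MonoidAlgebra k G)) =
      Matrix.fromBlocks (x : Matrix ι ι (MonoidAlgebra k G)) b 0
        (y : Matrix κ κ (MonoidAlgebra k G))) :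
    gam (e := e) hT hN hk z = gam hT hN hk x + gam hT hN hk y := by
  let d : (Matrix (ι ⊕ κ) (ι ⊕ κ) (MonoidAlgebra k G))ˣ :=
    ⟨Matrix.fromBlocks (x : Matrix ι ι (MonoidAlgebra k G)) 0 0
        (y : Matrix κ κ (MonoidAlgebra k G)),
      Matrix.fromBlocks ((x⁻¹ : (Matrix ι ι (MonoidAlgebra k G))ˣ) :
        Matrix ι ι (MonoidAlgebra k G)) 0 0
        ((y⁻¹ : (Matrix κ κ (MonoidAlgebra k G))ˣ) : Matrix κ κ (MonoidAlgebra k G)),
      gk1_diag _ _ _ _ x.mul_inv y.mul_inv, gk1_diag _ _ _ _ x.inv_mul y.inv_mul⟩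
  let n : (Matrix (ι ⊕ κ) (ι ⊕ κ) (MonoidAlgebra k G))ˣ :=
    ⟨Matrix.fromBlocks 1 (b * ((y⁻¹ : (Matrix κ κ (MonoidAlgebra k G))ˣ) :
        Matrix κ κ (MonoidAlgebra k G))) 0 1,
      Matrix.fromBlocks 1 (-(b * ((y⁻¹ : (Matrix κ κ (MonoidAlgebra k G))ˣ) :
        Matrix κ κ (MonoidAlgebra k G)))) 0 1,
      gk1_uni _ _ (neg_add_cancel _), gk1_uni _ _ (add_neg_cancel _)⟩
  have h : z = n * d := by
    apply Units.ext
    rw [hz]
    show _ = Matrix.fromBlocks 1 (b * ((y⁻¹ : (Matrix κ κ (MonoidAlgebra k G))ˣ) :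
        Matrix κ κ (MonoidAlgebra k G))) 0 1 *
        Matrix.fromBlocks (x : Matrix ι ι (MonoidAlgebra k G)) 0 0
          (y : Matrix κ κ (MonoidAlgebra k G))
    exact gk1_fac _ _ _ b y.inv_mul
  rw [h, gam_mul hA, gam_unip hA hT hN hk _ n rfl, zero_add]
  exact gam_sum hA hT hN hk x y d rfl

/-! ### the homomorphism on `K_1` -/

/-- `Γ` on `K_1`. -/
def GK (hA : SpecA.{max u v, max u v}) (hT : SpecT.{u, v}) (hN : SpecN.{u, v})
    (hk : Pk k p) (e : ℕ) [NeZero (p ^ e)] [NeZero (p ^ (e + 1))] (G : Type v) [Group G] :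
    K1 (MonoidAlgebra k G) →+ HN k G (p ^ (e + 1)) :=
  K1.lift (fun n x => gam (e := e) (ι := Fin n) hT hN hk x)
    (by
      rintro x (⟨n, x, y⟩ | ⟨m, n, x, y, w, b, h⟩)
      · simp only [map_sub, FreeAbelianGroup.lift_apply_of]
        rw [gam_mul hA]
        abel
      · simp only [map_sub, FreeAbelianGroup.lift_apply_of]
        let z : (Matrix (Fin m ⊕ Fin n) (Fin m ⊕ Fin n) (MonoidAlgebra k G))ˣ :=
          Units.map (Matrix.reindexRingEquiv (MonoidAlgebra k G)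
            (finSumFinEquiv (m := m) (n := n)).symm).toMonoidHom w
        have hz : (z : Matrix (Fin m ⊕ Fin n) (Fin m ⊕ Fin n) (MonoidAlgebra k G)) =
            Matrix.fromBlocks (x : Matrix (Fin m) (Fin m) (MonoidAlgebra k G)) b 0
              (y : Matrix (Fin n) (Fin n) (MonoidAlgebra k G)) := by
          show Matrix.reindex _ _ (w : Matrix (Fin (m + n)) (Fin (m + n)) (MonoidAlgebra k G)) = _
          exact gk1_reindex _ _ h
        have h1 := gam_reindex (e := e) hA hT hN hk (finSumFinEquiv (m := m) (n := n)) w z rfl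
        rw [← h1, gam_block hA hT hN hk x y b z hz]
        abel)

end Pool.Agent.Lib.MPb6f35e.WH
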