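import Pool.Agent.Lib.MP_b6f35e_al.WH.SB

/-!
# WH: S (`K_1 (R[H])` comes from cyclic subgroups up to torsion)
-/

set_option autoImplicit false

noncomputable section

namespace Pool.Agent.Lib.MPb6f35e.WH

universe u v w

open Matrix Finset

namespace SM

variable {R : Type u} [CommRing R] {H : Type v} [Group H]

/-- the intertwining property -/
theorem inter {X Y : Type w} [Fintype X] [DecidableEq X] [Fintype Y] [DecidableEq Y]
    (σ : H →* Equiv.Perm X) (τ : H →* Equiv.Perm Y) (F : Matrix Y X ℤ)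
    (hF : ∀ h y x, F (τ h y) (σ h x) = F y x) (a : MonoidAlgebra R H) (y : Y) (x' : X) :
    ∑ x, (F y x : MonoidAlgebra R H) * psi σ a x x' = ∑ y', psi τ a y y' * (F y' x' : MonoidAlgebra R H) := by
  induction a using MonoidAlgebra.induction_linear with
  | zero => simp
  | add a b ha hb =>
    simp only [map_add, Matrix.add_apply, mul_add, add_mul, Finset.sum_add_distrib, ha, hb]
  | single h r =>
    simp only [psi_single]
    rw [Finset.sum_eq_single (σ h x'), Finset.sum_eq_single ((τ h).symm y)]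
    · rw [if_pos rfl, if_pos (by simp)]
      have h1 := hF h ((τ h).symm y) x'
      rw [Equiv.apply_symm_apply] at h1
      rw [h1]
      exact (Int.cast_commute _ _).eq
    · intro y' _ hy
      rw [if_neg, zero_mul]
      intro h0
      exact hy (by rw [h0, Equiv.symm_apply_apply])
    · intro h0; exact absurd (mem_univ _) h0
    · intro x _ hx
      rw [if_neg hx, mul_zero]
    · intro h0; exact absurd (mem_univ _) h0

/-- the matrix `1 ⊗ F` over `R[H]` -/
def bigF (R : Type u) [CommRing R] (H : Type v) [Group H] {X Y : Type w} (n : ℕ) (F : Matrix Y X ℤ) :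
    Matrix (Fin n × Y) (Fin n × X) (MonoidAlgebra R H) :=
  Matrix.of fun i j => if i.1 = j.1 then (F i.2 j.2 : MonoidAlgebra R H) else 0

theorem bigF_mul {X Y Z : Type w} [Fintype Y] {n : ℕ}
    (F : Matrix X Y ℤ) (F' : Matrix Y Z ℤ) : bigF R H n F * bigF R H n F' = bigF R H n (F * F') := by
  ext1 ⟨i, x⟩ ⟨j, z⟩
  rw [Matrix.mul_apply, Fintype.sum_prod_type]
  simp only [bigF, Matrix.of_apply]
  rw [Finset.sum_eq_single i]
  · by_cases h : i = j
    · simp only [h, if_true, Matrix.mul_apply, Int.cast_sum, Int.cast_mul]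
    · simp only [if_neg h, mul_zero, Finset.sum_const_zero]
  · intro k _ hk
    apply Finset.sum_eq_zero
    intro y _
    rw [if_neg (Ne.symm hk), zero_mul]
  · intro h0; exact absurd (mem_univ _) h0

theorem bigF_smul {X : Type w} [DecidableEq X] {n : ℕ} (d : ℤ) :
    bigF R H n (d • (1 : Matrix X X ℤ)) = d • (1 : Matrix (Fin n × X) (Fin n × X) (MonoidAlgebra R H)) := by
  ext1 ⟨i, x⟩ ⟨j, z⟩
  simp only [bigF, Matrix.of_apply, Matrix.smul_apply, Matrix.one_apply, Prod.mk.injEq]
  by_cases h : i = j <;> by_cases h' : x = z <;> simp [h, h']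

theorem bigF_inter {X Y : Type w} [Fintype X] [DecidableEq X] [Fintype Y] [DecidableEq Y]
    (σ : H →* Equiv.Perm X) (τ : H →* Equiv.Perm Y) (F : Matrix Y X ℤ)
    (hF : ∀ h y x, F (τ h y) (σ h x) = F y x) {n : ℕ} (M : Matrix (Fin n) (Fin n) (MonoidAlgebra R H)) :
    bigF R H n F * Psi σ n M = Psi τ n M * bigF R H n F := by
  ext1 ⟨i, y⟩ ⟨j, x'⟩
  rw [Matrix.mul_apply, Matrix.mul_apply, Fintype.sum_prod_type, Fintype.sum_prod_type]
  rw [Finset.sum_eq_single i, Finset.sum_eq_single j]
  · simp only [bigF, Matrix.of_apply, if_true, Psi_apply]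
    exact inter σ τ F hF _ y x'
  · intro k _ hk
    apply Finset.sum_eq_zero
    intro y' _
    simp only [bigF, Matrix.of_apply]
    rw [if_neg hk, mul_zero]
  · intro h0; exact absurd (mem_univ _) h0
  · intro k _ hk
    apply Finset.sum_eq_zero
    intro x _
    simp only [bigF, Matrix.of_apply]
    rw [if_neg (Ne.symm hk), zero_mul]
  · intro h0; exact absurd (mem_univ _) h0

/-- finiteness of the group ring over a finite ring -/
theorem finite_ma (S : Type u) [CommRing S] [Finite S] (H : Type v) [Finite H] :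
    Finite (MonoidAlgebra S H) :=
  Finite.of_injective (fun a : MonoidAlgebra S H => (a.coeff : H → S))
    (fun a b h => MonoidAlgebra.coeffAddEquiv.injective (DFunLike.coe_injective h))

/-- an element of `R[H]` which vanishes modulo `d` is a multiple of `d` -/
theorem exists_mul [Finite H] {d : R} (a : MonoidAlgebra R H)
    (h : MonoidAlgebra.mapRingHom H (Ideal.Quotient.mk (Ideal.span {d})) a = 0) :
    ∃ b : MonoidAlgebra R H, a = d • b := by
  have h1 : ∀ x : H, ∃ c : R, a.coeff x = d * c := by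
    intro x
    have h2 := congrArg (fun z => z.coeff x) h
    simp only [MonoidAlgebra.coeff_zero, Finsupp.coe_zero, Pi.zero_apply] at h2
    have h3 : Ideal.Quotient.mk (Ideal.span {d}) (a.coeff x) = 0 := by
      rw [← h2]
      simp [MonoidAlgebra.mapRingHom]
    rw [Ideal.Quotient.eq_zero_iff_mem, Ideal.mem_span_singleton] at h3
    exact h3
  choose c hc using h1
  haveI : Fintype H := Fintype.ofFinite H
  refine ⟨MonoidAlgebra.ofCoeff (Finsupp.equivFunOnFinite.symm c), ?_⟩
  apply MonoidAlgebra.coeffAddEquiv.injective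
  ext x
  change a.coeff x = d * c x
  exact hc x

/-- the classes of the two permutation modules agree up to torsion -/
theorem T_inter [FinQuot R] [Finite H] (hK : SpecK.{max u v, w}) {X Y : Type w} [Fintype X]
    [DecidableEq X] [Fintype Y] [DecidableEq Y]
    (σ : H →* Equiv.Perm X) (τ : H →* Equiv.Perm Y) (F : Matrix Y X ℤ) (F' : Matrix X Y ℤ) (d : ℤ)
    (hd : d ≠ 0) (h1 : F * F' = d • 1) (h2 : F' * F = d • 1)
    (hF : ∀ h y x, F (τ h y) (σ h x) = F y x) {n : ℕ}
    (A : (Matrix (Fin n) (Fin n) (MonoidAlgebra R H))ˣ) : ∃ k : ℕ, 0 < k ∧ k • T σ A = k • T τ A := by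
  haveI := FinQuot.dom (R := R)
  haveI := FinQuot.char0 (R := R)
  have hd' : (d : R) ≠ 0 := by exact_mod_cast hd
  haveI : Finite (R ⧸ Ideal.span {(d : R)}) := FinQuot.fin _ hd'
  -- the finite ring
  set q : MonoidAlgebra R H →+* MonoidAlgebra (R ⧸ Ideal.span {(d : R)}) H :=
    MonoidAlgebra.mapRingHom H (Ideal.Quotient.mk (Ideal.span {(d : R)})) with hq
  haveI : Finite (MonoidAlgebra (R ⧸ Ideal.span {(d : R)}) H) := finite_ma _ H
  set U : (Matrix (Fin n × X) (Fin n × X) (MonoidAlgebra R H))ˣ := Units.map (Psi σ n).toMonoidHom A with hU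
  haveI : Finite (Matrix (Fin n × X) (Fin n × X) (MonoidAlgebra (R ⧸ Ideal.span {(d : R)}) H))ˣ :=
    inferInstance
  obtain ⟨k, hk, hkq⟩ := (isOfFinOrder_of_finite (Units.map q.mapMatrix.toMonoidHom U)).exists_pow_eq_one
  refine ⟨k, hk, ?_⟩
  -- the power is `1 + d Z`
  have hZ : ∀ i j, ∃ b : MonoidAlgebra R H, (U.val ^ k - 1) i j = (d : R) • b := by
    intro i j
    apply exists_mul
    have h3 : q.mapMatrix (U.val ^ k - 1) = 0 := by
      rw [map_sub, map_pow, map_one]
      have h4 := congrArg Units.val hkq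
      rw [Units.val_pow_eq_pow_val, Units.val_one] at h4
      change q.mapMatrix U.val ^ k = 1 at h4
      rw [h4, sub_self]
    exact congrFun (congrFun h3 i) j
  choose Z hZ using hZ
  set ZZ : Matrix (Fin n × X) (Fin n × X) (MonoidAlgebra R H) := Matrix.of fun i j => Z i j with hZZ
  have hU1 : U.val ^ k = 1 + d • ZZ := by
    rw [← sub_eq_iff_eq_add']
    ext1 i j
    rw [hZ, Matrix.smul_apply]
    change (d : R) • Z i j = d • Z i j
    rw [Int.cast_smul_eq_zsmul]
  -- the matrices
  set 𝔽 := bigF R H n F with h𝔽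
  set 𝔽' := bigF R H n F' with h𝔽'
  have e1 : 𝔽 * 𝔽' = d • 1 := by rw [h𝔽, h𝔽', bigF_mul, h1, bigF_smul]
  have e2 : 𝔽' * 𝔽 = d • 1 := by rw [h𝔽, h𝔽', bigF_mul, h2, bigF_smul]
  have e3 : U.val ^ k = 1 + 𝔽' * (𝔽 * ZZ) := by
    rw [hU1, ← Matrix.mul_assoc, e2, Matrix.smul_mul, Matrix.one_mul]
  set W : (Matrix (Fin n × Y) (Fin n × Y) (MonoidAlgebra R H))ˣ := Units.map (Psi τ n).toMonoidHom A with hW
  have e4 : 𝔽 * U.val ^ k = W.val ^ k * 𝔽 := by
    have h5 := bigF_inter (R := R) σ τ F hF ((A ^ k).val)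
    rw [Units.val_pow_eq_pow_val, map_pow, map_pow] at h5
    exact h5
  have e5 : W.val ^ k = 1 + (𝔽 * ZZ) * 𝔽' := by
    have h6 : d • (W.val ^ k) = d • (1 + (𝔽 * ZZ) * 𝔽') := by
      have h7 : W.val ^ k * 𝔽 * 𝔽' = 𝔽 * U.val ^ k * 𝔽' := by rw [e4]
      rw [Matrix.mul_assoc, e1, Matrix.mul_smul, Matrix.mul_one, hU1, Matrix.mul_add, Matrix.mul_one,
        Matrix.add_mul, e1, Matrix.mul_smul, Matrix.smul_mul] at h7
      rw [h7, smul_add]
    ext1 i j
    have h8 := congrFun (congrFun h6 i) j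
    rw [Matrix.smul_apply, Matrix.smul_apply] at h8
    apply MonoidAlgebra.coeffAddEquiv.injective
    ext x
    have h9 : d • ((W.val ^ k) i j).coeff x = d • ((1 + 𝔽 * ZZ * 𝔽' :
        Matrix (Fin n × Y) (Fin n × Y) (MonoidAlgebra R H)) i j).coeff x := by
      have := congrArg (fun z => z.coeff x) h8
      simpa only [MonoidAlgebra.coeff_smul, Finsupp.smul_apply] using this
    rw [zsmul_eq_mul, zsmul_eq_mul] at h9
    exact mul_left_cancel₀ hd' h9
  have h10 := hK.oneAdd _ _ _ 𝔽' (𝔽 * ZZ) (U ^ k) (W ^ k) (by rw [Units.val_pow_eq_pow_val]; exact e3)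
    (by rw [Units.val_pow_eq_pow_val]; exact e5)
  rw [clsF_pow hK, clsF_pow hK] at h10
  exact h10

/-- elements coming from cyclic subgroups -/
abbrev Src (R : Type u) [CommRing R] (H : Type v) [Group H] : Type max u v :=
  Σ C : {C : Subgroup H // IsCyclic C}, K1 (MonoidAlgebra R C.1)

/-- the image -/
def im (s : Src R H) : K1 (MonoidAlgebra R H) :=
  K1.map (MonoidAlgebra.mapDomainRingHom R s.1.1.subtype) s.2

/-- sums of images from cyclic subgroups -/
def Good (z : K1 (MonoidAlgebra R H)) : Prop := ∃ l : List (Src R H), z = (l.map im).sum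

theorem Good.zero : Good (0 : K1 (MonoidAlgebra R H)) := ⟨[], rfl⟩

theorem Good.add {z z' : K1 (MonoidAlgebra R H)} (h : Good z) (h' : Good z') : Good (z + z') := by
  obtain ⟨l, rfl⟩ := h
  obtain ⟨l', rfl⟩ := h'
  exact ⟨l ++ l', by rw [List.map_append, List.sum_append]⟩

theorem Good.neg {z : K1 (MonoidAlgebra R H)} (h : Good z) : Good (-z) := by
  obtain ⟨l, rfl⟩ := h
  induction l with
  | nil => exact ⟨[], by simp⟩
  | cons s l ih =>
    rw [List.map_cons, List.sum_cons, neg_add]
    refine Good.add ⟨[⟨s.1, -s.2⟩], ?_⟩ ih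
    rw [List.map_cons, List.map_nil, List.sum_cons, List.sum_nil, add_zero]
    exact (map_neg (K1.map (MonoidAlgebra.mapDomainRingHom R s.1.1.subtype)) s.2).symm

theorem Good.nsmul {z : K1 (MonoidAlgebra R H)} (h : Good z) (m : ℕ) : Good (m • z) := by
  induction m with
  | zero => rw [zero_smul]; exact Good.zero
  | succ m ih => rw [succ_nsmul]; exact ih.add h

theorem Good.sum {b : ℕ} {z : Fin b → K1 (MonoidAlgebra R H)} (h : ∀ j, Good (z j)) : Good (∑ j, z j) := by
  induction b with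
  | zero => rw [Fin.sum_univ_zero]; exact Good.zero
  | succ b ih => rw [Fin.sum_univ_succ]; exact (h 0).add (ih fun j => h _)

theorem Good.of {C : Subgroup H} (hC : IsCyclic C) {z : K1 (MonoidAlgebra R H)}
    (h : ∃ y : K1 (MonoidAlgebra R C), z = K1.map (MonoidAlgebra.mapDomainRingHom R C.subtype) y) :
    Good z := by
  obtain ⟨y, rfl⟩ := h
  exact ⟨[⟨⟨C, hC⟩, y⟩], by rw [List.map_cons, List.map_nil, List.sum_cons, List.sum_nil, add_zero]; rfl⟩

theorem Good.fin {z : K1 (MonoidAlgebra R H)} (h : Good z) :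
    ∃ (a : ℕ) (C : Fin a → Subgroup H) (_ : ∀ i, IsCyclic (C i)) (y : ∀ i, K1 (MonoidAlgebra R (C i))),
      z = ∑ i, K1.map (MonoidAlgebra.mapDomainRingHom R (C i).subtype) (y i) := by
  obtain ⟨l, rfl⟩ := h
  refine ⟨l.length, fun i => (l.get i).1.1, fun i => (l.get i).1.2, fun i => (l.get i).2, ?_⟩
  rw [← Fin.sum_univ_fun_getElem]
  rfl

end SM

open SM in
/-- S: `K_1(R[H])` is generated up to torsion by the images of `K_1(R[C])`, `C` cyclic. -/
theorem specSR (hK0 : SpecK.{max u v, 0}) (hK : SpecK.{max u v, v}) (hR : SpecR.{v}) : SpecSR.{u, v} := by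
  intro R _ _ H _ _ x
  suffices h : ∃ m : ℕ, 0 < m ∧ Good (m • x) by
    obtain ⟨m, hm, h⟩ := h
    obtain ⟨a, C, hC, y, h⟩ := h.fin
    exact ⟨m, hm, a, C, hC, y, h⟩
  -- matrices
  have hmat : ∀ (n : ℕ) (A : (Matrix (Fin n) (Fin n) (MonoidAlgebra R H))ˣ),
      ∃ m : ℕ, 0 < m ∧ Good (m • K1.cls A) := by
    intro n A
    obtain ⟨m, hm, a, b, C, C', hC, hC', X, Y, _, _, _, _, _, _, eX, eY, heX, heY, F, F', d, hd, hF1, hF2, hF⟩ := hR H
    obtain ⟨k, hk, h⟩ := T_inter (R := R) hK (MulAction.toPermHom H X) (MulAction.toPermHom H Y) F F' d hd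
      hF1 hF2 (fun h y x => hF h y x) A
    refine ⟨k * m, Nat.mul_pos hk hm, ?_⟩
    -- decomposition of X
    letI : Fintype (Σ j, H ⧸ C' j) := Fintype.ofFinite _
    letI : DecidableEq (Σ j, H ⧸ C' j) := Classical.decEq _
    let τ : H →* Equiv.Perm (Σ j, H ⧸ C' j) :=
      { toFun := fun h => Equiv.sigmaCongrRight fun j => MulAction.toPermHom H (H ⧸ C' j) h
        map_one' := by
          ext1 ⟨j, z⟩
          simp
        map_mul' := by
          intro h h'
          ext1 ⟨j, z⟩
          simp [mul_smul] }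
    let ρ : H →* Equiv.Perm (ULift.{v} (Fin m) ⊕ Σ j, H ⧸ C' j) :=
      { toFun := fun h => Equiv.sumCongr (Equiv.refl _) (τ h)
        map_one' := by
          ext1 (z | z) <;> simp
        map_mul' := by
          intro h h'
          ext1 (z | z) <;> simp [mul_smul] }
    have hX : T (MulAction.toPermHom H X) A = m • K1.cls A + ∑ j, TQ (C' j) A := by
      rw [T_equiv hK _ ρ (eX.trans (Equiv.sumCongr Equiv.ulift.symm (Equiv.refl _))) (by
        intro h z
        have h3 : eX ((MulAction.toPermHom H X) h z)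
            = Sum.map id (fun z => ⟨z.1, h • z.2⟩) (eX z) := heX h z
        rw [Equiv.trans_apply, Equiv.trans_apply, h3]
        rcases eX z with s | s <;> rfl),
        T_sum hK (1 : H →* Equiv.Perm (ULift.{v} (Fin m))) τ ρ (fun _ _ => rfl) (fun _ _ => rfl),
        T_triv hK0 hK m _ 1 (fun _ _ => rfl) Equiv.ulift,
        T_sigma hK b C' _ τ (Equiv.refl _) (fun _ _ => rfl)]
    have hY : T (MulAction.toPermHom H Y) A = ∑ i, TQ (C i) A :=
      T_sigma hK a C _ _ eY (fun h z => heY h z) A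
    rw [hX, hY, smul_add, ← eq_sub_iff_add_eq, ← mul_nsmul'] at h
    rw [h, sub_eq_add_neg]
    refine Good.add (Good.nsmul (Good.sum fun i => Good.of (hC i) (TQ_mem hK _ A)) k)
      (Good.neg (Good.nsmul (Good.sum fun j => Good.of (hC' j) (TQ_mem hK _ A)) k))
  -- all elements
  induction x using QuotientAddGroup.induction_on with
  | _ z =>
    induction z using FreeAbelianGroup.induction_on with
    | zero =>
      refine ⟨1, one_pos, ?_⟩
      have : (1 : ℕ) • ((QuotientAddGroup.mk (0 : FreeAbelianGroup (K1Gen (MonoidAlgebra R H)))) :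
        K1 (MonoidAlgebra R H)) = 0 := smul_zero _
      change Good ((1 : ℕ) • ((QuotientAddGroup.mk (0 : FreeAbelianGroup (K1Gen (MonoidAlgebra R H)))) :
        K1 (MonoidAlgebra R H)))
      rw [this]
      exact Good.zero
    | of g =>
      obtain ⟨n, A⟩ := g
      exact hmat n A
    | neg g h =>
      obtain ⟨m, hm, h⟩ := h
      refine ⟨m, hm, ?_⟩
      have e : m • ((QuotientAddGroup.mk (-(FreeAbelianGroup.of g))) : K1 (MonoidAlgebra R H))
          = -(m • (QuotientAddGroup.mk (FreeAbelianGroup.of g) : K1 (MonoidAlgebra R H))) :=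
        smul_neg m (QuotientAddGroup.mk (FreeAbelianGroup.of g) : K1 (MonoidAlgebra R H))
      change Good (m • ((QuotientAddGroup.mk (-(FreeAbelianGroup.of g))) : K1 (MonoidAlgebra R H)))
      rw [e]
      exact h.neg
    | add a b ha hb =>
      obtain ⟨m, hm, h⟩ := ha
      obtain ⟨m', hm', h'⟩ := hb
      refine ⟨m * m', Nat.mul_pos hm hm', ?_⟩
      have e : (m * m') • ((QuotientAddGroup.mk (a + b)) : K1 (MonoidAlgebra R H))
          = m' • (m • (QuotientAddGroup.mk a : K1 (MonoidAlgebra R H)))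
            + m • (m' • (QuotientAddGroup.mk b : K1 (MonoidAlgebra R H))) := by
        rw [← mul_nsmul, ← mul_nsmul']
        exact nsmul_add (QuotientAddGroup.mk a : K1 (MonoidAlgebra R H))
          (QuotientAddGroup.mk b : K1 (MonoidAlgebra R H)) (m * m')
      change Good ((m * m') • ((QuotientAddGroup.mk (a + b)) : K1 (MonoidAlgebra R H)))
      rw [e]
      exact (h.nsmul m').add (h'.nsmul m)

end Pool.Agent.Lib.MPb6f35e.WH
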