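import Pool.Agent.Lib.MP_b6f35e_al.WH.A
import Pool.Agent.Lib.MP_b6f35e_al.WH.N
import Pool.Agent.Lib.MP_b6f35e_al.WH.T
import Pool.Agent.Lib.MP_b6f35e_al.WH.GVal
import Pool.Agent.Lib.MP_b6f35e_al.WH.K
import Pool.Agent.Lib.MP_b6f35e_al.WH.R
import Pool.Agent.Lib.MP_b6f35e_al.WH.S
import Pool.Agent.Lib.MP_b6f35e_al.WH.ER
import Pool.Agent.Lib.MP_b6f35e_al.WH.L
import Pool.Agent.Lib.MP_b6f35e_al.WH.L2
import Pool.Agent.Lib.MP_b6f35e_al.WH.L3
import Pool.Agent.Lib.MP_b6f35e_al.WH.F1
import Pool.Agent.Lib.MP_b6f35e_al.WH.F2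
import Pool.Agent.Lib.MP_b6f35e_al.WH.DSC
import Pool.Agent.Lib.MP_b6f35e_al.WH.Cor

/-!
# Theorem W (hive 30, MP_b6f35e_al): assembly of all modules
-/

set_option autoImplicit false

namespace Pool.Agent.Lib.MPb6f35e.WH

universe u v

/-- Theorem W for all coefficient domains with finite proper quotients, from module T. -/
theorem main_of (hT : SpecT.{0, v}) : SpecF2.{u, v} :=
  specF2_of (specSR specK specK specR) (specER specK) specCAS specDSC
    (specL3P_of (specG_of specA hT specN) specLP) (specF1 specLP (specL2P_of specLP))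

/-- Theorem W: for every group `G` and every commutative domain `R` of characteristic zero with
finite proper quotients, the kernel of `colim K_1(R[H]) → K_1(R[G])/(±g)` is torsion. -/
theorem specF2 : SpecF2.{u, v} := main_of specT

/-- Second form: the kernel of `G_ab ⊕ colim K_1(R[H]) → K_1(R[G])` is torsion. -/
theorem kernel_torsion (R : Type u) [CommRing R] [FinQuot R] (G : Type v) [Group G]
    (g : G) (x : ColimK1 R G) (h : IsOfFinAddOrder (K1.unit (gUnit R g) + assembly R G x)) :
    IsOfFinOrder (Abelianization.of g) ∧ IsOfFinAddOrder x := by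
  have := (FinQuot.dom (R := R)).toNontrivial
  exact cor R G (specF2 R G) g x h

end Pool.Agent.Lib.MPb6f35e.WH
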