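import Pool.Agent.Lib.MP_b6f35e_al.WH.SpecR

/-!
# WH: S, part A (permutation modules and `K_1`)

For a finite `H`-set `X`, given by `σ : H →* Perm X`, the ring homomorphism
`psi σ : R[H] → Mat_X (R[H])`, `h ↦ (permutation matrix of h) h`, induces the map `T σ` on `K_1`.
-/

set_option autoImplicit false

noncomputable section

namespace Pool.Agent.Lib.MPb6f35e.WH

universe u v w

open Matrix Finset

namespace SM

variable {R : Type u} [CommRing R] {H : Type v} [Group H]

/-- the matrix of `h` -/
def pm {X : Type w} [Fintype X] [DecidableEq X] (σ : H →* Equiv.Perm X) :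
    H →* Matrix X X (MonoidAlgebra R H) where
  toFun h := Matrix.of fun x x' => if x = σ h x' then MonoidAlgebra.single h 1 else 0
  map_one' := by
    ext1 x x'
    simp only [Matrix.of_apply, map_one, Equiv.Perm.coe_one, id_eq, Matrix.one_apply]
    rfl
  map_mul' h h' := by
    ext1 x x'
    rw [Matrix.mul_apply]
    simp only [Matrix.of_apply, map_mul, Equiv.Perm.coe_mul, Function.comp_apply]
    rw [Finset.sum_eq_single (σ h' x')]
    · rw [if_pos rfl]
      by_cases hx : x = σ h (σ h' x')
      · rw [if_pos hx, if_pos hx, MonoidAlgebra.single_mul_single, one_mul]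
      · rw [if_neg hx, if_neg hx, zero_mul]
    · intro y _ hy
      rw [if_neg hy, mul_zero]
    · intro h0
      exact absurd (mem_univ _) h0

/-- the ring homomorphism of a finite `H`-set -/
def psi {X : Type w} [Fintype X] [DecidableEq X] (σ : H →* Equiv.Perm X) :
    MonoidAlgebra R H →+* Matrix X X (MonoidAlgebra R H) :=
  (MonoidAlgebra.lift R (Matrix X X (MonoidAlgebra R H)) H (pm σ)).toRingHom

theorem psi_single {X : Type w} [Fintype X] [DecidableEq X] (σ : H →* Equiv.Perm X) (h : H) (r : R)
    (x x' : X) : psi σ (MonoidAlgebra.single h r) x x'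
      = if x = σ h x' then MonoidAlgebra.single h r else 0 := by
  have e : psi σ (MonoidAlgebra.single h r) = r • pm σ h := MonoidAlgebra.lift_single _ _ _
  rw [e, Matrix.smul_apply]
  change r • (if x = σ h x' then (MonoidAlgebra.single h 1 : MonoidAlgebra R H) else 0) = _
  split_ifs
  · rw [MonoidAlgebra.smul_single, smul_eq_mul, mul_one]
  · rw [smul_zero]

/-- the ring homomorphism on matrices -/
def Psi {X : Type w} [Fintype X] [DecidableEq X] (σ : H →* Equiv.Perm X) (n : ℕ) :
    Matrix (Fin n) (Fin n) (MonoidAlgebra R H) →+*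
      Matrix (Fin n × X) (Fin n × X) (MonoidAlgebra R H) :=
  (Matrix.compRingEquiv (Fin n) X (MonoidAlgebra R H)).toRingHom.comp (psi σ).mapMatrix

theorem Psi_apply {X : Type w} [Fintype X] [DecidableEq X] (σ : H →* Equiv.Perm X) {n : ℕ}
    (M : Matrix (Fin n) (Fin n) (MonoidAlgebra R H)) (i j : Fin n) (x x' : X) :
    Psi σ n M (i, x) (j, x') = psi σ (M i j) x x' := rfl

/-- the class of the image -/
def T {X : Type w} [Fintype X] [DecidableEq X] (σ : H →* Equiv.Perm X) {n : ℕ}
    (A : (Matrix (Fin n) (Fin n) (MonoidAlgebra R H))ˣ) : K1 (MonoidAlgebra R H) :=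
  K1.clsF (Units.map (Psi σ n).toMonoidHom A)

section K0

universe a

variable (hK : SpecK.{a, w}) {A : Type a} [Ring A] {ι : Type w} [Fintype ι] [DecidableEq ι]
include hK

theorem clsF_one : K1.clsF (1 : (Matrix ι ι A)ˣ) = 0 := by
  have h := hK.mul A ι 1 1
  rw [mul_one] at h
  exact left_eq_add.mp h

theorem clsF_pow (x : (Matrix ι ι A)ˣ) (m : ℕ) : K1.clsF (x ^ m) = m • K1.clsF x := by
  induction m with
  | zero => rw [pow_zero, clsF_one hK, zero_smul]
  | succ m ih => rw [pow_succ, hK.mul, ih, succ_nsmul]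

theorem clsF_conj (x s : (Matrix ι ι A)ˣ) : K1.clsF (s * x * s⁻¹) = K1.clsF x := by
  have h1 : K1.clsF (s * x * s⁻¹) + K1.clsF s = K1.clsF x + K1.clsF s := by
    rw [← hK.mul, inv_mul_cancel_right, hK.mul, add_comm]
  exact add_right_cancel h1

theorem clsF_empty [IsEmpty ι] (x : (Matrix ι ι A)ˣ) : K1.clsF x = 0 := by
  have : x = 1 := by
    apply Units.ext
    ext i j
    exact isEmptyElim i
  rw [this, clsF_one hK]

end K0

section K

variable (hK : SpecK.{max u v, w})
include hK

theorem T_pow {X : Type w} [Fintype X] [DecidableEq X] (σ : H →* Equiv.Perm X) {n : ℕ}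
    (A : (Matrix (Fin n) (Fin n) (MonoidAlgebra R H))ˣ) (k : ℕ) : T σ (A ^ k) = k • T σ A := by
  unfold T
  rw [map_pow, clsF_pow hK]

/-- equivalent `H`-sets -/
theorem T_equiv {X Y : Type w} [Fintype X] [DecidableEq X] [Fintype Y] [DecidableEq Y]
    (σ : H →* Equiv.Perm X) (τ : H →* Equiv.Perm Y) (e : X ≃ Y) (he : ∀ h x, e (σ h x) = τ h (e x))
    {n : ℕ} (A : (Matrix (Fin n) (Fin n) (MonoidAlgebra R H))ˣ) : T σ A = T τ A := by
  unfold T
  rw [← hK.reindex _ _ _ (Equiv.prodCongr (Equiv.refl (Fin n)) e)]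
  congr 1
  apply Units.ext
  have key : ∀ (a : MonoidAlgebra R H) (y y' : Y), psi σ a (e.symm y) (e.symm y') = psi τ a y y' := by
    intro a y y'
    induction a using MonoidAlgebra.induction_linear with
    | zero => simp
    | add a b ha hb => rw [map_add, map_add, Matrix.add_apply, Matrix.add_apply, ha, hb]
    | single h r =>
      rw [psi_single, psi_single]
      have : e.symm y = σ h (e.symm y') ↔ y = τ h y' := by
        rw [Equiv.symm_apply_eq, he, Equiv.apply_symm_apply]
      simp only [this]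
  ext1 ⟨i, y⟩ ⟨j, y'⟩
  exact key _ y y'

/-- disjoint unions -/
theorem T_sum {X Y : Type w} [Fintype X] [DecidableEq X] [Fintype Y] [DecidableEq Y]
    (σ : H →* Equiv.Perm X) (τ : H →* Equiv.Perm Y) (ρ : H →* Equiv.Perm (X ⊕ Y))
    (h1 : ∀ h x, ρ h (Sum.inl x) = Sum.inl (σ h x)) (h2 : ∀ h y, ρ h (Sum.inr y) = Sum.inr (τ h y))
    {n : ℕ} (A : (Matrix (Fin n) (Fin n) (MonoidAlgebra R H))ˣ) : T ρ A = T σ A + T τ A := by
  unfold T
  rw [← hK.reindex _ _ _ (Equiv.prodSumDistrib (Fin n) X Y)]
  refine hK.block _ _ _ _ _ 0 _ ?_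
  have k11 : ∀ (a : MonoidAlgebra R H) (x x' : X), psi ρ a (Sum.inl x) (Sum.inl x') = psi σ a x x' := by
    intro a x x'
    induction a using MonoidAlgebra.induction_linear with
    | zero => simp
    | add a b ha hb => rw [map_add, map_add, Matrix.add_apply, Matrix.add_apply, ha, hb]
    | single h r => rw [psi_single, psi_single, h1]; simp only [Sum.inl.injEq]
  have k22 : ∀ (a : MonoidAlgebra R H) (x x' : Y), psi ρ a (Sum.inr x) (Sum.inr x') = psi τ a x x' := by
    intro a x x'
    induction a using MonoidAlgebra.induction_linear with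
    | zero => simp
    | add a b ha hb => rw [map_add, map_add, Matrix.add_apply, Matrix.add_apply, ha, hb]
    | single h r => rw [psi_single, psi_single, h2]; simp only [Sum.inr.injEq]
  have k12 : ∀ (a : MonoidAlgebra R H) (x : X) (y : Y), psi ρ a (Sum.inl x) (Sum.inr y) = 0 := by
    intro a x x'
    induction a using MonoidAlgebra.induction_linear with
    | zero => simp
    | add a b ha hb => rw [map_add, Matrix.add_apply, ha, hb, add_zero]
    | single h r => rw [psi_single, h2, if_neg (by simp)]
  have k21 : ∀ (a : MonoidAlgebra R H) (x : X) (y : Y), psi ρ a (Sum.inr y) (Sum.inl x) = 0 := by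
    intro a x x'
    induction a using MonoidAlgebra.induction_linear with
    | zero => simp
    | add a b ha hb => rw [map_add, Matrix.add_apply, ha, hb, add_zero]
    | single h r => rw [psi_single, h1, if_neg (by simp)]
  ext1 i j
  rcases i with ⟨i, x⟩ | ⟨i, x⟩ <;> rcases j with ⟨j, y⟩ | ⟨j, y⟩
  · exact k11 _ _ _
  · exact k12 _ _ _
  · exact k21 _ _ _
  · exact k22 _ _ _

theorem T_empty {X : Type w} [Fintype X] [DecidableEq X] [IsEmpty X] (σ : H →* Equiv.Perm X) {n : ℕ}
    (A : (Matrix (Fin n) (Fin n) (MonoidAlgebra R H))ˣ) : T σ A = 0 := clsF_empty hK _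

end K

/-- a point -/
theorem T_point (hK0 : SpecK.{max u v, 0}) (hKw : SpecK.{max u v, w}) {X : Type w} [Fintype X] [DecidableEq X] [Unique X]
    (σ : H →* Equiv.Perm X) {n : ℕ} (A : (Matrix (Fin n) (Fin n) (MonoidAlgebra R H))ˣ) :
    T σ A = K1.cls A := by
  have key : ∀ (a : MonoidAlgebra R H) (x x' : X), psi σ a x x' = a := by
    intro a x x'
    induction a using MonoidAlgebra.induction_linear with
    | zero => simp
    | add a b ha hb => rw [map_add, Matrix.add_apply, ha, hb]
    | single h r => rw [psi_single, if_pos (Subsingleton.elim _ _)]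
  have hcard : Fintype.card (Fin n × X) = n := by
    rw [Fintype.card_prod, Fintype.card_fin, Fintype.card_unique, mul_one]
  unfold T K1.clsF
  -- a general statement
  have gen : ∀ (m : ℕ) (hm : m = n) (e : Fin n × X ≃ Fin m),
      K1.cls (Units.map (Matrix.reindexRingEquiv (MonoidAlgebra R H) e).toMonoidHom
        (Units.map (Psi σ n).toMonoidHom A)) = K1.cls A := by
    intro m hm e
    subst hm
    set π : Fin m ≃ Fin m := (Equiv.prodUnique (Fin m) X).symm.trans e with hπ
    have h1 := hK0.reindex _ _ _ π A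
    rw [hK0.cls, hK0.cls] at h1
    rw [← h1]
    congr 1
    apply Units.ext
    ext1 i j
    change psi σ _ _ _ = _
    rw [key]
    rfl
  exact gen _ hcard _

end SM

end Pool.Agent.Lib.MPb6f35e.WH
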