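import Pool.Agent.Lib.MP_b6f35e_al.WH.SA

/-!
# WH: S, part B (cosets, disjoint unions)
-/

set_option autoImplicit false

noncomputable section

namespace Pool.Agent.Lib.MPb6f35e.WH

universe u v w

open Matrix Finset

namespace SM

variable {R : Type u} [CommRing R] {H : Type v} [Group H]

section triv

variable (hK0 : SpecK.{max u v, 0}) (hKw : SpecK.{max u v, w})
include hK0 hKw

/-- trivial actions -/
theorem T_triv : ∀ (m : ℕ) (Z : Type w) [Fintype Z] [DecidableEq Z] (σ : H →* Equiv.Perm Z)
    (_ : ∀ h z, σ h z = z) (_ : Z ≃ Fin m) {n : ℕ}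
    (A : (Matrix (Fin n) (Fin n) (MonoidAlgebra R H))ˣ), T σ A = m • K1.cls A := by
  intro m
  induction m with
  | zero =>
    intro Z _ _ σ _ e n A
    have : IsEmpty Z := ⟨fun z => (e z).elim0⟩
    rw [T_empty hKw, zero_smul]
  | succ m ih =>
    intro Z _ _ σ hσ e n A
    set e' : Z ≃ ULift.{w} (Fin m) ⊕ PUnit.{w + 1} :=
      e.trans ((finSumFinEquiv (m := m) (n := 1)).symm.trans
        (Equiv.sumCongr Equiv.ulift.symm (Equiv.ofUnique _ _))) with he'
    rw [T_equiv hKw σ (1 : H →* Equiv.Perm (ULift.{w} (Fin m) ⊕ PUnit.{w + 1})) e' (by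
      intro h x; rw [hσ]; rfl),
      T_sum hKw (1 : H →* Equiv.Perm (ULift.{w} (Fin m))) (1 : H →* Equiv.Perm PUnit.{w + 1}) _
        (fun _ _ => rfl) (fun _ _ => rfl),
      ih (ULift.{w} (Fin m)) 1 (fun _ _ => rfl) Equiv.ulift, T_point hK0 hKw, succ_nsmul]

end triv

section sigma

/-- decomposition of a sigma type over `Fin (b + 1)` -/
def sigmaSucc {b : ℕ} (Z : Fin (b + 1) → Type w) : (Σ j, Z j) ≃ Z 0 ⊕ Σ j : Fin b, Z j.succ where
  toFun s := Fin.cases (motive := fun j => Z j → Z 0 ⊕ Σ j : Fin b, Z j.succ) (fun z => Sum.inl z)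
    (fun j z => Sum.inr ⟨j, z⟩) s.1 s.2
  invFun := Sum.elim (fun z => ⟨0, z⟩) (fun s => ⟨s.1.succ, s.2⟩)
  left_inv := by
    rintro ⟨j, z⟩
    induction j using Fin.cases with
    | zero => rfl
    | succ j => rfl
  right_inv := by
    rintro (z | ⟨j, z⟩) <;> rfl

/-- the class for the cosets of `C` -/
def TQ (C : Subgroup H) [Finite (H ⧸ C)] {n : ℕ} (A : (Matrix (Fin n) (Fin n) (MonoidAlgebra R H))ˣ) :
    K1 (MonoidAlgebra R H) :=
  @T R _ H _ (H ⧸ C) (Fintype.ofFinite _) (Classical.decEq _) (MulAction.toPermHom H (H ⧸ C)) n A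

variable (hK : SpecK.{max u v, v})
include hK

/-- disjoint unions of coset spaces -/
theorem T_sigma [Finite H] : ∀ (b : ℕ) (C : Fin b → Subgroup H) (Z : Type v) [Fintype Z] [DecidableEq Z]
    (σ : H →* Equiv.Perm Z) (e : Z ≃ Σ j, H ⧸ C j)
    (_ : ∀ h z, e (σ h z) = ⟨(e z).1, h • (e z).2⟩) {n : ℕ}
    (A : (Matrix (Fin n) (Fin n) (MonoidAlgebra R H))ˣ), T σ A = ∑ j, TQ (C j) A := by
  intro b
  induction b with
  | zero =>
    intro C Z _ _ σ e _ n A
    have : IsEmpty Z := ⟨fun z => (e z).1.elim0⟩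
    rw [T_empty hK]
    simp
  | succ b ih =>
    intro C Z _ _ σ e he n A
    -- the action on the sum
    set e' : Z ≃ (H ⧸ C 0) ⊕ Σ j : Fin b, H ⧸ C j.succ := e.trans (sigmaSucc fun j => H ⧸ C j) with he'
    letI : Fintype (H ⧸ C 0) := Fintype.ofFinite _
    letI : DecidableEq (H ⧸ C 0) := Classical.decEq _
    letI : ∀ j, Fintype (H ⧸ C j) := fun j => Fintype.ofFinite _
    letI : Fintype (Σ j : Fin b, H ⧸ C j.succ) := Fintype.ofFinite _
    letI : DecidableEq (Σ j : Fin b, H ⧸ C j.succ) := Classical.decEq _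
    -- permutations of the sigma type
    let τ : H →* Equiv.Perm (Σ j : Fin b, H ⧸ C j.succ) :=
      { toFun := fun h => Equiv.sigmaCongrRight fun j => MulAction.toPermHom H (H ⧸ C j.succ) h
        map_one' := by
          ext1 ⟨j, z⟩
          simp
        map_mul' := by
          intro h h'
          ext1 ⟨j, z⟩
          simp [mul_smul] }
    let ρ : H →* Equiv.Perm ((H ⧸ C 0) ⊕ Σ j : Fin b, H ⧸ C j.succ) :=
      { toFun := fun h => Equiv.sumCongr (MulAction.toPermHom H (H ⧸ C 0) h) (τ h)
        map_one' := by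
          ext1 (z | z) <;> simp
        map_mul' := by
          intro h h'
          ext1 (z | z) <;> simp [mul_smul] }
    rw [T_equiv hK σ ρ e' (by
      intro h z
      have h1 := he h z
      rw [he', Equiv.trans_apply, Equiv.trans_apply, h1]
      generalize e z = s
      obtain ⟨j, y⟩ := s
      induction j using Fin.cases with
      | zero => rfl
      | succ j => rfl),
      T_sum hK (MulAction.toPermHom H (H ⧸ C 0)) τ ρ (fun _ _ => rfl) (fun _ _ => rfl),
      ih (fun j => C j.succ) _ τ (Equiv.refl _) (fun _ _ => rfl), Fin.sum_univ_succ]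
    rfl

/-- cosets: the class comes from the subgroup -/
theorem TQ_mem (C : Subgroup H) [Finite (H ⧸ C)] {n : ℕ}
    (A : (Matrix (Fin n) (Fin n) (MonoidAlgebra R H))ˣ) :
    ∃ y : K1 (MonoidAlgebra R C), TQ C A = K1.map (MonoidAlgebra.mapDomainRingHom R C.subtype) y := by
  letI : Fintype (H ⧸ C) := Fintype.ofFinite _
  letI : DecidableEq (H ⧸ C) := Classical.decEq _
  -- representatives
  set s : H ⧸ C → H := Quotient.out with hs
  have hsx : ∀ x : H ⧸ C, (s x : H ⧸ C) = x := fun x => Quotient.out_eq' x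
  have hmem : ∀ (h : H) (x' : H ⧸ C), (s (h • x'))⁻¹ * (h * s x') ∈ C := by
    intro h x'
    rw [← QuotientGroup.eq, hsx]
    have : ((h * s x' : H) : H ⧸ C) = h • ((s x' : H) : H ⧸ C) := rfl
    rw [this, hsx]
  -- the homomorphism
  let κ : H → H ⧸ C → C := fun h x' => ⟨(s (h • x'))⁻¹ * (h * s x'), hmem h x'⟩
  let ρ0 : H →* Matrix (H ⧸ C) (H ⧸ C) (MonoidAlgebra R C) :=
    { toFun := fun h => Matrix.of fun x x' => if x = h • x' then MonoidAlgebra.single (κ h x') 1 else 0
      map_one' := by
        ext1 x x'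
        simp only [Matrix.of_apply, one_smul, Matrix.one_apply]
        by_cases hx : x = x'
        · rw [if_pos hx, if_pos hx]
          have : κ 1 x' = 1 := by
            apply Subtype.ext
            change (s ((1 : H) • x'))⁻¹ * (1 * s x') = 1
            rw [one_smul, one_mul, inv_mul_cancel]
          rw [this]; rfl
        · rw [if_neg hx, if_neg hx]
      map_mul' := by
        intro h h'
        ext1 x x'
        rw [Matrix.mul_apply]
        simp only [Matrix.of_apply]
        rw [Finset.sum_eq_single (h' • x')]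
        · rw [if_pos rfl, smul_smul]
          by_cases hx : x = (h * h') • x'
          · rw [if_pos hx, if_pos hx, MonoidAlgebra.single_mul_single, one_mul]
            congr 1
            apply Subtype.ext
            change (s ((h * h') • x'))⁻¹ * (h * h' * s x')
              = ((s (h • (h' • x')))⁻¹ * (h * s (h' • x'))) * ((s (h' • x'))⁻¹ * (h' * s x'))
            rw [smul_smul]
            group
          · rw [if_neg hx, if_neg hx, zero_mul]
        · intro y _ hy
          rw [if_neg hy, mul_zero]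
        · intro h0
          exact absurd (mem_univ _) h0 }
  let ρ : MonoidAlgebra R H →+* Matrix (H ⧸ C) (H ⧸ C) (MonoidAlgebra R C) :=
    (MonoidAlgebra.lift R (Matrix (H ⧸ C) (H ⧸ C) (MonoidAlgebra R C)) H ρ0).toRingHom
  have hρ : ∀ (h : H) (r : R) (x x' : H ⧸ C), ρ (MonoidAlgebra.single h r) x x'
      = if x = h • x' then MonoidAlgebra.single (κ h x') r else 0 := by
    intro h r x x'
    have e : ρ (MonoidAlgebra.single h r) = r • ρ0 h := MonoidAlgebra.lift_single _ _ _
    rw [e, Matrix.smul_apply]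
    change r • (if x = h • x' then (MonoidAlgebra.single (κ h x') 1 : MonoidAlgebra R C) else 0) = _
    split_ifs
    · rw [MonoidAlgebra.smul_single, smul_eq_mul, mul_one]
    · rw [smul_zero]
  set inc : MonoidAlgebra R C →+* MonoidAlgebra R H := MonoidAlgebra.mapDomainRingHom R C.subtype with hinc
  -- conjugation
  have key : ∀ (a : MonoidAlgebra R H) (x x' : H ⧸ C), inc (ρ a x x')
      = MonoidAlgebra.single (s x)⁻¹ 1 * psi (MulAction.toPermHom H (H ⧸ C)) a x x'
        * MonoidAlgebra.single (s x') 1 := by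
    intro a x x'
    induction a using MonoidAlgebra.induction_linear with
    | zero => simp
    | add a b ha hb =>
      rw [map_add, map_add, Matrix.add_apply, Matrix.add_apply, map_add, ha, hb, mul_add, add_mul]
    | single h r =>
      rw [hρ, psi_single]
      have e1 : (MulAction.toPermHom H (H ⧸ C)) h x' = h • x' := rfl
      rw [e1]
      split_ifs with hx
      · rw [MonoidAlgebra.single_mul_single, MonoidAlgebra.single_mul_single, one_mul, mul_one, hinc,
          hx]
        have e2 : MonoidAlgebra.mapDomainRingHom R C.subtype (MonoidAlgebra.single (κ h x') r)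
            = MonoidAlgebra.single (C.subtype (κ h x')) r := by
          simp
        rw [e2]
        congr 1
        change (s (h • x'))⁻¹ * (h * s x') = (s (h • x'))⁻¹ * h * s x'
        group
      · rw [map_zero, mul_zero, zero_mul]
  -- the class over the subgroup
  set P : Matrix (Fin n) (Fin n) (MonoidAlgebra R H) →+*
      Matrix (Fin n × (H ⧸ C)) (Fin n × (H ⧸ C)) (MonoidAlgebra R C) :=
    (Matrix.compRingEquiv (Fin n) (H ⧸ C) (MonoidAlgebra R C)).toRingHom.comp ρ.mapMatrix with hP
  refine ⟨K1.clsF (Units.map P.toMonoidHom A), ?_⟩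
  rw [hK.map]
  -- the diagonal matrix
  have hd : ∀ g g' : Fin n × (H ⧸ C) → H, (∀ i, g i * g' i = 1) →
      Matrix.diagonal (fun i => (MonoidAlgebra.single (g i) 1 : MonoidAlgebra R H))
        * Matrix.diagonal (fun i => (MonoidAlgebra.single (g' i) 1 : MonoidAlgebra R H)) = 1 := by
    intro g g' hg
    rw [Matrix.diagonal_mul_diagonal, ← Matrix.diagonal_one]
    congr 1
    ext1 i
    rw [MonoidAlgebra.single_mul_single, hg, one_mul]
    rfl
  let D : (Matrix (Fin n × (H ⧸ C)) (Fin n × (H ⧸ C)) (MonoidAlgebra R H))ˣ :=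
    ⟨Matrix.diagonal fun i => MonoidAlgebra.single (s i.2)⁻¹ 1,
      Matrix.diagonal fun i => MonoidAlgebra.single (s i.2) 1,
      hd _ _ (fun i => inv_mul_cancel _), hd _ _ (fun i => mul_inv_cancel _)⟩
  have hfin : Units.map inc.mapMatrix.toMonoidHom (Units.map P.toMonoidHom A)
      = D * Units.map (Psi (MulAction.toPermHom H (H ⧸ C)) n).toMonoidHom A * D⁻¹ := by
    apply Units.ext
    ext1 ⟨i, x⟩ ⟨j, x'⟩
    change inc (ρ (A.val i j) x x') = (Matrix.diagonal (fun i : Fin n × (H ⧸ C) =>
        (MonoidAlgebra.single (s i.2)⁻¹ 1 : MonoidAlgebra R H))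
      * Psi (MulAction.toPermHom H (H ⧸ C)) n A.val
      * Matrix.diagonal (fun i : Fin n × (H ⧸ C) => (MonoidAlgebra.single (s i.2) 1 : MonoidAlgebra R H)))
        (i, x) (j, x')
    rw [Matrix.mul_diagonal, Matrix.diagonal_mul, key]
    rfl
  rw [hfin, clsF_conj hK]
  rfl

end sigma

end SM

end Pool.Agent.Lib.MPb6f35e.WH
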