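import Pool.Agent.Lib.MP_b6f35e_al.WH.K
import Pool.Agent.Lib.MP_b6f35e_al.WH.R

/-!
# Module S: `K_1(ℤ[H])` is generated up to torsion by the cyclic subgroups
-/

set_option autoImplicit false

noncomputable section

namespace Pool.Agent.Lib.MPb6f35e.WH

namespace SZMod

universe u v w w'

/-! ### classes of matrices indexed by finite types, universe free -/

section K

variable {A : Type u} [Ring A]

lemma cls_reindex_perm {n : ℕ} (σ : Fin n ≃ Fin n) (x : (Matrix (Fin n) (Fin n) A)ˣ) :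
    K1.cls (Units.map (Matrix.reindexRingEquiv A σ).toMonoidHom x) = K1.cls x := by
  let P : Matrix (Fin n) (Fin n) A := (1 : Matrix (Fin n) (Fin n) A).submatrix σ.symm id
  let P' : Matrix (Fin n) (Fin n) A := (1 : Matrix (Fin n) (Fin n) A).submatrix id σ.symm
  have h1 : P * P' = 1 := by
    ext i j
    simp [P, P', Matrix.mul_apply, Matrix.submatrix_apply, Matrix.one_apply]
  have h2 : P' * P = 1 := by
    ext i j
    simp only [P, P', Matrix.mul_apply, Matrix.submatrix_apply, Matrix.one_apply, id]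
    rw [Finset.sum_eq_single (σ i)]
    · simp
    · intro b _ hb
      have : ¬ i = σ.symm b := fun h => hb (by rw [h]; simp)
      simp [this]
    · simp
  let s : (Matrix (Fin n) (Fin n) A)ˣ := ⟨P, P', h1, h2⟩
  rw [← K1.cls_conj x s]
  congr 1
  apply Units.ext
  show Matrix.reindexRingEquiv A σ (x : Matrix (Fin n) (Fin n) A) = P * x * P'
  ext i j
  simp only [P, P', Matrix.mul_apply, Matrix.submatrix_apply, Matrix.one_apply, id,
    Matrix.coe_reindexRingEquiv, Matrix.reindex_apply]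
  simp

/-- The class can be computed with any bijection with `Fin n`. -/
lemma clsF_eq {ι : Type w} [Fintype ι] [DecidableEq ι] {n : ℕ} (e : ι ≃ Fin n)
    (x : (Matrix ι ι A)ˣ) :
    K1.clsF x = K1.cls (Units.map (Matrix.reindexRingEquiv A e).toMonoidHom x) := by
  have hn : Fintype.card ι = n := by
    rw [Fintype.card_congr e, Fintype.card_fin]
  subst hn
  rw [K1.clsF, ← cls_reindex_perm (e.symm.trans (Fintype.equivFin ι))
    (Units.map (Matrix.reindexRingEquiv A e).toMonoidHom x)]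
  congr 1
  apply Units.ext
  ext i j
  simp [Matrix.coe_reindexRingEquiv]

lemma clsF_reindex {ι : Type w} {κ : Type w'} [Fintype ι] [DecidableEq ι] [Fintype κ]
    [DecidableEq κ] (e : ι ≃ κ) (x : (Matrix ι ι A)ˣ) :
    K1.clsF (Units.map (Matrix.reindexRingEquiv A e).toMonoidHom x) = K1.clsF x := by
  rw [clsF_eq (Fintype.equivFin κ), clsF_eq (e.trans (Fintype.equivFin κ)) x]
  congr 1

lemma clsF_reindex' {ι : Type w} {κ : Type w'} [Fintype ι] [DecidableEq ι] [Fintype κ]
    [DecidableEq κ] (e : ι ≃ κ) (x : (Matrix ι ι A)ˣ) (y : (Matrix κ κ A)ˣ)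
    (h : ∀ i j, (y : Matrix κ κ A) (e i) (e j) = (x : Matrix ι ι A) i j) :
    K1.clsF y = K1.clsF x := by
  rw [← clsF_reindex e x]
  congr 1
  apply Units.ext
  ext i j
  have := h (e.symm i) (e.symm j)
  rw [Equiv.apply_symm_apply, Equiv.apply_symm_apply] at this
  rw [this]
  rfl

lemma clsF_mul {ι : Type w} [Fintype ι] [DecidableEq ι] (x y : (Matrix ι ι A)ˣ) :
    K1.clsF (x * y) = K1.clsF x + K1.clsF y := by
  rw [K1.clsF, _root_.map_mul, K1.cls_mul]
  rfl

lemma clsF_one {ι : Type w} [Fintype ι] [DecidableEq ι] :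
    K1.clsF (1 : (Matrix ι ι A)ˣ) = 0 := by
  have := clsF_mul (1 : (Matrix ι ι A)ˣ) 1
  rw [mul_one] at this
  simpa using this.symm

lemma clsF_pow {ι : Type w} [Fintype ι] [DecidableEq ι] (x : (Matrix ι ι A)ˣ) (n : ℕ) :
    K1.clsF (x ^ n) = n • K1.clsF x := by
  induction n with
  | zero => rw [pow_zero, clsF_one, zero_smul]
  | succ n ih => rw [pow_succ, clsF_mul, ih, succ_nsmul]

lemma clsF_conj {ι : Type w} [Fintype ι] [DecidableEq ι] (u s : (Matrix ι ι A)ˣ) :
    K1.clsF (s * u * s⁻¹) = K1.clsF u := by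
  have h1 : K1.clsF (s * u * s⁻¹) + K1.clsF s = K1.clsF u + K1.clsF s := by
    rw [← clsF_mul, inv_mul_cancel_right, clsF_mul, add_comm]
  exact add_right_cancel h1

lemma clsF_block {ι : Type w} {κ : Type w'} [Fintype ι] [DecidableEq ι] [Fintype κ]
    [DecidableEq κ] (x : (Matrix ι ι A)ˣ) (y : (Matrix κ κ A)ˣ)
    (z : (Matrix (ι ⊕ κ) (ι ⊕ κ) A)ˣ)
    (h : (z : Matrix (ι ⊕ κ) (ι ⊕ κ) A) = Matrix.fromBlocks (x : Matrix ι ι A) 0 0
      (y : Matrix κ κ A)) : K1.clsF z = K1.clsF x + K1.clsF y := by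
  rw [clsF_eq (Fintype.equivFin ι) x, clsF_eq (Fintype.equivFin κ) y,
    clsF_eq ((Equiv.sumCongr (Fintype.equivFin ι) (Fintype.equivFin κ)).trans finSumFinEquiv) z]
  refine K1.cls_block _ _ _ 0 ?_
  show Matrix.reindexRingEquiv A _ (z : Matrix (ι ⊕ κ) (ι ⊕ κ) A) = _
  rw [h]
  ext i j
  simp only [Matrix.coe_reindexRingEquiv, Matrix.reindex_apply, Matrix.submatrix_apply]
  rcases hi : finSumFinEquiv.symm i with a | a <;> rcases hj : finSumFinEquiv.symm j with b | b <;>
    simp [Matrix.fromBlocks, hi, hj, Matrix.coe_reindexRingEquiv]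

lemma clsF_empty {ι : Type w} [Fintype ι] [DecidableEq ι] [IsEmpty ι] (x : (Matrix ι ι A)ˣ) :
    K1.clsF x = 0 := by
  have : x = 1 := by
    apply Units.ext
    ext i
    exact isEmptyElim i
  rw [this, clsF_one]

lemma map_clsF {B : Type w'} [Ring B] (f : A →+* B) {ι : Type w} [Fintype ι] [DecidableEq ι]
    (x : (Matrix ι ι A)ˣ) :
    K1.map f (K1.clsF x) = K1.clsF (Units.map f.mapMatrix.toMonoidHom x) := by
  rw [K1.clsF, K1.map_cls, K1.clsF]
  congr 1

/-- Block diagonal matrices. -/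
lemma clsF_sigma : ∀ (a : ℕ) (Z : Fin a → Type w) [∀ i, Fintype (Z i)] [∀ i, DecidableEq (Z i)]
    (x : ∀ i, (Matrix (Z i) (Z i) A)ˣ) (z : (Matrix (Σ i, Z i) (Σ i, Z i) A)ˣ)
    (_ : (z : Matrix (Σ i, Z i) (Σ i, Z i) A) =
      Matrix.blockDiagonal' (fun i => (x i : Matrix (Z i) (Z i) A))),
    K1.clsF z = ∑ i, K1.clsF (x i) := by
  intro a
  induction a with
  | zero =>
    intro Z _ _ x z _
    rw [clsF_empty, Finset.univ_eq_empty, Finset.sum_empty]
  | succ a ih =>
    intro Z _ _ x z hz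
    let e : (Σ i, Z i) ≃ Z 0 ⊕ Σ i : Fin a, Z i.succ :=
      { toFun := fun z => Fin.cases (motive := fun i => Z i → Z 0 ⊕ Σ i : Fin a, Z i.succ)
          (fun y => Sum.inl y) (fun i y => Sum.inr ⟨i, y⟩) z.1 z.2
        invFun := fun z => match z with
          | Sum.inl y => ⟨0, y⟩
          | Sum.inr y => ⟨y.1.succ, y.2⟩
        left_inv := by
          rintro ⟨i, y⟩
          induction i using Fin.cases with
          | zero => rfl
          | succ i => rfl
        right_inv := by rintro (y | ⟨i, y⟩) <;> rfl }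
    rw [Fin.sum_univ_succ]
    let t : (Matrix (Σ i : Fin a, Z i.succ) (Σ i : Fin a, Z i.succ) A)ˣ :=
      ⟨Matrix.blockDiagonal' (fun i : Fin a => (x i.succ : Matrix (Z i.succ) (Z i.succ) A)),
        Matrix.blockDiagonal' (fun i : Fin a =>
          (((x i.succ)⁻¹ : (Matrix (Z i.succ) (Z i.succ) A)ˣ) : Matrix (Z i.succ) (Z i.succ) A)),
        by
          rw [← Matrix.blockDiagonal'_mul]
          simp only [Units.mul_inv]
          exact Matrix.blockDiagonal'_one,
        by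
          rw [← Matrix.blockDiagonal'_mul]
          simp only [Units.inv_mul]
          exact Matrix.blockDiagonal'_one⟩
    rw [← ih (fun i => Z i.succ) (fun i => x i.succ) t rfl]
    rw [← clsF_reindex e z]
    apply clsF_block
    show Matrix.reindexRingEquiv A e (z : Matrix (Σ i, Z i) (Σ i, Z i) A) = _
    rw [hz]
    ext i j
    simp only [Matrix.coe_reindexRingEquiv, Matrix.reindex_apply, Matrix.submatrix_apply]
    rcases i with i | ⟨i, y⟩ <;> rcases j with j | ⟨j, y'⟩
    · show Matrix.blockDiagonal' _ ⟨0, i⟩ ⟨0, j⟩ = _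
      rw [Matrix.blockDiagonal'_apply_eq]
      rfl
    · show Matrix.blockDiagonal' _ ⟨0, i⟩ ⟨j.succ, y'⟩ = _
      rw [Matrix.blockDiagonal'_apply_ne _ _ _ (Fin.succ_ne_zero j).symm]
      rfl
    · show Matrix.blockDiagonal' _ ⟨i.succ, y⟩ ⟨0, j⟩ = _
      rw [Matrix.blockDiagonal'_apply_ne _ _ _ (Fin.succ_ne_zero i)]
      rfl
    · show Matrix.blockDiagonal' _ ⟨i.succ, y⟩ ⟨j.succ, y'⟩ =
        Matrix.blockDiagonal' (fun i : Fin a => (x i.succ : Matrix (Z i.succ) (Z i.succ) A))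
          ⟨i, y⟩ ⟨j, y'⟩
      by_cases hij : i = j
      · subst hij
        rw [Matrix.blockDiagonal'_apply_eq, Matrix.blockDiagonal'_apply_eq]
      · rw [Matrix.blockDiagonal'_apply_ne _ _ _ hij,
          Matrix.blockDiagonal'_apply_ne _ _ _ (fun h => hij (Fin.succ_injective _ h))]

end K

/-! ### the homomorphisms `ψ` -/

section Psi

variable {H : Type v} [Group H] {Z : Type w} [Fintype Z] [DecidableEq Z]

/-- The monomial matrix of `h`. -/
def mon (ρ : H →* Equiv.Perm Z) : H →* Matrix Z Z (MonoidAlgebra ℤ H) where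
  toFun h := Matrix.of fun z z' => if z = ρ h z' then MonoidAlgebra.single h 1 else 0
  map_one' := by
    ext1 i j
    rw [Matrix.of_apply, Matrix.one_apply, map_one, Equiv.Perm.one_apply]
    rfl
  map_mul' g h := by
    ext1 i j
    rw [Matrix.mul_apply, Finset.sum_eq_single (ρ h j)]
    · simp only [Matrix.of_apply, map_mul, Equiv.Perm.mul_apply]
      by_cases hi : i = (ρ g) ((ρ h) j)
      · rw [if_pos hi, if_pos hi, if_true, MonoidAlgebra.single_mul_single, one_mul]
      · rw [if_neg hi, if_neg hi, zero_mul]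
    · intro b _ hb
      simp only [Matrix.of_apply]
      rw [if_neg hb, mul_zero]
    · simp

/-- `ψ(Σ a_h h) = Σ a_h ρ(h) h`, with values in matrices over `ℤ[H]`. -/
def psi (ρ : H →* Equiv.Perm Z) : MonoidAlgebra ℤ H →+* Matrix Z Z (MonoidAlgebra ℤ H) :=
  (MonoidAlgebra.lift ℤ (Matrix Z Z (MonoidAlgebra ℤ H)) H (mon ρ)).toRingHom

lemma psi_single (ρ : H →* Equiv.Perm Z) (h : H) (r : ℤ) (z z' : Z) :
    psi ρ (MonoidAlgebra.single h r) z z' =
      if z = ρ h z' then MonoidAlgebra.single h r else 0 := by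
  show (MonoidAlgebra.lift ℤ (Matrix Z Z (MonoidAlgebra ℤ H)) H (mon ρ)
    (MonoidAlgebra.single h r)) z z' = _
  rw [MonoidAlgebra.lift_single, Matrix.smul_apply]
  show r • (if z = ρ h z' then MonoidAlgebra.single h (1 : ℤ) else 0) = _
  split
  · rw [MonoidAlgebra.smul_single]; simp
  · simp

/-- `ψ` on matrices. -/
def Psi (ρ : H →* Equiv.Perm Z) (n : ℕ) :
    Matrix (Fin n) (Fin n) (MonoidAlgebra ℤ H) →+*
      Matrix (Fin n × Z) (Fin n × Z) (MonoidAlgebra ℤ H) :=
  (Matrix.compRingEquiv (Fin n) Z (MonoidAlgebra ℤ H)).toRingHom.comp (psi ρ).mapMatrix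

lemma Psi_apply (ρ : H →* Equiv.Perm Z) {n : ℕ} (u : Matrix (Fin n) (Fin n) (MonoidAlgebra ℤ H))
    (i j : Fin n) (z z' : Z) : Psi ρ n u (i, z) (j, z') = psi ρ (u i j) z z' := rfl

/-- The class of `Ψ(u)`. -/
def kap (ρ : H →* Equiv.Perm Z) {n : ℕ} (u : (Matrix (Fin n) (Fin n) (MonoidAlgebra ℤ H))ˣ) :
    K1 (MonoidAlgebra ℤ H) :=
  K1.clsF (Units.map (Psi ρ n).toMonoidHom u)

/-- Equivariant bijections. -/
lemma psi_equiv {Z' : Type w'} [Fintype Z'] [DecidableEq Z'] (ρ : H →* Equiv.Perm Z)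
    (ρ' : H →* Equiv.Perm Z') (e : Z ≃ Z') (he : ∀ h z, e (ρ h z) = ρ' h (e z))
    (a : MonoidAlgebra ℤ H) (z z' : Z) : psi ρ' a (e z) (e z') = psi ρ a z z' := by
  induction a using MonoidAlgebra.induction_linear with
  | zero => simp
  | add x y hx hy => simp only [map_add, Matrix.add_apply, hx, hy]
  | single h r =>
    rw [psi_single, psi_single, ← he]
    simp only [e.injective.eq_iff]

lemma kap_equiv {Z' : Type w'} [Fintype Z'] [DecidableEq Z'] (ρ : H →* Equiv.Perm Z)
    (ρ' : H →* Equiv.Perm Z') (e : Z ≃ Z') (he : ∀ h z, e (ρ h z) = ρ' h (e z)) {n : ℕ}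
    (u : (Matrix (Fin n) (Fin n) (MonoidAlgebra ℤ H))ˣ) : kap ρ' u = kap ρ u := by
  refine clsF_reindex' (Equiv.prodCongr (Equiv.refl (Fin n)) e) _ _ ?_
  rintro ⟨i, z⟩ ⟨j, z'⟩
  exact psi_equiv ρ ρ' e he _ z z'

/-- Disjoint union of two. -/
def sumPerm {Z' : Type w'} (ρ : H →* Equiv.Perm Z) (ρ' : H →* Equiv.Perm Z') :
    H →* Equiv.Perm (Z ⊕ Z') :=
  (Equiv.Perm.sumCongrHom Z Z').comp (ρ.prod ρ')

lemma kap_sum {Z' : Type w'} [Fintype Z'] [DecidableEq Z'] (ρ : H →* Equiv.Perm Z)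
    (ρ' : H →* Equiv.Perm Z') {n : ℕ} (u : (Matrix (Fin n) (Fin n) (MonoidAlgebra ℤ H))ˣ) :
    kap (sumPerm ρ ρ') u = kap ρ u + kap ρ' u := by
  have h1 : ∀ (a : MonoidAlgebra ℤ H) (z z' : Z),
      psi (sumPerm ρ ρ') a (Sum.inl z) (Sum.inl z') = psi ρ a z z' := by
    intro a z z'
    induction a using MonoidAlgebra.induction_linear with
    | zero => simp
    | add x y hx hy => simp only [map_add, Matrix.add_apply, hx, hy]
    | single h r =>
      rw [psi_single, psi_single]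
      have : (Sum.inl z : Z ⊕ Z') = sumPerm ρ ρ' h (Sum.inl z') ↔ z = ρ h z' := by
        show (Sum.inl z : Z ⊕ Z') = Sum.inl (ρ h z') ↔ _
        simp
      simp only [this]
  have h2 : ∀ (a : MonoidAlgebra ℤ H) (z z' : Z'),
      psi (sumPerm ρ ρ') a (Sum.inr z) (Sum.inr z') = psi ρ' a z z' := by
    intro a z z'
    induction a using MonoidAlgebra.induction_linear with
    | zero => simp
    | add x y hx hy => simp only [map_add, Matrix.add_apply, hx, hy]
    | single h r =>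
      rw [psi_single, psi_single]
      have : (Sum.inr z : Z ⊕ Z') = sumPerm ρ ρ' h (Sum.inr z') ↔ z = ρ' h z' := by
        show (Sum.inr z : Z ⊕ Z') = Sum.inr (ρ' h z') ↔ _
        simp
      simp only [this]
  have h3 : ∀ (a : MonoidAlgebra ℤ H) (z : Z) (z' : Z'),
      psi (sumPerm ρ ρ') a (Sum.inl z) (Sum.inr z') = 0 := by
    intro a z z'
    induction a using MonoidAlgebra.induction_linear with
    | zero => simp
    | add x y hx hy => simp only [map_add, Matrix.add_apply, hx, hy, add_zero]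
    | single h r =>
      rw [psi_single, if_neg]
      show ¬ (Sum.inl z : Z ⊕ Z') = Sum.inr (ρ' h z')
      simp
  have h4 : ∀ (a : MonoidAlgebra ℤ H) (z : Z') (z' : Z),
      psi (sumPerm ρ ρ') a (Sum.inr z) (Sum.inl z') = 0 := by
    intro a z z'
    induction a using MonoidAlgebra.induction_linear with
    | zero => simp
    | add x y hx hy => simp only [map_add, Matrix.add_apply, hx, hy, add_zero]
    | single h r =>
      rw [psi_single, if_neg]
      show ¬ (Sum.inr z : Z ⊕ Z') = Sum.inl (ρ h z')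
      simp
  rw [kap, ← clsF_reindex (Equiv.prodSumDistrib (Fin n) Z Z')]
  apply clsF_block
  ext1 i j
  rcases i with ⟨i, z⟩ | ⟨i, z⟩ <;> rcases j with ⟨j, z'⟩ | ⟨j, z'⟩
  · exact h1 _ z z'
  · exact h3 _ z z'
  · exact h4 _ z z'
  · exact h2 _ z z'

/-- Disjoint union of a family. -/
def sigmaPerm {a : ℕ} {Y : Fin a → Type w} (ρ : ∀ i, H →* Equiv.Perm (Y i)) :
    H →* Equiv.Perm (Σ i, Y i) :=
  (Equiv.Perm.sigmaCongrRightHom Y).comp (MonoidHom.pi ρ)

lemma kap_sigma {a : ℕ} {Y : Fin a → Type w} [∀ i, Fintype (Y i)] [∀ i, DecidableEq (Y i)]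
    (ρ : ∀ i, H →* Equiv.Perm (Y i)) {n : ℕ}
    (u : (Matrix (Fin n) (Fin n) (MonoidAlgebra ℤ H))ˣ) :
    kap (sigmaPerm ρ) u = ∑ i, kap (ρ i) u := by
  have hap : ∀ (h : H) (i : Fin a) (y : Y i), sigmaPerm ρ h ⟨i, y⟩ = ⟨i, ρ i h y⟩ :=
    fun _ _ _ => rfl
  have h1 : ∀ (x : MonoidAlgebra ℤ H) (i : Fin a) (z z' : Y i),
      psi (sigmaPerm ρ) x ⟨i, z⟩ ⟨i, z'⟩ = psi (ρ i) x z z' := by
    intro a i z z'
    induction a using MonoidAlgebra.induction_linear with
    | zero => simp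
    | add x y hx hy => simp only [map_add, Matrix.add_apply, hx, hy]
    | single h r =>
      rw [psi_single, psi_single, hap]
      have : (⟨i, z⟩ : Σ i, Y i) = ⟨i, ρ i h z'⟩ ↔ z = ρ i h z' := by
        constructor
        · intro hh
          rw [Sigma.mk.injEq] at hh
          exact eq_of_heq hh.2
        · intro hh; rw [hh]
      simp only [this]
  have h2 : ∀ (x : MonoidAlgebra ℤ H) (i j : Fin a) (_ : i ≠ j) (z : Y i) (z' : Y j),
      psi (sigmaPerm ρ) x ⟨i, z⟩ ⟨j, z'⟩ = 0 := by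
    intro a i j hij z z'
    induction a using MonoidAlgebra.induction_linear with
    | zero => simp
    | add x y hx hy => simp only [map_add, Matrix.add_apply, hx, hy, add_zero]
    | single h r =>
      rw [psi_single, hap, if_neg]
      intro hh
      rw [Sigma.mk.injEq] at hh
      exact hij hh.1
  let e : (Fin n × Σ i, Y i) ≃ (Σ i, Fin n × Y i) :=
    { toFun := fun x => ⟨x.2.1, x.1, x.2.2⟩
      invFun := fun x => ⟨x.2.1, x.1, x.2.2⟩
      left_inv := fun _ => rfl
      right_inv := fun _ => rfl }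
  rw [kap, ← clsF_reindex e]
  apply clsF_sigma
  ext1 i j
  rcases i with ⟨i, k, z⟩
  rcases j with ⟨j, l, z'⟩
  by_cases hij : i = j
  · subst hij
    rw [Matrix.blockDiagonal'_apply_eq]
    exact h1 _ i z z'
  · rw [Matrix.blockDiagonal'_apply_ne _ _ _ hij]
    exact h2 _ i j hij z z'

/-- Trivial action on `m` points. -/
lemma kap_triv (m : ℕ) {n : ℕ} (u : (Matrix (Fin n) (Fin n) (MonoidAlgebra ℤ H))ˣ) :
    kap (1 : H →* Equiv.Perm (Fin m)) u = m • K1.cls u := by
  have h0 : ∀ a : MonoidAlgebra ℤ H, ∀ z : Fin 1, psi (1 : H →* Equiv.Perm (Fin 1)) a z z = a := by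
    intro a z
    induction a using MonoidAlgebra.induction_linear with
    | zero => simp
    | add x y hx hy => simp only [map_add, Matrix.add_apply, hx, hy]
    | single h r => rw [psi_single]; simp
  have h1 : kap (1 : H →* Equiv.Perm (Fin 1)) u = K1.cls u := by
    rw [kap, clsF_eq (Equiv.prodUnique (Fin n) (Fin 1))]
    congr 1
    apply Units.ext
    ext1 i j
    exact h0 _ _
  have h2 := kap_equiv (sigmaPerm (fun _ : Fin m => (1 : H →* Equiv.Perm (Fin 1))))
    (1 : H →* Equiv.Perm (Fin m))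
    { toFun := fun x => x.1
      invFun := fun x => ⟨x, 0⟩
      left_inv := by rintro ⟨x, y⟩; fin_cases y; rfl
      right_inv := fun _ => rfl } (fun h z => rfl) u
  rw [h2, kap_sigma, Finset.sum_congr rfl (fun _ _ => h1), Finset.sum_const, Finset.card_univ,
    Fintype.card_fin]

end Psi

/-! ### the intertwiner -/

section Inter

variable {H : Type v} [Group H] {X Y : Type v} [Fintype X] [DecidableEq X] [Fintype Y]
  [DecidableEq Y]

lemma psi_inter (ρ : H →* Equiv.Perm X) (σ : H →* Equiv.Perm Y) (F : Matrix Y X ℤ)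
    (hF : ∀ h y x, F (σ h y) (ρ h x) = F y x) (a : MonoidAlgebra ℤ H) (y : Y) (x : X) :
    ∑ y', psi σ a y y' * (F y' x : MonoidAlgebra ℤ H) =
      ∑ x', (F y x' : MonoidAlgebra ℤ H) * psi ρ a x' x := by
  induction a using MonoidAlgebra.induction_linear with
  | zero => simp
  | add a b ha hb =>
    simp only [map_add, Matrix.add_apply, add_mul, mul_add, Finset.sum_add_distrib, ha, hb]
  | single h r =>
    simp only [psi_single]
    rw [Finset.sum_eq_single ((σ h).symm y), Finset.sum_eq_single (ρ h x)]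
    · rw [if_pos (by rw [Equiv.apply_symm_apply]), if_pos rfl]
      have h1 := hF h ((σ h).symm y) x
      rw [Equiv.apply_symm_apply] at h1
      rw [h1]
      exact (Int.cast_commute _ _).symm
    · intro b _ hb
      rw [if_neg hb, mul_zero]
    · simp
    · intro b _ hb
      rw [if_neg, zero_mul]
      intro hh
      apply hb
      rw [hh, Equiv.symm_apply_apply]
    · simp

/-- `1 ⊗ F` -/
def ten (H : Type v) [Group H] (n : ℕ) (F : Matrix Y X ℤ) :
    Matrix (Fin n × Y) (Fin n × X) (MonoidAlgebra ℤ H) :=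
  Matrix.of fun i j => if i.1 = j.1 then (F i.2 j.2 : MonoidAlgebra ℤ H) else 0

omit [DecidableEq X] [Fintype Y] in
lemma ten_mul (n : ℕ) (F : Matrix Y X ℤ) (F' : Matrix X Y ℤ) (d : ℤ) (h : F * F' = d • 1) :
    ten H n F * ten H n F' = d • (1 : Matrix (Fin n × Y) (Fin n × Y) (MonoidAlgebra ℤ H)) := by
  ext1 ⟨i, y⟩ ⟨j, y'⟩
  rw [Matrix.mul_apply, Fintype.sum_prod_type, Finset.sum_eq_single i]
  · have h1 : ∀ x : X, ten H n F (i, y) (i, x) * ten H n F' (i, x) (j, y') =
        if i = j then ((F y x * F' x y' : ℤ) : MonoidAlgebra ℤ H) else 0 := by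
      intro x
      simp only [ten, Matrix.of_apply, if_true]
      split
      · push_cast; rfl
      · rw [mul_zero]
    rw [Finset.sum_congr rfl (fun x _ => h1 x)]
    have h2 := congrFun (congrFun h y) y'
    rw [Matrix.mul_apply, Matrix.smul_apply, Matrix.one_apply] at h2
    rw [Matrix.smul_apply, Matrix.one_apply]
    by_cases hij : i = j
    · subst hij
      simp only [if_true]
      rw [← Int.cast_sum, h2]
      by_cases hy : y = y'
      · subst hy; simp
      · have : ¬ ((i, y) : Fin n × Y) = (i, y') := fun hh => hy (Prod.mk.inj hh).2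
        simp [hy]
    · have : ¬ ((i, y) : Fin n × Y) = (j, y') := fun hh => hij (Prod.mk.inj hh).1
      simp [hij]
  · intro k _ hk
    apply Finset.sum_eq_zero
    intro x _
    simp only [ten, Matrix.of_apply]
    rw [if_neg (fun hh => hk hh.symm), zero_mul]
  · simp

lemma Psi_inter (ρ : H →* Equiv.Perm X) (σ : H →* Equiv.Perm Y) (F : Matrix Y X ℤ)
    (hF : ∀ h y x, F (σ h y) (ρ h x) = F y x) {n : ℕ}
    (u : Matrix (Fin n) (Fin n) (MonoidAlgebra ℤ H)) :
    Psi σ n u * ten H n F = ten H n F * Psi ρ n u := by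
  ext1 ⟨i, y⟩ ⟨j, x⟩
  rw [Matrix.mul_apply, Matrix.mul_apply, Fintype.sum_prod_type, Fintype.sum_prod_type,
    Finset.sum_eq_single j, Finset.sum_eq_single i]
  · simp only [ten, Matrix.of_apply, if_true, Psi_apply]
    exact psi_inter ρ σ F hF _ _ _
  · intro k _ hk
    apply Finset.sum_eq_zero
    intro x _
    simp only [ten, Matrix.of_apply]
    rw [if_neg (fun hh => hk hh.symm), zero_mul]
  · simp
  · intro k _ hk
    apply Finset.sum_eq_zero
    intro x _
    simp only [ten, Matrix.of_apply]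
    rw [if_neg hk, mul_zero]
  · simp

lemma exists_div (d : ℤ) (a : MonoidAlgebra ℤ H)
    (h : MonoidAlgebra.mapRingHom H (Int.castRingHom (ZMod d.natAbs)) a = 0) :
    ∃ b : MonoidAlgebra ℤ H, a = d • b := by
  refine ⟨MonoidAlgebra.ofCoeff (a.coeff.mapRange (fun z => z / d) (by simp)), ?_⟩
  ext g
  have h1 : ((a.coeff g : ℤ) : ZMod d.natAbs) = 0 := by
    have := congrArg (fun b : MonoidAlgebra (ZMod d.natAbs) H => b.coeff g) h
    simpa using this
  rw [ZMod.intCast_zmod_eq_zero_iff_dvd, Int.natAbs_dvd] at h1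
  rw [MonoidAlgebra.coeff_smul, Finsupp.smul_apply, MonoidAlgebra.coeff_ofCoeff,
    Finsupp.mapRange_apply, smul_eq_mul, Int.mul_ediv_cancel' h1]

lemma exists_pow [Finite H] {ι : Type w} [Fintype ι] [DecidableEq ι] (d : ℤ) (hd : d ≠ 0)
    (x : (Matrix ι ι (MonoidAlgebra ℤ H))ˣ) :
    ∃ (N : ℕ) (_ : 0 < N) (Z : Matrix ι ι (MonoidAlgebra ℤ H)),
      ((x ^ N : (Matrix ι ι (MonoidAlgebra ℤ H))ˣ) : Matrix ι ι (MonoidAlgebra ℤ H)) =
        1 + d • Z := by
  classical
  have : NeZero d.natAbs := ⟨Int.natAbs_ne_zero.2 hd⟩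
  let f := MonoidAlgebra.mapRingHom H (Int.castRingHom (ZMod d.natAbs))
  have hfin : Finite (MonoidAlgebra (ZMod d.natAbs) H) :=
    Finite.of_injective (fun (a : MonoidAlgebra (ZMod d.natAbs) H) (g : H) => a.coeff g)
      (fun a b hab => MonoidAlgebra.coeff_injective (DFunLike.coe_injective hab))
  have hfin2 : Finite (Matrix ι ι (MonoidAlgebra (ZMod d.natAbs) H)) := inferInstance
  have hfin3 : Finite (Matrix ι ι (MonoidAlgebra (ZMod d.natAbs) H))ˣ := inferInstance
  obtain ⟨N, hN, hN1⟩ := isOfFinOrder_iff_pow_eq_one.1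
    (isOfFinOrder_of_finite (Units.map f.mapMatrix.toMonoidHom x))
  have key : ∀ i j, ∃ b : MonoidAlgebra ℤ H,
      (((x ^ N : (Matrix ι ι (MonoidAlgebra ℤ H))ˣ) : Matrix ι ι (MonoidAlgebra ℤ H)) - 1) i j =
        d • b := by
    intro i j
    apply exists_div
    rw [← map_pow] at hN1
    have h1 := congrArg (fun y : (Matrix ι ι (MonoidAlgebra (ZMod d.natAbs) H))ˣ =>
      (y : Matrix ι ι (MonoidAlgebra (ZMod d.natAbs) H))) hN1
    have h2 : f.mapMatrix ((x ^ N : (Matrix ι ι (MonoidAlgebra ℤ H))ˣ) :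
      Matrix ι ι (MonoidAlgebra ℤ H)) = 1 := h1
    have h3 : f.mapMatrix (((x ^ N : (Matrix ι ι (MonoidAlgebra ℤ H))ˣ) :
      Matrix ι ι (MonoidAlgebra ℤ H)) - 1) = 0 := by
      rw [map_sub, h2, map_one, sub_self]
    exact congrFun (congrFun h3 i) j
  choose Z hZ using key
  refine ⟨N, hN, Matrix.of Z, ?_⟩
  rw [← sub_eq_iff_eq_add']
  ext1 i j
  rw [hZ]
  rfl

/-- Intertwined actions give the same class up to torsion. -/
lemma kap_inter (hK : SpecK.{v, v}) [Finite H] (ρ : H →* Equiv.Perm X) (σ : H →* Equiv.Perm Y)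
    (F : Matrix Y X ℤ) (F' : Matrix X Y ℤ) (d : ℤ) (hd : d ≠ 0) (h1 : F * F' = d • 1)
    (h2 : F' * F = d • 1) (hF : ∀ h y x, F (σ h y) (ρ h x) = F y x) {n : ℕ}
    (u : (Matrix (Fin n) (Fin n) (MonoidAlgebra ℤ H))ˣ) :
    ∃ (N : ℕ) (_ : 0 < N), N • kap ρ u = N • kap σ u := by
  obtain ⟨N, hN, Z, hZ⟩ := exists_pow d hd (Units.map (Psi ρ n).toMonoidHom u)
  refine ⟨N, hN, ?_⟩
  have e1 := ten_mul (H := H) n F F' d h1
  have e2 := ten_mul (H := H) n F' F d h2
  have hx : ((Units.map (Psi ρ n).toMonoidHom u ^ N :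
      (Matrix (Fin n × X) (Fin n × X) (MonoidAlgebra ℤ H))ˣ) :
      Matrix (Fin n × X) (Fin n × X) (MonoidAlgebra ℤ H)) = 1 + (Z * ten H n F') * ten H n F := by
    rw [hZ, Matrix.mul_assoc, e2, Matrix.mul_smul, Matrix.mul_one]
  have hy : ((Units.map (Psi σ n).toMonoidHom u ^ N :
      (Matrix (Fin n × Y) (Fin n × Y) (MonoidAlgebra ℤ H))ˣ) :
      Matrix (Fin n × Y) (Fin n × Y) (MonoidAlgebra ℤ H)) = 1 + ten H n F * (Z * ten H n F') := by
    have h3 : ((Units.map (Psi σ n).toMonoidHom u ^ N :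
        (Matrix (Fin n × Y) (Fin n × Y) (MonoidAlgebra ℤ H))ˣ) :
        Matrix (Fin n × Y) (Fin n × Y) (MonoidAlgebra ℤ H)) =
        Psi σ n ((u ^ N : (Matrix (Fin n) (Fin n) (MonoidAlgebra ℤ H))ˣ) :
          Matrix (Fin n) (Fin n) (MonoidAlgebra ℤ H)) := by
      rw [← map_pow]; rfl
    have h4 : ((Units.map (Psi ρ n).toMonoidHom u ^ N :
        (Matrix (Fin n × X) (Fin n × X) (MonoidAlgebra ℤ H))ˣ) :
        Matrix (Fin n × X) (Fin n × X) (MonoidAlgebra ℤ H)) =
        Psi ρ n ((u ^ N : (Matrix (Fin n) (Fin n) (MonoidAlgebra ℤ H))ˣ) :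
          Matrix (Fin n) (Fin n) (MonoidAlgebra ℤ H)) := by
      rw [← map_pow]; rfl
    rw [h4] at hx
    rw [h3]
    have h5 := Psi_inter ρ σ F hF ((u ^ N : (Matrix (Fin n) (Fin n) (MonoidAlgebra ℤ H))ˣ) :
          Matrix (Fin n) (Fin n) (MonoidAlgebra ℤ H))
    rw [hx] at h5
    set W := Psi σ n ((u ^ N : (Matrix (Fin n) (Fin n) (MonoidAlgebra ℤ H))ˣ) :
          Matrix (Fin n) (Fin n) (MonoidAlgebra ℤ H)) with hW
    have h6 : (W * ten H n F) * ten H n F' =
        (ten H n F * (1 + (Z * ten H n F') * ten H n F)) * ten H n F' := by rw [h5]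
    rw [Matrix.mul_assoc, e1, Matrix.mul_assoc, Matrix.add_mul, Matrix.mul_assoc _ _ (ten H n F'),
      e1, Matrix.one_mul, Matrix.mul_smul, Matrix.mul_one, Matrix.mul_smul, Matrix.mul_one,
      Matrix.mul_add, e1, Matrix.mul_smul, ← smul_add] at h6
    -- cancel `d`
    have hinj : Function.Injective (fun M : Matrix (Fin n × Y) (Fin n × Y) (MonoidAlgebra ℤ H) =>
        d • M) := by
      intro M M' hM
      ext i j g
      have h7 := congrArg (fun M : Matrix (Fin n × Y) (Fin n × Y) (MonoidAlgebra ℤ H) =>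
        (M i j).coeff g) hM
      simp only [Matrix.smul_apply, MonoidAlgebra.coeff_smul, Finsupp.smul_apply, smul_eq_mul]
        at h7
      exact mul_left_cancel₀ hd h7
    exact hinj h6
  have h7 := hK.oneAdd (MonoidAlgebra ℤ H) (Fin n × X) (Fin n × Y) (Z * ten H n F') (ten H n F)
    _ _ hx hy
  rw [clsF_pow, clsF_pow] at h7
  exact h7

end Inter

/-! ### induction and restriction -/

section Res

variable {H : Type v} [Group H]

/-- Descent of invertible matrices along an injective ring homomorphism. -/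
lemma descend {A B : Type u} [Ring A] [Ring B] (f : B →+* A) (hf : Function.Injective f)
    {ι : Type w} [Fintype ι] [DecidableEq ι] (x : (Matrix ι ι A)ˣ)
    (h1 : ∀ i j, ∃ b, f b = (x : Matrix ι ι A) i j)
    (h2 : ∀ i j, ∃ b, f b = ((x⁻¹ : (Matrix ι ι A)ˣ) : Matrix ι ι A) i j) :
    ∃ y : (Matrix ι ι B)ˣ, Units.map f.mapMatrix.toMonoidHom y = x := by
  choose g hg using h1
  choose g' hg' using h2
  have e1 : (Matrix.of g).map f = (x : Matrix ι ι A) := by
    ext1 i j; exact hg i j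
  have e2 : (Matrix.of g').map f = ((x⁻¹ : (Matrix ι ι A)ˣ) : Matrix ι ι A) := by
    ext1 i j; exact hg' i j
  have hinj : Function.Injective (fun M : Matrix ι ι B => M.map f) := by
    intro M M' hM
    ext1 i j
    exact hf (congrFun (congrFun hM i) j)
  have m1 : Matrix.of g * Matrix.of g' = 1 := by
    apply hinj
    show (Matrix.of g * Matrix.of g').map f = (1 : Matrix ι ι B).map f
    rw [Matrix.map_mul, e1, e2, Units.mul_inv, Matrix.map_one _ (map_zero f) (map_one f)]
  have m2 : Matrix.of g' * Matrix.of g = 1 := by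
    apply hinj
    show (Matrix.of g' * Matrix.of g).map f = (1 : Matrix ι ι B).map f
    rw [Matrix.map_mul, e1, e2, Units.inv_mul, Matrix.map_one _ (map_zero f) (map_one f)]
  refine ⟨⟨Matrix.of g, Matrix.of g', m1, m2⟩, ?_⟩
  apply Units.ext
  exact e1

/-- The action on `H / C`. -/
def quoPerm (C : Subgroup H) : H →* Equiv.Perm (H ⧸ C) := MulAction.toPermHom H (H ⧸ C)

lemma quo_entry (C : Subgroup H) [Fintype (H ⧸ C)] [DecidableEq (H ⧸ C)] (a : MonoidAlgebra ℤ H)
    (z z' : H ⧸ C) : ∃ b : MonoidAlgebra ℤ C,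
      MonoidAlgebra.mapDomainRingHom ℤ C.subtype b =
        MonoidAlgebra.single (z.out)⁻¹ 1 * psi (quoPerm C) a z z' *
          MonoidAlgebra.single (z'.out) 1 := by
  induction a using MonoidAlgebra.induction_linear with
  | zero => exact ⟨0, by simp⟩
  | add x y hx hy =>
    obtain ⟨b, hb⟩ := hx
    obtain ⟨c, hc⟩ := hy
    refine ⟨b + c, ?_⟩
    simp only [map_add, Matrix.add_apply, mul_add, add_mul, hb, hc]
  | single h r =>
    rw [psi_single]
    by_cases hz : z = quoPerm C h z'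
    · rw [if_pos hz]
      have hmem : (z.out)⁻¹ * h * z'.out ∈ C := by
        have h1 : ((z.out : H) : H ⧸ C) = ((h * z'.out : H) : H ⧸ C) := by
          rw [QuotientGroup.out_eq', hz]
          show h • z' = _
          conv_lhs => rw [← QuotientGroup.out_eq' z']
          rfl
        rw [QuotientGroup.eq] at h1
        rw [mul_assoc]
        exact h1
      refine ⟨MonoidAlgebra.single ⟨_, hmem⟩ r, ?_⟩
      simp [MonoidAlgebra.single_mul_single, MonoidAlgebra.mapDomain_single]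
    · rw [if_neg hz]
      exact ⟨0, by simp⟩

/-- The diagonal matrix of coset representatives. -/
def diagRep (C : Subgroup H) [Fintype (H ⧸ C)] [DecidableEq (H ⧸ C)] (n : ℕ) :
    (Matrix (Fin n × (H ⧸ C)) (Fin n × (H ⧸ C)) (MonoidAlgebra ℤ H))ˣ :=
  ⟨Matrix.diagonal fun z => MonoidAlgebra.single (z.2.out) 1,
    Matrix.diagonal fun z => MonoidAlgebra.single (z.2.out)⁻¹ 1,
    by
      rw [Matrix.diagonal_mul_diagonal]
      simp only [MonoidAlgebra.single_mul_single, mul_inv_cancel, one_mul]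
      exact Matrix.diagonal_one,
    by
      rw [Matrix.diagonal_mul_diagonal]
      simp only [MonoidAlgebra.single_mul_single, inv_mul_cancel, one_mul]
      exact Matrix.diagonal_one⟩

lemma kap_quo (C : Subgroup H) [Fintype (H ⧸ C)] [DecidableEq (H ⧸ C)] {n : ℕ}
    (u : (Matrix (Fin n) (Fin n) (MonoidAlgebra ℤ H))ˣ) :
    ∃ y : K1 (MonoidAlgebra ℤ C),
      K1.map (MonoidAlgebra.mapDomainRingHom ℤ C.subtype) y = kap (quoPerm C) u := by
  have hinj : Function.Injective (MonoidAlgebra.mapDomainRingHom ℤ C.subtype) :=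
    MonoidAlgebra.mapDomain_injective C.subtype_injective
  have hcomp : ∀ v : (Matrix (Fin n) (Fin n) (MonoidAlgebra ℤ H))ˣ, ∀ i j,
      (((diagRep C n)⁻¹ * Units.map (Psi (quoPerm C) n).toMonoidHom v * diagRep C n :
        (Matrix (Fin n × (H ⧸ C)) (Fin n × (H ⧸ C)) (MonoidAlgebra ℤ H))ˣ) :
        Matrix (Fin n × (H ⧸ C)) (Fin n × (H ⧸ C)) (MonoidAlgebra ℤ H)) i j =
      MonoidAlgebra.single (i.2.out)⁻¹ 1 *
        psi (quoPerm C) ((v : Matrix (Fin n) (Fin n) (MonoidAlgebra ℤ H)) i.1 j.1) i.2 j.2 *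
          MonoidAlgebra.single (j.2.out) 1 := by
    intro v i j
    show ((Matrix.diagonal fun z => MonoidAlgebra.single (z.2.out)⁻¹ 1) *
      Psi (quoPerm C) n (v : Matrix (Fin n) (Fin n) (MonoidAlgebra ℤ H)) *
      (Matrix.diagonal fun z => MonoidAlgebra.single (z.2.out) 1) :
        Matrix (Fin n × (H ⧸ C)) (Fin n × (H ⧸ C)) (MonoidAlgebra ℤ H)) i j = _
    rw [Matrix.mul_diagonal, Matrix.diagonal_mul]
    rfl
  obtain ⟨y, hy⟩ := descend (MonoidAlgebra.mapDomainRingHom ℤ C.subtype) hinj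
    ((diagRep C n)⁻¹ * Units.map (Psi (quoPerm C) n).toMonoidHom u * diagRep C n)
    (by
      intro i j
      rw [hcomp]
      exact quo_entry C _ _ _)
    (by
      intro i j
      have h1 : ((diagRep C n)⁻¹ * Units.map (Psi (quoPerm C) n).toMonoidHom u *
          diagRep C n)⁻¹ =
          (diagRep C n)⁻¹ * Units.map (Psi (quoPerm C) n).toMonoidHom u⁻¹ * diagRep C n := by
        rw [map_inv]
        group
      rw [h1, hcomp]
      exact quo_entry C _ _ _)
  refine ⟨K1.clsF y, ?_⟩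
  rw [map_clsF, hy, kap]
  have h2 := clsF_conj (Units.map (Psi (quoPerm C) n).toMonoidHom u) (diagRep C n)⁻¹
  rw [inv_inv] at h2
  exact h2

end Res

/-! ### the theorem -/

section Final

variable {H : Type v} [Group H]

/-- The subgroup generated by the images of the cyclic subgroups. -/
def cycSub (H : Type v) [Group H] : AddSubgroup (K1 (MonoidAlgebra ℤ H)) :=
  AddSubgroup.closure {y | ∃ (C : Subgroup H) (_ : IsCyclic C) (z : K1 (MonoidAlgebra ℤ C)),
    K1.map (MonoidAlgebra.mapDomainRingHom ℤ C.subtype) z = y}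

lemma exists_list (y : K1 (MonoidAlgebra ℤ H)) (hy : y ∈ cycSub H) :
    ∃ l : List (Σ C : {C : Subgroup H // IsCyclic C}, K1 (MonoidAlgebra ℤ C.1)),
      y = (l.map fun p => K1.map (MonoidAlgebra.mapDomainRingHom ℤ p.1.1.subtype) p.2).sum := by
  induction hy using AddSubgroup.closure_induction with
  | mem y hy =>
    obtain ⟨C, hC, z, rfl⟩ := hy
    exact ⟨[⟨⟨C, hC⟩, z⟩], by simp⟩
  | zero => exact ⟨[], by simp⟩
  | add x y _ _ hx hy =>
    obtain ⟨l, rfl⟩ := hx
    obtain ⟨l', rfl⟩ := hy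
    exact ⟨l ++ l', by simp⟩
  | neg x _ hx =>
    obtain ⟨l, rfl⟩ := hx
    refine ⟨l.map fun p => ⟨p.1, - p.2⟩, ?_⟩
    rw [List.map_map]
    rename_i hmem
    clear hmem
    induction l with
    | nil => simp
    | cons p l ih =>
      simp only [List.map_cons, List.sum_cons, neg_add, Function.comp, map_neg]
      rw [ih]

/-- The torsion statement for classes of matrices. -/
lemma exists_mem (hK : SpecK.{v, v}) (hR : SpecR.{v}) [Finite H] {n : ℕ}
    (u : (Matrix (Fin n) (Fin n) (MonoidAlgebra ℤ H))ˣ) :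
    ∃ (m : ℕ) (_ : 0 < m), m • K1.cls u ∈ cycSub H := by
  classical
  obtain ⟨m, hm, a, b, C, C', hC, hC', X, Y, fX, fY, dX, dY, aX, aY, eX, eY, heX, heY, F, F', d,
    hd, h1, h2, hF⟩ := hR H
  let _ := fun i => Fintype.ofFinite (H ⧸ C i)
  let _ := fun i => Fintype.ofFinite (H ⧸ C' i)
  obtain ⟨N, hN, hNe⟩ := kap_inter hK (MulAction.toPermHom H X) (MulAction.toPermHom H Y) F F' d
    hd h1 h2 hF u
  have kX : kap (MulAction.toPermHom H X) u =
      m • K1.cls u + ∑ j, kap (quoPerm (C' j)) u := by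
    rw [← kap_equiv (MulAction.toPermHom H X)
      (sumPerm (1 : H →* Equiv.Perm (Fin m)) (sigmaPerm fun j => quoPerm (C' j))) eX
      (by
        intro h x
        rw [show (MulAction.toPermHom H X h) x = h • x from rfl, heX]
        rfl) u, kap_sum, kap_triv, kap_sigma]
  have kY : kap (MulAction.toPermHom H Y) u = ∑ j, kap (quoPerm (C j)) u := by
    rw [← kap_equiv (MulAction.toPermHom H Y) (sigmaPerm fun j => quoPerm (C j)) eY
      (by
        intro h x
        rw [show (MulAction.toPermHom H Y h) x = h • x from rfl, heY]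
        rfl) u, kap_sigma]
  have mem : ∀ D : Subgroup H, IsCyclic D → ∀ [Fintype (H ⧸ D)], kap (quoPerm D) u ∈ cycSub H := by
    intro D hD _
    obtain ⟨y, hy⟩ := kap_quo D u
    rw [← hy]
    exact AddSubgroup.subset_closure ⟨D, hD, y, rfl⟩
  refine ⟨N * m, Nat.mul_pos hN hm, ?_⟩
  have h3 : (N * m) • K1.cls u = N • (∑ j, kap (quoPerm (C j)) u) -
      N • ∑ j, kap (quoPerm (C' j)) u := by
    rw [← kY, ← hNe, kX, smul_add, add_sub_cancel_right, mul_smul]
  rw [h3]
  refine AddSubgroup.sub_mem _ (AddSubgroup.nsmul_mem _ ?_ _) (AddSubgroup.nsmul_mem _ ?_ _)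
  · exact AddSubgroup.sum_mem _ (fun j _ => mem _ (hC j))
  · exact AddSubgroup.sum_mem _ (fun j _ => mem _ (hC' j))

/-- The quotient map. -/
def mkHom (A : Type u) [Ring A] : FreeAbelianGroup (K1Gen A) →+ K1 A :=
  QuotientAddGroup.mk' (AddSubgroup.closure {x | K1Rel A x})

lemma mkHom_of {A : Type u} [Ring A] {n : ℕ} (x : (Matrix (Fin n) (Fin n) A)ˣ) :
    mkHom A (FreeAbelianGroup.of ⟨n, x⟩) = K1.cls x := rfl

lemma mkHom_surjective (A : Type u) [Ring A] : Function.Surjective (mkHom A) :=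
  QuotientAddGroup.mk_surjective

/-- Induction principle. -/
lemma K1_induction {A : Type u} [Ring A] {P : K1 A → Prop} (h0 : P 0)
    (hc : ∀ (n : ℕ) (x : (Matrix (Fin n) (Fin n) A)ˣ), P (K1.cls x))
    (hneg : ∀ x, P x → P (-x)) (hadd : ∀ x y, P x → P y → P (x + y)) (x : K1 A) : P x := by
  obtain ⟨x, rfl⟩ := mkHom_surjective A x
  induction x using FreeAbelianGroup.induction_on with
  | zero => rw [map_zero]; exact h0
  | of g => exact hc g.1 g.2
  | neg g h => rw [map_neg]; exact hneg _ h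
  | add x y hx hy => rw [map_add]; exact hadd _ _ hx hy

/-- The torsion statement. -/
lemma exists_mem' (hK : SpecK.{v, v}) (hR : SpecR.{v}) [Finite H]
    (x : K1 (MonoidAlgebra ℤ H)) : ∃ (m : ℕ) (_ : 0 < m), m • x ∈ cycSub H := by
  induction x using K1_induction with
  | h0 => exact ⟨1, one_pos, by rw [smul_zero]; exact AddSubgroup.zero_mem _⟩
  | hc n x => exact exists_mem hK hR x
  | hneg x h =>
    obtain ⟨m, hm, h⟩ := h
    exact ⟨m, hm, by rw [smul_neg]; exact AddSubgroup.neg_mem _ h⟩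
  | hadd x y hx hy =>
    obtain ⟨m, hm, hx⟩ := hx
    obtain ⟨m', hm', hy⟩ := hy
    refine ⟨m * m', Nat.mul_pos hm hm', ?_⟩
    rw [smul_add]
    refine AddSubgroup.add_mem _ ?_ ?_
    · rw [mul_comm, mul_smul]
      exact AddSubgroup.nsmul_mem _ hx _
    · rw [mul_smul]
      exact AddSubgroup.nsmul_mem _ hy _

end Final

end SZMod

universe v

/-- Module S. -/
theorem specS_of (hK : SpecK.{v, v}) (hR : SpecR.{v}) : SpecS.{v} := by
  intro H _ _ x
  obtain ⟨m, hm, hx⟩ := SZMod.exists_mem' hK hR x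
  obtain ⟨l, hl⟩ := SZMod.exists_list _ hx
  refine ⟨m, hm, l.length, fun i => (l.get i).1.1, fun i => (l.get i).1.2,
    fun i => (l.get i).2, ?_⟩
  rw [hl, ← List.sum_ofFn]
  congr 1
  rw [List.ext_get_iff]
  simp

theorem specS : SpecS.{v} := specS_of specK specR

end Pool.Agent.Lib.MPb6f35e.WH
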