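import Pool.Agent.Lib.MP_b6f35e_al.WH.Defs

/-!
# Specification of the modules of WH (hive 30, MP_b6f35e_al)

Plan: /team-store/MP_b6f35e_al_WH_PLAN_h88.md
-/

set_option autoImplicit false

noncomputable section

namespace Pool.Agent.Lib.MPb6f35e.WH

universe u v w

/-! ### module K: more about `K_1` -/

/-- The class in `K_1(A)` of an invertible matrix indexed by any finite type. -/
def K1.clsF {A : Type u} [Ring A] {ι : Type v} [Fintype ι] [DecidableEq ι]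
    (x : (Matrix ι ι A)ˣ) : K1 A :=
  K1.cls (Units.map (Matrix.reindexRingEquiv A (Fintype.equivFin ι)).toMonoidHom x)

/-- K: (a) reindexing does not change the class; (b) `[u v] = [u] + [v]`; (c) block triangular
matrices; (d) naturality; (e) `[1 + a b] = [1 + b a]`. -/
structure SpecK : Prop where
  reindex : ∀ (A : Type u) [Ring A] (ι κ : Type w) [Fintype ι] [DecidableEq ι] [Fintype κ]
    [DecidableEq κ] (e : ι ≃ κ) (x : (Matrix ι ι A)ˣ),
    K1.clsF (Units.map (Matrix.reindexRingEquiv A e).toMonoidHom x) = K1.clsF x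
  cls : ∀ (A : Type u) [Ring A] (n : ℕ) (x : (Matrix (Fin n) (Fin n) A)ˣ), K1.clsF x = K1.cls x
  mul : ∀ (A : Type u) [Ring A] (ι : Type w) [Fintype ι] [DecidableEq ι] (x y : (Matrix ι ι A)ˣ),
    K1.clsF (x * y) = K1.clsF x + K1.clsF y
  block : ∀ (A : Type u) [Ring A] (ι κ : Type w) [Fintype ι] [DecidableEq ι] [Fintype κ]
    [DecidableEq κ] (x : (Matrix ι ι A)ˣ) (y : (Matrix κ κ A)ˣ) (b : Matrix ι κ A)
    (z : (Matrix (ι ⊕ κ) (ι ⊕ κ) A)ˣ)
    (_ : (z : Matrix (ι ⊕ κ) (ι ⊕ κ) A) = Matrix.fromBlocks (x : Matrix ι ι A) b 0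
      (y : Matrix κ κ A)), K1.clsF z = K1.clsF x + K1.clsF y
  blockL : ∀ (A : Type u) [Ring A] (ι κ : Type w) [Fintype ι] [DecidableEq ι] [Fintype κ]
    [DecidableEq κ] (x : (Matrix ι ι A)ˣ) (y : (Matrix κ κ A)ˣ) (b : Matrix κ ι A)
    (z : (Matrix (ι ⊕ κ) (ι ⊕ κ) A)ˣ)
    (_ : (z : Matrix (ι ⊕ κ) (ι ⊕ κ) A) = Matrix.fromBlocks (x : Matrix ι ι A) 0 b
      (y : Matrix κ κ A)), K1.clsF z = K1.clsF x + K1.clsF y
  map : ∀ (A B : Type u) [Ring A] [Ring B] (f : A →+* B) (ι : Type w) [Fintype ι] [DecidableEq ι]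
    (x : (Matrix ι ι A)ˣ), K1.map f (K1.clsF x) = K1.clsF (Units.map f.mapMatrix.toMonoidHom x)
  oneAdd : ∀ (A : Type u) [Ring A] (ι κ : Type w) [Fintype ι] [DecidableEq ι] [Fintype κ]
    [DecidableEq κ] (a : Matrix ι κ A) (b : Matrix κ ι A) (x : (Matrix ι ι A)ˣ)
    (y : (Matrix κ κ A)ˣ) (_ : (x : Matrix ι ι A) = 1 + a * b) (_ : (y : Matrix κ κ A) = 1 + b * a),
    K1.clsF x = K1.clsF y

/-! ### module A: the rotation number -/

/-- `sum_{j < N} rho^j y` -/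
def nm {R : Type v} [Ring R] (ρ : R →+* R) (N : ℕ) (y : R) : R :=
  ∑ j ∈ Finset.range N, ρ^[j] y

/-- `y'' = sum_{j < N} j rho^j y` -/
def pp {R : Type v} [Ring R] (ρ : R →+* R) (N : ℕ) (y : R) : R :=
  ∑ j ∈ Finset.range N, j • ρ^[j] y

/-- `λ = τ(y r⁻¹ (1 - y''))` -/
def lam {R : Type v} [Ring R] {H : Type w} [AddCommGroup H] (ρ : R →+* R) (N : ℕ) (τ : R →+ H)
    (r : Rˣ) (y : R) : H :=
  τ (y * ((r⁻¹ : Rˣ) : R) * (1 - pp ρ N y))

/-- A: independence of `y`, multiplicativity, conjugation invariance. -/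
structure SpecA : Prop where
  indep : ∀ (R : Type v) [Ring R] (H : Type w) [AddCommGroup H] (ρ : R →+* R) (N : ℕ) (_ : 0 < N)
    (_ : ∀ x, ρ^[N] x = x) (_ : ∀ h : H, N • h = 0) (τ : R →+ H)
    (_ : ∀ a b, τ (a * b) = τ (ρ b * a)) (_ : ∀ y, nm ρ N y = 0 → ∃ s, y = s - ρ s)
    (r : Rˣ) (y y' : R) (_ : nm ρ N y = r - 1) (_ : nm ρ N y' = r - 1),
    lam ρ N τ r y = lam ρ N τ r y'
  mul : ∀ (R : Type v) [Ring R] (H : Type w) [AddCommGroup H] (ρ : R →+* R) (N : ℕ) (_ : 0 < N)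
    (_ : ∀ x, ρ^[N] x = x) (_ : ∀ h : H, N • h = 0) (τ : R →+ H)
    (_ : ∀ a b, τ (a * b) = τ (ρ b * a))
    (r s : Rˣ) (y x : R) (_ : nm ρ N y = r - 1) (_ : nm ρ N x = s - 1),
    nm ρ N (x + y * s) = ((r * s : Rˣ) : R) - 1 ∧
      lam ρ N τ (r * s) (x + y * s) = lam ρ N τ r y + lam ρ N τ s x
  conj : ∀ (R : Type v) [Ring R] (H : Type w) [AddCommGroup H] (ρ : R →+* R) (N : ℕ) (_ : 0 < N)
    (_ : ∀ x, ρ^[N] x = x) (_ : ∀ h : H, N • h = 0) (τ : R →+ H)
    (_ : ∀ a b, τ (a * b) = τ (ρ b * a))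
    (r t : Rˣ) (y : R) (_ : nm ρ N y = r - 1) (_ : ρ (t : R) = t),
    nm ρ N (t * y * ((t⁻¹ : Rˣ) : R)) = ((t * r * t⁻¹ : Rˣ) : R) - 1 ∧
      lam ρ N τ (t * r * t⁻¹) (t * y * ((t⁻¹ : Rˣ) : R)) = lam ρ N τ r y

/-! ### module T: the tensor power ring -/

/-- The index shift `j ↦ j + 1`, precomposed: `(I ∘ s)(j) = I (j + 1)`. -/
def sh {N : ℕ} {X : Type w} (I : ZMod N → X) : ZMod N → X := fun j => I (j + 1)

/-- The group homomorphism `γ ↦ (j ↦ γ (j - 1))` of `G^N`. -/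
def rotG (N : ℕ) (G : Type v) [Group G] : (ZMod N → G) →* (ZMod N → G) where
  toFun γ := fun j => γ (j - 1)
  map_one' := rfl
  map_mul' _ _ := rfl

/-- `R = Mat_{ι^N}(k[G^N])` -/
abbrev TR (k : Type u) [CommRing k] (G : Type v) [Group G] (ι : Type) (N : ℕ) : Type (max u v) :=
  Matrix (ZMod N → ι) (ZMod N → ι) (MonoidAlgebra k (ZMod N → G))

/-- The rotation of `R`: `(rot b)(I, J, γ) = b(I ∘ s, J ∘ s, γ ∘ s)`. -/
def rot (k : Type u) [CommRing k] (G : Type v) [Group G] (ι : Type) [Fintype ι] [DecidableEq ι]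
    (N : ℕ) [NeZero N] : TR k G ι N →+* TR k G ι N :=
  ((Matrix.reindexRingEquiv (MonoidAlgebra k (ZMod N → G))
      (Equiv.arrowCongr (Equiv.addRight (1 : ZMod N)) (Equiv.refl ι))).toRingHom).comp
    (MonoidAlgebra.mapDomainRingHom k (rotG N G)).mapMatrix

/-- The tensor power `u ↦ u ⊗ ... ⊗ u`. -/
def tens (k : Type u) [CommRing k] (G : Type v) [Group G] (ι : Type) (N : ℕ) [NeZero N]
    (x : Matrix ι ι (MonoidAlgebra k G)) : TR k G ι N :=
  Matrix.of fun I J => MonoidAlgebra.ofCoeff (Finsupp.onFinset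
    (Fintype.piFinset fun j => (x (I j) (J j)).coeff.support)
    (fun γ => ∏ j, (x (I j) (J j)).coeff (γ j))
    (by
      intro γ hγ
      rw [Fintype.mem_piFinset]
      intro j
      rw [Finsupp.mem_support_iff]
      intro h0
      exact hγ (Finset.prod_eq_zero (Finset.mem_univ j) h0)))

/-- The projection `ℤ/p^(e+1) → ℤ/p^e`. -/
def prj (p e : ℕ) : ZMod (p ^ (e + 1)) → ZMod (p ^ e) :=
  ZMod.castHom (pow_dvd_pow p (Nat.le_succ e)) (ZMod (p ^ e))

/-- The group homomorphism `G^(N/p) → G^N`, repetition. -/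
def repG (p e : ℕ) (G : Type v) [Group G] : (ZMod (p ^ e) → G) →* (ZMod (p ^ (e + 1)) → G) where
  toFun γ := fun j => γ (prj p e j)
  map_one' := rfl
  map_mul' _ _ := rfl

/-- The matrix `W(I', I) = [I = I' ∘ π]`. -/
def wMat (k : Type u) [CommRing k] (G : Type v) [Group G] (ι : Type) [DecidableEq ι]
    (p e : ℕ) [NeZero (p ^ (e + 1))] :
    Matrix (ZMod (p ^ e) → ι) (ZMod (p ^ (e + 1)) → ι)
      (MonoidAlgebra k (ZMod (p ^ (e + 1)) → G)) :=
  Matrix.of fun I' I => if I = fun j => I' (prj p e j) then 1 else 0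

/-- Repetition of words, `Δ(a) = Wᵗ φ(a) W`. -/
def dlt (k : Type u) [CommRing k] (G : Type v) [Group G] (ι : Type) [Fintype ι] [DecidableEq ι]
    (p e : ℕ) [NeZero (p ^ e)] [NeZero (p ^ (e + 1))] (a : TR k G ι (p ^ e)) :
    TR k G ι (p ^ (e + 1)) :=
  (wMat k G ι p e).transpose * a.map (MonoidAlgebra.mapDomainRingHom k (repG p e G)) *
    wMat k G ι p e

/-- `D^(u) = Δ(T(u)) + (1 - Δ(1))` -/
def dhat (k : Type u) [CommRing k] (G : Type v) [Group G] (ι : Type) [Fintype ι] [DecidableEq ι]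
    (p e : ℕ) [NeZero (p ^ e)] [NeZero (p ^ (e + 1))] (x : Matrix ι ι (MonoidAlgebra k G)) :
    TR k G ι (p ^ (e + 1)) :=
  dlt k G ι p e (tens k G ι (p ^ e) x) + (1 - dlt k G ι p e 1)

/-- The conjugacy class of the product `γ_0 γ_1 ... γ_{N-1}`. -/
def cyc {G : Type v} [Group G] {N : ℕ} (γ : ZMod N → G) : ConjClasses G :=
  ConjClasses.mk (((List.range N).map fun j : ℕ => γ (j : ZMod N)).prod)

/-- The target: finitely supported functions on conjugacy classes with values in `k/N`. -/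
abbrev HN (k : Type u) [CommRing k] (G : Type v) [Group G] (N : ℕ) : Type (max u v) :=
  ConjClasses G →₀ (k ⧸ Ideal.span {(N : k)})

/-- `Σ c_γ γ ↦ Σ c_γ [γ_0 ... γ_{N-1}]`. -/
def cycHom (k : Type u) [CommRing k] (G : Type v) [Group G] (N : ℕ) :
    MonoidAlgebra k (ZMod N → G) →+ HN k G N :=
  (Finsupp.liftAddHom (fun γ : ZMod N → G =>
    (Finsupp.singleAddHom (cyc γ)).comp (Ideal.Quotient.mk (Ideal.span {(N : k)})).toAddMonoidHom)).comp
    MonoidAlgebra.coeffAddEquiv.toAddMonoidHom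

/-- The twisted trace `τ(a) = Σ_I Σ_γ a(I, I ∘ s, γ) [γ_0 ... γ_{N-1}]`. -/
def tau (k : Type u) [CommRing k] (G : Type v) [Group G] (ι : Type) [Fintype ι] [DecidableEq ι]
    (N : ℕ) [NeZero N] : TR k G ι N →+ HN k G N where
  toFun a := ∑ I : ZMod N → ι, cycHom k G N (a I (sh I))
  map_zero' := by simp
  map_add' a b := by simp [Finset.sum_add_distrib]

/-- T: identities of the tensor power ring. -/
structure SpecT : Prop where
  rotN : ∀ (k : Type u) [CommRing k] (G : Type v) [Group G] (ι : Type) [Fintype ι] [DecidableEq ι]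
    (N : ℕ) [NeZero N] (a : TR k G ι N), (rot k G ι N)^[N] a = a
  tensMul : ∀ (k : Type u) [CommRing k] (G : Type v) [Group G] (ι : Type) [Fintype ι]
    [DecidableEq ι] (N : ℕ) [NeZero N] (x y : Matrix ι ι (MonoidAlgebra k G)),
    tens k G ι N (x * y) = tens k G ι N x * tens k G ι N y
  tensOne : ∀ (k : Type u) [CommRing k] (G : Type v) [Group G] (ι : Type) [Fintype ι]
    [DecidableEq ι] (N : ℕ) [NeZero N], tens k G ι N (1 : Matrix ι ι (MonoidAlgebra k G)) = 1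
  rotTens : ∀ (k : Type u) [CommRing k] (G : Type v) [Group G] (ι : Type) [Fintype ι]
    [DecidableEq ι] (N : ℕ) [NeZero N] (x : Matrix ι ι (MonoidAlgebra k G)),
    rot k G ι N (tens k G ι N x) = tens k G ι N x
  dhatMul : ∀ (k : Type u) [CommRing k] (G : Type v) [Group G] (ι : Type) [Fintype ι]
    [DecidableEq ι] (p e : ℕ) [NeZero (p ^ e)] [NeZero (p ^ (e + 1))]
    (x y : Matrix ι ι (MonoidAlgebra k G)),
    dhat k G ι p e (x * y) = dhat k G ι p e x * dhat k G ι p e y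
  dhatOne : ∀ (k : Type u) [CommRing k] (G : Type v) [Group G] (ι : Type) [Fintype ι]
    [DecidableEq ι] (p e : ℕ) [NeZero (p ^ e)] [NeZero (p ^ (e + 1))],
    dhat k G ι p e (1 : Matrix ι ι (MonoidAlgebra k G)) = 1
  rotDhat : ∀ (k : Type u) [CommRing k] (G : Type v) [Group G] (ι : Type) [Fintype ι]
    [DecidableEq ι] (p e : ℕ) [NeZero (p ^ e)] [NeZero (p ^ (e + 1))]
    (x : Matrix ι ι (MonoidAlgebra k G)),
    rot k G ι (p ^ (e + 1)) (dhat k G ι p e x) = dhat k G ι p e x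
  tauRot : ∀ (k : Type u) [CommRing k] (G : Type v) [Group G] (ι : Type) [Fintype ι]
    [DecidableEq ι] (N : ℕ) [NeZero N] (a b : TR k G ι N),
    tau k G ι N (a * b) = tau k G ι N (rot k G ι N b * a)

/-! ### module N: norms -/

/-- N: `ker Nm = (1 - rot) R`, and `T(u) - D^(u)` is a norm. -/
structure SpecN : Prop where
  ker : ∀ (k : Type u) [CommRing k] (G : Type v) [Group G] (ι : Type) [Fintype ι] [DecidableEq ι]
    (p e : ℕ) [Fact p.Prime] [NeZero (p ^ e)] (_ : ∀ c : k, (p : k) * c = 0 → c = 0)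
    (y : TR k G ι (p ^ e)) (_ : nm (rot k G ι (p ^ e)) (p ^ e) y = 0),
    ∃ s, y = s - rot k G ι (p ^ e) s
  norm : ∀ (k : Type u) [CommRing k] (G : Type v) [Group G] (ι : Type) [Fintype ι] [DecidableEq ι]
    (p e : ℕ) [Fact p.Prime] [NeZero (p ^ e)] [NeZero (p ^ (e + 1))]
    (_ : ∀ c : k, (p : k) ∣ c ^ p - c) (x : Matrix ι ι (MonoidAlgebra k G)),
    ∃ z, nm (rot k G ι (p ^ (e + 1))) (p ^ (e + 1)) z =
      tens k G ι (p ^ (e + 1)) x - dhat k G ι p e x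

/-! ### module G: the integral logarithm -/

/-- Push forward along a group homomorphism, then to conjugacy classes, modulo `N`. -/
def push (k : Type u) [CommRing k] {C : Type v} {G : Type w} [Group C] [Group G] (φ : C →* G)
    (N : ℕ) (b : MonoidAlgebra k C) : HN k G N :=
  b.coeff.sum fun c x => Finsupp.single (ConjClasses.mk (φ c)) (Ideal.Quotient.mk _ x)

/-- The power map `Σ b_c c ↦ Σ b_c c^n` on the group ring of a commutative group. -/
def powC (k : Type u) [CommRing k] (C : Type v) [CommGroup C] (n : ℕ) :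
    MonoidAlgebra k C →+* MonoidAlgebra k C :=
  MonoidAlgebra.mapDomainRingHom k (powMonoidHom n)

/-- G: the homomorphism `Γ : K_1(k[G]) → H_N`, `N = p^(e+1)`. -/
def SpecG : Prop :=
  ∀ (k : Type u) [CommRing k] (G : Type v) [Group G] (p e : ℕ) (_ : p.Prime) (_ : p ≠ 2)
    (_ : ∀ c : k, (p : k) * c = 0 → c = 0) (_ : ∀ c : k, (p : k) ∣ c ^ p - c),
    ∃ Γ : K1 (MonoidAlgebra k G) →+ HN k G (p ^ (e + 1)),
      (∀ g : G, Γ (K1.unit (gUnit k g)) = 0 ∧ Γ (K1.unit (-gUnit k g)) = 0) ∧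
      ∀ (C : Type v) [CommGroup C] (φ : C →* G) (x : (MonoidAlgebra k C)ˣ) (b : MonoidAlgebra k C),
        ((x : MonoidAlgebra k C) ^ (p ^ (e + 1)) =
          (powC k C p x) ^ (p ^ e) * (1 + (p ^ (e + 1)) • b)) →
        Γ (K1.unit (Units.map (MonoidAlgebra.mapDomainRingHom k φ).toMonoidHom x)) =
          push k φ (p ^ (e + 1)) b

/-! ### module L: the logarithm of units congruent to one modulo p -/

/-- `x = 1 mod p` -/
def OneMod (p : ℕ) {C : Type v} [CommGroup C] (x : MonoidAlgebra ℤ C) : Prop :=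
  ∃ a : MonoidAlgebra ℤ C, x = 1 + p • a

/-- The sequence `(x^(p^j) - 1)/p^j`, coefficient at `c`. -/
def lgSeq (p : ℕ) [Fact p.Prime] {C : Type v} [CommGroup C] (x : MonoidAlgebra ℤ C) (c : C)
    (j : ℕ) : ℚ_[p] :=
  (((x ^ (p ^ j) - 1 : MonoidAlgebra ℤ C).coeff c : ℤ) : ℚ_[p]) / (p : ℚ_[p]) ^ j

open Classical in
/-- The logarithm of a unit `x = 1 mod p` of `ℤ[C]`, coefficient at `c`:
`lim (x^(p^j) - 1)/p^j`. -/
def lg (p : ℕ) [Fact p.Prime] {C : Type v} [CommGroup C] (x : MonoidAlgebra ℤ C) (c : C) : ℚ_[p] :=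
  if h : ∃ l, Filter.Tendsto (lgSeq p x c) Filter.atTop (nhds l) then h.choose else 0

/-- Push forward of a function on a finite group `C` along `C → G → conjugacy classes`. -/
def pushQ (p : ℕ) [Fact p.Prime] {C : Type v} {G : Type w} [Group C] [Fintype C] [Group G]
    (φ : C →* G) (f : C → ℚ_[p]) : ConjClasses G →₀ ℚ_[p] :=
  ∑ c : C, Finsupp.single (ConjClasses.mk (φ c)) (f c)

/-- L: properties of the logarithm (`p` odd) -/
structure SpecL : Prop where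
  tends : ∀ (p : ℕ) [Fact p.Prime] (_ : p ≠ 2) (C : Type v) [CommGroup C] (x : MonoidAlgebra ℤ C)
    (_ : OneMod p x) (c : C), Filter.Tendsto (lgSeq p x c) Filter.atTop (nhds (lg p x c))
  mul : ∀ (p : ℕ) [Fact p.Prime] (_ : p ≠ 2) (C : Type v) [CommGroup C] (x y : MonoidAlgebra ℤ C)
    (_ : OneMod p x) (_ : OneMod p y) (c : C), lg p (x * y) c = lg p x c + lg p y c
  inj : ∀ (p : ℕ) [Fact p.Prime] (_ : p ≠ 2) (C : Type v) [CommGroup C] (x : MonoidAlgebra ℤ C)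
    (_ : OneMod p x) (_ : ∀ c, lg p x c = 0), x = 1
  map : ∀ (p : ℕ) [Fact p.Prime] (_ : p ≠ 2) (C C' : Type v) [CommGroup C] [CommGroup C']
    (φ : C →* C') (_ : Function.Injective φ) (x : MonoidAlgebra ℤ C) (_ : OneMod p x),
    (∀ c, lg p (MonoidAlgebra.mapDomainRingHom ℤ φ x) (φ c) = lg p x c) ∧
    ∀ c' ∉ Set.range φ, lg p (MonoidAlgebra.mapDomainRingHom ℤ φ x) c' = 0

/-- L2: restriction to a subgroup: the norm. -/
def SpecL2 : Prop :=
  ∀ (p : ℕ) [Fact p.Prime] (_ : p ≠ 2) (C : Type v) [CommGroup C] [Finite C] (D : Subgroup C)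
    (x : (MonoidAlgebra ℤ C)ˣ) (_ : OneMod p (x : MonoidAlgebra ℤ C)),
    ∃ y : (MonoidAlgebra ℤ D)ˣ, OneMod p (y : MonoidAlgebra ℤ D) ∧
      ∀ d : D, lg p (y : MonoidAlgebra ℤ D) d = (D.index : ℚ_[p]) * lg p (x : MonoidAlgebra ℤ C) d

/-- L3 (uses `SpecG` for `k = ℤ`): if the product of the units `x_i` of `ℤ[C_i]` has finite order in
`Wh(G)`, then the sum of the logarithms is zero on the conjugacy classes of `G`. -/
def SpecL3 : Prop :=
  ∀ (p : ℕ) [Fact p.Prime] (_ : p ≠ 2) (G : Type v) [Group G] (m : ℕ) (C : Fin m → Type v)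
    [∀ i, CommGroup (C i)] [∀ i, Fintype (C i)] (φ : ∀ i, C i →* G)
    (x : ∀ i, (MonoidAlgebra ℤ (C i))ˣ) (_ : ∀ i, OneMod p (x i : MonoidAlgebra ℤ (C i)))
    (_ : IsOfFinAddOrder (QuotientAddGroup.mk' (trivialUnits ℤ G)
      (∑ i, K1.unit (Units.map (MonoidAlgebra.mapDomainRingHom ℤ (φ i)).toMonoidHom (x i))) : Wh ℤ G)),
    ∑ i, pushQ p (φ i) (lg p (x i : MonoidAlgebra ℤ (C i))) = 0

/-! ### module R, S, E: reduction to units of group rings of cyclic groups -/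

/-- R: Artin's theorem with an integral intertwiner.  `H` a finite group: there are finite families
`C_i`, `C'_j` of cyclic subgroups, `m ≥ 1`, and a bijection `σ` of
`Fin m ⊕ (Σ j, H/C'_j)` with `Σ i, H/C_i` (so that matrices indexed by both are square) and an
integral matrix `F` with `det F ≠ 0` that intertwines the permutation actions. -/
def SpecR : Prop :=
  ∀ (H : Type v) [Group H] [Finite H], ∃ (m : ℕ) (_ : 0 < m) (a b : ℕ) (C : Fin a → Subgroup H)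
    (C' : Fin b → Subgroup H) (_ : ∀ i, IsCyclic (C i)) (_ : ∀ j, IsCyclic (C' j))
    (X Y : Type v) (_ : Fintype X) (_ : Fintype Y) (_ : DecidableEq X) (_ : DecidableEq Y)
    (_ : MulAction H X) (_ : MulAction H Y)
    (eX : X ≃ (Fin m ⊕ Σ j, H ⧸ C' j)) (eY : Y ≃ Σ i, H ⧸ C i)
    (_ : ∀ (h : H) (x : X), eX (h • x) = Sum.map id (fun z => ⟨z.1, h • z.2⟩) (eX x))
    (_ : ∀ (h : H) (y : Y), eY (h • y) = ⟨(eY y).1, h • (eY y).2⟩)
    (F : Matrix Y X ℤ) (F' : Matrix X Y ℤ) (d : ℤ), d ≠ 0 ∧ F * F' = d • 1 ∧ F' * F = d • 1 ∧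
      ∀ (h : H) (y : Y) (x : X), F (h • y) (h • x) = F y x

/-- S: `K_1(ℤ[H])` is generated up to torsion by the images of `K_1(ℤ[C])`, `C` cyclic. -/
def SpecS : Prop :=
  ∀ (H : Type v) [Group H] [Finite H] (x : K1 (MonoidAlgebra ℤ H)),
    ∃ (m : ℕ) (_ : 0 < m) (a : ℕ) (C : Fin a → Subgroup H) (_ : ∀ i, IsCyclic (C i))
      (y : ∀ i, K1 (MonoidAlgebra ℤ (C i))),
      m • x = ∑ i, K1.map (MonoidAlgebra.mapDomainRingHom ℤ (C i).subtype) (y i)

/-- E: for a finite commutative group `C`, `K_1(ℤ[C])` is `ℤ[C]ˣ` up to torsion. -/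
def SpecE : Prop :=
  ∀ (C : Type v) [CommGroup C] [Finite C] (x : K1 (MonoidAlgebra ℤ C)),
    ∃ (m : ℕ) (_ : 0 < m) (y : (MonoidAlgebra ℤ C)ˣ), m • x = K1.unit y

/-! ### module F: the theorem -/

/-- The theorem. -/
def SpecF : Prop :=
  ∀ (G : Type v) [Group G] (x : ColimK1 ℤ G), IsOfFinAddOrder (toWh ℤ G x) → IsOfFinAddOrder x

end Pool.Agent.Lib.MPb6f35e.WH
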